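import Pool.Agent.P.MP_a374b6_co.H.Mb

/-! The calculus of prenodes, groups and gains. -/

namespace Pool.Agent.P.MP_a374b6_co.H

open Finset

variable {W ι α : Type} [DecidableEq W] [DecidableEq ι] [Fintype α] [DecidableEq α]
  {r : W → W → Prop} {nb : W → Finset α} {C : ι → Finset W} {R : Finset ι} {μ : α → ℝ}
  {ρ : ℝ} {j : ℕ}

theorem Nr.symm (hs : ∀ x y, r x y → r y x) {S T : Finset W} (h : Nr r nb μ ρ S T) :
    Nr r nb μ ρ T S := by
  rcases h with h | h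
  · exact Or.inl (h.symm hs)
  · right
    rwa [inter_comm]

theorem Nr.mono (hp : Prob μ) {S T S' T' : Finset W} {ρ' : ℝ} (h : Nr r nb μ ρ S T)
    (h1 : S ⊆ S') (h2 : T ⊆ T') (h3 : ρ' ≤ ρ) : Nr r nb μ ρ' S' T' := by
  rcases h with h | h
  · exact Or.inl (h.mono h1 h2)
  · right
    exact h3.trans (h.trans (ms_mono hp.1 (inter_subset_inter (cov_mono h1) (cov_mono h2))))

theorem pb_nr_le {S T : Finset W} {ρ' : ℝ} (h : Nr r nb μ ρ S T) (h1 : ρ' ≤ ρ) :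
    Nr r nb μ ρ' S T := h.imp id h1.trans

theorem pb_nr_change {S T : Finset W} {ν : α → ℝ} {B : ℝ} (h : Nr r nb ν ρ S T) (hB : 0 < B)
    (hν : ∀ a, ν a ≤ B * μ a) : Nr r nb μ (ρ / B) S T := by
  refine h.imp id fun h1 => ?_
  rw [div_le_iff₀' hB]
  exact h1.trans (ms_le_mul hν _)

theorem Cn.pre {N : Finset W} (h : Cn r N) (hj : 1 ≤ j) : Pre r nb μ ρ j N := by
  refine ⟨h.1, ⟨{N}, by simpa using hj, by simpa using h, un_singleton N⟩, ?_⟩
  intro U hU hne hN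
  exact Or.inl (h.2 U hU hne hN)

theorem Pre.mono {N : Finset W} {ρ' : ℝ} {j' : ℕ} (h : Pre r nb μ ρ j N) (h1 : ρ' ≤ ρ)
    (h2 : j ≤ j') : Pre r nb μ ρ' j' N := by
  obtain ⟨P, hP, hP1, hP2⟩ := h.pcs
  refine ⟨h.ne, ⟨P, hP.trans h2, hP1, hP2⟩, fun U hU hne hN => ?_⟩
  exact pb_nr_le (h.lnk U hU hne hN) h1

theorem Pre.change {N : Finset W} {ν : α → ℝ} {B : ℝ} (h : Pre r nb ν ρ j N) (hB : 0 < B)
    (hν : ∀ a, ν a ≤ B * μ a) : Pre r nb μ (ρ / B) j N := by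
  exact ⟨h.ne, h.pcs, fun U hU hne hN => pb_nr_change (h.lnk U hU hne hN) hB hν⟩

/-- Two prenodes which meet or are near form a prenode. -/
theorem Pre.union (hs : ∀ x y, r x y → r y x) (hp : Prob μ) {N N' : Finset W} {j' : ℕ}
    (h : Pre r nb μ ρ j N) (h' : Pre r nb μ ρ j' N')
    (hn : (∃ x ∈ N, x ∈ N') ∨ Nr r nb μ ρ N N') : Pre r nb μ ρ (j + j') (N ∪ N') := by
  obtain ⟨P, hP, hP1, hP2⟩ := h.pcs
  obtain ⟨P', hP', hP1', hP2'⟩ := h'.pcs
  refine ⟨h.ne.mono subset_union_left, ⟨P ∪ P', (card_union_le _ _).trans (add_le_add hP hP'),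
    ?_, by rw [un_union, hP2, hP2']⟩, ?_⟩
  · intro K hK
    rcases mem_union.1 hK with hK | hK
    · exact hP1 K hK
    · exact hP1' K hK
  intro U hU hne hN
  have key : ∀ {M : Finset W} {k : ℕ}, Pre r nb μ ρ k M → M ⊆ N ∪ N' →
      Nr r nb μ ρ U ((N ∪ N') \ U) ∨ M ⊆ U ∨ M ⊆ (N ∪ N') \ U := by
    intro M k hM hs'
    by_cases h1 : (U ∩ M).Nonempty
    · by_cases h2 : U ∩ M = M
      · exact Or.inr (Or.inl (inter_eq_right.1 h2))
      · left
        refine (hM.lnk _ inter_subset_right h1 h2).mono hp inter_subset_left ?_ le_rfl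
        intro x hx
        rw [mem_sdiff, mem_inter] at hx
        exact mem_sdiff.2 ⟨hs' hx.1, fun hxU => hx.2 ⟨hxU, hx.1⟩⟩
    · right; right
      intro x hx
      exact mem_sdiff.2 ⟨hs' hx, fun hxU => h1 ⟨x, mem_inter.2 ⟨hxU, hx⟩⟩⟩
  rcases key h subset_union_left with h1 | h1 | h1
  · exact h1
  · rcases key h' subset_union_right with h2 | h2 | h2
    · exact h2
    · exact absurd (Subset.antisymm hU (union_subset h1 h2)) hN
    · rcases hn with ⟨x, hx, hx'⟩ | hn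
      · exact absurd (h1 hx) (mem_sdiff.1 (h2 hx')).2
      · exact hn.mono hp h1 h2 le_rfl
  · rcases key h' subset_union_right with h2 | h2 | h2
    · exact h2
    · rcases hn with ⟨x, hx, hx'⟩ | hn
      · exact absurd (h2 hx') (mem_sdiff.1 (h1 hx)).2
      · exact (hn.symm hs).mono hp h2 h1 le_rfl
    · obtain ⟨x, hx⟩ := hne
      exact absurd hx (mem_sdiff.1 (union_subset h1 h2 (hU hx))).2

/-- The union of a good group of disjoint connected sets is a prenode. -/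
theorem Good.pre {κ : Type} [DecidableEq κ] (hs : ∀ x y, r x y → r y x) (hp : Prob μ)
    {Y : κ → Finset W} {g : Finset κ} (h : Good μ ρ j (fun i => cov nb (Y i)) g)
    (hY : ∀ i ∈ g, Cn r (Y i)) (hd : ∀ i ∈ g, ∀ i' ∈ g, i ≠ i' → Disjoint (Y i) (Y i')) :
    Pre r nb μ ρ j (g.biUnion Y) ∧ 1 / 2 + ρ ≤ fv nb μ (g.biUnion Y) := by
  classical
  have hc : ∀ g' : Finset κ, cov nb (g'.biUnion Y) = g'.biUnion fun i => cov nb (Y i) := by
    intro g'
    ext a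
    simp only [mem_cov, mem_biUnion]
    constructor
    · rintro ⟨x, ⟨i, hi, hx⟩, ha⟩
      exact ⟨i, hi, x, hx, ha⟩
    · rintro ⟨i, hi, x, hx, ha⟩
      exact ⟨x, ⟨i, hi, hx⟩, ha⟩
  refine ⟨⟨?_, ⟨g.image Y, card_image_le.trans h.card, ?_, ?_⟩, ?_⟩, ?_⟩
  · obtain ⟨i, hi⟩ := h.ne
    exact (hY i hi).1.mono (subset_biUnion_of_mem Y hi)
  · intro K hK
    obtain ⟨i, hi, rfl⟩ := mem_image.1 hK
    exact hY i hi
  · ext x
    simp only [mem_un, mem_image, mem_biUnion]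
    constructor
    · rintro ⟨K, ⟨i, hi, rfl⟩, hx⟩
      exact ⟨i, hi, hx⟩
    · rintro ⟨i, hi, hx⟩
      exact ⟨Y i, ⟨i, hi, rfl⟩, hx⟩
  · intro U hU hne hN
    by_cases ht : Tch r U (g.biUnion Y \ U)
    · exact Or.inl ht
    right
    have hsd : ∀ i ∈ g, Y i ⊆ U ∨ Disjoint (Y i) U := fun i hi =>
      (hY i hi).sub_or_disj hs (subset_biUnion_of_mem Y hi) ht
    have h1 : (g.filter fun i => Y i ⊆ U).Nonempty := by
      obtain ⟨x, hx⟩ := hne
      obtain ⟨i, hi, hxi⟩ := mem_biUnion.1 (hU hx)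
      refine ⟨i, mem_filter.2 ⟨hi, (hsd i hi).resolve_right fun hd' => ?_⟩⟩
      exact disjoint_left.1 hd' hxi hx
    have h2 : (g.filter fun i => Y i ⊆ U) ≠ g := by
      intro he
      refine hN (Subset.antisymm hU (biUnion_subset.2 fun i hi => ?_))
      rw [← he] at hi
      exact (mem_filter.1 hi).2
    refine (h.lnk _ (filter_subset _ _) h1 h2).trans (ms_mono hp.1 ?_)
    rw [← hc, ← hc]
    refine inter_subset_inter (cov_mono ?_) (cov_mono ?_)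
    · exact biUnion_subset.2 fun i hi => (mem_filter.1 hi).2
    · refine biUnion_subset.2 fun i hi => ?_
      rw [mem_sdiff, mem_filter] at hi
      have hd' := (hsd i hi.1).resolve_left fun h' => hi.2 ⟨hi.1, h'⟩
      exact subset_sdiff.2 ⟨subset_biUnion_of_mem Y hi.1, hd'⟩
  · unfold fv
    rw [hc]
    exact h.big

theorem Gain.mono {R' : Finset ι} {ρ' g g' : ℝ} {j' : ℕ} (h : Gain r nb C R μ ρ j g)
    (hR : R ⊆ R') (h1 : ρ' ≤ ρ) (h2 : j ≤ j') (h3 : g' ≤ g) : Gain r nb C R' μ ρ' j' g' := by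
  obtain ⟨F, Uc, hU, hF, hF', hc⟩ := h
  refine ⟨F, Uc, hU.trans hR, fun N hN => ⟨(hF N hN).1.mono h1 h2, (hF N hN).2⟩,
    fun N hN N' hN' hne => ⟨(hF' N hN N' hN' hne).1, pb_nr_le (hF' N hN N' hN' hne).2 h1⟩, ?_⟩
  linarith

theorem Gain.change {ν : α → ℝ} {B g : ℝ} (h : Gain r nb C R ν ρ j g) (hB : 0 < B)
    (hν : ∀ a, ν a ≤ B * μ a) : Gain r nb C R μ (ρ / B) j g := by
  obtain ⟨F, Uc, hU, hF, hF', hc⟩ := h
  exact ⟨F, Uc, hU, fun N hN => ⟨(hF N hN).1.change hB hν, (hF N hN).2⟩,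
    fun N hN N' hN' hne => ⟨(hF' N hN N' hN' hne).1,
      pb_nr_change (hF' N hN N' hN' hne).2 hB hν⟩, hc⟩

theorem gain_of_idx {κ : Type} (I : Finset κ) (N : κ → Finset W) (Uc : Finset ι) {g : ℝ}
    (hU : Uc ⊆ R) (h1 : ∀ a ∈ I, Pre r nb μ ρ j (N a) ∧ N a ⊆ Uc.biUnion C)
    (h2 : ∀ a ∈ I, ∀ b ∈ I, a ≠ b → Disjoint (N a) (N b) ∧ Nr r nb μ ρ (N a) (N b))
    (h3 : (Uc.card : ℝ) + g ≤ 2 * I.card) : Gain r nb C R μ ρ j g := by
  refine ⟨I.image N, Uc, hU, ?_, ?_, ?_⟩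
  · intro K hK
    obtain ⟨a, ha, rfl⟩ := mem_image.1 hK
    exact h1 a ha
  · intro K hK K' hK' hne
    obtain ⟨a, ha, rfl⟩ := mem_image.1 hK
    obtain ⟨b, hb, rfl⟩ := mem_image.1 hK'
    exact h2 a ha b hb fun hab => hne (by rw [hab])
  · rwa [card_image_of_disj I N (fun a ha => (h1 a ha).1.ne)
      fun a ha b hb hab => (h2 a ha b hb hab).1]

theorem Cores.mono {Q Q' : Finset ι} {F : Finset (Finset W)} {j' : ℕ}
    (h : Cores r nb C μ ρ j Q F) (hQ : Q ⊆ Q') (hj : j ≤ j') : Cores r nb C μ ρ j' Q' F := by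
  exact ⟨fun N hN => ⟨(h.1 N hN).1.mono le_rfl hj,
    (h.1 N hN).2.1.trans (biUnion_subset_biUnion_of_subset_left C hQ), (h.1 N hN).2.2⟩, h.2⟩

theorem Cores.ins {Q : Finset ι} {F : Finset (Finset W)} {N : Finset W}
    (h : Cores r nb C μ ρ j Q F) (h1 : Pre r nb μ ρ j N) (h2 : N ⊆ Q.biUnion C)
    (h3 : 1 / 2 + ρ ≤ fv nb μ N) (h4 : ∀ N' ∈ F, Disjoint N N') :
    Cores r nb C μ ρ j Q (insert N F) ∧ (insert N F).card = F.card + 1 := by
  have hN : N ∉ F := fun hN => by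
    obtain ⟨x, hx⟩ := h1.ne
    exact disjoint_left.1 (h4 N hN) hx hx
  refine ⟨⟨?_, ?_⟩, card_insert_of_notMem hN⟩
  · intro K hK
    rcases mem_insert.1 hK with rfl | hK
    · exact ⟨h1, h2, h3⟩
    · exact h.1 K hK
  · intro K hK K' hK' hne
    rcases mem_insert.1 hK with e1 | hK1
    · rcases mem_insert.1 hK' with e2 | hK2
      · exact absurd (e1.trans e2.symm) hne
      · exact e1 ▸ h4 K' hK2
    · rcases mem_insert.1 hK' with e2 | hK2
      · exact e2 ▸ (h4 K hK1).symm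
      · exact h.2 K hK1 K' hK2 hne

theorem Cores.union (hS : Sy r C) {Q Q' : Finset ι} {F F' : Finset (Finset W)}
    (h : Cores r nb C μ ρ j Q F) (h' : Cores r nb C μ ρ j Q' F') (hd : Disjoint Q Q') :
    Cores r nb C μ ρ j (Q ∪ Q') (F ∪ F') ∧ (F ∪ F').card = F.card + F'.card := by
  have hx : ∀ N ∈ F, ∀ N' ∈ F', Disjoint N N' := fun N hN N' hN' =>
    (hS.disj_biUnion hd).mono (h.1 N hN).2.1 (h'.1 N' hN').2.1
  refine ⟨⟨?_, ?_⟩, card_union_of_disjoint (disjoint_left.2 fun N hN hN' => ?_)⟩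
  · intro K hK
    rcases mem_union.1 hK with hK | hK
    · exact (h.mono subset_union_left le_rfl).1 K hK
    · exact (h'.mono subset_union_right le_rfl).1 K hK
  · intro K hK K' hK' hne
    rcases mem_union.1 hK with hK | hK
    · rcases mem_union.1 hK' with hK' | hK'
      · exact h.2 K hK K' hK' hne
      · exact hx K hK K' hK'
    · rcases mem_union.1 hK' with hK' | hK'
      · exact (hx K' hK' K hK).symm
      · exact h'.2 K hK K' hK' hne
  · obtain ⟨x, hx'⟩ := (h.1 N hN).1.ne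
    exact disjoint_left.1 (hx N hN N hN') hx' hx'

theorem cores_of_idx {κ : Type} (I : Finset κ) (N : κ → Finset W) (Q : Finset ι)
    (h1 : ∀ a ∈ I, Pre r nb μ ρ j (N a) ∧ N a ⊆ Q.biUnion C ∧ 1 / 2 + ρ ≤ fv nb μ (N a))
    (h2 : ∀ a ∈ I, ∀ b ∈ I, a ≠ b → Disjoint (N a) (N b)) :
    Cores r nb C μ ρ j Q (I.image N) ∧ (I.image N).card = I.card := by
  refine ⟨⟨?_, ?_⟩, card_image_of_disj I N (fun a ha => (h1 a ha).1.ne) h2⟩
  · intro K hK
    obtain ⟨a, ha, rfl⟩ := mem_image.1 hK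
    exact h1 a ha
  · intro K hK K' hK' hne
    obtain ⟨a, ha, rfl⟩ := mem_image.1 hK
    obtain ⟨b, hb, rfl⟩ := mem_image.1 hK'
    exact h2 a ha b hb fun hab => hne (by rw [hab])

theorem pb_cores_empty {Q : Finset ι} : Cores r nb C μ ρ j Q ∅ :=
  ⟨fun N hN => absurd hN (notMem_empty N), fun N hN => absurd hN (notMem_empty N)⟩

theorem pb_grp_ne {Q : Finset ι} (h : Grp r nb C μ ρ j Q) : Q.Nonempty := by
  obtain ⟨F, hF, hc⟩ := h
  obtain ⟨N, hN⟩ : F.Nonempty := card_pos.1 (by omega)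
  obtain ⟨x, hx⟩ := (hF.1 N hN).1.ne
  obtain ⟨i, hi, -⟩ := mem_biUnion.1 ((hF.1 N hN).2.1 hx)
  exact ⟨i, hi⟩

theorem pb_add (hS : Sy r C) {Q Uc : Finset ι} {F : Finset (Finset W)}
    (hG : Grp r nb C μ ρ j Q) (hF : Cores r nb C μ ρ j Uc F) (hd : Disjoint Q Uc) :
    ∃ F', Cores r nb C μ ρ j (Q ∪ Uc) F' ∧
      (Q ∪ Uc).card + 1 + 2 * F.card ≤ 2 * F'.card + Uc.card := by
  obtain ⟨F0, hF0, hc⟩ := hG
  obtain ⟨h1, h2⟩ := hF0.union hS hF hd
  refine ⟨F0 ∪ F, h1, ?_⟩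
  have := card_union_le Q Uc
  omega

theorem pb_gain (hp : Prob μ) (hρ : 0 ≤ ρ) {Uc : Finset ι} {F : Finset (Finset W)} {g : ℝ}
    (hF : Cores r nb C μ ρ j Uc F) (hU : Uc ⊆ R) (hc : (Uc.card : ℝ) + g ≤ 2 * F.card) :
    Gain r nb C R μ ρ j g := by
  refine ⟨F, Uc, hU, fun N hN => ⟨(hF.1 N hN).1, (hF.1 N hN).2.1⟩,
    fun N hN N' hN' hne => ⟨hF.2 N hN N' hN' hne, Or.inr ?_⟩, hc⟩
  have h1 := (hF.1 N hN).2.2
  have h2 := (hF.1 N' hN').2.2
  have h3 := hp.inter_ge (cov nb N) (cov nb N')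
  unfold fv at h1 h2
  linarith

/-- Disjoint groups add up. -/
theorem gain_of_grps (h : Ctx r nb C R μ) (hρ : 0 ≤ ρ) {κ : Type} (I : Finset κ)
    (Q : κ → Finset ι) (h1 : ∀ a ∈ I, Q a ⊆ R ∧ Grp r nb C μ ρ j (Q a))
    (h2 : ∀ a ∈ I, ∀ b ∈ I, a ≠ b → Disjoint (Q a) (Q b)) : Gain r nb C R μ ρ j I.card := by
  classical
  have key : ∀ J ⊆ I, ∃ F, Cores r nb C μ ρ j (J.biUnion Q) F ∧
      (J.biUnion Q).card + J.card ≤ 2 * F.card := by
    intro J
    induction J using Finset.induction_on with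
    | empty => exact fun _ => ⟨∅, pb_cores_empty, by simp⟩
    | insert a J ha ih =>
      intro hJ
      have haI : a ∈ I := hJ (mem_insert_self a J)
      have hJI : J ⊆ I := (subset_insert a J).trans hJ
      obtain ⟨F, hF, hc⟩ := ih hJI
      have hd : Disjoint (Q a) (J.biUnion Q) := by
        rw [disjoint_biUnion_right]
        exact fun b hb => h2 a haI b (hJI hb) fun hab => ha (hab ▸ hb)
      obtain ⟨F', hF', hc'⟩ := pb_add h.sy (h1 a haI).2 hF hd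
      refine ⟨F', by rwa [biUnion_insert], ?_⟩
      rw [biUnion_insert, card_insert_of_notMem ha]
      omega
  obtain ⟨F, hF, hc⟩ := key I Subset.rfl
  refine pb_gain h.pb hρ hF (biUnion_subset.2 fun a ha => (h1 a ha).1) ?_
  exact_mod_cast hc

/-- Greedy removal of groups. -/
theorem gain_greedy (h : Ctx r nb C R μ) (hρ : 0 ≤ ρ) {q : ℕ} (hq : 0 < q) {m : ℝ}
    (hg : ∀ R' ⊆ R, m ≤ R'.card → ∃ Q ⊆ R', Q.card ≤ q ∧ Grp r nb C μ ρ j Q) :
    Gain r nb C R μ ρ j ((R.card - m) / q) := by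
  have hq' : (0 : ℝ) < q := by exact_mod_cast hq
  have key : ∀ R' : Finset ι, R' ⊆ R → ∃ Uc ⊆ R', ∃ F, Cores r nb C μ ρ j Uc F ∧
      (Uc.card : ℝ) + (R'.card - m) / q ≤ 2 * F.card := by
    intro R'
    induction R' using Finset.strongInduction with
    | H R' ih =>
      intro hR'
      by_cases hm : m ≤ R'.card
      · obtain ⟨Q, hQ, hQq, hG⟩ := hg R' hR' hm
        have hss : R' \ Q ⊂ R' := sdiff_ssubset hQ (pb_grp_ne hG)
        obtain ⟨Uc, hUc, F, hF, hc⟩ := ih _ hss (sdiff_subset.trans hR')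
        have hd : Disjoint Q Uc := disjoint_sdiff.mono_right hUc
        obtain ⟨F', hF', hc'⟩ := pb_add h.sy hG hF hd
        refine ⟨Q ∪ Uc, union_subset hQ (hUc.trans sdiff_subset), F', hF', ?_⟩
        have e1 : ((R' \ Q).card : ℝ) + Q.card = R'.card := by
          exact_mod_cast card_sdiff_add_card_eq_card hQ
        have e2 : (Q.card : ℝ) ≤ q := by exact_mod_cast hQq
        have e3 : (((Q ∪ Uc).card : ℕ) : ℝ) + 1 + 2 * F.card ≤ 2 * F'.card + Uc.card := by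
          exact_mod_cast hc'
        have e4 : ((R'.card : ℝ) - m) / q ≤ ((R' \ Q).card - m) / q + 1 := by
          rw [div_add_one hq'.ne']
          exact div_le_div_of_nonneg_right (by linarith) hq'.le
        linarith
      · refine ⟨∅, empty_subset _, ∅, pb_cores_empty, ?_⟩
        have : ((R'.card : ℝ) - m) / q ≤ 0 :=
          div_nonpos_of_nonpos_of_nonneg (by linarith [not_le.1 hm]) hq'.le
        simpa using this
  obtain ⟨Uc, hUc, F, hF, hc⟩ := key R Subset.rfl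
  exact pb_gain h.pb hρ hF hUc hc

/-- Groups in blocks of a matching. -/
theorem gain_blocks (h : Ctx r nb C R μ) (hρ : 0 ≤ ρ) {M : Finset (ι × ι)} (hM : Mat R M)
    {q : ℕ} (hq : 0 < q)
    (hg : ∀ M' ⊆ M, M'.card = q → ∃ Q ⊆ cls M', Grp r nb C μ ρ j Q) :
    Gain r nb C R μ ρ j ((M.card / q : ℕ) : ℝ) := by
  have key : ∀ k : ℕ, ∀ M' ⊆ M, k * q ≤ M'.card → ∃ Uc ⊆ cls M', ∃ F,
      Cores r nb C μ ρ j Uc F ∧ Uc.card + k ≤ 2 * F.card := by
    intro k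
    induction k with
    | zero => exact fun M' _ _ => ⟨∅, empty_subset _, ∅, pb_cores_empty, by simp⟩
    | succ k ih =>
      intro M' hM' hk
      rw [add_mul, one_mul] at hk
      obtain ⟨M1, hM1, hc1⟩ := exists_subset_card_eq (show q ≤ M'.card by omega)
      obtain ⟨Q, hQ, hG⟩ := hg M1 (hM1.trans hM') hc1
      have e1 := card_sdiff_add_card_eq_card hM1
      obtain ⟨Uc, hUc, F, hF, hc⟩ := ih (M' \ M1) (sdiff_subset.trans hM') (by omega)
      have hd : Disjoint Q Uc :=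
        (hM.disj_cls (hM1.trans hM') (sdiff_subset.trans hM') disjoint_sdiff).mono hQ hUc
      obtain ⟨F', hF', hc'⟩ := pb_add h.sy hG hF hd
      refine ⟨Q ∪ Uc, union_subset (hQ.trans (cls_mono hM1))
        (hUc.trans (cls_mono sdiff_subset)), F', hF', by omega⟩
  obtain ⟨Uc, hUc, F, hF, hc⟩ := key (M.card / q) M Subset.rfl (Nat.div_mul_le_self _ _)
  refine pb_gain h.pb hρ hF (hUc.trans hM.cls_sub) ?_
  exact_mod_cast hc

end Pool.Agent.P.MP_a374b6_co.H
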