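import Pool.Agent.P.MP_a374b6_co.H.V1
import Pool.Agent.P.MP_a374b6_co.H.Pb

/-! Spiders give a gain. -/

namespace Pool.Agent.P.MP_a374b6_co.H

open Finset

variable {W ι α : Type} [DecidableEq W] [DecidableEq ι] [Fintype α] [DecidableEq α]
  {r : W → W → Prop} {nb : W → Finset α} {C : ι → Finset W} {R : Finset ι} {μ : α → ℝ}

theorem v2_big (h : Ctx r nb C R μ) {p : ι × ι} (h1 : p.1 ∈ R) {A : Finset (Finset W)}
    (hA : fv nb μ (un A) ≤ 2 / 5) : 3 / 5 ≤ fv nb μ (pr C p \ un A) := by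
  linarith [h.one_le h1 (S := pr C p) subset_union_left (un A)]

theorem v2_nil (h : Ctx r nb C R μ) {p : ι × ι} (h1 : p.1 ∈ R) :
    3 / 5 ≤ fv nb μ (pr C p \ un ∅) :=
  v2_big h h1 (by rw [un_empty, fv, cov_empty, ms_empty]; norm_num)

theorem v2_ne {D : ι} {M : Finset (ι × ι)} (hD : D ∉ cls M) {p : ι × ι} (hp : p ∈ M) :
    D ≠ p.1 ∧ D ≠ p.2 :=
  ⟨fun e => hD (mem_cls.2 ⟨p, hp, Or.inl e⟩), fun e => hD (mem_cls.2 ⟨p, hp, Or.inr e⟩)⟩

theorem v2_step (h : Ctx r nb C R μ) {D : ι} {v : ι × ι → W} {L : ι × ι → Finset (Finset W)}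
    {n : ℕ} {M : Finset (ι × ι)} (hM : Mat R M) (hD : D ∉ cls M)
    (hd : ∀ p ∈ M, Don r nb μ (pr C p) (v p) (L p)) {p p' : ι × ι} (hp : p ∈ M) (hp' : p' ∈ M)
    {Y : Finset W} (h1 : Pre r nb μ (1 / 50) (n + 1) Y)
    (h2 : min (1 / 2 + 1 / 50) (1 / 4 + n / 50 : ℝ) ≤ fv nb μ Y) :
    ∃ A ⊆ L p, ∃ A' ⊆ L p', ∃ D' ⊆ C D, 3 / 5 ≤ fv nb μ (pr C p \ un A) ∧
      3 / 5 ≤ fv nb μ (pr C p' \ un A') ∧
      Pre r nb μ (1 / 50) (n + 1 + 1) (Y ∪ (un A ∪ un A' ∪ D')) ∧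
      min (1 / 2 + 1 / 50) (1 / 4 + (n + 1 : ℕ) / 50 : ℝ) ≤ fv nb μ (Y ∪ (un A ∪ un A' ∪ D')) := by
  obtain ⟨a1, a2, a3⟩ := hM.1 p hp
  obtain ⟨b1, b2, b3⟩ := hM.1 p' hp'
  by_cases h3 : 1 / 2 + 1 / 50 ≤ fv nb μ Y
  · refine ⟨∅, empty_subset _, ∅, empty_subset _, ∅, empty_subset _, v2_nil h a1, v2_nil h b1, ?_⟩
    simp only [un_empty, union_empty]
    exact ⟨h1.mono le_rfl (Nat.le_succ _), (min_le_left _ _).trans h3⟩
  have h4 := (min_le_iff.1 h2).resolve_left h3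
  have hn : (0 : ℝ) ≤ n := n.cast_nonneg
  obtain ⟨A, hA, A', hA', D', hD', c1, c2, c3, c4, c5⟩ := v1 h a1 a2 a3 (v2_ne hD hp).1
    (v2_ne hD hp).2 (hd p hp) b1 b2 b3 (v2_ne hD hp').1 (v2_ne hD hp').2 (hd p' hp')
    (U := cov nb Y) (le_trans (by linarith) h4) (not_le.1 h3).le
  refine ⟨A, hA, A', hA', D', hD', c4, c5, h1.union h.sy.symm h.pb (c1.pre le_rfl)
    (Or.inr (Or.inr (by rwa [inter_comm]))), (min_le_right _ _).trans ?_⟩
  rw [fv, cov_union, ← union_sdiff_self_eq_union, ms_union_of_disj disjoint_sdiff]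
  rw [fv] at h4
  push_cast
  linarith

theorem v2 (h : Ctx r nb C R μ) {D : ι} (v : ι × ι → W) (L : ι × ι → Finset (Finset W)) (n : ℕ)
    (M : Finset (ι × ι)) (hM : Mat R M) (hD : D ∉ cls M)
    (hd : ∀ p ∈ M, Don r nb μ (pr C p) (v p) (L p)) (hn : 2 * n + 1 ≤ M.card) :
    ∃ (K : ι × ι → Finset (Finset W)) (D' : Finset W), D' ⊆ C D ∧
      (∀ p ∈ M, K p ⊆ L p ∧ 3 / 5 ≤ fv nb μ (pr C p \ un (K p))) ∧
      Pre r nb μ (1 / 50) (n + 1) (M.biUnion (fun p => un (K p)) ∪ D') ∧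
      min (1 / 2 + 1 / 50) (1 / 4 + n / 50 : ℝ) ≤
        fv nb μ (M.biUnion (fun p => un (K p)) ∪ D') := by
  induction n generalizing M with
  | zero =>
    obtain ⟨p, hp⟩ := card_pos.1 (show 0 < M.card by omega)
    obtain ⟨a1, a2, a3⟩ := hM.1 p hp
    obtain ⟨d, hd'⟩ := h.sy.ne D
    obtain ⟨A, D', hB, -, h1, h2⟩ := v0a h a1 a2 a3 (v2_ne hD hp).1 (v2_ne hD hp).2 (hd p hp) hd'
      (y := 1 / 4) (by norm_num) (by norm_num)
    have h3 : M.biUnion (fun q => un (if q = p then A else ∅)) = un A := by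
      refine Subset.antisymm (biUnion_subset.2 fun q _ => ?_) fun x hx =>
        mem_biUnion.2 ⟨p, hp, by rwa [if_pos rfl]⟩
      split_ifs
      · exact Subset.rfl
      · exact un_mono (empty_subset _)
    refine ⟨fun q => if q = p then A else ∅, D', hB.dsub, fun q hq => ?_, ?_⟩
    · by_cases e : q = p
      · subst e
        simp only [if_true]
        exact ⟨hB.sub, v2_big h a1 (by linarith)⟩
      · simp only [if_neg e]
        exact ⟨empty_subset _, v2_nil h (hM.1 q hq).1⟩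
    · rw [h3]
      refine ⟨hB.cn.pre le_rfl, (min_le_right _ _).trans ?_⟩
      simpa using h1.trans (fv_mono h.pb subset_union_left)
  | succ n ih =>
    obtain ⟨k, hk⟩ : ∃ k, M.card = k + 1 + 1 := ⟨M.card - 2, by omega⟩
    obtain ⟨p, M1, hp, rfl, hk1⟩ := card_eq_succ.1 hk
    obtain ⟨p', M2, hp', rfl, hk2⟩ := card_eq_succ.1 hk1
    have hs : M2 ⊆ insert p (insert p' M2) := (subset_insert _ _).trans (subset_insert _ _)
    obtain ⟨K, D', a1, a2, a3, a4⟩ := ih M2 (hM.mono hs Subset.rfl)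
      (fun e => hD (cls_mono hs e)) (fun q hq => hd q (hs hq)) (by omega)
    obtain ⟨A, hA, A', hA', D'', b1, b2, b3, b4⟩ := v2_step h hM hD hd (mem_insert_self _ _)
      (mem_insert_of_mem (mem_insert_self _ _)) a3 a4
    have hpp : p' ≠ p := fun e => hp (e ▸ mem_insert_self _ _)
    have h1 : ∀ q ∈ M2, (if q = p then A else if q = p' then A' else K q) = K q := fun q hq => by
      rw [if_neg fun e : q = p => hp (e ▸ mem_insert_of_mem hq),
        if_neg fun e : q = p' => hp' (e ▸ hq)]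
    refine ⟨fun q => if q = p then A else if q = p' then A' else K q, D' ∪ D'',
      union_subset a1 b1, fun q hq => ?_, ?_⟩
    · rcases mem_insert.1 hq with rfl | hq
      · simp only [if_true]
        exact ⟨hA, b2⟩
      rcases mem_insert.1 hq with rfl | hq
      · simp only [if_neg hpp, if_true]
        exact ⟨hA', b3⟩
      · simp only [h1 q hq]
        exact a2 q hq
    · rw [biUnion_insert, biUnion_insert, biUnion_congr rfl fun q hq => congrArg un (h1 q hq)]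
      simp only [if_neg hpp, if_true]
      convert b4 using 2 <;> ac_rfl

theorem vee (h : Ctx r nb C R μ) {M : Finset (ι × ι)} (hM : Mat R M)
    (hd : ∀ p ∈ M, ∃ v L, Don r nb μ (pr C p) v L) :
    Gain r nb C R μ (1 / 50) 15 ((M.card / 30 : ℕ) : ℝ) := by
  refine gain_blocks h (by norm_num) hM (by norm_num) fun M' hM' hc => ?_
  obtain ⟨p, hp⟩ := card_pos.1 (show 0 < M'.card by omega)
  obtain ⟨d, -⟩ := h.sy.ne p.1
  have : Nonempty W := ⟨d⟩
  choose! v L hd using hd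
  have hs : M'.erase p ⊆ M := (erase_subset _ _).trans hM'
  have hM1 := hM.mono hs Subset.rfl
  have hc1 : (M'.erase p).card = 29 := by rw [card_erase_of_mem hp, hc]
  have hD : p.1 ∉ cls (M'.erase p) := fun e => by
    obtain ⟨q, hq, e⟩ := mem_cls.1 e
    have := hM.2 p (hM' hp) q (hs hq) (ne_of_mem_erase hq).symm
    tauto
  obtain ⟨K, D', a1, a2, a3, a4⟩ := v2 h v L 14 _ hM1 hD (fun q hq => hd q (hs hq)) hc1.ge
  have h1 : ∀ q ∈ M'.erase p, pr C q ⊆ (insert p.1 (cls (M'.erase p))).biUnion C := fun q hq =>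
    (pr_sub hq).trans (biUnion_subset_biUnion_of_subset_left _ (subset_insert _ _))
  have h2 : ∀ q ∈ M'.erase p, un (K q) ⊆ pr C q := fun q hq =>
    ((hd q (hs hq)).legs.un_sub (a2 q hq).1).trans (erase_subset _ _)
  obtain ⟨b1, b2⟩ := cores_of_idx (r := r) (nb := nb) (μ := μ) (ρ := 1 / 50) (j := 15) (M'.erase p)
    (fun q => pr C q \ un (K q)) (insert p.1 (cls (M'.erase p)))
    (fun q hq => ⟨((hd q (hs hq)).legs.spi.cn_drop h.sy.symm (a2 q hq).1).pre (by norm_num),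
      sdiff_subset.trans (h1 q hq), le_trans (by norm_num) (a2 q hq).2⟩)
    fun q hq q' hq' e => (hM1.disj_pr h.sy hq hq' e).mono sdiff_subset sdiff_subset
  obtain ⟨c1, c2⟩ := b1.ins a3 (union_subset (biUnion_subset.2 fun q hq => (h2 q hq).trans (h1 q hq))
    (a1.trans (subset_biUnion_of_mem C (mem_insert_self _ _)))) (le_trans (by norm_num) a4)
    fun N hN => by
      obtain ⟨q, hq, rfl⟩ := mem_image.1 hN
      refine disjoint_left.2 fun x hx hx' => ?_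
      obtain ⟨h3, h4⟩ := mem_sdiff.1 hx'
      rcases mem_union.1 hx with hx | hx
      · obtain ⟨q', hq', hx⟩ := mem_biUnion.1 hx
        exact disjoint_left.1 (hM1.disj_pr h.sy hq hq' fun e => h4 (e ▸ hx)) h3 (h2 q' hq' hx)
      · rcases mem_union.1 h3 with h3 | h3
        · exact (v2_ne hD hq).1 (h.sy.eq_of_mem (a1 hx) h3)
        · exact (v2_ne hD hq).2 (h.sy.eq_of_mem (a1 hx) h3)
  refine ⟨_, insert_subset (mem_cls.2 ⟨p, hp, Or.inl rfl⟩) (cls_mono (erase_subset _ _)), _, c1, ?_⟩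
  rw [c2, b2, card_insert_of_notMem hD, hM1.card_cls, hc1]

end Pool.Agent.P.MP_a374b6_co.H
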