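import Pool.Agent.P.MP_a374b6_co.H.Cc
import Pool.Agent.P.MP_a374b6_co.H.V2

/-! Aligned pairs and donors. -/

namespace Pool.Agent.P.MP_a374b6_co.H

open Finset

theorem ali_side {W ι α : Type} [DecidableEq W] [DecidableEq ι] [Fintype α] [DecidableEq α]
    {r : W → W → Prop} {nb : W → Finset α} {C : ι → Finset W} {R : Finset ι} {μ : α → ℝ}
    (h : Ctx r nb C R μ) {U : Finset α} (hU : 1 / 3 ≤ ms μ U) {p : ι × ι} (h1 : p.1 ∈ R)
    (h12 : p.1 ≠ p.2) {X Y : Finset W} (hc : Cut r (pr C p) X Y)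
    (hY : ms μ (cov nb Y \ U) ≤ 1 / 600) (hX : ms μ (cov nb X ∩ U) ≤ 1 / 600) :
    (∃ Y', Ctb r nb μ U (pr C p) Y') ∨ ∃ v L, Don r nb (mix μ U 1) (pr C p) v L := by
  have hs := h.sy.symm
  obtain ⟨cX, cY, dXY, uXY⟩ := hc
  have hYS : Y ⊆ pr C p := uXY ▸ subset_union_right
  have hcov : cov nb X ∪ cov nb Y = univ := by
    rw [← cov_union, uXY]
    exact h.cov_eq h1 subset_union_left
  have hSY : pr C p \ Y = X := by rw [← uXY, union_sdiff_right, sdiff_eq_self_of_disjoint dXY]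
  have hP : 1 / 300 ≤ ms μ (cov nb Y ∩ U) := by
    have := ms_le_of_sub_union h.pb.1 (S := U) (T := cov nb X ∩ U) (U := cov nb Y ∩ U)
      (by rw [← union_inter_distrib_right, hcov, univ_inter])
    linarith
  obtain ⟨Y', hY', u, L, hspi, hPY, hL⟩ := cen hs (h.sy.conn _ _ h12) hYS cY
    (Or.inr (hSY ▸ cX)) (fun K => 1 / 300 ≤ ms μ (cov nb K ∩ U)) hP
  have hXs : X ⊆ pr C p \ Y' := hSY ▸ sdiff_subset_sdiff Subset.rfl hY'
  have hne : (pr C p \ Y').Nonempty := cX.1.mono hXs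
  by_cases h2 : 1 / 300 ≤ ms μ (cov nb (pr C p \ Y') ∩ U)
  · refine Or.inl ⟨Y', hspi.sub, hspi.legs.cn_all hs, (hspi.rest.resolve_left hne.ne_empty).1,
      hPY, h2, le_trans (ms_mono h.pb.1 fun a ha => ?_) hY⟩
    obtain ⟨a1, a2⟩ := mem_sdiff.1 ha
    have a3 : a ∈ cov nb X ∪ cov nb Y := hcov ▸ mem_univ a
    exact mem_sdiff.2 ⟨(mem_union.1 a3).resolve_left fun e => a2 (cov_mono hXs e), mem_compl.1 a1⟩
  · refine Or.inr ⟨u, _, hspi.legs_insert hne, fun K hK => ?_⟩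
    have hK' : ms μ (cov nb K ∩ U) ≤ 1 / 300 := by
      rcases mem_insert.1 hK with rfl | hK
      exacts [(not_le.1 h2).le, (not_le.1 (hL K hK)).le]
    have : ms μ (cov nb K ∩ U) / ms μ U ≤ 1 / 100 := by
      rw [div_le_iff₀ (by linarith)]
      linarith
    unfold fv
    rw [ms_mix]
    linarith

theorem ali_vee {W ι α : Type} [DecidableEq W] [DecidableEq ι] [Fintype α] [DecidableEq α]
    {r : W → W → Prop} {nb : W → Finset α} {C : ι → Finset W} {R : Finset ι} {μ : α → ℝ}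
    (h : Ctx r nb C R μ) {U : Finset α} (hU : 1 / 3 ≤ ms μ U) {M : Finset (ι × ι)}
    (hM : Mat R M) (hd : ∀ p ∈ M, ∃ v L, Don r nb (mix μ U 1) (pr C p) v L) {k : ℕ}
    (hk : 180 ≤ k) (hc : k ≤ 3 * M.card) : Gain r nb C R μ (1 / 150) 15 (1 / 180 * k) := by
  have h1 := (vee (h.change (h.pb.mix_prob (U := U) (by linarith) zero_le_one le_rfl)) hM
    hd).change (μ := μ) (B := 3) (by norm_num) fun a =>
      (mix_le h.pb zero_le_one (by norm_num) hU a).trans (le_of_eq (by norm_num))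
  refine h1.mono Subset.rfl (by norm_num) le_rfl ?_
  have e1 : k ≤ 180 * (M.card / 30) := by omega
  have e2 : (k : ℝ) ≤ 180 * ((M.card / 30 : ℕ) : ℝ) := by exact_mod_cast e1
  linarith

theorem ali : ∃ (ρ c : ℝ) (j m0 : ℕ), 0 < ρ ∧ 0 < c ∧
    ∀ (W ι α : Type) [Fintype W] [DecidableEq W] [DecidableEq ι] [Fintype α] [DecidableEq α]
      (r : W → W → Prop) (nb : W → Finset α) (C : ι → Finset W) (R : Finset ι) (μ : α → ℝ)
      (U : Finset α) (M : Finset (ι × ι)) (X Y : ι × ι → Finset W),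
      Ctx r nb C R μ → 1 / 3 ≤ ms μ U → 1 / 3 ≤ ms μ Uᶜ → Mat R M → m0 ≤ M.card →
      (∀ p ∈ M, Cut r (pr C p) (X p) (Y p) ∧ ms μ (cov nb (Y p) \ U) ≤ 1 / 600 ∧
        ms μ (cov nb (X p) ∩ U) ≤ 1 / 600) →
      Gain r nb C R μ ρ j (c * M.card) := by
  classical
  obtain ⟨ρ, c, j, m0, hρ, hc, hcc⟩ := cc
  refine ⟨min ρ (1 / 150), min (c / 3) (1 / 180), max j 15, max (3 * m0) 180, by positivity,
    by positivity, fun W ι α _ _ _ _ _ r nb C R μ U M X Y h hU hU' hM hm hd => ?_⟩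
  have hcard : (0 : ℝ) ≤ M.card := Nat.cast_nonneg _
  set A1 := M.filter fun p => ∃ v L, Don r nb (mix μ U 1) (pr C p) v L with hA1
  set A2 := M.filter fun p => ∃ v L, Don r nb (mix μ Uᶜ 1) (pr C p) v L with hA2
  set A3 := M.filter fun p => (∃ Y, Ctb r nb μ U (pr C p) Y) ∧ ∃ X, Ctb r nb μ Uᶜ (pr C p) X
    with hA3
  have hsub : M ⊆ A1 ∪ A2 ∪ A3 := fun p hp => by
    obtain ⟨⟨a1, a2, a3, a4⟩, a5, a6⟩ := hd p hp
    rcases ali_side h hU (hM.1 p hp).1 (hM.1 p hp).2.2 ⟨a1, a2, a3, a4⟩ a5 a6 with b | b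
    · rcases ali_side h hU' (hM.1 p hp).1 (hM.1 p hp).2.2
        ⟨a2, a1, a3.symm, (union_comm _ _).trans a4⟩ (by rwa [sdiff_compl])
        (by rwa [← sdiff_eq_inter_compl]) with b' | b'
      · exact mem_union_right _ (mem_filter.2 ⟨hp, b, b'⟩)
      · exact mem_union_left _ (mem_union_right _ (mem_filter.2 ⟨hp, b'⟩))
    · exact mem_union_left _ (mem_union_left _ (mem_filter.2 ⟨hp, b⟩))
  have hle : M.card ≤ A1.card + A2.card + A3.card :=
    (card_le_card hsub).trans ((card_union_le _ _).trans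
      (Nat.add_le_add_right (card_union_le _ _) _))
  have hg := mul_le_mul_of_nonneg_right (min_le_right (c / 3) (1 / 180)) hcard
  by_cases h1 : M.card ≤ 3 * A1.card
  · exact (ali_vee h hU (hM.mono (filter_subset _ _) Subset.rfl) (fun p hp => (mem_filter.1 hp).2)
      (by omega) h1).mono Subset.rfl (min_le_right _ _) (le_max_right _ _) hg
  by_cases h2 : M.card ≤ 3 * A2.card
  · exact (ali_vee h hU' (hM.mono (filter_subset _ _) Subset.rfl)
      (fun p hp => (mem_filter.1 hp).2) (by omega) h2).mono Subset.rfl (min_le_right _ _)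
      (le_max_right _ _) hg
  refine (hcc W ι α r nb C R μ U A3 h hU hU' (hM.mono (filter_subset _ _) Subset.rfl) (by omega)
    fun p hp => (mem_filter.1 hp).2).mono Subset.rfl (min_le_left _ _) (le_max_left _ _) ?_
  have e1 : (M.card : ℝ) ≤ 3 * A3.card := by exact_mod_cast (by omega : M.card ≤ 3 * A3.card)
  have e2 := mul_le_mul_of_nonneg_right (min_le_left (c / 3) (1 / 180)) hcard
  nlinarith

end Pool.Agent.P.MP_a374b6_co.H
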