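import Pool.Agent.P.MP_a374b6_co.H.At

/-! From a rounded equilibrium to a clique minor. -/

namespace Pool.Agent.P.MP_a374b6_co.H

open Finset

variable {W : Type} [Fintype W] [DecidableEq W] {n : ℕ} {r : W → W → Prop}
  {C : Bool × Fin n → Finset W} {m : ℕ}

/-- The requests of one side of an atom. -/
def asm_rq (x : Atom n W × Bool) : Finset ((Bool × Fin n) × Finset W) :=
  if (x.1.2 x.2).k = 2 then (x.1.2 x.2).T.image fun τ => (sd x.1.1 x.2, τ) else ∅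

/-- The node of one side of an atom. -/
noncomputable def asm_nd (C : Bool × Fin n → Finset W) (φ : (Bool × Fin n) × Finset W → W)
    (x : Atom n W × Bool) : Finset W :=
  base C x.1 x.2 ∪ (asm_rq x).image φ

omit [Fintype W] in
theorem asm_mem_rq {x : Atom n W × Bool} {q : (Bool × Fin n) × Finset W} :
    q ∈ asm_rq x ↔ (x.1.2 x.2).k = 2 ∧ q.1 = sd x.1.1 x.2 ∧ q.2 ∈ (x.1.2 x.2).T := by
  unfold asm_rq
  split_ifs with h
  · simp only [mem_image, h, true_and]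
    constructor
    · rintro ⟨τ, hτ, rfl⟩
      exact ⟨rfl, hτ⟩
    · rintro ⟨h1, h2⟩
      exact ⟨q.2, h2, Prod.ext h1.symm rfl⟩
  · simp [h]

omit [Fintype W] in
theorem asm_rq_sub (x : Atom n W × Bool) : asm_rq x ⊆ req x.1 :=
  subset_biUnion_of_mem (fun b : Bool => asm_rq (x.1, b)) (mem_univ x.2)

omit [Fintype W] in
theorem asm_rq_uniq {sl : Finset (Atom n W)} (h2 : Mt (fun a : Atom n W => a.1) sl)
    {x x' : Atom n W × Bool} (hx : x.1 ∈ sl) (hx' : x'.1 ∈ sl) {q : (Bool × Fin n) × Finset W}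
    (hq : q ∈ asm_rq x) (hq' : q ∈ asm_rq x') : x = x' := by
  have h := (asm_mem_rq.1 hq).2.1.symm.trans (asm_mem_rq.1 hq').2.1
  refine Prod.ext ?_ (congrArg Prod.fst h)
  by_contra hne
  exact sd_ne_of (h2 _ hx _ hx' hne).1 (h2 _ hx _ hx' hne).2 _ _ h

theorem asm_three (k : Fin 3) (h : k ≠ 0) : k = 1 ∨ k = 2 := by
  revert k
  decide

omit [Fintype W] in
theorem asm_SS_sub (e : Fin n × Fin n) : SS C e ⊆ univ.biUnion C :=
  union_subset (subset_biUnion_of_mem C (mem_univ _)) (subset_biUnion_of_mem C (mem_univ _))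

omit [Fintype W] in
theorem asm_base_sub (a : Atom n W) (b : Bool) : base C a b ⊆ base C a true ∪ base C a false := by
  cases b
  · exact subset_union_right
  · exact subset_union_left

omit [Fintype W] in
theorem asm_nd_one {φ : (Bool × Fin n) × Finset W → W} {x : Atom n W × Bool}
    (h : (x.1.2 x.2).k = 1) : asm_nd C φ x = SS C x.1.1 \ (x.1.2 x.2).D := by
  simp [asm_nd, asm_rq, base, h]

omit [Fintype W] in
theorem asm_nd_two {φ : (Bool × Fin n) × Finset W → W} {x : Atom n W × Bool}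
    (h : (x.1.2 x.2).k = 2) :
    asm_nd C φ x = C (sd x.1.1 x.2) ∪ (x.1.2 x.2).D ∪ (asm_rq x).image φ := by
  simp [asm_nd, base, h]

omit [Fintype W] [DecidableEq W] in
theorem asm_cnt (sl : Finset (Atom n W)) :
    ∑ a ∈ sl, cnt a =
      (((sl ×ˢ (univ : Finset Bool)).filter fun x => (x.1.2 x.2).k ≠ 0).card : ℝ) := by
  rw [card_filter, Nat.cast_sum, sum_product]
  refine sum_congr rfl fun a _ => sum_congr rfl fun b _ => ?_
  by_cases h : (a.2 b).k = 0 <;> simp [h]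

section Main

variable (hS : Sy r C) {p : Option W → ℝ} {sl : Finset (Atom n W)}
  {srv : Finset ((Bool × Fin n) × Finset W)} {φ : (Bool × Fin n) × Finset W → W}
  (h1 : ∀ a ∈ sl, 0 < mar r C m a p) (h2 : Mt (fun a : Atom n W => a.1) sl)
  (h4 : Set.InjOn φ srv)
  (h5 : ∀ q ∈ srv, φ q ∈ cand r C q.1 q.2 ∧ φ q ∈ sl.biUnion (spl C))

include hS h1 h5 in
theorem asm_cn {x : Atom n W × Bool} (hx : x.1 ∈ sl) (hk : (x.1.2 x.2).k ≠ 0)
    (hs : asm_rq x ⊆ srv) : Cn r (asm_nd C φ x) := by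
  have hv := (valid_of_mar (h1 _ hx)).1
  rcases asm_three _ hk with h | h
  · rw [asm_nd_one h]
    exact (hv.cert _ h).2.1
  · rw [asm_nd_two h]
    refine (hv.own _ h).2.1 _ (fun τ hτ => ?_) fun y hy => ?_
    · have hq : (sd x.1.1 x.2, τ) ∈ asm_rq x := asm_mem_rq.2 ⟨h, rfl, hτ⟩
      exact ⟨_, mem_image_of_mem φ hq, (mem_cand.1 (h5 _ (hs hq)).1).2⟩
    · obtain ⟨q, hq, rfl⟩ := mem_image.1 hy
      obtain ⟨F, hF, hy'⟩ := mem_oth.1 (mem_cand.1 (h5 _ (hs hq)).1).1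
      rw [(asm_mem_rq.1 hq).2.1] at hF
      exact hS.nbr hF hy'

include h1 h5 in
theorem asm_sub {x : Atom n W × Bool} (hx : x.1 ∈ sl) (hs : asm_rq x ⊆ srv) :
    asm_nd C φ x ⊆ univ.biUnion C := by
  refine union_subset (((valid_of_mar (h1 _ hx)).1.base_sub _).trans (asm_SS_sub _)) fun y hy => ?_
  obtain ⟨q, hq, rfl⟩ := mem_image.1 hy
  obtain ⟨a, -, ha⟩ := mem_biUnion.1 (h5 _ (hs hq)).2
  exact asm_SS_sub _ (mem_sdiff.1 ha).1

include hS h1 h2 h5 in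
theorem asm_base_img {x x' : Atom n W × Bool} (hx : x.1 ∈ sl) (hs : asm_rq x' ⊆ srv) :
    Disjoint (base C x.1 x.2) ((asm_rq x').image φ) := by
  rw [disjoint_left]
  intro y hy hy'
  obtain ⟨q, hq, rfl⟩ := mem_image.1 hy'
  obtain ⟨a, ha, ha'⟩ := mem_biUnion.1 (h5 _ (hs hq)).2
  by_cases h : x.1 = a
  · subst h
    exact (mem_sdiff.1 ha').2 (asm_base_sub _ _ hy)
  · exact disjoint_left.1 (SS_disj hS (h2 _ hx _ ha h).1 (h2 _ hx _ ha h).2)
      ((valid_of_mar (h1 _ hx)).1.base_sub _ hy) (mem_sdiff.1 ha').1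

include hS h1 h2 h4 h5 in
theorem asm_disj {x x' : Atom n W × Bool} (hx : x.1 ∈ sl) (hx' : x'.1 ∈ sl) (hs : asm_rq x ⊆ srv)
    (hs' : asm_rq x' ⊆ srv) (hne : x ≠ x') : Disjoint (asm_nd C φ x) (asm_nd C φ x') := by
  have hv := (valid_of_mar (h1 _ hx)).1
  refine disjoint_union_left.2 ⟨disjoint_union_right.2 ⟨?_, asm_base_img hS h1 h2 h5 hx hs'⟩,
    disjoint_union_right.2 ⟨(asm_base_img hS h1 h2 h5 hx' hs).symm, ?_⟩⟩
  · by_cases h : x.1 = x'.1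
    · obtain ⟨a, b⟩ := x
      obtain ⟨a', b'⟩ := x'
      obtain rfl : a = a' := h
      cases b <;> cases b'
      · exact absurd rfl hne
      · exact hv.disj.symm
      · exact hv.disj
      · exact absurd rfl hne
    · exact (SS_disj hS (h2 _ hx _ hx' h).1 (h2 _ hx _ hx' h).2).mono (hv.base_sub _)
        ((valid_of_mar (h1 _ hx')).1.base_sub _)
  · rw [disjoint_left]
    intro y hy hy'
    obtain ⟨q, hq, rfl⟩ := mem_image.1 hy
    obtain ⟨q', hq', he⟩ := mem_image.1 hy'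
    obtain rfl : q' = q := h4 (hs' hq') (hs hq) he
    exact hne (asm_rq_uniq h2 hx hx' hq hq')

include hS h1 h2 in
theorem asm_cert (hm : 0 < m) (hp : ∀ k, 0 ≤ p k) {x x' : Atom n W × Bool} (hx : x.1 ∈ sl)
    (hx' : x'.1 ∈ sl) (hne : x.1 ≠ x'.1) (hk : (x.1.2 x.2).k = 1) (hk' : (x'.1.2 x'.2).k = 1)
    (hE : sd x'.1.1 (!x'.2) ∉ Exc r C m (sd x.1.1 x.2) (pg p)) :
    Tch r (asm_nd C φ x) (asm_nd C φ x') := by
  obtain ⟨hv, hr⟩ := valid_of_mar (h1 _ hx)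
  have e1 := hr x.2
  have e2 := (valid_of_mar (h1 _ hx')).2 x'.2
  rw [mr, if_pos hk, lt_min_iff] at e1
  rw [mr, if_pos hk', lt_min_iff] at e2
  rw [asm_nd_one hk, asm_nd_one hk', SS_eq x.1.1 x.2, SS_eq x'.1.1 x'.2]
  exact (cert_tch hS hm (fun y => hp (some y))
    (sd_ne_of (h2 _ hx _ hx' hne).1 (h2 _ hx _ hx' hne).2 _ _).symm hE (hv.cert _ hk).2.2
    (sub_pos.1 e1.2) (sub_pos.1 e2.1)).mono (sdiff_subset_sdiff subset_union_left Subset.rfl)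
    (sdiff_subset_sdiff subset_union_right Subset.rfl)

include hS h1 h2 h4 h5 in
theorem asm_own {x x' : Atom n W × Bool} (hx : x.1 ∈ sl) (hx' : x'.1 ∈ sl) (hs : asm_rq x ⊆ srv)
    (hs' : asm_rq x' ⊆ srv) (hne : x ≠ x') (hk : (x.1.2 x.2).k = 2) (hk' : (x'.1.2 x'.2).k ≠ 0) :
    Tch r (asm_nd C φ x) (asm_nd C φ x') := by
  obtain ⟨y, hy⟩ := (asm_cn hS h1 h5 hx' hk' hs').1
  obtain ⟨j, -, hj⟩ := mem_biUnion.1 (asm_sub h1 h5 hx' hs' hy)
  refine hS.univ_tch (i := sd x.1.1 x.2) ?_ (asm_disj hS h1 h2 h4 h5 hx hx' hs hs' hne) hy hj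
  rw [asm_nd_two hk]
  exact subset_union_left.trans subset_union_left

include h1 in
theorem asm_side {x x' : Atom n W × Bool} (hx : x.1 ∈ sl) (h : x.1 = x'.1)
    (hk : (x.1.2 x.2).k = 1) (hk' : (x'.1.2 x'.2).k ≠ 0) : x = x' := by
  refine Prod.ext h ?_
  by_contra hne
  have := ((valid_of_mar (h1 _ hx)).1.cert _ hk).1
  rw [← Bool.eq_not_of_ne (Ne.symm hne), h] at this
  exact hk' this

include hS h1 h2 h4 h5 in
theorem asm_tch (hm : 0 < m) (hp : ∀ k, 0 ≤ p k) {x x' : Atom n W × Bool} (hx : x.1 ∈ sl)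
    (hx' : x'.1 ∈ sl) (hs : asm_rq x ⊆ srv) (hs' : asm_rq x' ⊆ srv) (hne : x ≠ x')
    (hk : (x.1.2 x.2).k ≠ 0) (hk' : (x'.1.2 x'.2).k ≠ 0)
    (hc : x.1 ≠ x'.1 → ¬ Conf r C m (pg p) x.1 x'.1) : Tch r (asm_nd C φ x) (asm_nd C φ x') := by
  rcases asm_three _ hk with h | h
  · rcases asm_three _ hk' with h' | h'
    · have ha : x.1 ≠ x'.1 := fun e => hne (asm_side h1 hx e h hk')
      by_cases hE : sd x'.1.1 (!x'.2) ∈ Exc r C m (sd x.1.1 x.2) (pg p)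
      · exact (asm_cert hS h1 h2 hm hp hx' hx ha.symm h' h
          fun hE' => hc ha ⟨x.2, x'.2, h, h', hE, hE'⟩).symm hS.symm
      · exact asm_cert hS h1 h2 hm hp hx hx' ha h h' hE
    · exact (asm_own hS h1 h2 h4 h5 hx' hx hs' hs hne.symm h' hk).symm hS.symm
  · exact asm_own hS h1 h2 h4 h5 hx hx' hs hs' hne h hk'

include hS h1 h2 h4 h5 in
theorem asm_main (hm : 0 < m) (hp : ∀ k, 0 ≤ p k) (CP : Finset (Atom n W × Atom n W))
    (hCP : ∀ q, q ∈ CP ↔ (q.1 ∈ sl ∧ q.2 ∈ sl) ∧ q.1 ≠ q.2 ∧ Conf r C m (pg p) q.1 q.2) :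
    ∃ F : Finset (Finset W), Fam r F ∧ (∀ N ∈ F, N ⊆ univ.biUnion C) ∧
      ∑ a ∈ sl, cnt a - ((sl.biUnion req \ srv).card : ℝ) - (CP.card : ℝ) ≤ F.card := by
  classical
  set A := (sl ×ˢ (univ : Finset Bool)).filter fun x => (x.1.2 x.2).k ≠ 0 with hA
  have mA : ∀ x, x ∈ A ↔ x.1 ∈ sl ∧ (x.1.2 x.2).k ≠ 0 := fun x => by simp [hA]
  set I := A.filter fun x => asm_rq x ⊆ srv ∧ ∀ a', (x.1, a') ∉ CP with hI
  have mI : ∀ x ∈ I, (x.1 ∈ sl ∧ (x.1.2 x.2).k ≠ 0) ∧ asm_rq x ⊆ srv ∧ ∀ a', (x.1, a') ∉ CP :=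
    fun x hx => ⟨(mA x).1 (mem_filter.1 hx).1, (mem_filter.1 hx).2⟩
  have hcn : ∀ x ∈ I, Cn r (asm_nd C φ x) := fun x hx =>
    asm_cn hS h1 h5 (mI x hx).1.1 (mI x hx).1.2 (mI x hx).2.1
  have hd : ∀ x ∈ I, ∀ x' ∈ I, x ≠ x' → Disjoint (asm_nd C φ x) (asm_nd C φ x') :=
    fun x hx x' hx' hne =>
      asm_disj hS h1 h2 h4 h5 (mI x hx).1.1 (mI x' hx').1.1 (mI x hx).2.1 (mI x' hx').2.1 hne
  refine ⟨I.image (asm_nd C φ), ⟨forall_mem_image.2 hcn, ?_⟩,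
    forall_mem_image.2 fun x hx => asm_sub h1 h5 (mI x hx).1.1 (mI x hx).2.1, ?_⟩
  · refine forall_mem_image.2 fun x hx => forall_mem_image.2 fun x' hx' hne => ?_
    have hne' : x ≠ x' := fun e => hne (congrArg _ e)
    exact ⟨hd x hx x' hx' hne', asm_tch hS h1 h2 h4 h5 hm hp (mI x hx).1.1 (mI x' hx').1.1
      (mI x hx).2.1 (mI x' hx').2.1 hne' (mI x hx).1.2 (mI x' hx').1.2 fun ha hc =>
        (mI x hx).2.2 x'.1 ((hCP _).2 ⟨⟨(mI x hx).1.1, (mI x' hx').1.1⟩, ha, hc⟩)⟩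
  · rw [card_image_of_disj I _ (fun x hx => (hcn x hx).1) hd, asm_cnt, ← hA]
    have c1 : (A.filter fun x => ¬ asm_rq x ⊆ srv).card ≤ (sl.biUnion req \ srv).card := by
      refine card_le_card_of_forall_subsingleton (fun x q => q ∈ asm_rq x) (fun x hx => ?_)
        fun q _ x hx x' hx' => ?_
      · obtain ⟨q, hq, hq'⟩ := not_subset.1 (mem_filter.1 hx).2
        exact ⟨q, mem_sdiff.2 ⟨mem_biUnion.2 ⟨x.1, ((mA x).1 (mem_filter.1 hx).1).1,
          asm_rq_sub x hq⟩, hq'⟩, hq⟩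
      · exact asm_rq_uniq h2 ((mA x).1 (mem_filter.1 hx.1).1).1
          ((mA x').1 (mem_filter.1 hx'.1).1).1 hx.2 hx'.2
    have c2 : (A.filter fun x => ∃ a', (x.1, a') ∈ CP).card ≤ CP.card := by
      refine card_le_card_of_forall_subsingleton (fun x q => q.1 = x.1) (fun x hx => ?_)
        fun q hq x hx x' hx' => ?_
      · obtain ⟨a', ha'⟩ := (mem_filter.1 hx).2
        exact ⟨_, ha', rfl⟩
      · obtain ⟨⟨hq1, -⟩, -, b, -, hb, -⟩ := (hCP q).1 hq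
        exact (asm_side h1 (x := (q.1, b)) hq1 hx.2 hb ((mA x).1 (mem_filter.1 hx.1).1).2).symm.trans
          (asm_side h1 (x := (q.1, b)) hq1 hx'.2 hb ((mA x').1 (mem_filter.1 hx'.1).1).2)
    have c3 : A ⊆ I ∪ (A.filter fun x => ¬ asm_rq x ⊆ srv) ∪
        A.filter fun x => ∃ a', (x.1, a') ∈ CP := by
      intro x hx
      simp only [hI, mem_union, mem_filter, hx, true_and]
      by_cases e1 : asm_rq x ⊆ srv
      · by_cases e2 : ∃ a', (x.1, a') ∈ CP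
        · exact Or.inr e2
        · exact Or.inl (Or.inl ⟨e1, not_exists.1 e2⟩)
      · exact Or.inl (Or.inr e1)
    have c4 := (card_le_card c3).trans ((card_union_le _ _).trans
      (add_le_add ((card_union_le _ _).trans (add_le_add le_rfl c1)) c2))
    have c5 : (A.card : ℝ) ≤ I.card + (sl.biUnion req \ srv).card + CP.card := by exact_mod_cast c4
    linarith

end Main

open Classical in
theorem assemble (hS : Sy r C) (hm : 0 < m) {p : Option W → ℝ} (hp : ∀ k, 0 ≤ p k)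
    (sl : Finset (Atom n W)) (srv : Finset ((Bool × Fin n) × Finset W))
    (φ : (Bool × Fin n) × Finset W → W) (h1 : ∀ a ∈ sl, 0 < mar r C m a p)
    (h2 : Mt (fun a : Atom n W => a.1) sl) (h3 : srv ⊆ sl.biUnion req) (h4 : Set.InjOn φ srv)
    (h5 : ∀ q ∈ srv, φ q ∈ cand r C q.1 q.2 ∧ φ q ∈ sl.biUnion (spl C)) :
    ∃ F : Finset (Finset W), Fam r F ∧ (∀ N ∈ F, N ⊆ univ.biUnion C) ∧
      ∑ a ∈ sl, cnt a - ((sl.biUnion req \ srv).card : ℝ) -
        (((sl ×ˢ sl).filter fun q => q.1 ≠ q.2 ∧ Conf r C m (pg p) q.1 q.2).card : ℝ) ≤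
        F.card := by
  have _ := h3
  exact asm_main hS h1 h2 h4 h5 hm hp _ fun q => by rw [mem_filter, mem_product]

end Pool.Agent.P.MP_a374b6_co.H
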