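import Pool.Agent.P.MP_a374b6_co.H.Phi

/-! Basic facts on atoms. -/

namespace Pool.Agent.P.MP_a374b6_co.H

open Finset

variable {W : Type} [Fintype W] [DecidableEq W] {n : ℕ} {r : W → W → Prop}
  {C : Bool × Fin n → Finset W} {m : ℕ}

theorem sd_ne (e : Fin n × Fin n) (b : Bool) : sd e b ≠ sd e (!b) := by
  intro h
  have h1 : b = !b := congrArg Prod.fst h
  cases b <;> simp at h1

theorem sd_ne_of {e e' : Fin n × Fin n} (h1 : e.1 ≠ e'.1) (h2 : e.2 ≠ e'.2) (b b' : Bool) :
    sd e b ≠ sd e' b' := by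
  cases b <;> cases b' <;> simp [sd, h1, h2]

theorem SS_eq (e : Fin n × Fin n) (b : Bool) : SS C e = C (sd e b) ∪ C (sd e (!b)) := by
  cases b
  · exact union_comm _ _
  · rfl

theorem SS_disj (hS : Sy r C) {e e' : Fin n × Fin n} (h1 : e.1 ≠ e'.1) (h2 : e.2 ≠ e'.2) :
    Disjoint (SS C e) (SS C e') := by
  have h := fun b b' => hS.disj _ _ (sd_ne_of h1 h2 b b')
  exact disjoint_union_left.2 ⟨disjoint_union_right.2 ⟨h _ _, h _ _⟩,
    disjoint_union_right.2 ⟨h _ _, h _ _⟩⟩

theorem mem_req {a : Atom n W} {q : (Bool × Fin n) × Finset W} :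
    q ∈ req a ↔ (a.2 q.1.1).k = 2 ∧ q.1 = sd a.1 q.1.1 ∧ q.2 ∈ (a.2 q.1.1).T := by
  rw [req, mem_biUnion]
  constructor
  · rintro ⟨b, -, hq⟩
    by_cases h : (a.2 b).k = 2
    · rw [if_pos h] at hq
      obtain ⟨τ, hτ, rfl⟩ := mem_image.1 hq
      exact ⟨h, rfl, hτ⟩
    · rw [if_neg h] at hq
      exact absurd hq (notMem_empty _)
  · rintro ⟨h1, h2, h3⟩
    refine ⟨q.1.1, mem_univ _, ?_⟩
    rw [if_pos h1]
    exact mem_image.2 ⟨q.2, h3, Prod.ext h2.symm rfl⟩

theorem Valid.base_sub {a : Atom n W} (h : Valid r C m a) (b : Bool) : base C a b ⊆ SS C a.1 := by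
  unfold base
  split_ifs with h1 h2
  · exact sdiff_subset
  · rw [SS_eq a.1 b]
    exact union_subset_union Subset.rfl (h.own b h2).1
  · exact empty_subset _

theorem valid_of_mar {a : Atom n W} {p : Option W → ℝ} (h : 0 < mar r C m a p) :
    Valid r C m a ∧ ∀ b, 0 < mr r C m a p b := by
  unfold mar at h
  split_ifs at h with hv
  · refine ⟨hv, fun b => ?_⟩
    cases b
    · exact (lt_min_iff.1 h).2
    · exact (lt_min_iff.1 h).1
  · linarith

omit [Fintype W] [DecidableEq W] in
theorem at_pg : Continuous (pg : (Option W → ℝ) → W → ℝ) :=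
  continuous_pi fun y => continuous_apply (some y)

theorem at_mr (a : Atom n W) (b : Bool) : Continuous fun p => mr r C m a p b := by
  unfold mr
  split_ifs
  · exact (((continuous_apply none).div_const 6).sub ((continuous_ms _).comp at_pg)).min
      (((continuous_phi _).comp at_pg).sub ((continuous_apply none).div_const 6))
  · exact continuous_const

theorem continuous_mar (a : Atom n W) : Continuous (mar r C m a) := by
  unfold mar
  split_ifs
  · exact (at_mr a true).min (at_mr a false)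
  · exact continuous_const

theorem continuous_B0 [NeZero n] (v0 : Bool × Fin n → W) (e : Fin n × Fin n) :
    Continuous (B0 r C m v0 e) := by
  unfold B0
  refine (continuous_apply none).add (continuous_const.max
    (((continuous_apply none).div_const 20).min (Continuous.max ?_ ?_)))
  · exact (((continuous_ms _).comp at_pg).min ((continuous_ms _).comp at_pg)).sub
      (continuous_const.mul (continuous_apply none))
  · exact (continuous_const.mul (continuous_apply none)).sub
      (Continuous.finset_sup'_apply univ_nonempty fun O _ => (continuous_phi _).comp at_pg)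

theorem at_ok {a : Atom n W} (h : Valid r C m a) {q : (Bool × Fin n) × Finset W}
    (hq : q ∈ req a) :
    (a.2 q.1.1).L q.2 ⊆ cand r C q.1 q.2 ∧ ((a.2 q.1.1).L q.2).card = m := by
  obtain ⟨h1, h2, h3⟩ := mem_req.1 hq
  have := (h.own _ h1).2.2 _ h3
  rwa [← h2] at this

theorem at_sum (a : Atom n W) (q : (Bool × Fin n) × Finset W) (g : W → ℝ) :
    ∑ y, g y * dem m a q y = if q ∈ req a then ms g ((a.2 q.1.1).L q.2) / m else 0 := by
  by_cases hq : q ∈ req a
  · simp only [dem, hq, true_and, if_true, mul_ite, mul_zero, sum_ite_mem, univ_inter, ms,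
      sum_div, mul_one_div]
  · simp [dem, hq]

theorem Valid.dem_facts (hm : 0 < m) {a : Atom n W} (h : Valid r C m a) :
    (∀ q y, 0 ≤ dem m a q y ∧ dem m a q y ≤ 1 / m ∧
      (dem m a q y ≠ 0 → q ∈ req a ∧ y ∈ cand r C q.1 q.2)) ∧
    (∀ q ∈ req a, ∑ y, dem m a q y = 1) ∧
    (∀ y, ((req a).filter fun q => y ∈ cand r C q.1 q.2).card ≤ 2) ∧
    ∀ q ∈ req a, q.2 ∈ (oth C q.1).image (typ r C q.1) := by
  have hm' : (0 : ℝ) < m := by exact_mod_cast hm
  refine ⟨fun q y => ?_, fun q hq => ?_, fun y => ?_, fun q hq => ?_⟩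
  · unfold dem
    split_ifs with h1
    · exact ⟨by positivity, le_rfl, fun _ => ⟨h1.1, (at_ok h h1.1).1 h1.2⟩⟩
    · exact ⟨le_rfl, by positivity, fun h2 => absurd rfl h2⟩
  · have h1 := at_sum (m := m) a q fun _ => 1
    simp only [one_mul, if_pos hq, ms, sum_const, (at_ok h hq).2, nsmul_eq_mul, mul_one] at h1
    rw [h1, div_self hm'.ne']
  · refine (card_le_card_of_injOn (t := univ) (fun q => q.1.1) (fun _ _ => mem_univ _)
      fun q hq q' hq' e => ?_).trans (by simp)
    obtain ⟨h1, h2⟩ := mem_filter.1 (mem_coe.1 hq)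
    obtain ⟨h3, h4⟩ := mem_filter.1 (mem_coe.1 hq')
    have h5 : q.1 = q'.1 := by
      rw [(mem_req.1 h1).2.1, (mem_req.1 h3).2.1]
      exact congrArg _ e
    refine Prod.ext h5 ?_
    rw [← (mem_cand.1 h2).2, ← (mem_cand.1 h4).2, h5]
  · obtain ⟨h1, h2⟩ := at_ok h hq
    obtain ⟨y, hy⟩ := card_pos.1 (h2 ▸ hm : 0 < ((a.2 q.1.1).L q.2).card)
    exact mem_image.2 ⟨y, mem_cand.1 (h1 hy)⟩

/-- The value of an atom. -/
theorem value_eq (a : Atom n W) (p : Option W → ℝ) :
    ∑ k, p k * net C m a k = p none * cnt a + ms (pg p) (spl C a) -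
      26 / 25 * ∑ b : Bool,
        if (a.2 b).k = 2 then cost m (a.2 b).T (a.2 b).L (pg p) else 0 := by
  have h1 : ∑ y, pg p y * ∑ q, dem m a q y =
      ∑ b : Bool, if (a.2 b).k = 2 then cost m (a.2 b).T (a.2 b).L (pg p) else 0 := by
    simp only [mul_sum]
    rw [sum_comm]
    simp only [at_sum, sum_ite_mem, univ_inter]
    rw [req, sum_biUnion]
    · refine sum_congr rfl fun b _ => ?_
      split_ifs with h
      · rw [sum_image fun _ _ _ _ e => (Prod.ext_iff.1 e).2]
        rfl
      · rfl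
    · intro b _ b' _ hb
      have key : ∀ c : Bool, ∀ q ∈ (if (a.2 c).k = 2 then (a.2 c).T.image fun τ => (sd a.1 c, τ)
          else ∅), q.1.1 = c := by
        intro c q hq
        split_ifs at hq
        · obtain ⟨τ, -, rfl⟩ := mem_image.1 hq
          rfl
        · exact absurd hq (notMem_empty _)
      exact disjoint_left.2 fun q hq hq' => hb ((key b q hq).symm.trans (key b' q hq'))
  have h2 : ∑ y, pg p y * (if y ∈ spl C a then 1 else 0) = ms (pg p) (spl C a) := by
    simp only [mul_ite, mul_one, mul_zero, sum_ite_mem, univ_inter, ms]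
  rw [Fintype.sum_option, ← h1, ← h2, add_sub_assoc, mul_sum, ← sum_sub_distrib]
  refine congrArg₂ _ rfl (sum_congr rfl fun y _ => ?_)
  simp only [net, pg]
  ring

end Pool.Agent.P.MP_a374b6_co.H
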