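import Pool.Agent.P.MP_a374b6_co.H.Link
import Pool.Agent.P.MP_a374b6_co.H.Pb

/-! The construction for aligned pairs. -/

namespace Pool.Agent.P.MP_a374b6_co.H

open Finset

/-- The cut `(Y, S \ Y)` has both sides large in `U` and `S \ Y` sees nearly all of `Uᶜ`. -/
structure Ctb {W α : Type} [DecidableEq W] [Fintype α] [DecidableEq α] (r : W → W → Prop)
    (nb : W → Finset α) (μ : α → ℝ) (U : Finset α) (S Y : Finset W) : Prop where
  sub : Y ⊆ S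
  c1 : Cn r Y
  c2 : Cn r (S \ Y)
  m1 : 1 / 300 ≤ ms μ (cov nb Y ∩ U)
  m2 : 1 / 300 ≤ ms μ (cov nb (S \ Y) ∩ U)
  m3 : ms μ (Uᶜ \ cov nb (S \ Y)) ≤ 1 / 600

theorem cb_ov {α : Type} [Fintype α] [DecidableEq α] {μ : α → ℝ} (h : Prob μ) {V A B : Finset α}
    (h1 : ms μ (V \ A) ≤ 1 / 600) (h2 : 1 / 300 ≤ ms μ (B ∩ V)) : 1 / 600 ≤ ms μ (A ∩ B) := by
  have := ms_le_of_sub_union h.1 (S := B ∩ V) (T := A ∩ B) (U := V \ A) fun a ha => by
    simp only [mem_inter, mem_union, mem_sdiff] at ha ⊢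
    tauto
  linarith

theorem cb_some {α : Type} [DecidableEq α] {μ : α → ℝ} {V A : Finset α}
    (h1 : ms μ (V \ A) ≤ 1 / 600) (h2 : 1 / 3 ≤ ms μ V) : 1 / 300 ≤ ms μ (A ∩ V) := by
  have := ms_inter_add_sdiff (g := μ) V A
  rw [inter_comm]
  linarith

theorem cb_up {W α : Type} [DecidableEq W] [Fintype α] [DecidableEq α] {nb : W → Finset α}
    {μ : α → ℝ} (h : Prob μ) {V : Finset α} {S T : Finset W} (hST : S ⊆ T)
    (h2 : 1 / 300 ≤ ms μ (cov nb S ∩ V)) : 1 / 300 ≤ ms μ (cov nb T ∩ V) :=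
  h2.trans (ms_mono h.1 (inter_subset_inter_right (cov_mono hST)))

theorem cb_mem_pr {W ι : Type} [DecidableEq W] {C : ι → Finset W} {p : ι × ι} {x : W}
    (hx : x ∈ pr C p) : ∃ a, (a = p.1 ∨ a = p.2) ∧ x ∈ C a := by
  rcases mem_union.1 hx with h | h
  · exact ⟨_, Or.inl rfl, h⟩
  · exact ⟨_, Or.inr rfl, h⟩

/-- The construction, after the groups and the links have been chosen. -/
theorem cc_build {W ι α : Type} [Fintype W] [DecidableEq W] [DecidableEq ι] [Fintype α]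
    [DecidableEq α] {r : W → W → Prop} {nb : W → Finset α} {C : ι → Finset W} {R : Finset ι}
    {μ : α → ℝ} (h : Ctx r nb C R μ) {U : Finset α} (hU : 1 / 3 ≤ ms μ U)
    (hU' : 1 / 3 ≤ ms μ Uᶜ) {M : Finset (ι × ι)} (hM : Mat R M) (Y X : ι × ι → Finset W)
    {ρ : ℝ} (hρ : ρ ≤ 1 / 600) {j k : ℕ} (hj : 1 ≤ j) (g : Fin k → Finset (ι × ι))
    (q : Fin k → ι × ι) (Rv : Finset ι) (hg : ∀ i, g i ⊆ M ∧ (g i).Nonempty)
    (hgd : ∀ i i', i ≠ i' → Disjoint (g i) (g i')) (hq : Function.Injective q)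
    (hqM : ∀ i, q i ∈ M) (hqg : ∀ i i', q i ∉ g i') (hR : Rv ⊆ R) (hRk : Rv.card = k + 1)
    (hRg : ∀ i, Disjoint Rv (cls (g i))) (hRq : ∀ i, (q i).1 ∉ Rv ∧ (q i).2 ∉ Rv)
    (hY : ∀ i, ∀ p ∈ g i, Ctb r nb μ U (pr C p) (Y p))
    (hX : ∀ i, Ctb r nb μ Uᶜ (pr C (q i)) (X (q i)))
    (hpre : ∀ i, Pre r nb μ ρ j ((g i).biUnion Y))
    (hov : ∀ i i', ρ ≤ ms μ (cov nb ((g i).biUnion Y) ∩ cov nb ((g i').biUnion Y))) :
    Gain r nb C R μ ρ (j + 2) ((k : ℝ) - 1) := by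
  have hs := h.sy.symm
  choose P hP using fun i => (hg i).2
  choose y hy using fun i => (hY i _ (hP i)).c1.1
  choose x hx using fun i => (hX i).c1.1
  have hM1 : ∀ {p p' : ι × ι} {z : W}, p ∈ M → p' ∈ M → z ∈ pr C p → z ∈ pr C p' → p = p' := by
    intro p p' z h1 h2 h3 h4
    by_contra hne
    exact disjoint_left.1 (hM.disj_pr h.sy h1 h2 hne) h3 h4
  have hgg : ∀ {i i' : Fin k} {p p' : ι × ι} {z : W}, p ∈ g i → p' ∈ g i' → z ∈ pr C p →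
      z ∈ pr C p' → i = i' ∧ p = p' := by
    intro i i' p p' z h1 h2 h3 h4
    have e := hM1 ((hg i).1 h1) ((hg i').1 h2) h3 h4
    refine ⟨?_, e⟩
    by_contra hne
    exact disjoint_left.1 (hgd i i' hne) h1 (e ▸ h2)
  have hgq : ∀ {i i' : Fin k} {p : ι × ι} {z : W}, p ∈ g i → z ∈ pr C p → z ∈ pr C (q i') →
      False := fun {i i' p z} h1 h2 h3 => hqg i' i (hM1 ((hg i).1 h1) (hqM i') h2 h3 ▸ h1)
  have hqq : ∀ {i i' : Fin k} {z : W}, z ∈ pr C (q i) → z ∈ pr C (q i') → i = i' :=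
    fun h1 h2 => hq (hM1 (hqM _) (hqM _) h1 h2)
  have hgR : ∀ {i : Fin k} {p : ι × ι} {z : W}, p ∈ g i → z ∈ pr C p → ∃ a, a ∉ Rv ∧ z ∈ C a := by
    intro i p z h1 h2
    obtain ⟨a, ha, hz⟩ := cb_mem_pr h2
    exact ⟨a, fun h3 => disjoint_left.1 (hRg i) h3 (mem_cls.2 ⟨p, h1, ha⟩), hz⟩
  have hqR : ∀ {i : Fin k} {z : W}, z ∈ pr C (q i) → ∃ a, a ∉ Rv ∧ z ∈ C a := by
    intro i z h2
    obtain ⟨a, ha, hz⟩ := cb_mem_pr h2
    refine ⟨a, ?_, hz⟩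
    rcases ha with rfl | rfl
    · exact (hRq i).1
    · exact (hRq i).2
  have hy' : ∀ i, y i ∈ pr C (P i) := fun i => (hY i _ (hP i)).sub (hy i)
  have hx' : ∀ i, x i ∈ pr C (q i) := fun i => (hX i).sub (hx i)
  obtain ⟨π, T, hπ, hT, hTd⟩ := link h.sy Rv hRk.ge y x
    (fun i i' e => (hgg (hP i) (hP i') (hy' i) (e ▸ hy' i')).1)
    (fun i i' e => hqq (hx' i) (e ▸ hx' i')) (fun i i' e => hgq (hP i) (hy' i) (e ▸ hx' i'))
    (fun i => hgR (hP i) (hy' i)) fun i => hqR (hx' i)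
  have hTR : ∀ {i : Fin k} {z : W}, z ∈ T i → (∃ a, a ∉ Rv ∧ z ∈ C a) → False := by
    rintro i z h1 ⟨a, ha, hz⟩
    obtain ⟨b, hb, hz'⟩ := mem_biUnion.1 ((hT i).1 h1)
    exact ha (h.sy.eq_of_mem hz hz' ▸ hb)
  obtain ⟨N3, hN3⟩ : ∃ N3 : Fin k → Finset W, ∀ i, N3 i =
      (g i).biUnion Y ∪ insert (y i) (insert (x (π i)) (T i)) ∪ X (q (π i)) := ⟨_, fun _ => rfl⟩
  have hyb : ∀ i, y i ∈ (g i).biUnion Y := fun i => mem_biUnion.2 ⟨_, hP i, hy i⟩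
  have m3 : ∀ {i : Fin k} {z : W}, z ∈ N3 i →
      (∃ p ∈ g i, z ∈ Y p ∧ z ∈ pr C p) ∨ z ∈ T i ∨ (z ∈ X (q (π i)) ∧ z ∈ pr C (q (π i))) := by
    intro i z hz
    rw [hN3, mem_union, mem_union, mem_insert, mem_insert, mem_biUnion] at hz
    rcases hz with (⟨p, h1, h2⟩ | rfl | rfl | h1) | h1
    · exact Or.inl ⟨p, h1, h2, (hY i p h1).sub h2⟩
    · exact Or.inl ⟨_, hP i, hy i, hy' i⟩
    · exact Or.inr (Or.inr ⟨hx _, hx' _⟩)
    · exact Or.inr (Or.inl h1)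
    · exact Or.inr (Or.inr ⟨h1, (hX _).sub h1⟩)
  have s3 : ∀ i, (g i).biUnion Y ⊆ N3 i := fun i => by
    rw [hN3]
    exact subset_union_left.trans subset_union_left
  have s3' : ∀ i, X (q (π i)) ⊆ N3 i := fun i => by
    rw [hN3]
    exact subset_union_right
  obtain ⟨G, hG⟩ : ∃ G : Finset (ι × ι), ∀ p, p ∈ G ↔ ∃ i, p ∈ g i :=
    ⟨univ.biUnion g, fun p => by simp⟩
  have hGM : G ⊆ M := fun p hp => by
    obtain ⟨i, hi⟩ := (hG p).1 hp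
    exact (hg i).1 hi
  have hQM : univ.image q ⊆ M := fun p hp => by
    obtain ⟨i, -, rfl⟩ := mem_image.1 hp
    exact hqM i
  obtain ⟨N, n1, n2, n3⟩ : ∃ N : (ι × ι) ⊕ Fin k ⊕ Fin k → Finset W,
      (∀ p, N (.inl p) = pr C p \ Y p) ∧ (∀ i, N (.inr (.inl i)) = pr C (q i) \ X (q i)) ∧
        ∀ i, N (.inr (.inr i)) = N3 i :=
    ⟨Sum.elim (fun p => pr C p \ Y p) (Sum.elim (fun i => pr C (q i) \ X (q i)) N3),
      fun _ => rfl, fun _ => rfl, fun _ => rfl⟩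
  have hI : ∀ a ∈ G.disjSum (univ : Finset (Fin k ⊕ Fin k)),
      (∃ i p, p ∈ g i ∧ a = .inl p) ∨ (∃ i, a = .inr (.inl i)) ∨ ∃ i, a = .inr (.inr i) := by
    rintro (p | i | i) ha
    · obtain ⟨i, hi⟩ := (hG p).1 (inl_mem_disjSum.1 ha)
      exact Or.inl ⟨i, p, hi, rfl⟩
    · exact Or.inr (Or.inl ⟨i, rfl⟩)
    · exact Or.inr (Or.inr ⟨i, rfl⟩)
  have hsome : ∀ a ∈ G.disjSum (univ : Finset (Fin k ⊕ Fin k)),
      1 / 300 ≤ ms μ (cov nb (N a) ∩ U) ∧ 1 / 300 ≤ ms μ (cov nb (N a) ∩ Uᶜ) := by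
    intro a ha
    rcases hI a ha with ⟨i, p, hp, rfl⟩ | ⟨i, rfl⟩ | ⟨i, rfl⟩
    · rw [n1]
      exact ⟨(hY i p hp).m2, cb_some (hY i p hp).m3 hU'⟩
    · rw [n2]
      have := (hX i).m3
      rw [compl_compl] at this
      exact ⟨cb_some this hU, (hX i).m2⟩
    · rw [n3]
      exact ⟨cb_up h.pb ((subset_biUnion_of_mem Y (hP i)).trans (s3 i)) (hY i _ (hP i)).m1,
        cb_up h.pb (s3' i) (hX _).m1⟩
  have hnr : ∀ a ∈ G.disjSum (univ : Finset (Fin k ⊕ Fin k)),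
      ∀ b ∈ G.disjSum (univ : Finset (Fin k ⊕ Fin k)),
      Nr r nb μ ρ (N a) (N b) ∨ ∃ i, a = .inr (.inr i) := by
    intro a ha b hb
    rcases hI a ha with ⟨i, p, hp, rfl⟩ | ⟨i, rfl⟩ | h3
    · rw [n1]
      exact Or.inl (Or.inr (hρ.trans (cb_ov h.pb (hY i p hp).m3 (hsome b hb).2)))
    · rw [n2]
      have := (hX i).m3
      rw [compl_compl] at this
      exact Or.inl (Or.inr (hρ.trans (cb_ov h.pb this (hsome b hb).1)))
    · exact Or.inr h3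
  have d13 : ∀ {i i' : Fin k} {p : ι × ι} {z : W}, p ∈ g i → z ∈ pr C p \ Y p → z ∈ N3 i' →
      False := by
    intro i i' p z hp h1 h2
    obtain ⟨h1, h1'⟩ := mem_sdiff.1 h1
    rcases m3 h2 with ⟨p', k1, k2, k3⟩ | k1 | k1
    · exact h1' ((hgg hp k1 h1 k3).2 ▸ k2)
    · exact hTR k1 (hgR hp h1)
    · exact hgq hp h1 k1.2
  have d23 : ∀ {i i' : Fin k} {z : W}, z ∈ pr C (q i) \ X (q i) → z ∈ N3 i' → False := by
    intro i i' z h1 h2
    obtain ⟨h1, h1'⟩ := mem_sdiff.1 h1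
    rcases m3 h2 with ⟨p', k1, -, k3⟩ | k1 | k1
    · exact hgq k1 k3 h1
    · exact hTR k1 (hqR h1)
    · exact h1' (hqq h1 k1.2 ▸ k1.1)
  have d33 : ∀ {i i' : Fin k} {z : W}, z ∈ N3 i → z ∈ N3 i' → i = i' := by
    intro i i' z h1 h2
    rcases m3 h1 with ⟨p, l1, -, l3⟩ | l1 | l1 <;> rcases m3 h2 with ⟨p', k1, -, k3⟩ | k1 | k1
    · exact (hgg l1 k1 l3 k3).1
    · exact (hTR k1 (hgR l1 l3)).elim
    · exact (hgq l1 l3 k1.2).elim
    · exact (hTR l1 (hgR k1 k3)).elim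
    · by_contra hne
      exact disjoint_left.1 (hTd i i' hne) l1 k1
    · exact (hTR l1 (hqR k1.2)).elim
    · exact (hgq k1 k3 l1.2).elim
    · exact (hTR k1 (hqR l1.2)).elim
    · exact hπ (hqq l1.2 k1.2)
  have u1 : ∀ {i : Fin k} {p : ι × ι}, p ∈ g i →
      pr C p ⊆ (cls G ∪ cls (univ.image q) ∪ Rv).biUnion C := fun {i p} hp =>
    (pr_sub ((hG p).2 ⟨i, hp⟩)).trans
      (biUnion_subset_biUnion_of_subset_left _ (subset_union_left.trans subset_union_left))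
  have u2 : ∀ i, pr C (q i) ⊆ (cls G ∪ cls (univ.image q) ∪ Rv).biUnion C := fun i =>
    (pr_sub (mem_image_of_mem q (mem_univ i))).trans
      (biUnion_subset_biUnion_of_subset_left _ (subset_union_right.trans subset_union_left))
  refine gain_of_idx (G.disjSum (univ : Finset (Fin k ⊕ Fin k))) N
    (cls G ∪ cls (univ.image q) ∪ Rv)
    (union_subset (union_subset ((cls_mono hGM).trans hM.cls_sub)
      ((cls_mono hQM).trans hM.cls_sub)) hR) (fun a ha => ?_) (fun a ha b hb hab => ⟨?_, ?_⟩) ?_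
  · rcases hI a ha with ⟨i, p, hp, rfl⟩ | ⟨i, rfl⟩ | ⟨i, rfl⟩
    · rw [n1]
      exact ⟨(hY i p hp).c2.pre (by omega), sdiff_subset.trans (u1 hp)⟩
    · rw [n2]
      exact ⟨(hX i).c2.pre (by omega), sdiff_subset.trans (u2 i)⟩
    · rw [n3]
      refine ⟨?_, fun z hz => ?_⟩
      · rw [hN3]
        exact ((hpre i).union hs h.pb ((hT i).2.pre le_rfl)
          (Or.inl ⟨y i, hyb i, mem_insert_self _ _⟩)).union hs h.pb ((hX (π i)).c1.pre le_rfl)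
          (Or.inl ⟨x (π i), mem_union_right _ (mem_insert_of_mem (mem_insert_self _ _)), hx _⟩)
      · rcases m3 hz with ⟨p, k1, -, k3⟩ | k1 | k1
        · exact u1 k1 k3
        · exact biUnion_subset_biUnion_of_subset_left _ subset_union_right ((hT i).1 k1)
        · exact u2 _ k1.2
  · refine disjoint_left.2 fun z h1 h2 => hab ?_
    rcases hI a ha with ⟨i, p, hp, rfl⟩ | ⟨i, rfl⟩ | ⟨i, rfl⟩ <;>
      rcases hI b hb with ⟨i', p', hp', rfl⟩ | ⟨i', rfl⟩ | ⟨i', rfl⟩ <;>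
      simp only [n1, n2, n3] at h1 h2
    · rw [(hgg hp hp' (mem_sdiff.1 h1).1 (mem_sdiff.1 h2).1).2]
    · exact (hgq hp (mem_sdiff.1 h1).1 (mem_sdiff.1 h2).1).elim
    · exact (d13 hp h1 h2).elim
    · exact (hgq hp' (mem_sdiff.1 h2).1 (mem_sdiff.1 h1).1).elim
    · rw [hqq (mem_sdiff.1 h1).1 (mem_sdiff.1 h2).1]
    · exact (d23 h1 h2).elim
    · exact (d13 hp' h2 h1).elim
    · exact (d23 h2 h1).elim
    · rw [d33 h1 h2]
  · rcases hnr a ha b hb with h1 | ⟨i, rfl⟩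
    · exact h1
    rcases hnr b hb _ ha with h1 | ⟨i', rfl⟩
    · exact h1.symm hs
    rw [n3, n3]
    exact Nr.mono h.pb (Or.inr (hov i i')) (s3 i) (s3 i') le_rfl
  · have c1 := (hM.mono hGM Subset.rfl).card_cls
    have c2 := (hM.mono hQM Subset.rfl).card_cls
    rw [card_image_of_injective _ hq, card_univ, Fintype.card_fin] at c2
    have c3 := card_union_le (cls G ∪ cls (univ.image q)) Rv
    have c4 := card_union_le (cls G) (cls (univ.image q))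
    have c5 : (cls G ∪ cls (univ.image q) ∪ Rv).card + k ≤ 2 * (G.card + (k + k)) + 1 := by omega
    rw [card_disjSum, card_univ, Fintype.card_sum, Fintype.card_fin]
    have c6 : (((cls G ∪ cls (univ.image q) ∪ Rv).card + k : ℕ) : ℝ) ≤
      ((2 * (G.card + (k + k)) + 1 : ℕ) : ℝ) := by exact_mod_cast c5
    push_cast at c6 ⊢
    linarith

end Pool.Agent.P.MP_a374b6_co.H
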