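import Pool.Agent.P.MP_a374b6_co.H.Gb
import Pool.Agent.P.MP_0cc987_co.Menger

/-! Disjoint links through intact classes. -/

namespace Pool.Agent.P.MP_a374b6_co.H

open Finset

variable {W ι : Type} [Fintype W] [DecidableEq W] [DecidableEq ι] {r : W → W → Prop}
  {C : ι → Finset W}

section

open Pool.Agent.P.MP_0cc987_co (Wk Rch menger)

/-- The graph of a symmetric relation. -/
def link_G (hs : ∀ x y, r x y → r y x) : SimpleGraph W where
  Adj x y := r x y ∧ x ≠ y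
  symm := ⟨fun _ _ h => ⟨hs _ _ h.1, h.2.symm⟩⟩
  loopless := ⟨fun _ h => h.2 rfl⟩

omit [Fintype W] in
theorem link_rch (hs : ∀ x y, r x y → r y x) {T : Finset W} (hT : Cn r T) {a b : W} (ha : a ∈ T)
    (hb : b ∈ T) : Rch (link_G hs) ↑T a b := by
  classical
  have h := hT.eq_of_closed (filter_subset (fun x => Rch (link_G hs) ↑T a x) T)
    ⟨a, mem_filter.2 ⟨ha, 0, Wk.nil ha⟩⟩ fun x hx y hy hxy => by
      by_cases e : x = y
      · exact e ▸ hx
      · obtain ⟨n, hn⟩ := (mem_filter.1 hx).2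
        exact mem_filter.2 ⟨hy, _, hn.snoc ⟨hxy, e⟩ hy⟩
  rw [← h] at hb
  exact (mem_filter.1 hb).2

omit [Fintype W] in
theorem link_cn (hs : ∀ x y, r x y → r y x) {S : Set W} {u v : W} {n : ℕ}
    (h : Wk (link_G hs) S u v n) : ∃ T : Finset W, ↑T ⊆ S ∧ u ∈ T ∧ v ∈ T ∧ Cn r T := by
  induction h with
  | @nil a h => exact ⟨{a}, by simpa using h, by simp, by simp, cn_singleton a⟩
  | @cons a b c n h1 h2 _ ih =>
    obtain ⟨T, h3, h4, h5, h6⟩ := ih
    refine ⟨insert a T, ?_, mem_insert_self _ _, mem_insert_of_mem h5,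
      h6.extend hs (subset_insert _ _) fun y hy => ?_⟩
    · rw [coe_insert]
      exact Set.insert_subset h1 h3
    · rcases mem_insert.1 hy with rfl | hy
      · exact Or.inr ⟨b, h4, hs _ _ h2.1⟩
      · exact Or.inl hy

omit [Fintype W] in
theorem link_miss {k : ℕ} {p : Fin k → W} (hp : Function.Injective p) {X : Finset W}
    (hX : X.card < k) : ∃ i, p i ∉ X := by
  by_contra h
  push Not at h
  have h1 := card_le_card (image_subset_iff.2 fun i (_ : i ∈ univ) => h i)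
  rw [card_image_of_injective _ hp, card_univ, Fintype.card_fin] at h1
  omega

omit [Fintype W] in
theorem link_two (hS : Sy r C) {Rv : Finset ι} {X : Finset W} (hX : X.card + 2 ≤ Rv.card) :
    ∃ B ∈ Rv, ∃ B' ∈ Rv, B ≠ B' ∧ ∀ x ∈ X, x ∉ C B ∪ C B' := by
  have h1 : (X.biUnion fun x => Rv.filter fun a => x ∈ C a).card ≤ X.card * 1 :=
    card_biUnion_le_card_mul _ _ _ fun x _ => card_le_one.2 fun a ha b hb =>
      hS.eq_of_mem (mem_filter.1 ha).2 (mem_filter.1 hb).2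
  have h2 := le_card_sdiff (X.biUnion fun x => Rv.filter fun a => x ∈ C a) Rv
  obtain ⟨B, hB, B', hB', h3⟩ := one_lt_card.1 (lt_of_lt_of_le (by omega) h2)
  rw [mem_sdiff] at hB hB'
  refine ⟨B, hB.1, B', hB'.1, h3, fun x hx h => ?_⟩
  rcases mem_union.1 h with h | h
  · exact hB.2 (mem_biUnion.2 ⟨x, hx, mem_filter.2 ⟨hB.1, h⟩⟩)
  · exact hB'.2 (mem_biUnion.2 ⟨x, hx, mem_filter.2 ⟨hB'.1, h⟩⟩)

theorem link_sep (hS : Sy r C) {k : ℕ} (Rv : Finset ι) (hk : k + 1 ≤ Rv.card) (p q : Fin k → W)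
    (hp : Function.Injective p) (hq : Function.Injective q)
    (hpC : ∀ i, ∃ a, a ∉ Rv ∧ p i ∈ C a) (hqC : ∀ i, ∃ a, a ∉ Rv ∧ q i ∈ C a) :
    ∃ (P : Fin k → Set W) (a b : Fin k → W),
      (∀ i, P i ⊆ ↑(Rv.biUnion C) ∪ (Set.range p ∪ Set.range q) ∧ a i ∈ Set.range p ∧
        b i ∈ Set.range q ∧ (∃ T : Finset W, ↑T ⊆ P i ∧ a i ∈ T ∧ b i ∈ T ∧ Cn r T) ∧
        (∀ x ∈ P i, x ∈ Set.range p → x = a i) ∧ (∀ x ∈ P i, x ∈ Set.range q → x = b i)) ∧
      ∀ i j x, x ∈ P i → x ∈ P j → i = j := by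
  obtain ⟨P, a, b, n, h1, h2⟩ := menger W (link_G hS.symm)
    (↑(Rv.biUnion C) ∪ (Set.range p ∪ Set.range q)) (Set.range p) (Set.range q) k fun X hX => by
      obtain ⟨i, hi⟩ := link_miss hp hX
      obtain ⟨j, hj⟩ := link_miss hq hX
      obtain ⟨B, hB, B', hB', h1, h2⟩ := link_two hS (Rv := Rv) (X := X) (by omega)
      have h3 : ∀ y, (∃ a, a ∉ Rv ∧ y ∈ C a) → ∃ x ∈ C B ∪ C B', r x y := by
        rintro y ⟨a, ha, hy⟩
        obtain ⟨x, hx, h⟩ := hS.nbr (i := a) (j := B) (fun e => ha (e ▸ hB)) hy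
        exact ⟨x, mem_union_left _ hx, hS.symm _ _ h⟩
      have h4 : Cn r (insert (p i) (insert (q j) (C B ∪ C B'))) := by
        refine (hS.conn B B' h1).extend hS.symm
          ((subset_insert _ _).trans (subset_insert _ _)) fun y hy => ?_
        rcases mem_insert.1 hy with rfl | hy
        · exact Or.inr (h3 _ (hpC i))
        rcases mem_insert.1 hy with rfl | hy
        · exact Or.inr (h3 _ (hqC j))
        · exact Or.inl hy
      obtain ⟨n, hn⟩ := link_rch hS.symm h4 (mem_insert_self _ _)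
        (mem_insert_of_mem (mem_insert_self _ _))
      refine ⟨_, ⟨i, rfl⟩, _, ⟨j, rfl⟩, n, hn.mono fun y hy => ?_⟩
      rcases mem_insert.1 hy with rfl | hy
      · exact ⟨Or.inr (Or.inl ⟨i, rfl⟩), hi⟩
      rcases mem_insert.1 hy with rfl | hy
      · exact ⟨Or.inr (Or.inr ⟨j, rfl⟩), hj⟩
      refine ⟨Or.inl (mem_coe.2 ?_), fun h => h2 y h hy⟩
      rcases mem_union.1 hy with h | h
      · exact mem_biUnion.2 ⟨B, hB, h⟩
      · exact mem_biUnion.2 ⟨B', hB', h⟩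
  exact ⟨P, a, b, fun i => let ⟨k1, k2, k3, k4, k5⟩ := h1 i
    ⟨k1, k2, k3, link_cn hS.symm k4.wk, k5⟩, h2⟩

end

theorem link (hS : Sy r C) {k : ℕ} (Rv : Finset ι) (hk : k + 1 ≤ Rv.card) (p q : Fin k → W)
    (hp : Function.Injective p) (hq : Function.Injective q) (hpq : ∀ i j, p i ≠ q j)
    (hpC : ∀ i, ∃ a, a ∉ Rv ∧ p i ∈ C a) (hqC : ∀ i, ∃ a, a ∉ Rv ∧ q i ∈ C a) :
    ∃ (π : Fin k → Fin k) (T : Fin k → Finset W), Function.Injective π ∧
      (∀ i, T i ⊆ Rv.biUnion C ∧ Cn r (insert (p i) (insert (q (π i)) (T i)))) ∧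
      ∀ i j, i ≠ j → Disjoint (T i) (T j) := by
  obtain ⟨P, a, b, h1, h2⟩ := link_sep hS Rv hk p q hp hq hpC hqC
  choose k1 k2 k3 k4 k5 k6 using h1
  choose α hα using k2
  choose β hβ using k3
  choose T t1 t2 t3 t4 using k4
  have hαi : Function.Injective α := fun i j e =>
    h2 i j (a i) (t1 i (t2 i)) (by rw [← hα i, e, hα j]; exact t1 j (t2 j))
  have hβi : Function.Injective β := fun i j e =>
    h2 i j (b i) (t1 i (t3 i)) (by rw [← hβ i, e, hβ j]; exact t1 j (t3 j))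
  obtain ⟨σ, hσ⟩ := (Finite.surjective_of_injective hαi).hasRightInverse
  refine ⟨β ∘ σ, fun i => T (σ i) ∩ Rv.biUnion C, hβi.comp hσ.injective,
    fun i => ⟨inter_subset_right, ?_⟩, fun i j hij => disjoint_left.2 fun x hx hx' =>
      hij (hσ.injective (h2 _ _ x (t1 _ (mem_inter.1 hx).1) (t1 _ (mem_inter.1 hx').1)))⟩
  have h3 : p i = a (σ i) := by rw [← hα, hσ i]
  rw [h3, Function.comp_apply, hβ]
  convert t4 (σ i) using 1
  refine Subset.antisymm (insert_subset (t2 _) (insert_subset (t3 _) inter_subset_left))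
    fun x hx => ?_
  rcases k1 _ (t1 _ hx) with h | h | h
  · exact mem_insert_of_mem (mem_insert_of_mem (mem_inter.2 ⟨hx, h⟩))
  · exact k5 _ x (t1 _ hx) h ▸ mem_insert_self _ _
  · exact k6 _ x (t1 _ hx) h ▸ mem_insert_of_mem (mem_insert_self _ _)

end Pool.Agent.P.MP_a374b6_co.H
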