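import Pool.Agent.P.MP_a374b6_co.H.Ma1

/-! The merge or align lemma. -/

namespace Pool.Agent.P.MP_a374b6_co.H

open Finset

section

variable {α κ : Type} [Fintype α] [DecidableEq α] [DecidableEq κ] {μ : α → ℝ} {y0 γ ρ : ℝ}
  {j : ℕ} {I : Finset κ} {H X : κ → Finset α}

theorem ma2_mono {c c' z : ℝ} {I' : Finset κ} (hI : I' ⊆ I) (hc : c' * I.card ≤ c * I'.card)
    (h : MaGr μ ρ c j I' H X ∨ MaAl μ z c I' H X) : MaGr μ ρ c' j I H X ∨ MaAl μ z c' I H X := by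
  rcases h with ⟨G, h1, h2, h3⟩ | ⟨U, J, h1, h2, h3⟩
  · exact Or.inl ⟨G, fun g hg => ⟨(h1 g hg).1.trans hI, (h1 g hg).2⟩, h2, hc.trans h3⟩
  · exact Or.inr ⟨U, J, h1.trans hI, hc.trans h2, h3⟩

omit [Fintype α] in
theorem ma2_zero (hj : 1 ≤ j) (hρ : ρ ≤ 1 / 2)
    (h : ∀ i ∈ I, 1 ≤ ms μ (H i) ∧ 1 / 2 + ρ ≤ ms μ (X i)) : MaGr μ ρ 1 j I H X := by
  refine ⟨I.image fun i => {i}, forall_mem_image.2 fun i hi => ⟨singleton_subset_iff.2 hi,
    ⟨singleton_nonempty i, by simpa using hj, fun g h1 h2 h3 => ?_, ?_⟩, fun k hk => ?_⟩,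
    forall_mem_image.2 fun i _ => forall_mem_image.2 fun k _ hne => ?_, ?_⟩
  · exact absurd (h2.subset_singleton_iff.1 h1) h3
  · rw [singleton_biUnion]
    linarith [(h i hi).1]
  · rw [mem_singleton.1 hk]
    exact (h i hi).2
  · exact disjoint_singleton.2 fun e => hne (congrArg _ e)
  · rw [card_image_of_injective _ singleton_injective, one_mul]

omit [Fintype α] [DecidableEq α] [DecidableEq κ] in
theorem ma2_half (P : κ → Prop) (I : Finset κ) :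
    ∃ I1 ⊆ I, I.card ≤ 2 * I1.card ∧ ((∀ i ∈ I1, P i) ∨ ∀ i ∈ I1, ¬ P i) := by
  classical
  have h := card_filter_add_card_filter_not (s := I) P
  by_cases hc : I.card ≤ 2 * (I.filter P).card
  · exact ⟨_, filter_subset _ _, hc, Or.inl fun i hi => (mem_filter.1 hi).2⟩
  · exact ⟨I.filter fun i => ¬ P i, filter_subset _ _, by omega,
      Or.inr fun i hi => (mem_filter.1 hi).2⟩

omit [DecidableEq κ] in
theorem ma2_final (hp : Prob μ) (h3 : γ ≤ 1 / 12) (hρ : 0 < ρ) (hργ : ρ ≤ γ) {V : Finset α}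
    (hV1 : 1 / 2 - 2 * γ ≤ ms μ V) (hV2 : ms μ V ≤ 1 / 2 + 2 * γ)
    (h : ∀ i ∈ I, H i ∪ X i = univ ∧ ms μ (X i) < 1 / 2 + 2 * γ ∧ ms μ (H i \ V) < ρ) :
    MaAl μ (5 * γ) 1 I H X := by
  have hc := hp.compl V
  refine ⟨V, I, Subset.rfl, (one_mul _).le, by linarith, by linarith, fun i hi => ?_⟩
  obtain ⟨a1, a2, a3⟩ := h i hi
  have a4 := ms_inter_add_sdiff (g := μ) (X i) V
  have a5 : ms μ Vᶜ ≤ ms μ (H i \ V) + ms μ (X i \ V) := ms_le_of_sub_union hp.1 fun a ha => by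
    rw [← union_sdiff_distrib, a1]
    exact mem_sdiff.2 ⟨mem_univ a, mem_compl.1 ha⟩
  exact ⟨by linarith, by linarith⟩

theorem ma2_mix (hp : Prob μ) (h0 : 0 < y0) (h1 : y0 ≤ 1 / 4) (h2 : 0 < γ) (h3 : γ ≤ 1 / 12)
    (hρ : 0 < ρ) (hρy : ρ ≤ y0 ^ 2 / 2) {V : Finset α} (hV1 : y0 ≤ ms μ V) (hV2 : ms μ V ≤ 1 - y0)
    {S T : Finset α} (hS : y0 ≤ ms μ S) (hT : 1 / 2 + 2 * γ ≤ ms μ T) (hSV : ms μ (S \ V) < ρ) :
    ms μ S + γ * y0 ^ 2 / 4 ≤ ms (mix μ V γ) S ∧ 1 / 2 + γ ≤ ms (mix μ V γ) T := by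
  have hV : 0 < ms μ V := h0.trans_le hV1
  constructor
  · have a1 := ms_inter_add_sdiff (g := μ) S V
    have a2 : ms μ S + y0 ^ 2 / 4 ≤ ms μ (S ∩ V) / ms μ V := by
      rw [le_div_iff₀ hV]
      have a3 : (ms μ S + y0 ^ 2 / 4) * ms μ V ≤ (ms μ S + y0 ^ 2 / 4) * (1 - y0) :=
        mul_le_mul_of_nonneg_left hV2 (by nlinarith)
      nlinarith [mul_le_mul_of_nonneg_left hS h0.le, mul_pos h0 (mul_pos h0 h0)]
    rw [ms_mix]
    nlinarith [mul_le_mul_of_nonneg_left a2 h2.le]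
  · have a1 : 0 ≤ ms μ (T ∩ V) / ms μ V := div_nonneg (ms_nonneg hp.1 _) hV.le
    rw [ms_mix]
    nlinarith [mul_le_mul_of_nonneg_left hT (by linarith : 0 ≤ 1 - γ), mul_nonneg h2.le a1]

theorem ma2_ind (h0 : 0 < y0) (h1 : y0 ≤ 1 / 4) (h2 : 0 < γ) (h3 : γ ≤ 1 / 12) (hρ : 0 < ρ)
    (hργ : ρ ≤ γ) (hρy : ρ ≤ y0 ^ 2 / 2) (hj : 1 ≤ ρ * j) (H X : κ → Finset α) (n : ℕ) :
    ∀ (μ : α → ℝ) (I : Finset κ), Prob μ →
      (∀ i ∈ I, H i ∪ X i = univ ∧ y0 ≤ ms μ (H i) ∧ 1 / 2 + γ ≤ ms μ (X i)) →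
      (∀ i ∈ I, 1 - n * (γ * y0 ^ 2 / 4) ≤ ms μ (H i)) →
      ∃ ν : α → ℝ, Prob ν ∧ (∀ a, ν a ≤ (2 / y0) ^ n * μ a) ∧
        (MaGr ν ρ (1 / (4 * j) / 8 ^ n) j I H X ∨ MaAl ν (5 * γ) (1 / (4 * j) / 8 ^ n) I H X) := by
  have hj1 : 1 ≤ j := Nat.pos_of_ne_zero fun e => by
    rw [e, Nat.cast_zero, mul_zero] at hj
    linarith
  have hjr : (1 : ℝ) ≤ j := by exact_mod_cast hj1
  have hc1 : 1 / (4 * (j : ℝ)) ≤ 1 := by
    rw [div_le_one (by linarith)]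
    linarith
  have hc2 : ∀ n : ℕ, 1 / (4 * (j : ℝ)) / 8 ^ n ≤ 1 / (4 * j) := fun n =>
    div_le_self (by positivity) (one_le_pow₀ (by norm_num))
  have hB : 1 ≤ 2 / y0 := by
    rw [one_le_div h0]
    linarith
  induction n with
  | zero =>
    intro μ I hp hI hn
    refine ⟨μ, hp, by simp, ma2_mono Subset.rfl
      (mul_le_mul_of_nonneg_right ((hc2 0).trans hc1) (Nat.cast_nonneg _))
      (Or.inl (ma2_zero hj1 (by linarith) fun i hi => ⟨?_, ?_⟩))⟩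
    · simpa using hn i hi
    · linarith [(hI i hi).2.2]
  | succ n ih =>
    intro μ I hp hI hn
    have hμ : ∀ a, μ a ≤ (2 / y0) ^ (n + 1) * μ a := fun a =>
      le_mul_of_one_le_left (hp.1 a) (one_le_pow₀ hB)
    obtain ⟨I1, s1, c1, hmode⟩ := ma2_half (fun i => ms μ (X i) < 1 / 2 + 2 * γ) I
    rcases ma_step hp hρ hj H I1 fun i hi => by nlinarith [(hI i (s1 hi)).2.1] with
      ⟨G, g1, g2, g3⟩ | ⟨U, i0, hi0, I', s2, hU0, hU, c2, hW⟩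
    · refine ⟨μ, hp, hμ, Or.inl ⟨G, fun g hg => ⟨(g1 g hg).1.trans s1, (g1 g hg).2, fun i hi => ?_⟩,
        g2, (mul_le_mul_of_nonneg_right (hc2 _) (Nat.cast_nonneg _)).trans ?_⟩⟩
      · linarith [(hI i (s1 ((g1 g hg).1 hi))).2.2]
      · have a1 : I.card ≤ G.card * (4 * j) := by nlinarith
        rw [one_div, inv_mul_eq_div, div_le_iff₀ (by linarith)]
        exact_mod_cast a1
    · have c3 : (I.card : ℝ) ≤ 8 * I'.card := by exact_mod_cast (by omega : I.card ≤ 8 * I'.card)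
      have c4 : 1 / (4 * (j : ℝ)) / 8 ^ (n + 1) * I.card ≤ 1 / (4 * j) / 8 ^ n * I'.card := by
        have := mul_le_mul_of_nonneg_left c3 (by positivity : 0 ≤ 1 / (4 * (j : ℝ)) / 8 ^ (n + 1))
        refine this.trans (le_of_eq ?_)
        field_simp
        ring
      have hU1 := ms_mono hp.1 hU0
      have hUc := hp.compl U
      obtain ⟨V, hV, hVs⟩ : ∃ V, (ms μ V = ms μ U ∨ ms μ V = 1 - ms μ U) ∧
          ∀ i ∈ I', ms μ (H i \ V) < ρ := by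
        rcases hW with h | h
        · exact ⟨U, Or.inl rfl, h⟩
        · exact ⟨Uᶜ, Or.inr hUc, h⟩
      rcases hmode with hm | hm
      · have a1 := ms_union_le hp.1 (H i0) (X i0)
        rw [(hI i0 (s1 hi0)).1, hp.ms_univ] at a1
        have a2 := hm i0 hi0
        refine ⟨μ, hp, hμ, ma2_mono (s2.trans s1) (c4.trans (mul_le_mul_of_nonneg_right
          ((hc2 n).trans hc1) (Nat.cast_nonneg _))) (Or.inr (ma2_final hp h3 hρ hργ (V := V)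
          ?_ ?_ fun i hi => ⟨(hI i (s1 (s2 hi))).1, hm i (s2 hi), hVs i hi⟩))⟩ <;>
        rcases hV with h | h <;> linarith
      · have a1 := (hI i0 (s1 hi0)).2.1
        have hV1 : y0 ≤ ms μ V := by rcases hV with h | h <;> linarith
        have hV2 : ms μ V ≤ 1 - y0 := by rcases hV with h | h <;> linarith
        have key := fun i (hi : i ∈ I') => ma2_mix hp h0 h1 h2 h3 hρ hρy hV1 hV2
          (hI i (s1 (s2 hi))).2.1 (not_lt.1 (hm i (s2 hi))) (hVs i hi)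
        have hinc : 0 ≤ γ * y0 ^ 2 / 4 := by positivity
        obtain ⟨ν, p1, p2, p3⟩ := ih (mix μ V γ) I'
          (hp.mix_prob (h0.trans_le hV1) h2.le (by linarith))
          (fun i hi => ⟨(hI i (s1 (s2 hi))).1, by linarith [(key i hi).1, (hI i (s1 (s2 hi))).2.1],
            (key i hi).2⟩) fun i hi => by
            have := hn i (s1 (s2 hi))
            push_cast at this
            linarith [(key i hi).1]
        refine ⟨ν, p1, fun a => (p2 a).trans ?_, ma2_mono (s2.trans s1) c4 p3⟩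
        rw [pow_succ, mul_assoc]
        refine mul_le_mul_of_nonneg_left ((mix_le hp h2.le h0 hV1 a).trans
          (mul_le_mul_of_nonneg_right ?_ (hp.1 a))) (by positivity)
        rw [le_div_iff₀ h0, add_mul, div_mul_cancel₀ _ h0.ne']
        nlinarith

end

theorem ma {y0 γ : ℝ} (h0 : 0 < y0) (h1 : y0 ≤ 1 / 4) (h2 : 0 < γ) (h3 : γ ≤ 1 / 12) :
    ∃ (B ρ c : ℝ) (j : ℕ), 0 < B ∧ 0 < ρ ∧ 0 < c ∧
      ∀ (α κ : Type) [Fintype α] [DecidableEq α] [DecidableEq κ] (μ : α → ℝ) (I : Finset κ)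
        (H X : κ → Finset α), Prob μ →
        (∀ i ∈ I, H i ∪ X i = univ ∧ y0 ≤ ms μ (H i) ∧ 1 / 2 + γ ≤ ms μ (X i)) →
        ∃ ν : α → ℝ, Prob ν ∧ (∀ a, ν a ≤ B * μ a) ∧
          (MaGr ν ρ c j I H X ∨ MaAl ν (5 * γ) c I H X) := by
  have hρ : 0 < min γ (y0 ^ 2 / 2) := lt_min h2 (by positivity)
  have hinc : 0 < γ * y0 ^ 2 / 4 := by positivity
  obtain ⟨j, hj⟩ := exists_nat_gt (1 / min γ (y0 ^ 2 / 2))
  obtain ⟨n, hn⟩ := exists_nat_ge (1 / (γ * y0 ^ 2 / 4))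
  have hj0 : (0 : ℝ) < j := (one_div_pos.2 hρ).trans hj
  rw [div_lt_iff₀' hρ] at hj
  rw [div_le_iff₀ hinc] at hn
  refine ⟨(2 / y0) ^ n, min γ (y0 ^ 2 / 2), 1 / (4 * j) / 8 ^ n, j, by positivity, hρ,
    by positivity, fun α κ _ _ _ μ I H X hp hI => ?_⟩
  exact ma2_ind h0 h1 h2 h3 hρ (min_le_left _ _) (min_le_right _ _) hj.le H X n μ I hp hI
    fun i _ => by linarith [ms_nonneg hp.1 (H i)]

end Pool.Agent.P.MP_a374b6_co.H
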