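import Pool.Agent.P.MP_a374b6_co.H.Cb
import Pool.Agent.P.MP_a374b6_co.H.Link
import Pool.Agent.P.MP_a374b6_co.H.Ma2
import Pool.Agent.P.MP_a374b6_co.H.Pb

/-! Aligned pairs which can be cut on both sides. -/

namespace Pool.Agent.P.MP_a374b6_co.H

open Finset

theorem cc : ∃ (ρ c : ℝ) (j m0 : ℕ), 0 < ρ ∧ 0 < c ∧
    ∀ (W ι α : Type) [Fintype W] [DecidableEq W] [DecidableEq ι] [Fintype α] [DecidableEq α]
      (r : W → W → Prop) (nb : W → Finset α) (C : ι → Finset W) (R : Finset ι) (μ : α → ℝ)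
      (U : Finset α) (M : Finset (ι × ι)), Ctx r nb C R μ → 1 / 3 ≤ ms μ U → 1 / 3 ≤ ms μ Uᶜ →
      Mat R M → m0 ≤ M.card →
      (∀ p ∈ M, (∃ Y, Ctb r nb μ U (pr C p) Y) ∧ ∃ X, Ctb r nb μ Uᶜ (pr C p) X) →
      Gain r nb C R μ ρ j (c * M.card) := by
  classical
  obtain ⟨B, ρ, c, j, hB, hρ, hc, hma⟩ := ma (y0 := 1 / 300) (γ := 1 / 20) (by norm_num)
    (by norm_num) (by norm_num) (by norm_num)
  have hc1 : 0 < min c 1 := lt_min hc one_pos
  refine ⟨min (ρ / B) (1 / 600), min c 1 / 8, j + 1 + 2, ⌈16 / min c 1⌉₊ + 8, by positivity,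
    by positivity, fun W ι α _ _ _ _ _ r nb C R μ U M h hU hU' hM hm hd => ?_⟩
  have hd1 := fun p hp => (hd p hp).1
  have hd2 := fun p hp => (hd p hp).2
  choose! Y hY using hd1
  choose! X hX using hd2
  obtain ⟨M1, hM1, c1⟩ := exists_subset_card_eq (s := M) (n := M.card / 3) (by omega)
  have e1 := le_card_sdiff M1 M
  obtain ⟨M2, hM2, c2⟩ := exists_subset_card_eq (s := M \ M1) (n := M.card / 3) (by omega)
  have e2 := le_card_sdiff M2 (M \ M1)
  obtain ⟨M3, hM3, c3⟩ := exists_subset_card_eq (s := (M \ M1) \ M2) (n := M.card / 3) (by omega)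
  have hM2' : M2 ⊆ M := hM2.trans sdiff_subset
  have hM3' : M3 ⊆ M := hM3.trans (sdiff_subset.trans sdiff_subset)
  have d12 : Disjoint M2 M1 := disjoint_left.2 fun p hp => (mem_sdiff.1 (hM2 hp)).2
  have d13 : Disjoint M3 M1 := disjoint_left.2 fun p hp => (mem_sdiff.1 (mem_sdiff.1 (hM3 hp)).1).2
  have d23 : Disjoint M3 M2 := disjoint_left.2 fun p hp => (mem_sdiff.1 (hM3 hp)).2
  have hq : (M.card : ℝ) ≤ 4 * M1.card := by exact_mod_cast (by omega : M.card ≤ 4 * M1.card)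
  have h16 : 16 ≤ M.card * min c 1 := by
    have a1 : 16 / min c 1 ≤ M.card :=
      (Nat.le_ceil _).trans (by exact_mod_cast (by omega : ⌈16 / min c 1⌉₊ ≤ M.card))
    rwa [div_le_iff₀ hc1] at a1
  have hM1pos : (0 : ℝ) < M1.card := by exact_mod_cast (by omega : 0 < M1.card)
  obtain ⟨ν, hν, hνB, hcase⟩ := hma α (ι × ι) μ M1 (fun p => cov nb (Y p)) (fun _ => univ) h.pb
    fun p hp => ⟨union_eq_right.2 (subset_univ _),
      (hY p (hM1 hp)).m1.trans (ms_mono h.pb.1 inter_subset_left), by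
        rw [h.pb.ms_univ]; norm_num⟩
  rcases hcase with ⟨G, hG1, hG2, hG3⟩ | ⟨U', I', hI', a1, a2, -, a4⟩
  swap
  · exfalso
    have : (0 : ℝ) < I'.card := lt_of_lt_of_le (mul_pos hc hM1pos) a1
    obtain ⟨p, hp⟩ := card_pos.1 (by exact_mod_cast this : 0 < I'.card)
    have := (a4 p hp).2
    rw [univ_inter] at this
    linarith
  set k := min G.card M1.card with hk
  have hkr : min c 1 * M1.card ≤ k := by
    rw [hk]
    push_cast
    exact le_min ((mul_le_mul_of_nonneg_right (min_le_left _ _) hM1pos.le).trans hG3)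
      (mul_le_of_le_one_left hM1pos.le (min_le_right _ _))
  have hk4 : (4 : ℝ) ≤ k := by nlinarith
  have hk1 : 4 ≤ k := by exact_mod_cast hk4
  set g : Fin k → Finset (ι × ι) := fun i =>
    (G.equivFin.symm (Fin.castLE (min_le_left _ _) i)).1 with hg
  have hgG : ∀ i, g i ∈ G := fun i => (G.equivFin.symm _).2
  have hginj : ∀ i i', i ≠ i' → g i ≠ g i' := fun i i' hne e =>
    hne (Fin.castLE_injective _ (G.equivFin.symm.injective (Subtype.ext e)))
  have hk2 : k ≤ M2.card := by omega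
  set q : Fin k → ι × ι := fun i => (M2.equivFin.symm (Fin.castLE hk2 i)).1 with hq'
  have hqM : ∀ i, q i ∈ M2 := fun i => (M2.equivFin.symm _).2
  have hqinj : Function.Injective q := fun i i' e =>
    Fin.castLE_injective _ (M2.equivFin.symm.injective (Subtype.ext e))
  have hMat3 : Mat R M3 := hM.mono hM3' Subset.rfl
  obtain ⟨Rv, hRv, cR⟩ := exists_subset_card_eq (s := cls M3) (n := k + 1)
    (by rw [hMat3.card_cls]; omega)
  have hgood := fun i => (hG1 _ (hgG i)).2.1.pre (r := r) h.sy.symm hν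
    (fun p hp => (hY p (hM1 ((hG1 _ (hgG i)).1 hp))).c1) fun p hp p' hp' hne =>
      (hM.disj_pr h.sy (hM1 ((hG1 _ (hgG i)).1 hp)) (hM1 ((hG1 _ (hgG i)).1 hp')) hne).mono
        (hY p (hM1 ((hG1 _ (hgG i)).1 hp))).sub (hY p' (hM1 ((hG1 _ (hgG i)).1 hp'))).sub
  have d3 := hM.disj_cls hM3' hM2' d23
  refine (cc_build h hU hU' hM Y X (min_le_right (ρ / B) _) (j := j + 1) (by omega) g q Rv
    (fun i => ⟨(hG1 _ (hgG i)).1.trans hM1, (hG1 _ (hgG i)).2.1.ne⟩)
    (fun i i' hne => hG2 _ (hgG i) _ (hgG i') (hginj i i' hne)) hqinj (fun i => hM2' (hqM i))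
    (fun i i' hh => disjoint_left.1 d12 (hqM i) ((hG1 _ (hgG i')).1 hh))
    (hRv.trans hMat3.cls_sub) cR
    (fun i => (hM.disj_cls hM3' hM1 d13).mono hRv (cls_mono (hG1 _ (hgG i)).1))
    (fun i => ⟨fun hh => disjoint_left.1 d3 (hRv hh) (mem_cls.2 ⟨_, hqM i, Or.inl rfl⟩),
      fun hh => disjoint_left.1 d3 (hRv hh) (mem_cls.2 ⟨_, hqM i, Or.inr rfl⟩)⟩)
    (fun i p hp => hY p (hM1 ((hG1 _ (hgG i)).1 hp))) (fun i => hX _ (hM2' (hqM i)))
    (fun i => ((hgood i).1.change hB hνB).mono (min_le_left _ _) (by omega))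
    fun i i' => (min_le_left _ _).trans ?_).mono Subset.rfl le_rfl le_rfl (by nlinarith)
  have b1 := hν.inter_ge (cov nb ((g i).biUnion Y)) (cov nb ((g i').biUnion Y))
  have b2 := ms_le_mul hνB (cov nb ((g i).biUnion Y) ∩ cov nb ((g i').biUnion Y))
  have b3 := (hgood i).2
  have b4 := (hgood i').2
  unfold fv at b3 b4
  rw [div_le_iff₀ hB]
  linarith

end Pool.Agent.P.MP_a374b6_co.H
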