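import Pool.Agent.P.MP_a374b6_co.H.Gb

/-! Centres, growth, dropping and chunks. -/

namespace Pool.Agent.P.MP_a374b6_co.H

open Finset

variable {W : Type} [DecidableEq W] {r : W → W → Prop}

theorem cen (hs : ∀ x y, r x y → r y x) {S X0 : Finset W} (hS : Cn r S) (h0 : X0 ⊆ S)
    (h1 : Cn r X0) (h2 : S \ X0 = ∅ ∨ Cn r (S \ X0)) (P : Finset W → Prop) (hP : P X0) :
    ∃ X ⊆ X0, ∃ u L, Spi r S X u L ∧ P X ∧ ∀ K ∈ L, ¬ P K := by
  classical
  obtain ⟨X, hX, hmin⟩ := exists_min_image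
    (X0.powerset.filter fun X => P X ∧ Cn r X ∧ (S \ X = ∅ ∨ Cn r (S \ X))) card
    ⟨X0, mem_filter.2 ⟨mem_powerset_self _, hP, h1, h2⟩⟩
  obtain ⟨hX0, hPX, hXc, hXr⟩ := mem_filter.1 hX
  rw [mem_powerset] at hX0
  have hXS : X ⊆ S := hX0.trans h0
  obtain ⟨u, hu, hrest⟩ : ∃ u ∈ X, S \ X = ∅ ∨ (Cn r (S \ X) ∧ Tch r {u} (S \ X)) := by
    rcases hXr with h3 | h3
    · obtain ⟨u, hu⟩ := hXc.1
      exact ⟨u, hu, Or.inl h3⟩
    · obtain ⟨x, hx, y, hy, hxy⟩ := hS.2 X hXS hXc.1 (fun e => by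
        have := h3.1
        rw [e, Finset.sdiff_self] at this
        exact not_nonempty_empty this)
      exact ⟨x, hx, Or.inr ⟨h3, x, mem_singleton_self x, y, hy, hxy⟩⟩
  obtain ⟨L, hL1, hL2, hL3, hL4⟩ := exists_comps hs (X.erase u)
  have hsub : ∀ K ∈ L, K ⊆ X.erase u := fun K hK => hL1 ▸ sub_un hK
  have hlegs : Legs r X u L := ⟨hu, hL1, hL2, fun K hK => by
    obtain ⟨x, hx, y, hy, hxy⟩ := hXc.2 K ((hsub K hK).trans (erase_subset _ _)) (hL2 K hK).1
      (fun e => (mem_erase.1 (hsub K hK (e ▸ hu))).1 rfl)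
    by_cases hyu : y = u
    · exact ⟨u, mem_singleton_self u, x, hx, hs _ _ (hyu ▸ hxy)⟩
    · exact absurd ⟨x, hx, y, mem_sdiff.2 ⟨mem_erase.2 ⟨hyu, (mem_sdiff.1 hy).1⟩,
        (mem_sdiff.1 hy).2⟩, hxy⟩ (hL4 K hK), hL3⟩
  have hspi : Spi r S X u L := ⟨hXS, hlegs, hrest⟩
  refine ⟨X, hX0, u, L, hspi, hPX, fun K hK hPK => ?_⟩
  have h3 := hspi.cn_drop hs (singleton_subset_iff.2 hK)
  rw [un_singleton] at h3
  have h4 := hmin K (mem_filter.2 ⟨mem_powerset.2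
    (((hsub K hK).trans (erase_subset _ _)).trans hX0), hPK, hL2 K hK, Or.inr h3⟩)
  have h5 := card_le_card (hsub K hK)
  have h6 := card_erase_add_one hu
  omega

theorem gro (hs : ∀ x y, r x y → r y x) {S : Finset W} (hS : Cn r S) {x0 : W} (hx : x0 ∈ S)
    {h : Finset W → ℝ} (hh : Sub h) {k y : ℝ} (hk : ∀ x ∈ S, h {x} ≤ k) (hy : 0 ≤ y)
    (hyS : y ≤ h S) : ∃ T ⊆ S, x0 ∈ T ∧ Cn r T ∧ y ≤ h T ∧ h T ≤ y + k := by
  classical
  have hk0 := hk x0 hx
  by_cases h0 : y ≤ h {x0}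
  · exact ⟨{x0}, singleton_subset_iff.2 hx, mem_singleton_self _, cn_singleton _, h0, by linarith⟩
  obtain ⟨T, hT, hmax⟩ := exists_max_image
    (S.powerset.filter fun T => x0 ∈ T ∧ Cn r T ∧ h T < y) card
    ⟨{x0}, mem_filter.2 ⟨mem_powerset.2 (singleton_subset_iff.2 hx), mem_singleton_self _,
      cn_singleton _, not_le.1 h0⟩⟩
  obtain ⟨hTS, hT1, hT2, hT3⟩ := mem_filter.1 hT
  rw [mem_powerset] at hTS
  obtain ⟨a, ha, b, hb, hab⟩ := hS.2 T hTS hT2.1 (fun e => by rw [e] at hT3; linarith)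
  obtain ⟨hbS, hbT⟩ := mem_sdiff.1 hb
  have h1 : Cn r (insert b T) := hT2.extend hs (subset_insert _ _) fun z hz => by
    rcases mem_insert.1 hz with rfl | hz
    exacts [Or.inr ⟨a, ha, hab⟩, Or.inl hz]
  refine ⟨insert b T, insert_subset hbS hTS, mem_insert_of_mem hT1, h1, ?_, ?_⟩
  · by_contra hlt
    have := hmax _ (mem_filter.2 ⟨mem_powerset.2 (insert_subset hbS hTS),
      mem_insert_of_mem hT1, h1, not_le.1 hlt⟩)
    rw [card_insert_of_notMem hbT] at this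
    omega
  · have := hh.union {b} T
    rw [← insert_eq] at this
    linarith [hk b hbS]

theorem sel {β : Type} [DecidableEq β] {L : Finset β} {h : Finset β → ℝ} (hh : Sub h) {k y : ℝ}
    (hk : ∀ x ∈ L, h {x} ≤ k) (hy : 0 < y) (hyL : y ≤ h L) :
    ∃ M ⊆ L, y ≤ h M ∧ h M < y + k := by
  classical
  obtain ⟨M, hM, hmin⟩ := exists_min_image (L.powerset.filter fun M => y ≤ h M) card
    ⟨L, mem_filter.2 ⟨mem_powerset_self _, hyL⟩⟩
  obtain ⟨hML, hyM⟩ := mem_filter.1 hM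
  rw [mem_powerset] at hML
  obtain ⟨x, hx⟩ : M.Nonempty := by
    rw [nonempty_iff_ne_empty]
    rintro rfl
    rw [hh.empty] at hyM
    linarith
  refine ⟨M, hML, hyM, ?_⟩
  have h1 : h (M.erase x) < y := by
    by_contra hlt
    have := hmin _ (mem_filter.2 ⟨mem_powerset.2 ((erase_subset x M).trans hML), not_lt.1 hlt⟩)
    have h2 := card_erase_add_one hx
    omega
  have h2 := hh.union {x} (M.erase x)
  rw [← insert_eq, insert_erase hx] at h2
  linarith [hk x (hML hx)]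

theorem drop (hs : ∀ x y, r x y → r y x) {S : Finset W} (hS : Cn r S) {h : Finset W → ℝ}
    (hh : Sub h) {a : ℝ} (ha : 0 < a) (hx : ∀ x ∈ S, a ≤ h (S.erase x)) :
    ∃ D ⊆ S, ∃ v ∈ S, Cn r (S \ D) ∧ Cn r (insert v D) ∧ a ≤ h D ∧ h (D.erase v) < 2 * a := by
  obtain ⟨x0, hx0⟩ := hS.1
  obtain ⟨X, hXS, u, L, hspi, hPX, hL⟩ := cen hs hS Subset.rfl hS
    (Or.inl (Finset.sdiff_self S)) (fun K => a ≤ h K)
    ((hx x0 hx0).trans (hh.mono _ _ (erase_subset _ _)))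
  have hu := hspi.legs.mem
  by_cases h1 : a ≤ h (X.erase u)
  · have hsub : Sub fun M : Finset (Finset W) => h (un M) :=
      ⟨by simp only [un_empty, hh.empty], fun A B hAB => hh.mono _ _ (un_mono hAB),
        fun A B => by simp only [un_union]; exact hh.union _ _⟩
    obtain ⟨M, hM, h2, h3⟩ := sel (L := L) hsub (k := a) (y := a)
      (fun K hK => by simpa only [un_singleton] using (not_le.1 (hL K hK)).le) ha
      (by simpa only [hspi.legs.cover] using h1)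
    refine ⟨un M, (hspi.legs.un_sub hM).trans ((erase_subset _ _).trans hXS), u, hXS hu,
      hspi.cn_drop hs hM, hspi.legs.cn_star hs hM, h2, ?_⟩
    have := hh.mono _ _ (erase_subset u (un M))
    linarith
  · have hne : S \ X ≠ ∅ := fun e => h1 (by
      have : X = S := Subset.antisymm hXS (sdiff_eq_empty_iff_subset.1 e)
      subst this
      exact hx u hu)
    refine ⟨X, hXS, u, hXS hu, (hspi.rest.resolve_left hne).1, ?_, hPX, by linarith⟩
    rw [insert_eq_of_mem hu]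
    exact hspi.legs.cn_all hs

theorem cen_erase {h : Finset W → ℝ} (hh : Sub h) (S : Finset W) (x : W) :
    h S ≤ h {x} + h (S.erase x) := by
  refine (hh.mono _ _ fun y hy => ?_).trans (hh.union _ _)
  by_cases e : y = x
  exacts [mem_union_left _ (mem_singleton.2 e), mem_union_right _ (mem_erase.2 ⟨e, hy⟩)]

theorem cen_sdiff {h : Finset W → ℝ} (hh : Sub h) (S D : Finset W) :
    h S ≤ h D + h (S \ D) := by
  refine (hh.mono _ _ fun y hy => ?_).trans (hh.union _ _)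
  by_cases e : y ∈ D
  exacts [mem_union_left _ e, mem_union_right _ (mem_sdiff.2 ⟨hy, e⟩)]

theorem chunk (hs : ∀ x y, r x y → r y x) {S : Finset W} (hS : Cn r S) {h : Finset W → ℝ}
    (hh : Sub h) {a k : ℝ} (ha : 0 < a) (hk : ∀ x ∈ S, h {x} ≤ k) (hS5 : 5 * a + 2 * k ≤ h S) :
    ∃ T : Fin 3 → Finset W, (∀ i, T i ⊆ S ∧ Cn r (T i) ∧ a ≤ h (T i)) ∧
      ∀ i i', i ≠ i' → (T i ∩ T i').card ≤ 1 := by
  obtain ⟨x0, hx0⟩ := hS.1
  have hk0 : 0 ≤ k := by
    have := hh.mono _ _ (empty_subset {x0})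
    rw [hh.empty] at this
    exact this.trans (hk x0 hx0)
  obtain ⟨D1, hD1, v1, hv1, c1, c1', a1, b1⟩ := drop hs hS hh ha fun x hx => by
    linarith [cen_erase hh S x, hk x hx]
  have e1 : 3 * a + k ≤ h (S \ D1) := by
    linarith [cen_erase hh D1 v1, hk v1 hv1, cen_sdiff hh S D1]
  obtain ⟨D2, hD2, v2, hv2, c2, c2', a2, b2⟩ := drop hs c1 hh ha fun x hx => by
    linarith [cen_erase hh (S \ D1) x, hk x (mem_sdiff.1 hx).1]
  have e2 : a ≤ h ((S \ D1) \ D2) := by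
    linarith [cen_erase hh D2 v2, hk v2 (mem_sdiff.1 hv2).1, cen_sdiff hh (S \ D1) D2]
  have s2 : insert v2 D2 ⊆ S \ D1 := insert_subset hv2 hD2
  have key : ∀ (v : W) (D B A : Finset W), B ⊆ A \ D → (insert v D ∩ B).card ≤ 1 := by
    intro v D B A hB
    refine (card_le_card (t := {v}) fun x hx => ?_).trans (card_singleton v).le
    obtain ⟨h1, h2⟩ := mem_inter.1 hx
    exact mem_singleton.2 ((mem_insert.1 h1).resolve_right (mem_sdiff.1 (hB h2)).2)
  have k01 := key v1 D1 _ S s2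
  have k02 := key v1 D1 _ S (sdiff_subset : (S \ D1) \ D2 ⊆ S \ D1)
  have k12 := key v2 D2 _ (S \ D1) Subset.rfl
  refine ⟨![insert v1 D1, insert v2 D2, (S \ D1) \ D2], fun i => ?_, fun i i' hii => ?_⟩
  · fin_cases i
    · exact ⟨insert_subset hv1 hD1, c1', a1.trans (hh.mono _ _ (subset_insert _ _))⟩
    · exact ⟨s2.trans sdiff_subset, c2', a2.trans (hh.mono _ _ (subset_insert _ _))⟩
    · exact ⟨sdiff_subset.trans sdiff_subset, c2, e2⟩
  · fin_cases i <;> fin_cases i'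
    · exact absurd rfl hii
    · exact k01
    · exact k02
    · exact inter_comm (insert v1 D1) _ ▸ k01
    · exact absurd rfl hii
    · exact k12
    · exact inter_comm (insert v1 D1) _ ▸ k02
    · exact inter_comm (insert v2 D2) _ ▸ k12
    · exact absurd rfl hii

end Pool.Agent.P.MP_a374b6_co.H
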