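import Pool.Agent.P.MP_a374b6_co.H.At

/-! The weight of conflicts. -/

namespace Pool.Agent.P.MP_a374b6_co.H

open Finset

variable {W : Type} [Fintype W] [DecidableEq W] {n : ℕ} {r : W → W → Prop}
  {C : Bool × Fin n → Finset W} {m : ℕ}

open Classical in
theorem conf_le (hS : Sy r C) {G : ℕ} (hG : Few r C G) {p : Option W → ℝ} {x : Atom n W → ℝ}
    (h : Equi r C m p x) :
    (∑ a, ∑ b, if Conf r C m (pg p) a b then x a * x b else 0) ≤ (2 * n * (m * G) : ℝ) ^ 2 := by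
  set X : Bool × Fin n → Bool × Fin n → Atom n W → ℝ := fun O O' a =>
    if ∃ b, sd a.1 b = O ∧ sd a.1 (!b) = O' then x a else 0 with hX
  have hX0 : ∀ O O' a, 0 ≤ X O O' a := fun O O' a => by
    simp only [hX]
    split_ifs
    exacts [h.x0 a, le_rfl]
  have hX1 : ∀ O O', ∑ a, X O O' a ≤ 1 := by
    rintro ⟨b1, i⟩ ⟨b2, j⟩
    rw [← h.x1 (if b1 then (i, j) else (j, i)), sum_filter]
    refine sum_le_sum fun a _ => ?_
    simp only [hX]
    split_ifs with h1 h2 h3 h4 h5 <;> first | exact le_rfl | exact h.x0 a | skip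
    all_goals
      exfalso
      obtain ⟨b, e1, e2⟩ := h1
      cases b <;> simp_all [sd, Prod.ext_iff]
  set E := (univ : Finset (Bool × Fin n)).sigma fun O => Exc r C m O (pg p) with hE
  have hcard : (E.card : ℝ) ≤ 2 * n * (m * G) := by
    have : E.card ≤ 2 * n * (m * G) := by
      rw [hE, card_sigma]
      refine (sum_le_card_nsmul _ _ (m * G) fun O _ => card_exc hS hG _).trans (le_of_eq ?_)
      simp
    exact_mod_cast this
  calc (∑ a, ∑ b, if Conf r C m (pg p) a b then x a * x b else 0)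
      ≤ ∑ a, ∑ b, ∑ q ∈ E ×ˢ E, X q.1.1 q.2.2 a * X q.2.1 q.1.2 b := by
        refine sum_le_sum fun a _ => sum_le_sum fun b _ => ?_
        split_ifs with hc
        · obtain ⟨c, c', -, -, e1, e2⟩ := hc
          refine le_trans (le_of_eq ?_) (single_le_sum
            (f := fun q : (Σ _ : Bool × Fin n, Bool × Fin n) × (Σ _ : Bool × Fin n, Bool × Fin n) =>
              X q.1.1 q.2.2 a * X q.2.1 q.1.2 b) (fun q _ => mul_nonneg (hX0 _ _ _) (hX0 _ _ _))
            (a := (⟨sd a.1 c, sd b.1 (!c')⟩, ⟨sd b.1 c', sd a.1 (!c)⟩))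
            (mem_product.2 ⟨mem_sigma.2 ⟨mem_univ _, e1⟩, mem_sigma.2 ⟨mem_univ _, e2⟩⟩))
          simp only [hX]
          rw [if_pos ⟨c, rfl, rfl⟩, if_pos ⟨c', rfl, rfl⟩]
        · exact sum_nonneg fun q _ => mul_nonneg (hX0 _ _ _) (hX0 _ _ _)
    _ = ∑ q ∈ E ×ˢ E, (∑ a, X q.1.1 q.2.2 a) * ∑ b, X q.2.1 q.1.2 b := by
        simp only [sum_mul_sum]
        rw [sum_comm (s := E ×ˢ E)]
        exact sum_congr rfl fun a _ => sum_comm
    _ ≤ ∑ q ∈ E ×ˢ E, (1 : ℝ) := sum_le_sum fun q _ =>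
        mul_le_one₀ (hX1 _ _) (sum_nonneg fun _ _ => hX0 _ _ _) (hX1 _ _)
    _ ≤ _ := by
        rw [sum_const, card_product, nsmul_eq_mul, mul_one, sq]
        push_cast
        exact mul_le_mul hcard hcard (Nat.cast_nonneg _) (by positivity)

end Pool.Agent.P.MP_a374b6_co.H
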