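import Pool.Agent.P.MP_a374b6_co.H.Ali

/-! Donors give a gain. -/

namespace Pool.Agent.P.MP_a374b6_co.H

open Finset

theorem don {y0 η : ℝ} (h0 : 0 < y0) (h1 : y0 ≤ 1 / 4) (h2 : 0 < η) :
    ∃ (ρ c : ℝ) (j m0 : ℕ), 0 < ρ ∧ 0 < c ∧
    ∀ (W ι α : Type) [Fintype W] [DecidableEq W] [DecidableEq ι] [Fintype α] [DecidableEq α]
      (r : W → W → Prop) (nb : W → Finset α) (C : ι → Finset W) (R : Finset ι) (μ : α → ℝ)
      (M : Finset (ι × ι)), Ctx r nb C R μ → Mat R M → m0 ≤ M.card →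
      (∀ p ∈ M, ∃ X Y, Cut r (pr C p) X Y ∧ 1 / 2 + η ≤ fv nb μ X ∧ y0 ≤ fv nb μ Y) →
      Gain r nb C R μ ρ j (c * M.card) := by
  classical
  have hγ : 0 < min η (1 / 3000) := lt_min h2 (by norm_num)
  obtain ⟨B, ρ, c, j, hB, hρ, hc, hma⟩ := ma h0 h1 hγ ((min_le_right _ _).trans (by norm_num))
  obtain ⟨ρ', c', j', m', hρ', hc', hali⟩ := ali
  refine ⟨min ρ ρ' / B, c * min 1 c', max (j + 1) j', ⌈m' / c⌉₊, by positivity, by positivity,
    fun W ι α _ _ _ _ _ r nb C R μ M h hM hm hd => ?_⟩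
  choose! X Y hcut hX hY using hd
  have hcard : (0 : ℝ) ≤ M.card := Nat.cast_nonneg _
  have hsub : ∀ p ∈ M, X p ⊆ pr C p ∧ Y p ⊆ pr C p := fun p hp =>
    ⟨(hcut p hp).2.2.2 ▸ subset_union_left, (hcut p hp).2.2.2 ▸ subset_union_right⟩
  obtain ⟨ν, hν, hνB, hcase⟩ := hma α (ι × ι) μ M (fun p => cov nb (Y p)) (fun p => cov nb (X p))
    h.pb fun p hp => ⟨by
      rw [← cov_union, union_comm, (hcut p hp).2.2.2]
      exact h.cov_eq (hM.1 p hp).1 subset_union_left, hY p hp,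
      le_trans (by linarith [min_le_left η (1 / 3000)]) (hX p hp)⟩
  have h' := h.change hν
  refine Gain.change (ρ := min ρ ρ') ?_ hB hνB
  rcases hcase with ⟨G, hG1, hG2, hG3⟩ | ⟨U, I', hI', e1, e2, e3, e4⟩
  · refine (gain_of_grps (ρ := ρ) (j := j + 1) h' hρ.le G cls (fun g hg => ?_)
      fun g hg g' hg' hne => hM.disj_cls (hG1 g hg).1 (hG1 g' hg').1 (hG2 g hg g' hg' hne)).mono
      Subset.rfl (min_le_left _ _) (le_max_left _ _) ?_
    · obtain ⟨a1, a2, a3⟩ := hG1 g hg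
      have hMg : Mat R g := hM.mono a1 Subset.rfl
      refine ⟨hMg.cls_sub, ?_⟩
      obtain ⟨b1, b2⟩ := cores_of_idx (r := r) (nb := nb) (C := C) (μ := ν) (ρ := ρ)
        (j := j + 1) g X (cls g)
        (fun p hp => ⟨(hcut p (a1 hp)).1.pre (by omega), (hsub p (a1 hp)).1.trans (pr_sub hp),
          a3 p hp⟩)
        fun p hp q hq hne => (hMg.disj_pr h.sy hp hq hne).mono (hsub p (a1 hp)).1
          (hsub q (a1 hq)).1
      obtain ⟨c1, c2⟩ := a2.pre h.sy.symm hν (fun p hp => (hcut p (a1 hp)).2.1)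
        fun p hp q hq hne => (hMg.disj_pr h.sy hp hq hne).mono (hsub p (a1 hp)).2
          (hsub q (a1 hq)).2
      obtain ⟨d1, d2⟩ := b1.ins (c1.mono le_rfl (by omega))
        (biUnion_subset.2 fun p hp => (hsub p (a1 hp)).2.trans (pr_sub hp)) c2 (fun N hN => by
          obtain ⟨q, hq, rfl⟩ := mem_image.1 hN
          refine (disjoint_biUnion_left _ _ _).2 fun p hp => ?_
          by_cases e : p = q
          · exact e ▸ (hcut p (a1 hp)).2.2.1.symm
          · exact (hMg.disj_pr h.sy hp hq e).mono (hsub p (a1 hp)).2 (hsub q (a1 hq)).1)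
      exact ⟨_, d1, by rw [d2, b2, hMg.card_cls]; omega⟩
    · have := mul_le_mul_of_nonneg_left (min_le_left 1 c') (mul_nonneg hc.le hcard)
      linarith
  · have hm' : m' ≤ I'.card := by
      have a1 : (m' : ℝ) / c ≤ M.card := (Nat.le_ceil _).trans (by exact_mod_cast hm)
      rw [div_le_iff₀ hc] at a1
      have : (m' : ℝ) ≤ I'.card := by linarith
      exact_mod_cast this
    have hz : 5 * min η (1 / 3000) ≤ 1 / 600 := by linarith [min_le_right η (1 / 3000)]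
    refine (hali W ι α r nb C R ν U I' X Y h' e2 e3 (hM.mono hI' Subset.rfl) hm' fun p hp =>
      ⟨hcut p (hI' hp), (e4 p hp).1.trans hz, (e4 p hp).2.trans hz⟩).mono Subset.rfl
      (min_le_right _ _) (le_max_right _ _) ?_
    have a1 := mul_le_mul_of_nonneg_left (min_le_right 1 c') (mul_nonneg hc.le hcard)
    have a2 := mul_le_mul_of_nonneg_left e1 hc'.le
    linarith

end Pool.Agent.P.MP_a374b6_co.H
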