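import Pool.Agent.P.MP_a374b6_co.H.W5
import Pool.Agent.P.MP_a374b6_co.H.Don

/-! Double spiders give a gain, and the classification of pairs. -/

namespace Pool.Agent.P.MP_a374b6_co.H

open Finset

theorem dbl : ∃ (ρ c : ℝ) (j m0 : ℕ), 0 < ρ ∧ 0 < c ∧
    ∀ (W ι α : Type) [Fintype W] [DecidableEq W] [DecidableEq ι] [Fintype α] [DecidableEq α]
      (r : W → W → Prop) (nb : W → Finset α) (C : ι → Finset W) (R : Finset ι) (μ : α → ℝ)
      (d : Dat W), Ctx r nb C R μ → m0 ≤ R.card →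
      (∀ a ∈ R, ∀ b ∈ R, a ≠ b → Dbl r nb μ d (C a ∪ C b)) →
      Gain r nb C R μ ρ j (c * R.card) := by
  classical
  obtain ⟨ρ, c, j, m0, hρ, hc, hdon⟩ := don (y0 := 1 / 5) (η := 1 / 10) (by norm_num)
    (by norm_num) (by norm_num)
  refine ⟨min (ρ / 16) (1 / 10000), min (c / 60) (1 / 20), max j 2, max (60 * m0) 40,
    by positivity, by positivity, fun W ι α _ _ _ _ _ r nb C R μ d h hm hd => ?_⟩
  have hcard : (0 : ℝ) ≤ R.card := Nat.cast_nonneg _
  by_cases hT : ∃ T : Finset α, 1 / 30 ≤ ms μ T ∧ ∃ M, Mat R M ∧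
      (∀ p ∈ M, ¬ Typ nb μ d (C p.1 ∪ C p.2) T) ∧ (R.card : ℝ) / 60 ≤ M.card
  · obtain ⟨T, hT, M, hM, hP, hMc⟩ := hT
    have hT0 : 0 < ms μ T := by linarith
    have hm' : m0 ≤ M.card := by
      have a1 : ((60 * m0 : ℕ) : ℝ) ≤ R.card := by exact_mod_cast (by omega : 60 * m0 ≤ R.card)
      push_cast at a1
      exact_mod_cast (by linarith : (m0 : ℝ) ≤ M.card)
    have h1 := (hdon W ι α r nb C R (mix μ T (1 / 2)) M
      (h.change (h.pb.mix_prob hT0 (by norm_num) (by norm_num))) hM hm' fun p hp => ?_).change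
      (μ := μ) (B := 16) (by norm_num) fun a => (mix_le h.pb (by norm_num) (by norm_num) hT a).trans
        (mul_le_mul_of_nonneg_right (by norm_num) (h.pb.1 a))
    · refine h1.mono Subset.rfl (min_le_left _ _) (le_max_left _ _) ?_
      have := mul_le_mul_of_nonneg_right (min_le_left (c / 60) (1 / 20)) hcard
      nlinarith
    · obtain ⟨p1, p2, p3⟩ := hM.1 p hp
      have hD := hd _ p1 _ p2 p3
      obtain ⟨b, hb⟩ := not_forall.1 (hP p hp)
      rw [not_lt] at hb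
      have hcov : cov nb (C p.1 ∪ C p.2) = univ := h.cov_eq p1 subset_union_left
      obtain ⟨a1, a2, a3, -⟩ := hD.cn_X h.sy.symm b
      obtain ⟨b1, b2, -⟩ := hD.fv_ge h.pb hcov b
      refine ⟨(C p.1 ∪ C p.2) \ d.X _ b, d.X _ b, ⟨a2, a1, sdiff_disjoint,
        sdiff_union_of_subset a3⟩, ?_, ?_⟩
      · have c1 := ms_le_of_sub_union h.pb.1 (S := T) (T := cov nb (d.X (C p.1 ∪ C p.2) b) ∩ T)
          (U := cov nb ((C p.1 ∪ C p.2) \ d.X (C p.1 ∪ C p.2) b) ∩ T) (by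
            rw [← union_inter_distrib_right, h.cov_split p1 subset_union_left, univ_inter])
        have c2 : 3 / 4 ≤ ms μ (cov nb ((C p.1 ∪ C p.2) \ d.X (C p.1 ∪ C p.2) b) ∩ T) / ms μ T := by
          rw [le_div_iff₀ hT0]
          linarith
        unfold fv at b2 ⊢
        rw [ms_mix]
        linarith
      · have c2 := div_nonneg (ms_nonneg h.pb.1 (cov nb (d.X (C p.1 ∪ C p.2) b) ∩ T)) hT0.le
        unfold fv at b1 ⊢
        rw [ms_mix]
        linarith
  · have hDC : DC r nb C R μ d (R.card / 30) := ⟨h, hd, fun T hT' => by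
      rcases mat_or_cover (fun a b => ¬ Typ nb μ d (C a ∪ C b) T) R ((R.card : ℝ) / 60) with
        hM | ⟨Ex, h1, h2⟩
      · exact absurd ⟨T, hT', hM⟩ hT
      · refine ⟨Ex, ?_, fun a ha b hb h3 h4 h5 => not_not.1 (h2 a ha b hb h3 h4 h5)⟩
        have : Ex.card * 30 ≤ R.card := by
          exact_mod_cast (by linarith : (Ex.card : ℝ) * 30 ≤ R.card)
        omega⟩
    refine (gain_greedy (ρ := 1 / 10000) (j := 2) h (by norm_num) (q := 10) (by norm_num)
      (m := (R.card : ℝ) / 2) fun R' hR' hc' => (hDC.mono hR').exists_grp ?_).mono Subset.rfl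
      (min_le_right _ _) (le_max_right _ _) ?_
    · have : R.card ≤ R'.card * 2 := by
        exact_mod_cast (by linarith : (R.card : ℝ) ≤ R'.card * 2)
      omega
    · have := mul_le_mul_of_nonneg_right (min_le_right (c / 60) (1 / 20)) hcard
      push_cast
      linarith

theorem classify {W α : Type} [DecidableEq W] [Fintype α] [DecidableEq α] {r : W → W → Prop}
    (hs : ∀ x y, r x y → r y x) {nb : W → Finset α} {μ : α → ℝ} (hp : Prob μ) {S : Finset W}
    (hS : Cn r S) (hc : cov nb S = univ) :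
    (∃ X Y, Cut r S X Y ∧ 1 / 2 + 1 / 10000 ≤ fv nb μ X ∧ 1 / 10000 ≤ fv nb μ Y) ∨
    (∃ v L, Don r nb μ S v L) ∨
    ∃ (X : Bool → Finset W) (u : Bool → W) (L : Bool → Finset (Finset W)),
      (∀ b, End r nb μ S (X b) (u b) (L b)) ∧ Disjoint (X true) (X false) := by
  by_cases h1 : ∃ X Y, Cut r S X Y ∧ 1 / 2 + 1 / 10000 ≤ fv nb μ X ∧ 1 / 10000 ≤ fv nb μ Y
  · exact Or.inl h1
  right
  have hcut : ∀ {X u L}, Spi r S X u L → (S \ X).Nonempty → Cut r S X (S \ X) :=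
    fun hspi hne => ⟨hspi.legs.cn_all hs, (hspi.rest.resolve_left hne.ne_empty).1,
      disjoint_sdiff, union_sdiff_of_subset hspi.sub⟩
  by_cases h2 : ∃ X Y, Cut r S X Y ∧ 1 / 10000 ≤ fv nb μ X ∧ 1 / 10000 ≤ fv nb μ Y
  · right
    have key : ∀ X Y, Cut r S X Y → 1 / 10000 ≤ fv nb μ X → 1 / 10000 ≤ fv nb μ Y →
        ∃ X' ⊆ X, ∃ u L, End r nb μ S X' u L := by
      rintro X Y ⟨cX, cY, dXY, uXY⟩ hX hY
      have hSX : S \ X = Y := by
        rw [← uXY, union_sdiff_left, sdiff_eq_self_of_disjoint dXY.symm]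
      obtain ⟨X', hX', u, L, hspi, hP, hL⟩ := cen hs hS (uXY ▸ subset_union_left) cX
        (Or.inr (hSX ▸ cY)) (fun K => 1 / 10000 ≤ fv nb μ K) hX
      have hYs : Y ⊆ S \ X' := hSX ▸ sdiff_subset_sdiff Subset.rfl hX'
      have hne := cY.1.mono hYs
      obtain ⟨a1, a2, a3, a4⟩ := hcut hspi hne
      refine ⟨X', hX', u, L, hspi, hne, fun K hK => (not_le.1 (hL K hK)).le, ?_, ?_⟩
      · by_contra hlt
        exact h1 ⟨_, _, ⟨a1, a2, a3, a4⟩, (not_le.1 hlt).le, hY.trans (fv_mono hp hYs)⟩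
      · by_contra hlt
        exact h1 ⟨_, _, ⟨a2, a1, a3.symm, (union_comm _ _).trans a4⟩, (not_le.1 hlt).le, hP⟩
    obtain ⟨X, Y, ⟨a1, a2, a3, a4⟩, hX, hY⟩ := h2
    obtain ⟨X', hX', u, L, e1⟩ := key X Y ⟨a1, a2, a3, a4⟩ hX hY
    obtain ⟨Y', hY', u', L', e2⟩ := key Y X ⟨a2, a1, a3.symm, (union_comm _ _).trans a4⟩ hY hX
    refine ⟨fun b => if b then X' else Y', fun b => if b then u else u',
      fun b => if b then L else L', fun b => ?_, a3.mono hX' hY'⟩
    cases b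
    exacts [e2, e1]
  · left
    obtain ⟨X, -, u, L, hspi, hP, hL⟩ := cen hs hS Subset.rfl hS (Or.inl (Finset.sdiff_self S))
      (fun K => 1 / 10000 ≤ fv nb μ K) (by
        unfold fv
        rw [hc, hp.ms_univ]
        norm_num)
    have hL' : ∀ K ∈ L, fv nb μ K ≤ 1 / 100 := fun K hK => by linarith [not_le.1 (hL K hK)]
    rcases (S \ X).eq_empty_or_nonempty with e | hne
    · have : X = S := Subset.antisymm hspi.sub (sdiff_eq_empty_iff_subset.1 e)
      exact ⟨u, L, this ▸ hspi.legs, hL'⟩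
    · refine ⟨u, _, hspi.legs_insert hne, fun K hK => ?_⟩
      rcases mem_insert.1 hK with rfl | hK
      · by_contra hlt
        exact h2 ⟨_, _, hcut hspi hne, hP, by linarith [not_le.1 hlt]⟩
      · exact hL' K hK

end Pool.Agent.P.MP_a374b6_co.H
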