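import Mathlib

/-! Definitions for the proof that clique pseudo-minors force clique minors of ratio above one half. -/

namespace Pool.Agent.P.MP_a374b6_co.H

open Finset

noncomputable section

section Graph

variable {W ι : Type} [DecidableEq W] [DecidableEq ι]

/-- Some point of `S` is related to some point of `T`. -/
def Tch (r : W → W → Prop) (S T : Finset W) : Prop := ∃ x ∈ S, ∃ y ∈ T, r x y

/-- `S` is nonempty and connected. -/
def Cn (r : W → W → Prop) (S : Finset W) : Prop :=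
  S.Nonempty ∧ ∀ U ⊆ S, U.Nonempty → U ≠ S → Tch r U (S \ U)

/-- The union of a family. -/
def un (L : Finset (Finset W)) : Finset W := L.biUnion id

/-- The members of a family are pairwise disjoint. -/
def Pd (L : Finset (Finset W)) : Prop := ∀ K ∈ L, ∀ K' ∈ L, K ≠ K' → Disjoint K K'

/-- Disjoint independent nonempty classes whose pairwise unions are connected. -/
structure Sy (r : W → W → Prop) (C : ι → Finset W) : Prop where
  symm : ∀ x y, r x y → r y x
  indep : ∀ i, ∀ x ∈ C i, ∀ y ∈ C i, ¬ r x y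
  disj : ∀ i j, i ≠ j → Disjoint (C i) (C j)
  ne : ∀ i, (C i).Nonempty
  conn : ∀ i j, i ≠ j → Cn r (C i ∪ C j)

/-- The nodes of a clique minor. -/
def Fam (r : W → W → Prop) (F : Finset (Finset W)) : Prop :=
  (∀ N ∈ F, Cn r N) ∧ ∀ N ∈ F, ∀ N' ∈ F, N ≠ N' → Disjoint N N' ∧ Tch r N N'

/-- A clique minor inside some classes which beats pairing these classes by `g / 2`. -/
def Win (r : W → W → Prop) (C : ι → Finset W) (g : ℝ) : Prop :=
  ∃ (F : Finset (Finset W)) (Uc : Finset ι), Fam r F ∧ (∀ N ∈ F, N ⊆ Uc.biUnion C) ∧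
    (Uc.card : ℝ) + g ≤ 2 * F.card

/-- `M` is a set of pairwise disjoint pairs of elements of `R`. -/
def Mat (R : Finset ι) (M : Finset (ι × ι)) : Prop :=
  (∀ p ∈ M, p.1 ∈ R ∧ p.2 ∈ R ∧ p.1 ≠ p.2) ∧
    ∀ p ∈ M, ∀ q ∈ M, p ≠ q → p.1 ≠ q.1 ∧ p.1 ≠ q.2 ∧ p.2 ≠ q.1 ∧ p.2 ≠ q.2

/-- The indices covered by a set of pairs. -/
def cls (M : Finset (ι × ι)) : Finset ι := M.image Prod.fst ∪ M.image Prod.snd

/-- The union of the two classes of a pair. -/
def pr (C : ι → Finset W) (p : ι × ι) : Finset W := C p.1 ∪ C p.2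

/-- A partition of `S` into two connected sets. -/
def Cut (r : W → W → Prop) (S X Y : Finset W) : Prop :=
  Cn r X ∧ Cn r Y ∧ Disjoint X Y ∧ X ∪ Y = S

/-- `L` is a partition of `X` minus `u` into connected sets touching `u`. -/
structure Legs (r : W → W → Prop) (X : Finset W) (u : W) (L : Finset (Finset W)) : Prop where
  mem : u ∈ X
  cover : un L = X.erase u
  cn : ∀ K ∈ L, Cn r K
  tch : ∀ K ∈ L, Tch r {u} K
  pd : Pd L

/-- A spider `X` inside `S` whose complement is empty or hangs at the centre. -/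
structure Spi (r : W → W → Prop) (S X : Finset W) (u : W) (L : Finset (Finset W)) : Prop where
  sub : X ⊆ S
  legs : Legs r X u L
  rest : S \ X = ∅ ∨ (Cn r (S \ X) ∧ Tch r {u} (S \ X))

/-- Monotone subadditive set functions. -/
structure Sub {β : Type} [DecidableEq β] (h : Finset β → ℝ) : Prop where
  empty : h ∅ = 0
  mono : ∀ A B, A ⊆ B → h A ≤ h B
  union : ∀ A B, h (A ∪ B) ≤ h A + h B

end Graph

section Meas

variable {W ι α κ : Type} [DecidableEq W] [DecidableEq ι] [Fintype α] [DecidableEq α]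
  [DecidableEq κ]

/-- The weight of a finite set. -/
def ms {β : Type} (μ : β → ℝ) (T : Finset β) : ℝ := ∑ a ∈ T, μ a

/-- Probability weights. -/
def Prob (μ : α → ℝ) : Prop := (∀ a, 0 ≤ μ a) ∧ ∑ a, μ a = 1

/-- The mixture of `μ` with its conditioning on `U`. -/
def mix (μ : α → ℝ) (U : Finset α) (γ : ℝ) : α → ℝ :=
  fun a => (1 - γ) * μ a + γ * (if a ∈ U then μ a / ms μ U else 0)

/-- The points seen from `S`. -/
def cov (nb : W → Finset α) (S : Finset W) : Finset α := S.biUnion nb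

/-- The weight of the points seen from `S`. -/
def fv (nb : W → Finset α) (μ : α → ℝ) (S : Finset W) : ℝ := ms μ (cov nb S)

/-- The standing assumptions of the sprinkling part. -/
structure Ctx (r : W → W → Prop) (nb : W → Finset α) (C : ι → Finset W) (R : Finset ι)
    (μ : α → ℝ) : Prop where
  sy : Sy r C
  cv : ∀ i ∈ R, cov nb (C i) = univ
  pb : Prob μ

/-- Touching, or seeing many common points. -/
def Nr (r : W → W → Prop) (nb : W → Finset α) (μ : α → ℝ) (ρ : ℝ) (S T : Finset W) : Prop :=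
  Tch r S T ∨ ρ ≤ ms μ (cov nb S ∩ cov nb T)

/-- A union of at most `j` connected sets which becomes connected after sprinkling. -/
structure Pre (r : W → W → Prop) (nb : W → Finset α) (μ : α → ℝ) (ρ : ℝ) (j : ℕ)
    (N : Finset W) : Prop where
  ne : N.Nonempty
  pcs : ∃ P : Finset (Finset W), P.card ≤ j ∧ (∀ K ∈ P, Cn r K) ∧ un P = N
  lnk : ∀ U ⊆ N, U.Nonempty → U ≠ N → Nr r nb μ ρ U (N \ U)

/-- A family which becomes a clique minor after sprinkling and beats pairing by `g / 2`. -/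
def Gain (r : W → W → Prop) (nb : W → Finset α) (C : ι → Finset W) (R : Finset ι) (μ : α → ℝ)
    (ρ : ℝ) (j : ℕ) (g : ℝ) : Prop :=
  ∃ (F : Finset (Finset W)) (Uc : Finset ι), Uc ⊆ R ∧
    (∀ N ∈ F, Pre r nb μ ρ j N ∧ N ⊆ Uc.biUnion C) ∧
    (∀ N ∈ F, ∀ N' ∈ F, N ≠ N' → Disjoint N N' ∧ Nr r nb μ ρ N N') ∧
    (Uc.card : ℝ) + g ≤ 2 * F.card

/-- Disjoint cores inside the classes of `Q`. -/
def Cores (r : W → W → Prop) (nb : W → Finset α) (C : ι → Finset W) (μ : α → ℝ) (ρ : ℝ) (j : ℕ)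
    (Q : Finset ι) (F : Finset (Finset W)) : Prop :=
  (∀ N ∈ F, Pre r nb μ ρ j N ∧ N ⊆ Q.biUnion C ∧ 1 / 2 + ρ ≤ fv nb μ N) ∧ Pd F

/-- The classes of `Q` carry more than `|Q| / 2` disjoint cores. -/
def Grp (r : W → W → Prop) (nb : W → Finset α) (C : ι → Finset W) (μ : α → ℝ) (ρ : ℝ) (j : ℕ)
    (Q : Finset ι) : Prop :=
  ∃ F : Finset (Finset W), Cores r nb C μ ρ j Q F ∧ Q.card + 1 ≤ 2 * F.card

/-- A small linked group of sets whose union has weight above one half. -/
structure Good (μ : α → ℝ) (ρ : ℝ) (j : ℕ) (H : κ → Finset α) (g : Finset κ) : Prop where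
  ne : g.Nonempty
  card : g.card ≤ j
  lnk : ∀ g' ⊆ g, g'.Nonempty → g' ≠ g → ρ ≤ ms μ (g'.biUnion H ∩ (g \ g').biUnion H)
  big : 1 / 2 + ρ ≤ ms μ (g.biUnion H)

/-- First outcome of the merge or align lemma. -/
def MaGr (ν : α → ℝ) (ρ c : ℝ) (j : ℕ) (I : Finset κ) (H X : κ → Finset α) : Prop :=
  ∃ G : Finset (Finset κ), (∀ g ∈ G, g ⊆ I ∧ Good ν ρ j H g ∧ ∀ i ∈ g, 1 / 2 + ρ ≤ ms ν (X i)) ∧
    Pd G ∧ c * I.card ≤ G.card

/-- Second outcome of the merge or align lemma. -/
def MaAl (ν : α → ℝ) (z c : ℝ) (I : Finset κ) (H X : κ → Finset α) : Prop :=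
  ∃ U : Finset α, ∃ I' ⊆ I, c * I.card ≤ I'.card ∧ 1 / 3 ≤ ms ν U ∧ 1 / 3 ≤ ms ν Uᶜ ∧
    ∀ i ∈ I', ms ν (H i \ U) ≤ z ∧ ms ν (X i ∩ U) ≤ z

/-- A pair which is a spider with small legs. -/
structure Don (r : W → W → Prop) (nb : W → Finset α) (μ : α → ℝ) (S : Finset W) (v : W)
    (L : Finset (Finset W)) : Prop where
  legs : Legs r S v L
  small : ∀ K ∈ L, fv nb μ K ≤ 1 / 100

/-- Legs joined through points of `D`. -/
structure Bun (r : W → W → Prop) (L : Finset (Finset W)) (D : Finset W) (M : Finset (Finset W))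
    (D' : Finset W) : Prop where
  sub : M ⊆ L
  dsub : D' ⊆ D
  ne : D'.Nonempty
  cn : Cn r (un M ∪ D')

/-- One end of a double spider. -/
structure End (r : W → W → Prop) (nb : W → Finset α) (μ : α → ℝ) (S X : Finset W) (u : W)
    (L : Finset (Finset W)) : Prop where
  spi : Spi r S X u L
  ne : (S \ X).Nonempty
  leg : ∀ K ∈ L, fv nb μ K ≤ 1 / 10000
  f1 : fv nb μ X ≤ 1 / 2 + 1 / 10000
  f2 : fv nb μ (S \ X) ≤ 1 / 2 + 1 / 10000

/-- A choice of two ends for every set. -/
structure Dat (W : Type) where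
  X : Finset W → Bool → Finset W
  u : Finset W → Bool → W
  L : Finset W → Bool → Finset (Finset W)

/-- `S` is a double spider with the chosen ends. -/
def Dbl (r : W → W → Prop) (nb : W → Finset α) (μ : α → ℝ) (d : Dat W) (S : Finset W) : Prop :=
  (∀ b, End r nb μ S (d.X S b) (d.u S b) (d.L S b)) ∧ Disjoint (d.X S true) (d.X S false)

/-- The points seen only from the end `b`. -/
def Ee (nb : W → Finset α) (d : Dat W) (S : Finset W) (b : Bool) : Finset α :=
  (cov nb (S \ d.X S b))ᶜ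

/-- Both ends see more than a quarter of `T`. -/
def Typ (nb : W → Finset α) (μ : α → ℝ) (d : Dat W) (S : Finset W) (T : Finset α) : Prop :=
  ∀ b, ms μ T / 4 < ms μ (cov nb (d.X S b) ∩ T)

/-- The two sides of the cut at the end `false`. -/
def side (d : Dat W) (S : Finset W) (c : Bool) : Finset W :=
  if c then S \ d.X S false else d.X S false

open Classical in
/-- The legs of the end `b` touching `Z`. -/
def tl (r : W → W → Prop) (d : Dat W) (S : Finset W) (b : Bool) (Z : Finset W) :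
    Finset (Finset W) := (d.L S b).filter fun K => Tch r K Z

open Classical in
/-- The legs of the end `b` not touching `Z`. -/
def ntl (r : W → W → Prop) (d : Dat W) (S : Finset W) (b : Bool) (Z : Finset W) :
    Finset (Finset W) := (d.L S b).filter fun K => ¬ Tch r K Z

/-- A side of `S` can be extended by legs of `S'`. -/
def Ext (r : W → W → Prop) (nb : W → Finset α) (μ : α → ℝ) (d : Dat W) (S S' : Finset W) :
    Prop :=
  ∃ c b, 5 / 10000 ≤ ms μ (cov nb (un (tl r d S' b (side d S c))) \ cov nb (side d S c))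

/-- The bisections given by `S` and `S'` cross. -/
def Crs (nb : W → Finset α) (μ : α → ℝ) (d : Dat W) (S S' : Finset W) : Prop :=
  ∀ b b', 1 / 30 ≤ ms μ (Ee nb d S b ∩ Ee nb d S' b')

/-- All pairs are double spiders and are typical for every large set up to `e` classes. -/
structure DC (r : W → W → Prop) (nb : W → Finset α) (C : ι → Finset W) (R : Finset ι)
    (μ : α → ℝ) (d : Dat W) (e : ℕ) : Prop where
  ctx : Ctx r nb C R μ
  dbl : ∀ a ∈ R, ∀ b ∈ R, a ≠ b → Dbl r nb μ d (C a ∪ C b)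
  tp : ∀ T : Finset α, 1 / 30 ≤ ms μ T → ∃ Ex : Finset ι, Ex.card ≤ e ∧
    ∀ a ∈ R, ∀ b ∈ R, a ∉ Ex → b ∉ Ex → a ≠ b → Typ nb μ d (C a ∪ C b) T

/-- Cores together with two spare connected sets. -/
def Semi (r : W → W → Prop) (nb : W → Finset α) (C : ι → Finset W) (μ : α → ℝ) (Q : Finset ι) :
    Prop :=
  ∃ (F : Finset (Finset W)) (Z : Bool → Finset W), Cores r nb C μ (1 / 10000) 2 Q F ∧
    (∀ b, Cn r (Z b) ∧ Z b ⊆ Q.biUnion C ∧ 1 / 30 ≤ fv nb μ (Z b) ∧ ∀ N ∈ F, Disjoint N (Z b)) ∧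
    Disjoint (Z true) (Z false) ∧ Q.card ≤ 2 * F.card + 1

/-- Two cores and one spare connected set. -/
def Half (r : W → W → Prop) (nb : W → Finset α) (C : ι → Finset W) (μ : α → ℝ) (Q : Finset ι) :
    Prop :=
  ∃ (F : Finset (Finset W)) (Z : Finset W), Cores r nb C μ (1 / 10000) 2 Q F ∧ F.card = 2 ∧
    Cn r Z ∧ Z ⊆ Q.biUnion C ∧ 1 / 30 ≤ fv nb μ Z ∧ ∀ N ∈ F, Disjoint N Z

end Meas

/-- The statement of the sprinkling theorem with given constants. -/
def ThmA (δ K : ℝ) (r0 : ℕ) : Prop :=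
  ∀ (W ι : Type) [Fintype W] [DecidableEq W] [DecidableEq ι] (r : W → W → Prop)
    (C : ι → Finset W) (R : Finset ι) (Sg : Finset W), Sy r C →
    (∀ i ∈ R, Disjoint Sg (C i)) → (∀ y ∈ Sg, ∀ i ∈ R, ∃ x ∈ C i, r x y) → r0 ≤ R.card →
    K * R.card * Real.log R.card ≤ Sg.card →
    ∃ (F : Finset (Finset W)) (Uc : Finset ι), Uc ⊆ R ∧ Fam r F ∧
      (∀ N ∈ F, N ⊆ Uc.biUnion C ∪ Sg) ∧ (Uc.card : ℝ) + δ * R.card ≤ 2 * F.card

section Types

variable {W ι : Type} [Fintype W] [DecidableEq W] [Fintype ι] [DecidableEq ι]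

open Classical in
/-- The neighbours of `y` in the class `O`. -/
def typ (r : W → W → Prop) (C : ι → Finset W) (O : ι) (y : W) : Finset W := (C O).filter (r y)

/-- The points of the classes other than `O`. -/
def oth (C : ι → Finset W) (O : ι) : Finset W := (univ.erase O).biUnion C

/-- The points outside `O` of type `τ`. -/
def cand (r : W → W → Prop) (C : ι → Finset W) (O : ι) (τ : Finset W) : Finset W :=
  (oth C O).filter fun y => typ r C O y = τ

/-- The sets of `T` link all of `A` to `R0`. -/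
def Lnk (A R0 : Finset W) (T : Finset (Finset W)) : Prop :=
  ∀ U ⊆ A, R0 ⊆ U → (∀ τ ∈ T, (τ ∩ U).Nonempty → τ ⊆ U) → U = A

/-- Every type of `T` gets `m` candidates. -/
def Ok (r : W → W → Prop) (C : ι → Finset W) (m : ℕ) (O : ι) (T : Finset (Finset W))
    (L : Finset W → Finset W) : Prop :=
  ∀ τ ∈ T, L τ ⊆ cand r C O τ ∧ (L τ).card = m

/-- The price of an offer. -/
def cost (m : ℕ) (T : Finset (Finset W)) (L : Finset W → Finset W) (g : W → ℝ) : ℝ :=
  ∑ τ ∈ T, ms g (L τ) / m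

open Classical in
/-- The least price of an offer linking the class `O` to `R0`. -/
def phi (r : W → W → Prop) (C : ι → Finset W) (m : ℕ) (O : ι) (R0 : Finset W) (g : W → ℝ) : ℝ :=
  (univ : Finset (Finset (Finset W) × (Finset W → Finset W))).inf' univ_nonempty fun q =>
    if Lnk (C O) R0 q.1 ∧ Ok r C m O q.1 q.2 then cost m q.1 q.2 g else 2

open Classical in
/-- The classes containing a point which is among the cheapest of its type. -/
def Exc (r : W → W → Prop) (C : ι → Finset W) (m : ℕ) (O : ι) (g : W → ℝ) : Finset ι :=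
  (univ.erase O).filter fun F =>
    ∃ y ∈ C F, ((cand r C O (typ r C O y)).filter fun y' => g y' ≤ g y).card < m

open Classical in
/-- The neighbours of `J` in the class `F`. -/
def nbh (r : W → W → Prop) (C : ι → Finset W) (F : ι) (J : Finset W) : Finset W :=
  (C F).filter fun y => ∃ x ∈ J, r y x

/-- The class `O` with `Z` becomes connected by one point of each type of `T`. -/
def Own (r : W → W → Prop) (C : ι → Finset W) (O : ι) (Z : Finset W) (T : Finset (Finset W)) :
    Prop :=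
  ∀ Y : Finset W, (∀ τ ∈ T, ∃ y ∈ Y, typ r C O y = τ) → (∀ y ∈ Y, ∃ x ∈ C O, r y x) →
    Cn r (C O ∪ Z ∪ Y)

/-- Few types: every class sees at most `G` types. -/
def Few (r : W → W → Prop) (C : ι → Finset W) (G : ℕ) : Prop :=
  ∀ O, ((oth C O).image (typ r C O)).card ≤ G

end Types

/-- The role of a class: `k = 0` nothing, `k = 1` certified node, `k = 2` owner. -/
structure Role (W : Type) where
  k : Fin 3
  D : Finset W
  v : W
  T : Finset (Finset W)
  L : Finset W → Finset W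

instance {W : Type} [Fintype W] [DecidableEq W] : Fintype (Role W) :=
  Fintype.ofInjective (fun x => (x.k, x.D, x.v, x.T, x.L)) (by
    rintro ⟨a, b, c, d, e⟩ ⟨a', b', c', d', e'⟩ h
    simp only [Prod.mk.injEq] at h
    obtain ⟨rfl, rfl, rfl, rfl, rfl⟩ := h
    rfl)

instance {W : Type} : DecidableEq (Role W) := Classical.decEq _

/-- A pair of classes with a role for each of them. -/
abbrev Atom (n : ℕ) (W : Type) : Type := (Fin n × Fin n) × (Bool → Role W)

section Atoms

variable {W : Type} [Fintype W] [DecidableEq W] {n : ℕ}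

/-- The class on side `b` of a pair. -/
def sd (e : Fin n × Fin n) (b : Bool) : Bool × Fin n := (b, if b then e.1 else e.2)

/-- The union of the two classes of a pair. -/
def SS (C : Bool × Fin n → Finset W) (e : Fin n × Fin n) : Finset W :=
  C (sd e true) ∪ C (sd e false)

/-- The part of a node inside its pair. -/
def base (C : Bool × Fin n → Finset W) (a : Atom n W) (b : Bool) : Finset W :=
  if (a.2 b).k = 1 then SS C a.1 \ (a.2 b).D
  else if (a.2 b).k = 2 then C (sd a.1 b) ∪ (a.2 b).D else ∅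

/-- The points given away. -/
def spl (C : Bool × Fin n → Finset W) (a : Atom n W) : Finset W :=
  SS C a.1 \ (base C a true ∪ base C a false)

/-- The number of nodes. -/
def cnt (a : Atom n W) : ℝ := ∑ b : Bool, if (a.2 b).k = 0 then 0 else 1

/-- The requested pairs of a class and a type. -/
def req (a : Atom n W) : Finset ((Bool × Fin n) × Finset W) :=
  univ.biUnion fun b : Bool =>
    if (a.2 b).k = 2 then (a.2 b).T.image fun τ => (sd a.1 b, τ) else ∅

/-- The demand of a request on a point. -/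
def dem (m : ℕ) (a : Atom n W) (q : (Bool × Fin n) × Finset W) (y : W) : ℝ :=
  if q ∈ req a ∧ y ∈ (a.2 q.1.1).L q.2 then 1 / m else 0

/-- The price independent conditions on an atom. -/
structure Valid (r : W → W → Prop) (C : Bool × Fin n → Finset W) (m : ℕ) (a : Atom n W) :
    Prop where
  disj : Disjoint (base C a true) (base C a false)
  cert : ∀ b, (a.2 b).k = 1 →
    (a.2 (!b)).k = 0 ∧ Cn r (SS C a.1 \ (a.2 b).D) ∧ (a.2 b).v ∈ C (sd a.1 b)
  own : ∀ b, (a.2 b).k = 2 → (a.2 b).D ⊆ C (sd a.1 (!b)) ∧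
    Own r C (sd a.1 b) (a.2 b).D (a.2 b).T ∧ Ok r C m (sd a.1 b) (a.2 b).T (a.2 b).L

/-- The prices of the points. -/
def pg (p : Option W → ℝ) : W → ℝ := fun y => p (some y)

/-- The margin of the certificate on one side. -/
def mr (r : W → W → Prop) (C : Bool × Fin n → Finset W) (m : ℕ) (a : Atom n W)
    (p : Option W → ℝ) (b : Bool) : ℝ :=
  if (a.2 b).k = 1 then
    min (p none / 6 - ms (pg p) ((a.2 b).D ∩ C (sd a.1 (!b))))
      (phi r C m (sd a.1 b) (insert (a.2 b).v ((a.2 b).D ∩ C (sd a.1 b))) (pg p) - p none / 6)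
  else 1

open Classical in
/-- The margin of an atom. -/
def mar (r : W → W → Prop) (C : Bool × Fin n → Finset W) (m : ℕ) (a : Atom n W)
    (p : Option W → ℝ) : ℝ :=
  if Valid r C m a then min (mr r C m a p true) (mr r C m a p false) else -1

/-- The net contribution of an atom to each commodity. -/
def net (C : Bool × Fin n → Finset W) (m : ℕ) (a : Atom n W) : Option W → ℝ
  | none => cnt a
  | some y => (if y ∈ spl C a then 1 else 0) - 26 / 25 * ∑ q, dem m a q y

/-- The guaranteed value of a pair. -/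
def B0 [NeZero n] (r : W → W → Prop) (C : Bool × Fin n → Finset W) (m : ℕ)
    (v0 : Bool × Fin n → W) (e : Fin n × Fin n) (p : Option W → ℝ) : ℝ :=
  p none + max 0 (min (p none / 20)
    (max (min (ms (pg p) (C (sd e true))) (ms (pg p) (C (sd e false))) - 2 / 5 * p none)
      (12 / 25 * p none - univ.sup' univ_nonempty fun O => phi r C m O {v0 O} (pg p))))

/-- Two certified atoms whose certificates both fail. -/
def Conf (r : W → W → Prop) (C : Bool × Fin n → Finset W) (m : ℕ) (g : W → ℝ)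
    (a a' : Atom n W) : Prop :=
  ∃ b b', (a.2 b).k = 1 ∧ (a'.2 b').k = 1 ∧ sd a'.1 (!b') ∈ Exc r C m (sd a.1 b) g ∧
    sd a.1 (!b) ∈ Exc r C m (sd a'.1 b') g

/-- An equilibrium: prices `p` and a law `x` on the atoms of every pair. -/
structure Equi (r : W → W → Prop) (C : Bool × Fin n → Finset W) (m : ℕ) (p : Option W → ℝ)
    (x : Atom n W → ℝ) : Prop where
  p0 : ∀ k, 0 ≤ p k
  x0 : ∀ a, 0 ≤ x a
  x1 : ∀ e, ∑ a with a.1 = e, x a = 1
  pos : ∀ a, 0 < x a → 0 < mar r C m a p
  low : ∀ y ∈ univ.biUnion C, 1 / 200 ≤ ∑ a, x a / n * (if y ∈ spl C a then 1 else 0)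
  bal : ∀ y, 26 / 25 * ∑ a, x a / n * ∑ q, dem m a q y ≤
    ∑ a, x a / n * (if y ∈ spl C a then 1 else 0)
  tot : 203 / 200 * (n : ℝ) ≤ ∑ a, x a / n * cnt a

end Atoms

/-- Atoms on pairwise disjoint pairs. -/
def Mt {A : Type} {n : ℕ} (e : A → Fin n × Fin n) (S : Finset A) : Prop :=
  ∀ a ∈ S, ∀ b ∈ S, a ≠ b → (e a).1 ≠ (e b).1 ∧ (e a).2 ≠ (e b).2

/-- A random matching of atoms with given marginals and nearly independent pairs. -/
structure Law {A Ω : Type} [Fintype A] [DecidableEq A] [Fintype Ω] {n : ℕ}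
    (e : A → Fin n × Fin n) (x : A → ℝ) (P : Ω → ℝ) (sel : Ω → Finset A) : Prop where
  p0 : ∀ w, 0 ≤ P w
  p1 : ∑ w, P w = 1
  pos : ∀ w, ∀ a ∈ sel w, 0 < x a
  mt : ∀ w, Mt e (sel w)
  one : ∀ a, ∑ w, P w * (if a ∈ sel w then 1 else 0) = x a / n
  two : ∀ a b, a ≠ b →
    ∑ w, P w * (if a ∈ sel w ∧ b ∈ sel w then 1 else 0) ≤ x a * x b / (n * (n - 1))

end

end Pool.Agent.P.MP_a374b6_co.H
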