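import Pool.Agent.P.MP_a374b6_co.H.Phi

/-! Large degrees give many droppable points; small degrees give few types. -/

namespace Pool.Agent.P.MP_a374b6_co.H

open Finset

theorem deg_drop {W : Type} [DecidableEq W] {r : W → W → Prop} (hs : ∀ x y, r x y → r y x)
    {S N : Finset W} {y : W} (hS : Cn r S) (hy : y ∈ S) (hN : N ⊆ S.erase y)
    (h : ∀ x ∈ N, r y x) :
    ∃ Y ⊆ S.erase y, Y.card = N.card ∧ ∀ Y' ⊆ Y, Cn r (S \ Y') := by
  classical
  have star : ∀ T ⊆ insert y N, y ∈ T → Cn r T := fun T hT hyT =>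
    (cn_singleton y).extend hs (singleton_subset_iff.2 hyT) fun w hw =>
      (mem_insert.1 (hT hw)).imp mem_singleton.2 fun hw' => ⟨y, mem_singleton_self y, h w hw'⟩
  induction S using Finset.strongInduction with
  | H S ih =>
    have h0 : insert y N ⊆ S := insert_subset hy (hN.trans (erase_subset _ _))
    by_cases he : insert y N = S
    · refine ⟨N, hN, rfl, fun Y' hY' => star _ (sdiff_subset.trans he.ge) ?_⟩
      exact mem_sdiff.2 ⟨hy, fun hy' => (mem_erase.1 (hN (hY' hy'))).1 rfl⟩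
    obtain ⟨T, hT, hmax⟩ := exists_max_image
      (S.powerset.filter fun T => insert y N ⊆ T ∧ T ≠ S ∧ Cn r T) card
      ⟨insert y N, mem_filter.2 ⟨mem_powerset.2 h0, Subset.rfl, he,
        star _ Subset.rfl (mem_insert_self _ _)⟩⟩
    obtain ⟨t1, t2, t3, t4⟩ := mem_filter.1 hT
    rw [mem_powerset] at t1
    obtain ⟨u, hu, z, hz, hr⟩ := hS.2 T t1 t4.1 t3
    obtain ⟨z1, z2⟩ := mem_sdiff.1 hz
    have hST : insert z T = S := by
      by_contra hne
      have := hmax (insert z T) (mem_filter.2 ⟨mem_powerset.2 (insert_subset z1 t1),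
        t2.trans (subset_insert _ _), hne, t4.extend hs (subset_insert _ _) fun w hw => by
          rcases mem_insert.1 hw with rfl | hw
          · exact Or.inr ⟨u, hu, hr⟩
          · exact Or.inl hw⟩)
      rw [card_insert_of_notMem z2] at this
      omega
    have hyT : y ∈ T := t2 (mem_insert_self _ _)
    obtain ⟨Y, y1, y2, y3⟩ := ih T (Finset.ssubset_iff_subset_ne.2 ⟨t1, t3⟩) t4 hyT fun w hw =>
      mem_erase.2 ⟨(mem_erase.1 (hN hw)).1, t2 (mem_insert_of_mem hw)⟩
    have key : ∀ Y' : Finset W, Y'.erase z ⊆ Y.erase u → Cn r (S \ Y') := by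
      intro Y' hY'
      refine (y3 _ (hY'.trans (erase_subset _ _))).extend hs (fun w hw => ?_) fun w hw => ?_
      · obtain ⟨w1, w2⟩ := mem_sdiff.1 hw
        exact mem_sdiff.2 ⟨t1 w1, fun w3 => w2 (mem_erase.2 ⟨fun e => z2 (e ▸ w1), w3⟩)⟩
      · obtain ⟨w1, w2⟩ := mem_sdiff.1 hw
        rw [← hST] at w1
        rcases mem_insert.1 w1 with rfl | w1
        · exact Or.inr ⟨u, mem_sdiff.2 ⟨hu, fun w3 => (mem_erase.1 (hY' w3)).1 rfl⟩, hr⟩
        · exact Or.inl (mem_sdiff.2 ⟨w1, fun w3 => w2 (mem_erase.1 w3).2⟩)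
    have y4 : Y ⊆ S.erase y := y1.trans (erase_subset_erase _ t1)
    by_cases huY : u ∈ Y
    · refine ⟨insert z (Y.erase u), insert_subset (mem_erase.2 ⟨fun e => z2 (e ▸ hyT), z1⟩)
        ((erase_subset _ _).trans y4), ?_, fun Y' hY' => key Y' fun w hw => ?_⟩
      · rw [card_insert_of_notMem fun w => z2 (mem_erase.1 (y1 (mem_erase.1 w).2)).2,
          card_erase_add_one huY, y2]
      · exact (mem_insert.1 (hY' (mem_erase.1 hw).2)).resolve_left (mem_erase.1 hw).1
    · refine ⟨Y, y4, y2, fun Y' hY' => key Y' ?_⟩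
      rw [erase_eq_of_notMem huY]
      exact (erase_subset _ _).trans hY'

theorem card_small_subsets {W : Type} [DecidableEq W] (A : Finset W) (k : ℕ) {x : ℝ}
    (h0 : 0 < x) (h1 : x ≤ 1) :
    ((A.powerset.filter fun τ => τ.card ≤ k).card : ℝ) ≤ (1 + x) ^ A.card / x ^ k := by
  rw [le_div_iff₀ (pow_pos h0 k), ← prod_const, prod_one_add, ← nsmul_eq_mul, ← sum_const]
  refine (sum_le_sum fun τ hτ => ?_).trans (sum_le_sum_of_subset_of_nonneg (filter_subset _ _)
    fun τ _ _ => prod_nonneg fun _ _ => h0.le)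
  rw [prod_const]
  exact pow_le_pow_of_le_one h0.le h1 (mem_filter.1 hτ).2

theorem few_of_no_drop {W ι : Type} [Fintype W] [DecidableEq W] [Fintype ι] [DecidableEq ι]
    {r : W → W → Prop} {C : ι → Finset W} (hS : Sy r C) {s L : ℕ} (hs : ∀ O, (C O).card ≤ s)
    (h : ∀ i j, i ≠ j → ∀ Y ⊆ C j, L ≤ Y.card → ¬ Cn r ((C i ∪ C j) \ Y)) {x : ℝ} (h0 : 0 < x)
    (h1 : x ≤ 1) : Few r C ⌊(1 + x) ^ s / x ^ (2 * L)⌋₊ := by
  intro O
  have k1 : (oth C O).image (typ r C O) ⊆ (C O).powerset.filter fun τ => τ.card ≤ 2 * L := by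
    intro τ hτ
    obtain ⟨y, hy, rfl⟩ := mem_image.1 hτ
    obtain ⟨F, hF, hyF⟩ := mem_oth.1 hy
    refine mem_filter.2 ⟨mem_powerset.2 fun w hw => (mem_typ.1 hw).1, ?_⟩
    by_contra hn
    obtain ⟨Y, y1, y2, y3⟩ := deg_drop hS.symm (N := typ r C O y) (hS.conn O F hF.symm)
      (mem_union_right _ hyF) (fun w hw => mem_erase.2 ⟨fun e =>
        hF (hS.eq_of_mem hyF (e ▸ (mem_typ.1 hw).1)), mem_union_left _ (mem_typ.1 hw).1⟩)
      fun w hw => (mem_typ.1 hw).2
    have y4 : Y.card ≤ (Y ∩ C O).card + (Y ∩ C F).card := by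
      refine le_trans (card_le_card fun w hw => ?_) (card_union_le _ _)
      rw [← inter_union_distrib_left]
      exact mem_inter.2 ⟨hw, (mem_erase.1 (y1 hw)).2⟩
    by_cases c : L ≤ (Y ∩ C F).card
    · exact h O F hF.symm _ inter_subset_right c (y3 _ inter_subset_left)
    · refine h F O hF (Y ∩ C O) inter_subset_right (by omega) ?_
      rw [union_comm]
      exact y3 _ inter_subset_left
  refine Nat.le_floor (le_trans (by exact_mod_cast card_le_card k1)
    ((card_small_subsets (C O) (2 * L) h0 h1).trans ?_))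
  exact div_le_div_of_nonneg_right (pow_le_pow_right₀ (by linarith) (hs O)) (by positivity)

end Pool.Agent.P.MP_a374b6_co.H
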