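import Mathlib

/-! The defect form of the marriage theorem. -/

namespace Pool.Agent.P.MP_a374b6_co.H

open Finset

theorem dh_bound {Q Y : Type} [DecidableEq Q] [DecidableEq Y] (Act : Finset Q) (Sup : Finset Y)
    (w : Q → Y → ℝ) (hw : ∀ q y, 0 ≤ w q y) {S : Finset Q} (hS : S ⊆ Act) {T : Finset Y}
    (hT : T ⊆ Sup) (h : ∀ q ∈ S, ∀ y ∈ Sup, w q y ≠ 0 → y ∈ T) :
    (S.card : ℝ) ≤ T.card + (∑ q ∈ Act, max 0 (1 - ∑ y ∈ Sup, w q y) +
      ∑ y ∈ Sup, max 0 (∑ q ∈ Act, w q y - 1)) := by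
  have e1 : (S.card : ℝ) ≤ ∑ q ∈ S, (∑ y ∈ T, w q y + max 0 (1 - ∑ y ∈ Sup, w q y)) := by
    rw [card_eq_sum_ones]
    push_cast
    refine sum_le_sum fun q hq => ?_
    have : ∑ y ∈ T, w q y = ∑ y ∈ Sup, w q y := sum_subset hT fun y hy hyT => by
      by_contra hne
      exact hyT (h q hq y hy hne)
    linarith [le_max_right 0 (1 - ∑ y ∈ Sup, w q y)]
  have e2 : ∑ q ∈ S, max 0 (1 - ∑ y ∈ Sup, w q y) ≤ ∑ q ∈ Act, max 0 (1 - ∑ y ∈ Sup, w q y) :=
    sum_le_sum_of_subset_of_nonneg hS fun _ _ _ => le_max_left _ _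
  have e3 : ∑ y ∈ T, ∑ q ∈ S, w q y ≤ ∑ y ∈ T, (1 + max 0 (∑ q ∈ Act, w q y - 1)) := by
    refine sum_le_sum fun y _ => ?_
    have : ∑ q ∈ S, w q y ≤ ∑ q ∈ Act, w q y :=
      sum_le_sum_of_subset_of_nonneg hS fun _ _ _ => hw _ _
    linarith [le_max_right 0 (∑ q ∈ Act, w q y - 1)]
  have e4 : ∑ y ∈ T, max 0 (∑ q ∈ Act, w q y - 1) ≤ ∑ y ∈ Sup, max 0 (∑ q ∈ Act, w q y - 1) :=
    sum_le_sum_of_subset_of_nonneg hT fun _ _ _ => le_max_left _ _
  rw [sum_add_distrib, sum_comm] at e1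
  rw [sum_add_distrib, sum_const, nsmul_eq_mul, mul_one] at e3
  linarith

theorem defect_hall {Q Y : Type} [DecidableEq Q] [DecidableEq Y] [Nonempty Y] (Act : Finset Q)
    (Sup : Finset Y) (w : Q → Y → ℝ) (hw : ∀ q y, 0 ≤ w q y) :
    ∃ srv ⊆ Act, ∃ φ : Q → Y, Set.InjOn φ srv ∧ (∀ q ∈ srv, φ q ∈ Sup ∧ w q (φ q) ≠ 0) ∧
      ((Act \ srv).card : ℝ) ≤ ∑ q ∈ Act, max 0 (1 - ∑ y ∈ Sup, w q y) +
        ∑ y ∈ Sup, max 0 (∑ q ∈ Act, w q y - 1) := by
  classical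
  set d := ∑ q ∈ Act, max 0 (1 - ∑ y ∈ Sup, w q y) +
    ∑ y ∈ Sup, max 0 (∑ q ∈ Act, w q y - 1) with hd
  have hd0 : 0 ≤ d := add_nonneg (sum_nonneg fun _ _ => le_max_left _ _)
    (sum_nonneg fun _ _ => le_max_left _ _)
  set t : Act → Finset (Y ⊕ Fin ⌊d⌋₊) := fun q =>
    (Sup.filter fun y => w q y ≠ 0).disjSum univ with ht
  obtain ⟨f, hf, hft⟩ := (all_card_le_biUnion_card_iff_existsInjective' t).1 (by
    intro s
    rcases s.eq_empty_or_nonempty with rfl | ⟨q0, hq0⟩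
    · simp
    set T := Sup.filter fun y => ∃ q ∈ s, w q y ≠ 0 with hT
    have h1 := dh_bound Act Sup w hw (S := s.map (Function.Embedding.subtype _)) (T := T)
      (fun q hq => by
        obtain ⟨a, -, rfl⟩ := mem_map.1 hq
        exact a.2) (filter_subset _ _) (fun q hq y hy hne => by
        obtain ⟨a, ha, rfl⟩ := mem_map.1 hq
        exact mem_filter.2 ⟨hy, a, ha, hne⟩)
    rw [card_map, ← hd] at h1
    have h2 : s.card ≤ T.card + ⌊d⌋₊ := by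
      have h3 : (s.card : ℝ) < (T.card + ⌊d⌋₊ + 1 : ℕ) := by
        push_cast
        linarith [Nat.lt_floor_add_one d]
      exact Nat.lt_succ_iff.1 (by exact_mod_cast h3)
    refine h2.trans (le_trans (le_of_eq ?_) (card_le_card (s := T.disjSum univ) ?_))
    · simp
    · rintro (y | k) hy
      · obtain ⟨hy1, q, hq, hne⟩ := mem_filter.1 (inl_mem_disjSum.1 hy)
        exact mem_biUnion.2 ⟨q, hq, inl_mem_disjSum.2 (mem_filter.2 ⟨hy1, hne⟩)⟩
      · exact mem_biUnion.2 ⟨q0, hq0, inr_mem_disjSum.2 (mem_univ _)⟩)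
  set φ : Q → Y := fun q => if h : q ∈ Act then (f ⟨q, h⟩).elim id (fun _ => Classical.arbitrary Y)
    else Classical.arbitrary Y with hφ
  set srv := Act.filter fun q => ∃ h : q ∈ Act, f ⟨q, h⟩ = Sum.inl (φ q) with hsrv
  refine ⟨srv, filter_subset _ _, φ, fun a ha b hb e => ?_, fun q hq => ?_, ?_⟩
  · obtain ⟨-, h1, e1⟩ := mem_filter.1 ha
    obtain ⟨-, h2, e2⟩ := mem_filter.1 hb
    exact congrArg Subtype.val (hf (e1.trans (e ▸ e2.symm)))
  · obtain ⟨-, h1, e1⟩ := mem_filter.1 hq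
    have := hft ⟨q, h1⟩
    rw [e1] at this
    exact mem_filter.1 (inl_mem_disjSum.1 this)
  · refine le_trans ?_ (Nat.floor_le hd0)
    have h1 : ∀ q ∈ Act \ srv, ∃ k, ∃ h : q ∈ Act, f ⟨q, h⟩ = Sum.inr k := by
      intro q hq
      obtain ⟨h1, h2⟩ := mem_sdiff.1 hq
      rcases e : f ⟨q, h1⟩ with y | k
      · exact absurd (mem_filter.2 ⟨h1, h1, by simp [hφ, h1, e]⟩) h2
      · exact ⟨k, h1, e⟩
    choose g hg using h1
    have := card_le_card_of_injOn (s := (Act \ srv).attach) (t := univ) (fun q => g q.1 q.2)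
      (fun _ _ => mem_univ _) (fun a _ b _ e => by
        obtain ⟨h1, e1⟩ := hg a.1 a.2
        obtain ⟨h2, e2⟩ := hg b.1 b.2
        have e' : g a.1 a.2 = g b.1 b.2 := e
        have := hf (e1.trans (e' ▸ e2.symm))
        exact Subtype.ext (congrArg (fun z : Act => z.1) this))
    rw [card_attach, card_univ, Fintype.card_fin] at this
    exact_mod_cast this

end Pool.Agent.P.MP_a374b6_co.H
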