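import Pool.Agent.P.MP_456758_an.Brouwer

/-! The Gale, Nikaido, Debreu lemma and soft selection. -/

namespace Pool.Agent.P.MP_a374b6_co.H

open Finset

theorem gnd_ret (K : Type) [Fintype K] [Nonempty K] :
    ∃ ret : (K → ℝ) → K → ℝ, Continuous ret ∧ (∀ x, ret x ∈ stdSimplex ℝ K) ∧
      ∀ x ∈ stdSimplex ℝ K, ret x = x := by
  have hc : (0 : ℝ) < Fintype.card K := by exact_mod_cast Fintype.card_pos
  have hm : ∀ x : K → ℝ, 0 < max 1 (∑ j, max (x j) 0) := fun x => lt_max_of_lt_left one_pos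
  refine ⟨fun x k => (max (x k) 0 + max (1 - ∑ j, max (x j) 0) 0 / Fintype.card K) /
    max 1 (∑ j, max (x j) 0), continuous_pi fun k => Continuous.div (by fun_prop) (by fun_prop)
      fun x => (hm x).ne', fun x => ⟨fun k => ?_, ?_⟩, fun x hx => ?_⟩
  · exact div_nonneg (add_nonneg (le_max_right _ _) (div_nonneg (le_max_right _ _) hc.le))
      (hm x).le
  · rw [← sum_div, sum_add_distrib, sum_const, card_univ, nsmul_eq_mul, mul_div_cancel₀ _ hc.ne',
      div_eq_one_iff_eq (hm x).ne']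
    rcases le_total 1 (∑ j, max (x j) 0) with h | h
    · rw [max_eq_right h, max_eq_right (sub_nonpos.2 h), add_zero]
    · rw [max_eq_left h, max_eq_left (sub_nonneg.2 h)]
      ring
  · have h1 : ∀ j, max (x j) 0 = x j := fun j => max_eq_left (hx.1 j)
    funext k
    simp only [h1, hx.2, sub_self, max_self, zero_div, add_zero, div_one]

theorem gnd_fix {K : Type} [Fintype K] [Nonempty K] (f : (K → ℝ) → K → ℝ)
    (hf : ContinuousOn f (stdSimplex ℝ K)) (hm : ∀ p ∈ stdSimplex ℝ K, f p ∈ stdSimplex ℝ K) :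
    ∃ p ∈ stdSimplex ℝ K, f p = p := by
  obtain ⟨ret, h1, h2, h3⟩ := gnd_ret K
  have hg : Continuous fun x => f (ret x) := hf.comp_continuous h1 h2
  have hn : ∀ x, ‖f (ret x)‖ ≤ 1 := fun x => (pi_norm_le_iff_of_nonneg zero_le_one).2 fun k => by
    have := mem_Icc_of_mem_stdSimplex (hm _ (h2 x)) k
    rw [Real.norm_eq_abs, abs_of_nonneg this.1]
    exact this.2
  have hF : Continuous fun q : ℝ × (K → ℝ) =>
      q.2 - ((1 - q.1) / 2) • f (ret ((2 : ℝ) • q.2)) :=
    continuous_snd.sub (Continuous.smul (f := fun q : ℝ × (K → ℝ) => (1 - q.1) / 2) (by fun_prop)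
      (hg.comp (f := fun q : ℝ × (K → ℝ) => (2 : ℝ) • q.2) (by fun_prop)))
  have h0 : MP_456758_an.Ess fun x : K → ℝ => x - ((1 - (0 : ℝ)) / 2) • f (ret ((2 : ℝ) • x)) := by
    refine MP_456758_an.Ess.homotopy
      (F := fun t (x : K → ℝ) => x - ((1 - t) / 2) • f (ret ((2 : ℝ) • x))) hF ?_ ?_
    · intro t ht x hx h
      rw [sub_eq_zero] at h
      have h4 := congrArg norm h
      rw [hx, norm_smul, Real.norm_eq_abs, abs_of_nonneg (by linarith [ht.2])] at h4
      have h5 := hn ((2 : ℝ) • x)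
      nlinarith [ht.1, ht.2, norm_nonneg (f (ret ((2 : ℝ) • x)))]
    · simpa using MP_456758_an.ess_id (E := K → ℝ)
  obtain ⟨x, -, hx⟩ := h0 _ (hF.comp (Continuous.prodMk_right (0 : ℝ))) fun _ _ => rfl
  have h6 : f (ret ((2 : ℝ) • x)) = (2 : ℝ) • x := by
    have h7 : x = ((1 - (0 : ℝ)) / 2) • f (ret ((2 : ℝ) • x)) := sub_eq_zero.1 hx
    nth_rw 2 [h7]
    rw [smul_smul]
    norm_num
  have h8 : (2 : ℝ) • x ∈ stdSimplex ℝ K := h6 ▸ hm _ (h2 _)
  exact ⟨_, h8, by rwa [h3 _ h8] at h6⟩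

theorem gnd {K : Type} [Fintype K] [DecidableEq K] [Nonempty K] (z : (K → ℝ) → K → ℝ)
    (hz : ContinuousOn z (stdSimplex ℝ K))
    (hw : ∀ p ∈ stdSimplex ℝ K, ∑ k, p k * z p k ≤ 0) :
    ∃ p ∈ stdSimplex ℝ K, ∀ k, z p k ≤ 0 := by
  have hZ : ∀ p : K → ℝ, 0 < 1 + ∑ j, max (z p j) 0 := fun p => by
    have : 0 ≤ ∑ j, max (z p j) 0 := sum_nonneg fun j _ => le_max_right _ _
    linarith
  have hzk : ∀ k, ContinuousOn (fun p => max (z p k) 0) (stdSimplex ℝ K) := fun k =>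
    (continuous_id.max continuous_const).comp_continuousOn
      ((continuous_apply k).comp_continuousOn hz)
  obtain ⟨p, hp, hfix⟩ := gnd_fix
    (fun p k => (p k + max (z p k) 0) / (1 + ∑ j, max (z p j) 0))
    (continuousOn_pi.2 fun k => ((continuous_apply k).continuousOn.add (hzk k)).div
      (continuousOn_const.add (continuousOn_finsetSum _ fun j _ => hzk j)) fun p _ => (hZ p).ne')
    (fun p hp => ⟨fun k => div_nonneg (add_nonneg (hp.1 k) (le_max_right _ _)) (hZ p).le, by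
      rw [← sum_div, sum_add_distrib, hp.2, div_self (hZ p).ne']⟩)
  refine ⟨p, hp, fun k => ?_⟩
  have h1 : ∀ j, max (z p j) 0 = p j * ∑ i, max (z p i) 0 := fun j => by
    have := congrFun hfix j
    rw [div_eq_iff (hZ p).ne'] at this
    linarith
  have h2 : ∑ j, max (z p j) 0 ^ 2 = (∑ j, p j * z p j) * ∑ i, max (z p i) 0 := by
    rw [sum_mul]
    refine sum_congr rfl fun j _ => ?_
    have h3 : max (z p j) 0 ^ 2 = max (z p j) 0 * z p j := by
      rcases le_total (z p j) 0 with h | h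
      · simp [max_eq_right h]
      · rw [max_eq_left h, sq]
    rw [h3]
    nth_rw 1 [h1 j]
    ring
  have h4 : ∑ j, max (z p j) 0 ^ 2 ≤ 0 := by
    rw [h2]
    exact mul_nonpos_of_nonpos_of_nonneg (hw p hp) (sum_nonneg fun j _ => le_max_right _ _)
  have h5 : max (z p k) 0 ^ 2 ≤ 0 :=
    (single_le_sum (f := fun j => max (z p j) 0 ^ 2) (fun j _ => sq_nonneg _)
      (mem_univ k)).trans h4
  have h6 : max (z p k) 0 = 0 := pow_eq_zero_iff (two_ne_zero) |>.1 (le_antisymm h5 (sq_nonneg _))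
  exact h6 ▸ le_max_left _ _

theorem soft {K A E : Type} [Fintype K] [DecidableEq K] [Nonempty K] [Fintype A] [Fintype E]
    [DecidableEq E] (e : A → E) (nt : A → K → ℝ) (b : K → ℝ) (t : ℝ) (ht : 0 ≤ t)
    (mg : A → (K → ℝ) → ℝ) (hm : ∀ a, Continuous (mg a)) (Bd : E → (K → ℝ) → ℝ)
    (hB : ∀ c, Continuous (Bd c))
    (h1 : ∀ p ∈ stdSimplex ℝ K, ∀ c, ∃ a, e a = c ∧ 0 < mg a p ∧ Bd c p < ∑ k, p k * nt a k)
    (h2 : ∀ p ∈ stdSimplex ℝ K, 0 ≤ ∑ k, p k * b k + t * ∑ c, Bd c p) :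
    ∃ p ∈ stdSimplex ℝ K, ∃ x : A → ℝ, (∀ a, 0 ≤ x a) ∧ (∀ c, ∑ a with e a = c, x a = 1) ∧
      (∀ a, 0 < x a → 0 < mg a p) ∧ ∀ k, 0 ≤ b k + t * ∑ a, x a * nt a k := by
  obtain ⟨w, hw⟩ : ∃ w : A → (K → ℝ) → ℝ, w = fun a p =>
    max 0 (min (mg a p) (∑ k, p k * nt a k - Bd (e a) p)) := ⟨_, rfl⟩
  have w0 : ∀ a p, 0 ≤ w a p := fun a p => by rw [hw]; exact le_max_left _ _
  have wc : ∀ a, Continuous (w a) := fun a => by
    rw [hw]
    exact continuous_const.max ((hm a).min ((continuous_finsetSum _ fun k _ =>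
      (continuous_apply k).mul continuous_const).sub (hB _)))
  have wp : ∀ a p, 0 < w a p → 0 < mg a p ∧ Bd (e a) p < ∑ k, p k * nt a k := fun a p h => by
    rw [hw] at h
    beta_reduce at h
    rcases lt_max_iff.1 h with h | h
    · exact absurd h (lt_irrefl _)
    · exact ⟨(lt_min_iff.1 h).1, sub_pos.1 (lt_min_iff.1 h).2⟩
  have Dp : ∀ p ∈ stdSimplex ℝ K, ∀ c, 0 < ∑ a with e a = c, w a p := fun p hp c => by
    obtain ⟨a, ha, h3, h4⟩ := h1 p hp c
    refine sum_pos' (fun a _ => w0 a p) ⟨a, mem_filter.2 ⟨mem_univ a, ha⟩, ?_⟩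
    rw [hw]
    exact lt_max_of_lt_right (lt_min h3 (sub_pos.2 (ha ▸ h4)))
  obtain ⟨x, hx⟩ : ∃ x : (K → ℝ) → A → ℝ, x = fun p a =>
    w a p / ∑ a' with e a' = e a, w a' p := ⟨_, rfl⟩
  have x0 : ∀ p a, 0 ≤ x p a := fun p a => by
    rw [hx]
    exact div_nonneg (w0 a p) (sum_nonneg fun a' _ => w0 a' p)
  have x1 : ∀ p ∈ stdSimplex ℝ K, ∀ c, ∑ a with e a = c, x p a = 1 := fun p hp c => by
    rw [← div_self (Dp p hp c).ne', sum_div, hx]
    refine sum_congr rfl fun a ha => ?_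
    rw [← (mem_filter.1 ha).2]
  have xp : ∀ p a, 0 < x p a → 0 < w a p := fun p a h => by
    rw [hx] at h
    refine (w0 a p).lt_of_ne fun h' => ?_
    simp only [← h', zero_div, lt_irrefl] at h
  have xc : ∀ a, ContinuousOn (fun p => x p a) (stdSimplex ℝ K) := fun a => by
    rw [hx]
    exact (wc a).continuousOn.div (continuous_finsetSum _ fun a' _ => wc a').continuousOn
      fun p hp => (Dp p hp _).ne'
  obtain ⟨p, hp, hz⟩ := gnd (fun p k => -(b k + t * ∑ a, x p a * nt a k))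
    (continuousOn_pi.2 fun k => (continuousOn_const.add (continuousOn_const.mul
      (continuousOn_finsetSum _ fun a _ => (xc a).mul continuousOn_const))).neg)
    (fun p hp => by
      have e1 : ∑ k, p k * -(b k + t * ∑ a, x p a * nt a k) =
          -(∑ k, p k * b k + t * ∑ a, x p a * ∑ k, p k * nt a k) := by
        simp only [mul_sum]
        rw [sum_comm, ← sum_add_distrib, ← sum_neg_distrib]
        refine sum_congr rfl fun k _ => ?_
        rw [mul_neg, mul_add, mul_sum]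
        congr 2
        exact sum_congr rfl fun a _ => by ring
      have e2 : ∑ c, Bd c p = ∑ a, x p a * Bd (e a) p := by
        rw [← sum_fiberwise (s := univ) (g := e)]
        refine sum_congr rfl fun c _ => ?_
        rw [← one_mul (Bd c p), ← x1 p hp c, sum_mul]
        exact sum_congr rfl fun a ha => by rw [(mem_filter.1 ha).2]
      have e3 : ∑ a, x p a * Bd (e a) p ≤ ∑ a, x p a * ∑ k, p k * nt a k := by
        refine sum_le_sum fun a _ => ?_
        rcases (x0 p a).eq_or_lt with h | h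
        · rw [← h, zero_mul, zero_mul]
        · exact mul_le_mul_of_nonneg_left (wp a p (xp p a h)).2.le h.le
      have e4 := h2 p hp
      have e5 := mul_le_mul_of_nonneg_left e3 ht
      rw [e1]
      rw [e2] at e4
      linarith)
  exact ⟨p, hp, x p, x0 p, x1 p hp, fun a h => (wp a p (xp p a h)).1,
    fun k => neg_nonpos.1 (hz k)⟩

end Pool.Agent.P.MP_a374b6_co.H
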