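import Pool.Agent.P.MP_a374b6_co.H.Val
import Pool.Agent.P.MP_a374b6_co.H.Gnd

/-! Existence of an equilibrium. -/

namespace Pool.Agent.P.MP_a374b6_co.H

open Finset

variable {W : Type} [Fintype W] [DecidableEq W] {n : ℕ} {r : W → W → Prop}
  {C : Bool × Fin n → Finset W} {m : ℕ}

/-- Both classes are given away. -/
def eq_nil (v : W) : Bool → Role W := fun _ => ⟨0, ∅, v, ∅, fun _ => ∅⟩

theorem eq_mar (e : Fin n × Fin n) (v : W) (p : Option W → ℝ) :
    0 < mar r C m (e, eq_nil v) p := by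
  have h : Valid r C m (e, eq_nil v) :=
    ⟨by simp [base, eq_nil], fun b h => by simp [eq_nil] at h, fun b h => by simp [eq_nil] at h⟩
  simp [mar, h, mr, eq_nil]

theorem eq_sum (v : W) (x f : Atom n W → ℝ) :
    ∑ a, (199 / 200 * x a + 1 / 200 * if a.2 = eq_nil v then 1 else 0) / n * f a =
      199 / 200 / n * ∑ a, x a * f a + 1 / 200 / n * ∑ e, f (e, eq_nil v) := by
  have h : ∑ e, f (e, eq_nil v) = ∑ a : Atom n W, (if a.2 = eq_nil v then 1 else 0) * f a := by
    rw [eq_comm, Fintype.sum_prod_type]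
    simp
  rw [h, mul_sum, mul_sum, ← sum_add_distrib]
  exact sum_congr rfl fun a _ => by ring

omit [Fintype W] in
theorem eq_count {y : W} (hy : y ∈ univ.biUnion C) (v : W) :
    (n : ℝ) ≤ ∑ e : Fin n × Fin n, if y ∈ spl C (e, eq_nil v) then (1 : ℝ) else 0 := by
  obtain ⟨⟨b, i⟩, -, hy⟩ := mem_biUnion.1 hy
  cases b
  · rw [Fintype.sum_prod_type_right]
    refine le_trans ?_ (single_le_sum (fun j _ => sum_nonneg fun _ _ => by positivity)
      (mem_univ i))
    simp [spl, base, eq_nil, SS, sd, hy]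
  · rw [Fintype.sum_prod_type]
    refine le_trans ?_ (single_le_sum (fun j _ => sum_nonneg fun _ _ => by positivity)
      (mem_univ i))
    simp [spl, base, eq_nil, SS, sd, hy]

theorem eq_soft (hS : Sy r C) (hm : 0 < m) {G : ℕ} (hG : Few r C G)
    (hn : 4 * (m * G + 1) ≤ n) : ∃ p ∈ stdSimplex ℝ (Option W), ∃ x : Atom n W → ℝ,
      (∀ a, 0 ≤ x a) ∧ (∀ c, ∑ a with a.1 = c, x a = 1) ∧ (∀ a, 0 < x a → 0 < mar r C m a p) ∧
      203 / 200 * (n : ℝ) ≤ 199 / 200 / n * ∑ a, x a * cnt a ∧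
      ∀ y, 0 ≤ 1 / 200 + 199 / 200 / n * ∑ a, x a * net C m a (some y) := by
  have : NeZero n := ⟨by omega⟩
  have hn0 : (0 : ℝ) < n := by exact_mod_cast Nat.pos_of_ne_zero (NeZero.ne n)
  choose v0 hv using hS.ne
  obtain ⟨p, hp, x, h1, h2, h3, h4⟩ := soft (Prod.fst : Atom n W → _) (net C m)
    (fun k => k.elim (-(203 / 200 * n)) fun _ => 1 / 200) (199 / 200 / n) (by positivity)
    (mar r C m) continuous_mar
    (fun e p => B0 r C m v0 e p - (1 / 200 * (1 - p none) / n + p none / 200))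
    (fun e => (continuous_B0 v0 e).sub (by fun_prop))
    (fun p hp e => by
      obtain ⟨a, h1, h2, h3⟩ := val (m := m) hS hv hp e
      refine ⟨a, h1, h2, lt_of_lt_of_le (sub_lt_self _ ?_) h3⟩
      obtain ⟨h4, h5⟩ := mem_Icc_of_mem_stdSimplex hp none
      rcases h5.eq_or_lt with h5 | h5
      · simp [h5]
      · have h6 := sub_pos.2 h5
        positivity)
    (fun p hp => by
      obtain ⟨h4, h5⟩ := mem_Icc_of_mem_stdSimplex hp none
      have h1 := hp.2
      have h2 := wal hS hm hG hn hv hp.1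
      rw [Fintype.sum_option] at h1 ⊢
      simp only [Option.elim, ← sum_mul, sum_sub_distrib, sum_const, card_univ, Fintype.card_prod,
        Fintype.card_fin, nsmul_eq_mul, Nat.cast_mul]
      have h3 : 199 / 200 / (n : ℝ) * (103 / 100 * p none * n ^ 2 -
          n * n * (1 / 200 * (1 - p none) / n + p none / 200)) =
          199 / 200 * (41 / 40 * (p none * n) - 1 / 200 * (1 - p none)) := by
        field_simp
        ring
      have h6 := mul_le_mul_of_nonneg_left (sub_le_sub_right h2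
        (n * n * (1 / 200 * (1 - p none) / n + p none / 200)))
        (show 0 ≤ 199 / 200 / (n : ℝ) by positivity)
      have h7 : 0 ≤ p none * n := by positivity
      nlinarith)
  exact ⟨p, hp, x, h1, h2, h3, by simpa [net] using h4 none, fun y => h4 (some y)⟩

theorem exists_equi (hS : Sy r C) (hm : 0 < m) {G : ℕ} (hG : Few r C G)
    (hn : 4 * (m * G + 1) ≤ n) : ∃ p x, Equi r C m p x := by
  obtain ⟨p, hp, x, h1, h2, h3, h4, h5⟩ := eq_soft hS hm hG hn
  have hn0 : (0 : ℝ) < n := by exact_mod_cast (show 0 < n by omega)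
  obtain ⟨v, -⟩ := hS.ne (true, ⟨0, by omega⟩)
  have h0 : ∀ a : Atom n W, 0 ≤ 199 / 200 * x a + 1 / 200 * if a.2 = eq_nil v then 1 else 0 :=
    fun a => by have := h1 a; positivity
  have hpos : ∀ a : Atom n W, (0 < 199 / 200 * x a + 1 / 200 * if a.2 = eq_nil v then 1 else 0) →
      0 < mar r C m a p := fun a ha => by
    by_cases h : a.2 = eq_nil v
    · exact (show (a.1, eq_nil v) = a from Prod.ext rfl h.symm) ▸ eq_mar a.1 v p
    · rw [if_neg h] at ha
      exact h3 a (by linarith)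
  have hc : ∀ y ∈ univ.biUnion C, 1 / 200 ≤ 1 / 200 / (n : ℝ) *
      ∑ e : Fin n × Fin n, if y ∈ spl C (e, eq_nil v) then (1 : ℝ) else 0 := fun y hy => by
    have h := mul_le_mul_of_nonneg_left (eq_count hy v) (show 0 ≤ 1 / 200 / (n : ℝ) by positivity)
    rwa [div_mul_cancel₀ _ hn0.ne'] at h
  refine ⟨p, _, hp.1, h0, fun e => ?_, hpos, fun y hy => ?_, fun y => ?_, ?_⟩
  · rw [sum_add_distrib, ← mul_sum, ← mul_sum, h2, sum_filter, Fintype.sum_prod_type]
    simp
    norm_num
  · rw [eq_sum]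
    refine le_add_of_nonneg_of_le (mul_nonneg (by positivity) (sum_nonneg fun a _ => ?_)) (hc y hy)
    have := h1 a
    positivity
  · by_cases hy : y ∈ univ.biUnion C
    · have h6 : ∀ e : Fin n × Fin n, ∑ q, dem m (e, eq_nil v) q y = 0 := fun e => by
        simp [dem, mem_req, eq_nil]
      have h7 := h5 y
      simp only [net, mul_sub, sum_sub_distrib, mul_left_comm _ (26 / 25 : ℝ), ← mul_sum] at h7
      rw [eq_sum, eq_sum]
      simp only [h6, sum_const_zero, mul_zero, add_zero]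
      linarith [hc y hy]
    · rw [sum_eq_zero fun a _ => ?_, mul_zero]
      · exact sum_nonneg fun a _ => by have := h0 a; positivity
      rcases (h0 a).eq_or_lt with h | h
      · rw [← h, zero_div, zero_mul]
      refine mul_eq_zero_of_right _ (sum_eq_zero fun q _ => ?_)
      by_contra h6
      obtain ⟨F, -, h7⟩ := mem_oth.1 (mem_cand.1
        ((((valid_of_mar (hpos a h)).1.dem_facts hm).1 q y).2.2 h6).2).1
      exact hy (mem_biUnion.2 ⟨F, mem_univ _, h7⟩)
  · rw [eq_sum]
    simpa [cnt, eq_nil] using h4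

end Pool.Agent.P.MP_a374b6_co.H
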