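import Pool.Agent.P.MP_a374b6_co.H.Main
import Pool.Agent.P.MP_a374b6_co.Graph

/-! Back to graphs. -/

namespace Pool.Agent.P.MP_a374b6_co.H

theorem fin_conn_of_cn {W : Type} [DecidableEq W] {r : W → W → Prop} {S : Finset W}
    (h : Cn r S) : Conn r (S : Set W) := by
  classical
  refine ⟨by simpa using h.1, fun P hP hcl => ?_⟩
  obtain ⟨x, hx, hxP⟩ := hP
  have := h.eq_of_closed (U := S.filter (· ∈ P)) (Finset.filter_subset _ _)
    ⟨x, Finset.mem_filter.2 ⟨hx, hxP⟩⟩ (fun a ha b hb hab => by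
      rw [Finset.mem_filter] at ha ⊢
      exact ⟨hb, hcl a ha.1 b hb ha.2 hab⟩)
  intro y hy
  have hy' : y ∈ S.filter (· ∈ P) := this.symm ▸ hy
  exact (Finset.mem_filter.1 hy').2

theorem fin_cn_of_conn {W : Type} [DecidableEq W] {r : W → W → Prop} {S : Finset W}
    (h : Conn r (S : Set W)) : Cn r S := by
  refine ⟨by simpa using h.1, fun U hU hne hUS => ?_⟩
  by_contra hcon
  apply hUS
  refine Finset.Subset.antisymm hU ?_
  obtain ⟨x, hx⟩ := hne
  have := h.2 (U : Set W) ⟨x, hU hx, hx⟩ (fun a _ b hb ha hab => by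
    by_contra hbU
    exact hcon ⟨a, ha, b, Finset.mem_sdiff.2 ⟨hb, hbU⟩, hab⟩)
  exact fun y hy => this hy

theorem final : ∃ c : ℝ, 1 / 2 < c ∧
    ∀ (V : Type) [Finite V] (G : SimpleGraph V) (n : ℕ) (A : Fin n → Set V),
      (∀ i, (A i).Nonempty) → (Pairwise fun i j => Disjoint (A i) (A j)) →
      (Pairwise fun i j => (G.induce (A i ∪ A j)).Connected) →
      ∃ N : Fin ⌊c * n⌋₊ → Set V, (∀ k, (G.induce (N k)).Connected) ∧
        (Pairwise fun k l => Disjoint (N k) (N l)) ∧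
        Pairwise fun k l => ∃ x ∈ N k, ∃ y ∈ N l, G.Adj x y := by
  classical
  obtain ⟨c, hc, h⟩ := minor_all
  refine ⟨c, hc, fun V _ G n A hne hd hcn => ?_⟩
  have hs := comp_sys hne hd hcn
  have : Fintype (Comp G A) := Fintype.ofFinite _
  set C : Fin n → Finset (Comp G A) := fun i => Finset.univ.filter fun p => p.1 = i with hC
  have hmem : ∀ i p, p ∈ C i ↔ p ∈ ccls G A i := fun i p => by simp [hC, ccls]
  have hS : Sy (crel G A) C :=
    { symm := hs.symm
      indep := fun i x hx y hy => hs.indep i x ((hmem _ _).1 hx) y ((hmem _ _).1 hy)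
      disj := fun i j hij => Finset.disjoint_left.2 fun x hx hx' =>
        hs.disj i j hij x ((hmem _ _).1 hx) ((hmem _ _).1 hx')
      ne := fun i => by
        obtain ⟨x, hx⟩ := hs.ne i
        exact ⟨x, (hmem _ _).2 hx⟩
      conn := fun i j hij => by
        apply fin_cn_of_conn
        have e : ((C i ∪ C j : Finset _) : Set (Comp G A)) = ccls G A i ∪ ccls G A j := by
          ext p
          simp only [Finset.coe_union, Set.mem_union, Finset.mem_coe, hmem]
        rw [e]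
        exact hs.conn i j hij }
  obtain ⟨F, hF, hk⟩ := h (Comp G A) (Fin n) (crel G A) C hS
  rw [Fintype.card_fin] at hk
  set f : Fin ⌊c * n⌋₊ → F := fun k => F.equivFin.symm (Fin.castLE hk k) with hf
  have hinj : ∀ k l, k ≠ l → (f k).1 ≠ (f l).1 := by
    intro k l hkl e
    exact hkl (Fin.castLE_injective hk (F.equivFin.symm.injective (Subtype.ext e)))
  refine ⟨fun k => flat G A ((f k).1 : Set (Comp G A)),
    fun k => flat_connected (fin_conn_of_cn (hF.1 _ (f k).2)), fun k l hkl => ?_,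
    fun k l hkl => ?_⟩
  · refine Set.disjoint_left.2 ?_
    rintro v ⟨p, hp, hv⟩ ⟨q, hq, hv'⟩
    exact Finset.disjoint_left.1 (hF.2 _ (f k).2 _ (f l).2 (hinj k l hkl)).1 hp
      (blob_uniq hd hv' hv ▸ hq)
  · obtain ⟨p, hp, q, hq, -, x, hx, y, hy, hxy⟩ := (hF.2 _ (f k).2 _ (f l).2 (hinj k l hkl)).2
    exact ⟨x, ⟨p, hp, hx⟩, y, ⟨q, hq, hy⟩, hxy⟩

end Pool.Agent.P.MP_a374b6_co.H
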