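import Pool.Agent.P.MP_a374b6_co.H.Defs

/-! Unions and connected sets. -/

namespace Pool.Agent.P.MP_a374b6_co.H

open Finset

variable {W ι : Type} [DecidableEq W] [DecidableEq ι] {r : W → W → Prop} {C : ι → Finset W}

theorem mem_un {L : Finset (Finset W)} {x : W} : x ∈ un L ↔ ∃ K ∈ L, x ∈ K := by
  simp [un]

theorem un_mono {L L' : Finset (Finset W)} (h : L ⊆ L') : un L ⊆ un L' := by
  exact biUnion_subset_biUnion_of_subset_left _ h

theorem sub_un {L : Finset (Finset W)} {K : Finset W} (h : K ∈ L) : K ⊆ un L := by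
  exact fun x hx => mem_un.2 ⟨K, h, hx⟩

theorem un_union (L L' : Finset (Finset W)) : un (L ∪ L') = un L ∪ un L' := by
  exact union_biUnion

theorem un_insert (K : Finset W) (L : Finset (Finset W)) : un (insert K L) = K ∪ un L := by
  simp [un]

theorem un_empty : un (∅ : Finset (Finset W)) = ∅ := by
  simp [un]

theorem un_singleton (K : Finset W) : un {K} = K := by
  simp [un]

theorem Pd.mono {L L' : Finset (Finset W)} (h : Pd L) (h' : L' ⊆ L) : Pd L' := by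
  exact fun K hK K' hK' hne => h K (h' hK) K' (h' hK') hne

theorem Pd.eq_of_mem {L : Finset (Finset W)} (h : Pd L) {K K' : Finset W} (hK : K ∈ L)
    (hK' : K' ∈ L) {x : W} (hx : x ∈ K) (hx' : x ∈ K') : K = K' := by
  by_contra hne
  exact disjoint_left.1 (h K hK K' hK' hne) hx hx'

theorem Pd.disjoint_un {L M M' : Finset (Finset W)} (h : Pd L) (hM : M ⊆ L) (hM' : M' ⊆ L)
    (hd : Disjoint M M') : Disjoint (un M) (un M') := by
  refine disjoint_left.2 fun x hx hx' => ?_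
  obtain ⟨K, hK, hxK⟩ := mem_un.1 hx
  obtain ⟨K', hK', hxK'⟩ := mem_un.1 hx'
  have e := h.eq_of_mem (hM hK) (hM' hK') hxK hxK'
  exact disjoint_left.1 hd hK (e ▸ hK')

theorem Tch.symm (hs : ∀ x y, r x y → r y x) {S T : Finset W} (h : Tch r S T) : Tch r T S := by
  obtain ⟨x, hx, y, hy, hxy⟩ := h
  exact ⟨y, hy, x, hx, hs _ _ hxy⟩

theorem Tch.mono {S T S' T' : Finset W} (h : Tch r S T) (h1 : S ⊆ S') (h2 : T ⊆ T') :
    Tch r S' T' := by
  obtain ⟨x, hx, y, hy, hxy⟩ := h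
  exact ⟨x, h1 hx, y, h2 hy, hxy⟩

theorem cn_singleton (x : W) : Cn r {x} := by
  refine ⟨singleton_nonempty x, fun U hU hne hUS => ?_⟩
  rcases subset_singleton_iff.1 hU with h | h
  · exact absurd h hne.ne_empty
  · exact absurd h hUS

/-- A nonempty subset without edges to the rest is everything. -/
theorem Cn.eq_of_closed {S U : Finset W} (h : Cn r S) (hU : U ⊆ S) (hne : U.Nonempty)
    (hc : ∀ x ∈ U, ∀ y ∈ S, r x y → y ∈ U) : U = S := by
  by_contra hUS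
  obtain ⟨x, hx, y, hy, hxy⟩ := h.2 U hU hne hUS
  exact (mem_sdiff.1 hy).2 (hc x hx y (mem_sdiff.1 hy).1 hxy)

/-- It suffices to look at closed sets containing a fixed point. -/
theorem cn_of_closed (hs : ∀ x y, r x y → r y x) {S : Finset W} {v : W} (hv : v ∈ S)
    (h : ∀ U ⊆ S, v ∈ U → (∀ x ∈ U, ∀ y ∈ S, r x y → y ∈ U) → S ⊆ U) : Cn r S := by
  refine ⟨⟨v, hv⟩, fun U hU hne hUS => ?_⟩
  by_contra hcon
  by_cases hvU : v ∈ U
  · refine hUS (Subset.antisymm hU (h U hU hvU fun x hx y hy hxy => ?_))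
    by_contra hyU
    exact hcon ⟨x, hx, y, mem_sdiff.2 ⟨hy, hyU⟩, hxy⟩
  · have := h (S \ U) sdiff_subset (mem_sdiff.2 ⟨hv, hvU⟩) fun x hx y hy hxy =>
      mem_sdiff.2 ⟨hy, fun hyU => hcon ⟨y, hyU, x, hx, hs _ _ hxy⟩⟩
    obtain ⟨x, hx⟩ := hne
    exact (mem_sdiff.1 (this (hU hx))).2 hx

/-- A connected set lies on one side of an edgeless split. -/
theorem Cn.sub_or_disj (hs : ∀ x y, r x y → r y x) {K N U : Finset W} (h : Cn r K) (hK : K ⊆ N)
    (hn : ¬ Tch r U (N \ U)) : K ⊆ U ∨ Disjoint K U := by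
  by_cases hd : Disjoint K U
  · exact Or.inr hd
  · left
    have := h.eq_of_closed (U := K ∩ U) inter_subset_left (not_disjoint_iff_nonempty_inter.1 hd)
      fun x hx y hy hxy => mem_inter.2 ⟨hy, by
        by_contra hyU
        exact hn ⟨x, (mem_inter.1 hx).2, y, mem_sdiff.2 ⟨hK hy, hyU⟩, hxy⟩⟩
    exact this ▸ inter_subset_right

theorem Cn.sub_of_closed {K S U : Finset W} (h : Cn r K) (hK : K ⊆ S) {x : W} (hx : x ∈ K)
    (hxU : x ∈ U) (hc : ∀ x ∈ U, ∀ y ∈ S, r x y → y ∈ U) : K ⊆ U := by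
  have := h.eq_of_closed (U := K ∩ U) inter_subset_left ⟨x, mem_inter.2 ⟨hx, hxU⟩⟩
    fun a ha b hb hab => mem_inter.2 ⟨hb, hc a (mem_inter.1 ha).2 b (hK hb) hab⟩
  exact this ▸ inter_subset_right

theorem Cn.union_tch (hs : ∀ x y, r x y → r y x) {S T : Finset W} (hS : Cn r S) (hT : Cn r T)
    (h : Tch r S T) : Cn r (S ∪ T) := by
  obtain ⟨x, hx, y, hy, hxy⟩ := h
  refine cn_of_closed hs (mem_union_left _ hx) fun U _ hv hc => union_subset
    (hS.sub_of_closed subset_union_left hx hv hc) ?_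
  exact hT.sub_of_closed subset_union_right hy (hc x hv y (mem_union_right _ hy) hxy) hc

theorem Cn.union_inter (hs : ∀ x y, r x y → r y x) {S T : Finset W} (hS : Cn r S) (hT : Cn r T)
    {x : W} (hx : x ∈ S) (hx' : x ∈ T) : Cn r (S ∪ T) := by
  exact cn_of_closed hs (mem_union_left _ hx) fun U _ hv hc => union_subset
    (hS.sub_of_closed subset_union_left hx hv hc) (hT.sub_of_closed subset_union_right hx' hv hc)

theorem Cn.extend (hs : ∀ x y, r x y → r y x) {S T : Finset W} (h : Cn r S) (hST : S ⊆ T)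
    (hd : ∀ y ∈ T, y ∈ S ∨ ∃ x ∈ S, r x y) : Cn r T := by
  obtain ⟨v, hv⟩ := h.1
  refine cn_of_closed hs (hST hv) fun U _ hvU hc y hy => ?_
  have h1 := h.sub_of_closed hST hv hvU hc
  rcases hd y hy with h2 | ⟨x, hx, hxy⟩
  · exact h1 h2
  · exact hc x (h1 hx) y hy hxy

theorem Cn.attach (hs : ∀ x y, r x y → r y x) {S : Finset W} {L : Finset (Finset W)}
    (h : Cn r S) (hL : ∀ K ∈ L, Cn r K ∧ Tch r S K) : Cn r (S ∪ un L) := by
  obtain ⟨v, hv⟩ := h.1
  refine cn_of_closed hs (mem_union_left _ hv) fun U _ hvU hc => ?_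
  have h1 := h.sub_of_closed subset_union_left hv hvU hc
  refine union_subset h1 fun y hy => ?_
  obtain ⟨K, hK, hyK⟩ := mem_un.1 hy
  obtain ⟨hK1, a, ha, b, hb, hab⟩ := hL K hK
  have h2 : K ⊆ S ∪ un L := (sub_un hK).trans subset_union_right
  exact hK1.sub_of_closed h2 hb (hc a (h1 ha) b (h2 hb) hab) hc hyK

/-- Connected components. -/
theorem exists_comps (hs : ∀ x y, r x y → r y x) (T : Finset W) :
    ∃ L : Finset (Finset W), un L = T ∧ (∀ K ∈ L, Cn r K) ∧ Pd L ∧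
      ∀ K ∈ L, ¬ Tch r K (T \ K) := by
  classical
  induction T using Finset.strongInduction with
  | H T ih =>
  rcases T.eq_empty_or_nonempty with rfl | ⟨x, hx⟩
  · exact ⟨∅, un_empty, by simp, by simp [Pd], by simp⟩
  obtain ⟨K, hK, hmax⟩ := exists_max_image (T.powerset.filter fun K => Cn r K) card
    ⟨{x}, mem_filter.2 ⟨mem_powerset.2 (singleton_subset_iff.2 hx), cn_singleton x⟩⟩
  obtain ⟨hKT, hKc⟩ := mem_filter.1 hK
  rw [mem_powerset] at hKT
  have hn : ¬ Tch r K (T \ K) := by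
    rintro ⟨a, ha, b, hb, hab⟩
    obtain ⟨hbT, hbK⟩ := mem_sdiff.1 hb
    have h1 : Cn r (insert b K) := hKc.extend hs (subset_insert _ _) fun y hy => by
      rcases mem_insert.1 hy with rfl | hy
      exacts [Or.inr ⟨a, ha, hab⟩, Or.inl hy]
    have h2 := hmax _ (mem_filter.2 ⟨mem_powerset.2 (insert_subset hbT hKT), h1⟩)
    rw [card_insert_of_notMem hbK] at h2
    omega
  obtain ⟨L, h1, h2, h3, h4⟩ := ih (T \ K) (sdiff_ssubset hKT hKc.1)
  have hsub : ∀ K' ∈ L, K' ⊆ T \ K := fun K' hK' => h1 ▸ sub_un hK'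
  have hdj : ∀ K' ∈ L, Disjoint K K' := fun K' hK' =>
    disjoint_left.2 fun y hy hy' => (mem_sdiff.1 (hsub K' hK' hy')).2 hy
  refine ⟨insert K L, by rw [un_insert, h1, union_sdiff_of_subset hKT], ?_, ?_, ?_⟩
  · intro K' hK'
    rcases mem_insert.1 hK' with rfl | hK'
    exacts [hKc, h2 K' hK']
  · intro A hA B hB hAB
    rcases mem_insert.1 hA with e | hA' <;> rcases mem_insert.1 hB with e' | hB'
    exacts [absurd (e.trans e'.symm) hAB, e ▸ hdj B hB', e' ▸ (hdj A hA').symm,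
      h3 A hA' B hB' hAB]
  · intro K' hK'
    rcases mem_insert.1 hK' with rfl | hK'
    · exact hn
    · rintro ⟨a, ha, b, hb, hab⟩
      obtain ⟨hbT, hbK⟩ := mem_sdiff.1 hb
      by_cases hbK' : b ∈ K
      · exact hn ⟨b, hbK', a, hsub K' hK' ha, hs _ _ hab⟩
      · exact h4 K' hK' ⟨a, ha, b, mem_sdiff.2 ⟨mem_sdiff.2 ⟨hbT, hbK'⟩, hbK⟩, hab⟩

/-- A connected family of connected parts has a connected union. -/
theorem cn_un (hs : ∀ x y, r x y → r y x) {P : Finset (Finset W)} (hP : ∀ K ∈ P, Cn r K)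
    (h : Cn (Tch r) P) : Cn r (un P) := by
  obtain ⟨K0, hK0⟩ := h.1
  obtain ⟨v, hv⟩ := (hP K0 hK0).1
  refine cn_of_closed hs (sub_un hK0 hv) fun U _ hvU hc => ?_
  have := h.eq_of_closed (U := P.filter (· ⊆ U)) (filter_subset _ _)
    ⟨K0, mem_filter.2 ⟨hK0, (hP K0 hK0).sub_of_closed (sub_un hK0) hv hvU hc⟩⟩ (by
      rintro A hA B hB ⟨a, ha, b, hb, hab⟩
      exact mem_filter.2 ⟨hB, (hP B hB).sub_of_closed (sub_un hB) hb
        (hc a ((mem_filter.1 hA).2 ha) b (sub_un hB hb) hab) hc⟩)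
  intro y hy
  obtain ⟨K, hK, hyK⟩ := mem_un.1 hy
  have hK' : K ∈ P.filter (· ⊆ U) := this.symm ▸ hK
  exact (mem_filter.1 hK').2 hyK

/-- A partition of a connected set is connected under touching. -/
theorem cn_parts {P : Finset (Finset W)} (hP : ∀ K ∈ P, K.Nonempty) (hd : Pd P)
    (h : Cn r (un P)) : Cn (Tch r) P := by
  obtain ⟨v, hv⟩ := h.1
  obtain ⟨K0, hK0, -⟩ := mem_un.1 hv
  refine ⟨⟨K0, hK0⟩, fun U hU hne hUP => ?_⟩
  obtain ⟨A, hA⟩ := hne
  obtain ⟨B, hB, hBU⟩ := exists_of_ssubset (ssubset_of_subset_of_ne hU hUP)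
  obtain ⟨a, ha⟩ := hP A (hU hA)
  obtain ⟨b, hb⟩ := hP B hB
  obtain ⟨x, hx, y, hy, hxy⟩ := h.2 (un U) (un_mono hU) ⟨a, sub_un hA ha⟩ (fun e => by
    obtain ⟨K, hK, hbK⟩ := mem_un.1 (e ▸ sub_un hB hb : b ∈ un U)
    exact hBU (hd.eq_of_mem (hU hK) hB hbK hb ▸ hK))
  obtain ⟨K, hK, hxK⟩ := mem_un.1 hx
  obtain ⟨K', hK', hyK⟩ := mem_un.1 (mem_sdiff.1 hy).1
  exact ⟨K, hK, K', mem_sdiff.2 ⟨hK', fun h' => (mem_sdiff.1 hy).2 (sub_un h' hyK)⟩,
    x, hxK, y, hyK, hxy⟩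

end Pool.Agent.P.MP_a374b6_co.H
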