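import Pool.Agent.P.MP_a374b6_co.H.Ga
import Pool.Agent.P.MP_a374b6_co.H.Defs

/-! The calculus of connected sets. -/

namespace Pool.Agent.P.MP_a374b6_co.H

open Finset

variable {W ι : Type} [DecidableEq W] [DecidableEq ι] {r : W → W → Prop} {C : ι → Finset W}

theorem Sy.nbr (h : Sy r C) {i j : ι} (hij : i ≠ j) {x : W} (hx : x ∈ C i) :
    ∃ y ∈ C j, r x y := by
  by_contra hcon
  have := (h.conn i j hij).eq_of_closed (U := {x}) (singleton_subset_iff.2 (mem_union_left _ hx))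
    (singleton_nonempty x) (by
      intro a ha b hb hab
      rw [mem_singleton] at ha
      subst ha
      rcases mem_union.1 hb with hb | hb
      · exact absurd hab (h.indep i a hx b hb)
      · exact absurd ⟨b, hb, hab⟩ hcon)
  obtain ⟨y, hy⟩ := h.ne j
  have h2 : y ∈ ({x} : Finset W) := this ▸ mem_union_right _ hy
  rw [mem_singleton] at h2
  exact disjoint_left.1 (h.disj i j hij) hx (h2 ▸ hy)

theorem Sy.eq_of_mem (h : Sy r C) {i j : ι} {x : W} (hi : x ∈ C i) (hj : x ∈ C j) : i = j := by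
  by_contra hne
  exact disjoint_left.1 (h.disj i j hne) hi hj

theorem Sy.disj_biUnion (h : Sy r C) {Q Q' : Finset ι} (hQ : Disjoint Q Q') :
    Disjoint (Q.biUnion C) (Q'.biUnion C) := by
  refine disjoint_left.2 fun x hx hx' => ?_
  obtain ⟨i, hi, hxi⟩ := mem_biUnion.1 hx
  obtain ⟨j, hj, hxj⟩ := mem_biUnion.1 hx'
  exact disjoint_left.1 hQ hi (h.eq_of_mem hxi hxj ▸ hj)

theorem Sy.comp {ι' : Type} (h : Sy r C) {f : ι' → ι} (hf : Function.Injective f) :
    Sy r (C ∘ f) := by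
  exact ⟨h.symm, fun i => h.indep (f i), fun i j hij => h.disj _ _ fun e => hij (hf e),
    fun i => h.ne (f i), fun i j hij => h.conn _ _ fun e => hij (hf e)⟩

/-- A set containing a class touches every nonempty set of class points disjoint from it. -/
theorem Sy.univ_tch (h : Sy r C) {i j : ι} {U N : Finset W} (hU : C i ⊆ U) (hd : Disjoint U N)
    {y : W} (hy : y ∈ N) (hj : y ∈ C j) : Tch r U N := by
  have hji : j ≠ i := fun e => disjoint_left.1 hd (hU (e ▸ hj)) hy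
  obtain ⟨x, hx, hyx⟩ := h.nbr hji hj
  exact ⟨x, hU hx, y, hy, h.symm _ _ hyx⟩

theorem Legs.cn_star (hs : ∀ x y, r x y → r y x) {X : Finset W} {u : W} {L M : Finset (Finset W)}
    (h : Legs r X u L) (hM : M ⊆ L) : Cn r (insert u (un M)) := by
  rw [insert_eq]
  exact (cn_singleton u).attach hs fun K hK => ⟨h.cn K (hM hK), h.tch K (hM hK)⟩

theorem Legs.cn_all (hs : ∀ x y, r x y → r y x) {X : Finset W} {u : W} {L : Finset (Finset W)}
    (h : Legs r X u L) : Cn r X := by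
  have := h.cn_star hs Subset.rfl
  rwa [h.cover, insert_erase h.mem] at this

theorem Legs.un_sub {X : Finset W} {u : W} {L M : Finset (Finset W)} (h : Legs r X u L)
    (hM : M ⊆ L) : un M ⊆ X.erase u := by
  exact h.cover ▸ un_mono hM

theorem Legs.spi {X : Finset W} {u : W} {L : Finset (Finset W)} (h : Legs r X u L) :
    Spi r X X u L := by
  exact ⟨Subset.rfl, h, Or.inl (Finset.sdiff_self X)⟩

/-- Legs can be dropped. -/
theorem Spi.cn_drop (hs : ∀ x y, r x y → r y x) {S X : Finset W} {u : W}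
    {L M : Finset (Finset W)} (h : Spi r S X u L) (hM : M ⊆ L) : Cn r (S \ un M) := by
  have e : S \ un M = insert u (un (L \ M)) ∪ (S \ X) := by
    ext x
    simp only [mem_sdiff, mem_union, mem_insert]
    constructor
    · rintro ⟨hxS, hxM⟩
      by_cases hxX : x ∈ X
      · by_cases hxu : x = u
        · exact Or.inl (Or.inl hxu)
        · obtain ⟨K, hK, hxK⟩ := mem_un.1 (h.legs.cover ▸ mem_erase.2 ⟨hxu, hxX⟩ : x ∈ un L)
          exact Or.inl (Or.inr (mem_un.2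
            ⟨K, mem_sdiff.2 ⟨hK, fun hKM => hxM (sub_un hKM hxK)⟩, hxK⟩))
      · exact Or.inr ⟨hxS, hxX⟩
    · rintro ((rfl | hx) | ⟨hxS, hxX⟩)
      · exact ⟨h.sub h.legs.mem, fun hx => (mem_erase.1 (h.legs.un_sub hM hx)).1 rfl⟩
      · exact ⟨h.sub (mem_of_mem_erase (h.legs.un_sub sdiff_subset hx)), fun hx' =>
          disjoint_left.1 (h.legs.pd.disjoint_un sdiff_subset hM sdiff_disjoint) hx hx'⟩
      · exact ⟨hxS, fun hx => hxX (mem_of_mem_erase (h.legs.un_sub hM hx))⟩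
  rw [e]
  have h1 := h.legs.cn_star hs (sdiff_subset : L \ M ⊆ L)
  rcases h.rest with h2 | ⟨h2, h3⟩
  · rwa [h2, union_empty]
  · exact h1.union_tch hs h2 (h3.mono (singleton_subset_iff.2 (mem_insert_self _ _)) Subset.rfl)

/-- The complement of a spider is one more leg. -/
theorem Spi.legs_insert {S X : Finset W} {u : W} {L : Finset (Finset W)} (h : Spi r S X u L)
    (hne : (S \ X).Nonempty) : Legs r S u (insert (S \ X) L) := by
  obtain ⟨h2, h3⟩ := h.rest.resolve_left hne.ne_empty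
  have hdj : ∀ K ∈ L, Disjoint (S \ X) K := fun K hK => disjoint_left.2 fun y hy hy' =>
    (mem_sdiff.1 hy).2 (mem_of_mem_erase (h.legs.un_sub Subset.rfl (sub_un hK hy')))
  refine ⟨h.sub h.legs.mem, ?_, fun K hK => ?_, fun K hK => ?_, fun A hA B hB hAB => ?_⟩
  · rw [un_insert, h.legs.cover]
    ext x
    simp only [mem_sdiff, mem_union, mem_erase]
    constructor
    · rintro (⟨h4, h5⟩ | ⟨h4, h5⟩)
      exacts [⟨fun e => h5 (e ▸ h.legs.mem), h4⟩, ⟨h4, h.sub h5⟩]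
    · rintro ⟨h4, h5⟩
      by_cases hx : x ∈ X
      exacts [Or.inr ⟨h4, hx⟩, Or.inl ⟨h5, hx⟩]
  · rcases mem_insert.1 hK with rfl | hK
    exacts [h2, h.legs.cn K hK]
  · rcases mem_insert.1 hK with rfl | hK
    exacts [h3, h.legs.tch K hK]
  · rcases mem_insert.1 hA with e | hA' <;> rcases mem_insert.1 hB with e' | hB'
    exacts [absurd (e.trans e'.symm) hAB, e ▸ hdj B hB', e' ▸ (hdj A hA').symm,
      h.legs.pd A hA' B hB' hAB]

theorem Mat.mono {R R' : Finset ι} {M M' : Finset (ι × ι)} (h : Mat R M) (hM : M' ⊆ M)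
    (hR : R ⊆ R') : Mat R' M' := by
  exact ⟨fun p hp => ⟨hR (h.1 p (hM hp)).1, hR (h.1 p (hM hp)).2.1, (h.1 p (hM hp)).2.2⟩,
    fun p hp q hq => h.2 p (hM hp) q (hM hq)⟩

theorem mem_cls {M : Finset (ι × ι)} {i : ι} : i ∈ cls M ↔ ∃ p ∈ M, i = p.1 ∨ i = p.2 := by
  simp only [cls, mem_union, mem_image]
  constructor
  · rintro (⟨p, hp, rfl⟩ | ⟨p, hp, rfl⟩)
    exacts [⟨p, hp, Or.inl rfl⟩, ⟨p, hp, Or.inr rfl⟩]
  · rintro ⟨p, hp, rfl | rfl⟩
    exacts [Or.inl ⟨p, hp, rfl⟩, Or.inr ⟨p, hp, rfl⟩]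

theorem cls_mono {M M' : Finset (ι × ι)} (h : M ⊆ M') : cls M ⊆ cls M' := by
  intro i hi
  obtain ⟨p, hp, hi⟩ := mem_cls.1 hi
  exact mem_cls.2 ⟨p, h hp, hi⟩

theorem Mat.cls_sub {R : Finset ι} {M : Finset (ι × ι)} (h : Mat R M) : cls M ⊆ R := by
  intro i hi
  obtain ⟨p, hp, rfl | rfl⟩ := mem_cls.1 hi
  exacts [(h.1 p hp).1, (h.1 p hp).2.1]

theorem Mat.card_cls {R : Finset ι} {M : Finset (ι × ι)} (h : Mat R M) :
    (cls M).card = 2 * M.card := by
  have h1 : (M.image Prod.fst).card = M.card := card_image_of_injOn fun p hp q hq e => by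
    by_contra hne
    exact (h.2 p hp q hq hne).1 e
  have h2 : (M.image Prod.snd).card = M.card := card_image_of_injOn fun p hp q hq e => by
    by_contra hne
    exact (h.2 p hp q hq hne).2.2.2 e
  have h3 : Disjoint (M.image Prod.fst) (M.image Prod.snd) := by
    refine disjoint_left.2 fun i hi hi' => ?_
    obtain ⟨p, hp, rfl⟩ := mem_image.1 hi
    obtain ⟨q, hq, e⟩ := mem_image.1 hi'
    by_cases hpq : p = q
    · exact (h.1 p hp).2.2 (hpq ▸ e.symm)
    · exact (h.2 p hp q hq hpq).2.1 e.symm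
  rw [cls, card_union_of_disjoint h3, h1, h2, two_mul]

theorem Mat.disj_cls {R : Finset ι} {M M1 M2 : Finset (ι × ι)} (h : Mat R M) (h1 : M1 ⊆ M)
    (h2 : M2 ⊆ M) (hd : Disjoint M1 M2) : Disjoint (cls M1) (cls M2) := by
  refine disjoint_left.2 fun i hi hi' => ?_
  obtain ⟨p, hp, e⟩ := mem_cls.1 hi
  obtain ⟨q, hq, e'⟩ := mem_cls.1 hi'
  obtain ⟨a, b, c, d⟩ := h.2 p (h1 hp) q (h2 hq) fun e => disjoint_left.1 hd hp (e ▸ hq)
  rcases e with e | e <;> rcases e' with e' | e'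
  exacts [a (e.symm.trans e'), b (e.symm.trans e'), c (e.symm.trans e'), d (e.symm.trans e')]

theorem pr_sub {M : Finset (ι × ι)} {p : ι × ι} (hp : p ∈ M) : pr C p ⊆ (cls M).biUnion C := by
  exact union_subset (subset_biUnion_of_mem C (mem_cls.2 ⟨p, hp, Or.inl rfl⟩))
    (subset_biUnion_of_mem C (mem_cls.2 ⟨p, hp, Or.inr rfl⟩))

theorem Mat.disj_pr (hS : Sy r C) {R : Finset ι} {M : Finset (ι × ι)} (h : Mat R M)
    {p q : ι × ι} (hp : p ∈ M) (hq : q ∈ M) (hpq : p ≠ q) : Disjoint (pr C p) (pr C q) := by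
  obtain ⟨a, b, c, d⟩ := h.2 p hp q hq hpq
  simp only [pr, disjoint_union_left, disjoint_union_right]
  exact ⟨⟨hS.disj _ _ a, hS.disj _ _ c⟩, hS.disj _ _ b, hS.disj _ _ d⟩

/-- A large matching of pairs with a property, or a small set meeting all such pairs. -/
theorem mat_or_cover (P : ι → ι → Prop) (R : Finset ι) (m : ℝ) :
    (∃ M, Mat R M ∧ (∀ p ∈ M, P p.1 p.2) ∧ m ≤ M.card) ∨
    ∃ Ex : Finset ι, (Ex.card : ℝ) ≤ 2 * m ∧
      ∀ a ∈ R, ∀ b ∈ R, a ∉ Ex → b ∉ Ex → a ≠ b → ¬ P a b := by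
  classical
  obtain ⟨M, hM, hmax⟩ := exists_max_image
    ((R ×ˢ R).powerset.filter fun M => Mat R M ∧ ∀ p ∈ M, P p.1 p.2) card
    ⟨∅, mem_filter.2 ⟨empty_mem_powerset _, by simp [Mat]⟩⟩
  obtain ⟨hM1, hM2, hM3⟩ := mem_filter.1 hM
  by_cases hm : m ≤ M.card
  · exact Or.inl ⟨M, hM2, hM3, hm⟩
  refine Or.inr ⟨cls M, ?_, fun a ha b hb haE hbE hab hP => ?_⟩
  · rw [hM2.card_cls]
    push_cast
    linarith
  have hn : ∀ q ∈ M, a ≠ q.1 ∧ a ≠ q.2 ∧ b ≠ q.1 ∧ b ≠ q.2 := fun q hq =>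
    ⟨fun e => haE (mem_cls.2 ⟨q, hq, Or.inl e⟩), fun e => haE (mem_cls.2 ⟨q, hq, Or.inr e⟩),
      fun e => hbE (mem_cls.2 ⟨q, hq, Or.inl e⟩), fun e => hbE (mem_cls.2 ⟨q, hq, Or.inr e⟩)⟩
  have hab' : (a, b) ∉ M := fun hq => (hn _ hq).1 rfl
  have := hmax (insert (a, b) M) (mem_filter.2 ⟨mem_powerset.2 (insert_subset
    (mem_product.2 ⟨ha, hb⟩) (mem_powerset.1 hM1)), ⟨fun p hp => ?_, fun p hp q hq hpq => ?_⟩,
    fun p hp => ?_⟩)
  · rw [card_insert_of_notMem hab'] at this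
    omega
  · rcases mem_insert.1 hp with rfl | hp
    exacts [⟨ha, hb, hab⟩, hM2.1 p hp]
  · rcases mem_insert.1 hp with e | hp' <;> rcases mem_insert.1 hq with e' | hq'
    · exact absurd (e.trans e'.symm) hpq
    · exact e ▸ hn q hq'
    · obtain ⟨h1, h2, h3, h4⟩ := hn p hp'
      exact e' ▸ ⟨h1.symm, h3.symm, h2.symm, h4.symm⟩
    · exact hM2.2 p hp' q hq' hpq
  · rcases mem_insert.1 hp with rfl | hp
    exacts [hP, hM3 p hp]

/-- An indexed family of nonempty pairwise disjoint sets has as many members as indices. -/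
theorem card_image_of_disj {κ : Type} (I : Finset κ) (N : κ → Finset W)
    (hne : ∀ a ∈ I, (N a).Nonempty) (hd : ∀ a ∈ I, ∀ b ∈ I, a ≠ b → Disjoint (N a) (N b)) :
    (I.image N).card = I.card := by
  refine card_image_of_injOn fun a ha b hb e => ?_
  by_contra hab
  obtain ⟨x, hx⟩ := hne a ha
  exact disjoint_left.1 (hd a ha b hb hab) hx (e ▸ hx)

end Pool.Agent.P.MP_a374b6_co.H
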