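import Pool.Agent.P.MP_a374b6_co.H.Glue1
import Pool.Agent.P.MP_a374b6_co.H.Gb

/-! Adding universal nodes; the two cases with a large sprinkle set. -/

namespace Pool.Agent.P.MP_a374b6_co.H

open Finset

theorem glue_card {κ W : Type} [DecidableEq W] (I : Finset κ) (Y : κ → Finset W) (a : ℝ)
    (hd : ∀ i ∈ I, ∀ j ∈ I, i ≠ j → Disjoint (Y i) (Y j)) (h : ∀ i ∈ I, a ≤ (Y i).card) :
    I.card * a ≤ (I.biUnion Y).card := by
  rw [card_biUnion hd, Nat.cast_sum, ← nsmul_eq_mul]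
  exact card_nsmul_le_sum _ _ _ h

theorem glue_log {a b : ℕ} (h : a ≤ b) : Real.log a ≤ Real.log b := by
  rcases Nat.eq_zero_or_pos a with rfl | ha
  · rw [Nat.cast_zero, Real.log_zero]
    exact Real.log_natCast_nonneg b
  · exact Real.log_le_log (by exact_mod_cast ha) (by exact_mod_cast h)

theorem caseA {δ K : ℝ} {r0 : ℕ} (h0 : 0 < δ) (h1 : δ ≤ 1) (hK : 0 < K) (hA : ThmA δ K r0)
    {K' : ℝ} (hK' : 8 * K / δ ≤ K') :
    ∃ t0 : ℕ, ∀ (W ι : Type) [Fintype W] [DecidableEq W] [Fintype ι] [DecidableEq ι]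
      (r : W → W → Prop) (C : ι → Finset W) (B : Finset ι), Sy r C → t0 ≤ Fintype.card ι →
      δ / 4 * Fintype.card ι ≤ B.card →
      (∀ i ∈ B, K' * Real.log (Fintype.card ι) ≤ (C i).card) →
      Win r C (δ / 8 * Fintype.card ι) := by
  refine ⟨max (2 * r0 + 4) ⌈12 / δ⌉₊, fun W ι _ _ _ _ r C B hS ht hB hC => ?_⟩
  obtain ⟨t, htt⟩ : ∃ t, Fintype.card ι = t := ⟨_, rfl⟩
  rw [htt] at ht hB hC ⊢
  have t1 : 2 * r0 + 4 ≤ t := (le_max_left _ _).trans ht
  have t2 : 12 ≤ δ * t := by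
    have := Nat.ceil_le.1 ((le_max_right _ _).trans ht)
    rwa [div_le_iff₀ h0, mul_comm] at this
  have t3 : (4 : ℝ) ≤ t := by exact_mod_cast (by omega : 4 ≤ t)
  obtain ⟨B', b1, b2⟩ := exists_subset_card_eq (Nat.ceil_le.2 hB)
  have b3 : δ / 4 * t ≤ B'.card := b2 ▸ Nat.le_ceil _
  have b4 : (B'.card : ℝ) < δ / 4 * t + 1 := b2 ▸ Nat.ceil_lt_add_one (by positivity)
  have b5 : 2 * B'.card ≤ t := by
    have : (2 * B'.card : ℝ) < t + 1 := by nlinarith
    have : 2 * B'.card < t + 1 := by exact_mod_cast this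
    omega
  obtain ⟨R, r1, r2⟩ := exists_subset_card_eq (s := B'ᶜ) (n := t / 2) (by
    rw [card_compl, htt]; omega)
  have r3 : (R.card : ℝ) ≤ t := by exact_mod_cast (by omega : R.card ≤ t)
  have r4 : (t : ℝ) ≤ 2 * R.card + 1 := by exact_mod_cast (by omega : t ≤ 2 * R.card + 1)
  have l0 : 0 ≤ Real.log t := Real.log_natCast_nonneg t
  obtain ⟨F, Uc, -, f2, f3, f4⟩ := hA W ι r C R (B'.biUnion C) hS
    (fun i hi => disjoint_left.2 fun x hx hx' => by
      obtain ⟨j, hj, hx⟩ := mem_biUnion.1 hx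
      exact mem_compl.1 (r1 hi) (hS.eq_of_mem hx hx' ▸ hj))
    (fun y hy i hi => by
      obtain ⟨j, hj, hy⟩ := mem_biUnion.1 hy
      obtain ⟨x, hx, hr⟩ := hS.nbr (j := i) (fun e => mem_compl.1 (r1 hi) (e ▸ hj)) hy
      exact ⟨x, hx, hS.symm _ _ hr⟩)
    (by omega) (by
      refine le_trans ?_ (glue_card B' C (K' * Real.log t)
        (fun i _ j _ h => hS.disj i j h) fun i hi => hC i (b1 hi))
      have k1 : 2 * K * t ≤ B'.card * K' := by
        have k2 : δ / 4 * t * (8 * K / δ) = 2 * K * t := by field_simp; ring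
        rw [← k2]
        exact mul_le_mul b3 hK' (by positivity) (by positivity)
      have k3 : K * R.card ≤ B'.card * K' := by nlinarith
      rw [← mul_assoc]
      exact mul_le_mul k3 (glue_log (by omega)) (Real.log_natCast_nonneg _)
        ((by positivity : (0 : ℝ) ≤ K * R.card).trans k3))
  refine ⟨F, Uc ∪ B', f2, fun N hN => by rw [union_biUnion]; exact f3 N hN, ?_⟩
  have k1 : ((Uc ∪ B').card : ℝ) ≤ Uc.card + B'.card := by exact_mod_cast card_union_le _ _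
  nlinarith

theorem caseB {δ K : ℝ} {r0 : ℕ} (h0 : 0 < δ) (hK : 0 < K) (hA : ThmA δ K r0) {c : ℝ}
    (hc : 0 < c) (hcK : c ≤ K) :
    ∃ t0 : ℕ, ∀ (W ι : Type) [Fintype W] [DecidableEq W] [Fintype ι] [DecidableEq ι]
      (r : W → W → Prop) (C : ι → Finset W) (M : Finset (ι × ι)), Sy r C →
      t0 ≤ Fintype.card ι → Mat univ M → (Fintype.card ι : ℝ) / 8 ≤ M.card →
      (∀ p ∈ M, ∃ Y, (Y ⊆ C p.1 ∨ Y ⊆ C p.2) ∧ c * Real.log (Fintype.card ι) ≤ Y.card ∧
        Cn r (pr C p \ Y)) →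
      Win r C (δ * c / (16 * K) * Fintype.card ι) := by
  refine ⟨max 4 ⌈16 * K / c * (r0 + 1)⌉₊, fun W ι _ _ _ _ r C M hS ht hM hB hY => ?_⟩
  obtain ⟨t, htt⟩ : ∃ t, Fintype.card ι = t := ⟨_, rfl⟩
  rw [htt] at ht hB hY ⊢
  have t1 : (4 : ℝ) ≤ t := by exact_mod_cast (le_max_left _ _).trans ht
  obtain ⟨u, hu⟩ : ∃ u : ℝ, u = c * t / (8 * K) := ⟨_, rfl⟩
  have u1 : K * u = c * t / 8 := by rw [hu]; field_simp
  have u2 : 2 * (r0 + 1) ≤ u := by
    have := Nat.ceil_le.1 ((le_max_right _ _).trans ht)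
    rw [div_mul_eq_mul_div, div_le_iff₀ hc] at this
    rw [hu, le_div_iff₀ (by positivity)]
    linarith
  have u0 : (0 : ℝ) ≤ r0 := Nat.cast_nonneg _
  have u3 : u ≤ t / 8 := by
    refine le_of_mul_le_mul_left ?_ hK
    rw [u1]
    nlinarith
  obtain ⟨M', b1, b2⟩ := exists_subset_card_eq (Nat.ceil_le.2 hB)
  have b3 : (t : ℝ) / 8 ≤ M'.card := b2 ▸ Nat.le_ceil _
  have b4 : (M'.card : ℝ) < t / 8 + 1 := b2 ▸ Nat.ceil_lt_add_one (by positivity)
  have hM' := hM.mono b1 Subset.rfl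
  have b5 := hM'.card_cls
  have r0' : (⌊u⌋₊ : ℝ) ≤ u := Nat.floor_le (by linarith)
  obtain ⟨R, r1, r2⟩ := exists_subset_card_eq (s := (cls M')ᶜ) (n := ⌊u⌋₊) (by
    rw [card_compl, htt, b5]
    have : (⌊u⌋₊ : ℝ) + 2 * M'.card ≤ t := by linarith
    have : ⌊u⌋₊ + 2 * M'.card ≤ t := by exact_mod_cast this
    omega)
  have r3 : (R.card : ℝ) ≤ u := r2 ▸ r0'
  have r4 : u < R.card + 1 := r2 ▸ Nat.lt_floor_add_one u
  have hY' : ∀ p : ι × ι, ∃ Y : Finset W, p ∈ M → (Y ⊆ C p.1 ∨ Y ⊆ C p.2) ∧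
      c * Real.log t ≤ Y.card ∧ Cn r (pr C p \ Y) := fun p => by
    by_cases hp : p ∈ M
    · obtain ⟨Y, h⟩ := hY p hp
      exact ⟨Y, fun _ => h⟩
    · exact ⟨∅, fun h => absurd h hp⟩
  choose Y hY using hY'
  have y1 : ∀ p ∈ M', Y p ⊆ pr C p := fun p hp =>
    (hY p (b1 hp)).1.elim (fun h => h.trans subset_union_left) fun h => h.trans subset_union_right
  have y2 : ∀ p ∈ M', ∀ x ∈ pr C p, ∃ j ∈ cls M', x ∈ C j := fun p hp x hx =>
    mem_biUnion.1 (pr_sub hp hx)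
  have y3 : ∀ y ∈ M'.biUnion Y, ∃ j ∈ cls M', y ∈ C j := fun y hy => by
    obtain ⟨p, hp, hy⟩ := mem_biUnion.1 hy
    exact y2 p hp y (y1 p hp hy)
  have l0 : 0 ≤ Real.log t := Real.log_natCast_nonneg t
  obtain ⟨F, Uc, f1, f2, f3, f4⟩ := hA W ι r C R (M'.biUnion Y) hS
    (fun i hi => disjoint_left.2 fun x hx hx' => by
      obtain ⟨j, hj, hx⟩ := y3 x hx
      exact mem_compl.1 (r1 hi) (hS.eq_of_mem hx hx' ▸ hj))
    (fun y hy i hi => by
      obtain ⟨j, hj, hy⟩ := y3 y hy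
      obtain ⟨x, hx, hr⟩ := hS.nbr (j := i) (fun e => mem_compl.1 (r1 hi) (e ▸ hj)) hy
      exact ⟨x, hx, hS.symm _ _ hr⟩)
    (by
      have : (r0 : ℝ) ≤ R.card := by linarith
      exact_mod_cast this) (by
      refine le_trans ?_ (glue_card M' Y (c * Real.log t) (fun p hp q hq h =>
        (hM'.disj_pr hS hp hq h).mono (y1 p hp) (y1 q hq)) fun p hp => (hY p (b1 hp)).2.1)
      have k3 : K * R.card ≤ M'.card * c := by nlinarith
      have k4 : R.card ≤ t := by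
        have : (R.card : ℝ) ≤ t := by linarith
        exact_mod_cast this
      rw [← mul_assoc]
      exact mul_le_mul k3 (glue_log k4) (Real.log_natCast_nonneg _) (by positivity))
  have d1 : ∀ p ∈ M', ∀ q ∈ M', p ≠ q → Disjoint (pr C p \ Y p) (pr C q \ Y q) :=
    fun p hp q hq h => (hM'.disj_pr hS hp hq h).mono sdiff_subset sdiff_subset
  obtain ⟨g1, g2⟩ := f2.add_univ hS (U := M'.image fun p => pr C p \ Y p)
    (fun N hN x hx => by
      rcases mem_union.1 (f3 N hN hx) with h | h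
      · obtain ⟨i, -, h⟩ := mem_biUnion.1 h
        exact ⟨i, h⟩
      · obtain ⟨i, -, h⟩ := y3 x h
        exact ⟨i, h⟩)
    (fun N hN => by
      obtain ⟨p, hp, rfl⟩ := mem_image.1 hN
      refine ⟨(hY p (b1 hp)).2.2, ?_⟩
      have hne := (hM'.1 p hp).2.2
      rcases (hY p (b1 hp)).1 with h | h
      · exact ⟨p.2, subset_sdiff.2 ⟨subset_union_right, (hS.disj _ _ hne.symm).mono_right h⟩⟩
      · exact ⟨p.1, subset_sdiff.2 ⟨subset_union_left, (hS.disj _ _ hne).mono_right h⟩⟩)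
    (fun N hN N' hN' hne => by
      obtain ⟨p, hp, rfl⟩ := mem_image.1 hN
      obtain ⟨q, hq, rfl⟩ := mem_image.1 hN'
      exact d1 p hp q hq fun e => hne (by rw [e]))
    (fun N hN N' hN' => by
      obtain ⟨p, hp, rfl⟩ := mem_image.1 hN'
      refine disjoint_left.2 fun x hx hx' => ?_
      obtain ⟨x1, x2⟩ := mem_sdiff.1 hx'
      rcases mem_union.1 (f3 N hN hx) with h | h
      · obtain ⟨i, hi, h⟩ := mem_biUnion.1 h
        obtain ⟨j, hj, h'⟩ := y2 p hp x x1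
        exact mem_compl.1 (r1 (f1 hi)) (hS.eq_of_mem h' h ▸ hj)
      · obtain ⟨q, hq, h⟩ := mem_biUnion.1 h
        by_cases e : p = q
        · exact x2 (e ▸ h)
        · exact disjoint_left.1 (hM'.disj_pr hS hp hq e) x1 (y1 q hq h))
  rw [card_image_of_disj M' _ (fun p hp => (hY p (b1 hp)).2.2.1) d1] at g2
  refine ⟨_, Uc ∪ cls M', g1, fun N hN => ?_, ?_⟩
  · rw [union_biUnion]
    rcases mem_union.1 hN with hN | hN
    · exact (f3 N hN).trans (union_subset_union Subset.rfl fun y hy => mem_biUnion.2 (y3 y hy))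
    · obtain ⟨p, hp, rfl⟩ := mem_image.1 hN
      exact (sdiff_subset.trans (pr_sub hp)).trans subset_union_right
  · have k1 : ((Uc ∪ cls M').card : ℝ) ≤ Uc.card + 2 * M'.card := by
      have := card_union_le Uc (cls M')
      rw [b5] at this
      exact_mod_cast this
    have k2 : δ * c / (16 * K) * t = δ * (u / 2) := by rw [hu]; field_simp; ring
    have k3 : δ * (u / 2) ≤ δ * R.card := mul_le_mul_of_nonneg_left (by linarith) h0.le
    rw [g2, k2]
    push_cast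
    linarith

end Pool.Agent.P.MP_a374b6_co.H
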