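import Pool.Agent.P.MP_a374b6_co.H.Gb

/-! Adding universal nodes. -/

namespace Pool.Agent.P.MP_a374b6_co.H

open Finset

section

variable {W ι : Type} [DecidableEq W] [DecidableEq ι] {r : W → W → Prop} {C : ι → Finset W}

theorem Win.mono {g g' : ℝ} (h : Win r C g) (hg : g' ≤ g) : Win r C g' := by
  obtain ⟨F, Uc, h1, h2, h3⟩ := h
  exact ⟨F, Uc, h1, h2, by linarith⟩

theorem Win.comp {ι' : Type} [DecidableEq ι'] {f : ι' → ι} (hf : Function.Injective f) {g : ℝ}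
    (h : Win r (C ∘ f) g) : Win r C g := by
  obtain ⟨F, Uc, h1, h2, h3⟩ := h
  refine ⟨F, Uc.image f, h1, fun N hN x hx => ?_, by rwa [card_image_of_injective _ hf]⟩
  obtain ⟨i, hi, hxi⟩ := mem_biUnion.1 (h2 N hN hx)
  exact mem_biUnion.2 ⟨f i, mem_image_of_mem f hi, hxi⟩

/-- Universal nodes can be added to a clique minor. -/
theorem Fam.add_univ (hS : Sy r C) {F U : Finset (Finset W)} (hF : Fam r F)
    (h1 : ∀ N ∈ F, ∀ x ∈ N, ∃ i, x ∈ C i) (h2 : ∀ N ∈ U, Cn r N ∧ ∃ i, C i ⊆ N) (h3 : Pd U)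
    (h4 : ∀ N ∈ F, ∀ N' ∈ U, Disjoint N N') :
    Fam r (F ∪ U) ∧ (F ∪ U).card = F.card + U.card := by
  refine ⟨⟨fun N hN => ?_, fun N hN N' hN' hne => ?_⟩, card_union_of_disjoint ?_⟩
  · rcases mem_union.1 hN with hN | hN
    exacts [hF.1 N hN, (h2 N hN).1]
  · have key : ∀ A ∈ F, ∀ B ∈ U, Tch r B A := fun A hA B hB => by
      obtain ⟨y, hy⟩ := (hF.1 A hA).1
      obtain ⟨j, hj⟩ := h1 A hA y hy
      obtain ⟨i, hi⟩ := (h2 B hB).2
      exact hS.univ_tch hi (h4 A hA B hB).symm hy hj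
    rcases mem_union.1 hN with a | a <;> rcases mem_union.1 hN' with b | b
    · exact hF.2 N a N' b hne
    · exact ⟨h4 N a N' b, (key N a N' b).symm hS.symm⟩
    · exact ⟨(h4 N' b N a).symm, key N' b N a⟩
    · obtain ⟨i, hi⟩ := (h2 N a).2
      obtain ⟨j, hj⟩ := (h2 N' b).2
      obtain ⟨y, hy⟩ := hS.ne j
      exact ⟨h3 N a N' b hne, hS.univ_tch hi (h3 N a N' b hne) (hj hy) hy⟩
  · refine disjoint_left.2 fun N a b => ?_
    obtain ⟨y, hy⟩ := (hF.1 N a).1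
    exact disjoint_left.1 (h4 N a N b) hy hy

theorem glue1_mat (R : Finset ι) : ∃ M, Mat R M ∧ R.card ≤ 2 * M.card + 1 := by
  induction R using Finset.strongInduction with
  | H R ih =>
  by_cases h : R.card ≤ 1
  · exact ⟨∅, by simp [Mat], by omega⟩
  obtain ⟨a, ha, b, hb, hab⟩ := one_lt_card.1 (not_le.1 h)
  obtain ⟨M, hM, hc⟩ := ih ((R.erase a).erase b)
    ((erase_subset _ _).trans_ssubset (erase_ssubset ha))
  have hn : ∀ q ∈ M, a ≠ q.1 ∧ a ≠ q.2 ∧ b ≠ q.1 ∧ b ≠ q.2 := fun q hq => by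
    obtain ⟨h1, h2, -⟩ := hM.1 q hq
    simp only [mem_erase] at h1 h2
    exact ⟨h1.2.1.symm, h2.2.1.symm, h1.1.symm, h2.1.symm⟩
  have hab' : (a, b) ∉ M := fun hq => (hn _ hq).1 rfl
  have hM' : Mat R M := hM.mono Subset.rfl ((erase_subset _ _).trans (erase_subset _ _))
  refine ⟨insert (a, b) M, ⟨fun p hp => ?_, fun p hp q hq hpq => ?_⟩, ?_⟩
  · rcases mem_insert.1 hp with rfl | hp
    exacts [⟨ha, hb, hab⟩, hM'.1 p hp]
  · rcases mem_insert.1 hp with e | hp' <;> rcases mem_insert.1 hq with e' | hq'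
    · exact absurd (e.trans e'.symm) hpq
    · exact e ▸ hn q hq'
    · obtain ⟨h1, h2, h3, h4⟩ := hn p hp'
      exact e' ▸ ⟨h1.symm, h3.symm, h2.symm, h4.symm⟩
    · exact hM.2 p hp' q hq' hpq
  · have e1 := card_erase_add_one ha
    have e2 := card_erase_add_one (mem_erase.2 ⟨hab.symm, hb⟩ : b ∈ R.erase a)
    rw [card_insert_of_notMem hab']
    omega

theorem Win.fin [Fintype ι] (hS : Sy r C) {g : ℝ} (h : Win r C g) :
    ∃ F : Finset (Finset W), Fam r F ∧ (Fintype.card ι + g - 1) / 2 ≤ F.card := by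
  obtain ⟨F, Uc, h1, h2, h3⟩ := h
  obtain ⟨M, hM, hc⟩ := glue1_mat Ucᶜ
  have hcn : ∀ p ∈ M, Cn r (pr C p) := fun p hp => hS.conn _ _ (hM.1 p hp).2.2
  have hcard : (M.image (pr C)).card = M.card :=
    card_image_of_disj M (pr C) (fun p hp => (hcn p hp).1) fun p hp q hq => hM.disj_pr hS hp hq
  obtain ⟨h4, h5⟩ := h1.add_univ hS (U := M.image (pr C))
    (fun N hN x hx => by
      obtain ⟨i, -, hi⟩ := mem_biUnion.1 (h2 N hN hx)
      exact ⟨i, hi⟩)
    (fun N hN => by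
      obtain ⟨p, hp, rfl⟩ := mem_image.1 hN
      exact ⟨hcn p hp, p.1, subset_union_left⟩)
    (fun N hN N' hN' hne => by
      obtain ⟨p, hp, rfl⟩ := mem_image.1 hN
      obtain ⟨q, hq, rfl⟩ := mem_image.1 hN'
      exact hM.disj_pr hS hp hq fun e => hne (e ▸ rfl))
    (fun N hN N' hN' => by
      obtain ⟨q, hq, rfl⟩ := mem_image.1 hN'
      exact (hS.disj_biUnion (disjoint_compl_right (a := Uc))).mono (h2 N hN)
        ((pr_sub hq).trans (biUnion_subset_biUnion_of_subset_left _ hM.cls_sub)))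
  refine ⟨_, h4, ?_⟩
  have e1 : Uc.card + Ucᶜ.card = Fintype.card ι := card_add_card_compl Uc
  have e2 : Fintype.card ι ≤ Uc.card + 2 * M.card + 1 := by omega
  have e3 : (Fintype.card ι : ℝ) ≤ Uc.card + 2 * M.card + 1 := by exact_mod_cast e2
  rw [h5, hcard]
  push_cast
  linarith

end

end Pool.Agent.P.MP_a374b6_co.H
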