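import Mathlib

/-! Averaged demands. -/

namespace Pool.Agent.P.MP_a374b6_co.H

open Finset

variable {A Q Y : Type} [Fintype A] [DecidableEq A] [Fintype Q] [DecidableEq Q] [Fintype Y]
  [DecidableEq Y]

/-- Averaging the demand of every request over the atoms. -/
theorem exists_lam (x : A → ℝ) (h0 : ∀ a, 0 ≤ x a) (rq : A → Finset Q) (dm : A → Q → Y → ℝ)
    (cd : Q → Finset Y) {m : ℝ} (hm : 0 < m)
    (hd : ∀ a, 0 < x a → (∀ q y, 0 ≤ dm a q y ∧ dm a q y ≤ 1 / m ∧
      (dm a q y ≠ 0 → q ∈ rq a ∧ y ∈ cd q)) ∧ (∀ q ∈ rq a, ∑ y, dm a q y = 1) ∧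
      ∀ y, ((rq a).filter fun q => y ∈ cd q).card ≤ 2) :
    ∃ lam : Q → Y → ℝ, (∀ q y, 0 ≤ lam q y ∧ lam q y ≤ 1 / m ∧ (lam q y ≠ 0 → y ∈ cd q)) ∧
      (∀ a, 0 < x a → (∀ q ∈ rq a, ∑ y, lam q y = 1) ∧ ∀ y, ∑ q ∈ rq a, lam q y ≤ 2 / m) ∧
      ∀ y, ∑ a, x a * ∑ q ∈ rq a, lam q y = ∑ a, x a * ∑ q, dm a q y := by
  classical
  set T : Q → ℝ := fun q => ∑ a, x a * (if q ∈ rq a then 1 else 0) with hT
  set N : Q → Y → ℝ := fun q y => ∑ a, x a * dm a q y with hN
  have hx : ∀ a, x a = 0 ∨ 0 < x a := fun a => (h0 a).eq_or_lt.imp Eq.symm id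
  have hm' : 0 < 1 / m := by positivity
  have hT0 : ∀ q, 0 ≤ T q := fun q => sum_nonneg fun a _ =>
    mul_nonneg (h0 a) (by split_ifs <;> norm_num)
  have hN0 : ∀ q y, 0 ≤ N q y := fun q y => sum_nonneg fun a _ => by
    rcases hx a with e | e
    · simp [e]
    · exact mul_nonneg e.le ((hd a e).1 q y).1
  have hNT : ∀ q y, N q y ≤ 1 / m * T q := fun q y => by
    simp only [hN, hT]
    rw [mul_sum]
    refine sum_le_sum fun a _ => ?_
    rcases hx a with e | e
    · simp [e]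
    · obtain ⟨h1, h2, h3⟩ := (hd a e).1 q y
      split_ifs with hq
      · nlinarith
      · have : dm a q y = 0 := by
          by_contra hne
          exact hq (h3 hne).1
        simp [this]
  have hTpos : ∀ a, 0 < x a → ∀ q ∈ rq a, 0 < T q := fun a ha q hq =>
    lt_of_lt_of_le (by simpa [hq] using ha) (single_le_sum
      (f := fun a => x a * (if q ∈ rq a then (1 : ℝ) else 0))
      (fun a _ => mul_nonneg (h0 a) (by split_ifs <;> norm_num)) (mem_univ a))
  have hl : ∀ q y, 0 ≤ N q y / T q ∧ N q y / T q ≤ 1 / m ∧ (N q y / T q ≠ 0 → y ∈ cd q) := by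
    intro q y
    refine ⟨div_nonneg (hN0 q y) (hT0 q), div_le_of_le_mul₀ (hT0 q) hm'.le (hNT q y),
      fun hne => ?_⟩
    obtain ⟨a, -, ha⟩ := exists_ne_zero_of_sum_ne_zero (div_ne_zero_iff.1 hne).1
    rcases hx a with e | e
    · simp [e] at ha
    · exact (((hd a e).1 q y).2.2 (right_ne_zero_of_mul ha)).2
  refine ⟨fun q y => N q y / T q, hl, fun a ha => ⟨fun q hq => ?_, fun y => ?_⟩, fun y => ?_⟩
  · rw [← sum_div, div_eq_one_iff_eq (hTpos a ha q hq).ne']
    simp only [hN, hT]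
    rw [sum_comm]
    refine sum_congr rfl fun b _ => ?_
    rw [← mul_sum]
    rcases hx b with e | e
    · simp [e]
    · split_ifs with hb
      · rw [(hd b e).2.1 q hb]
      · rw [sum_eq_zero fun y _ => ?_]
        by_contra hne
        exact hb (((hd b e).1 q y).2.2 hne).1
  · rw [← sum_filter_of_ne (p := fun q => y ∈ cd q) fun q _ hne => (hl q y).2.2 hne]
    refine (sum_le_card_nsmul _ _ (1 / m) fun q _ => (hl q y).2.1).trans ?_
    have : (((rq a).filter fun q => y ∈ cd q).card : ℝ) ≤ 2 := by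
      exact_mod_cast (hd a ha).2.2 y
    rw [nsmul_eq_mul, show 2 / m = 2 * (1 / m) by ring]
    exact mul_le_mul_of_nonneg_right this hm'.le
  · have e1 : ∀ a, x a * ∑ q ∈ rq a, N q y / T q =
        ∑ q, x a * (if q ∈ rq a then 1 else 0) * (N q y / T q) := fun a => by
      simp only [mul_assoc, ite_mul, one_mul, zero_mul]
      rw [← mul_sum, ← sum_filter, filter_mem_eq_inter, univ_inter]
    simp only [e1, mul_sum]
    rw [sum_comm, sum_comm (f := fun a q => x a * dm a q y)]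
    refine sum_congr rfl fun q _ => ?_
    rw [← sum_mul]
    change T q * (N q y / T q) = N q y
    rcases (hT0 q).eq_or_lt with e | e
    · have := hNT q y
      rw [← e] at this ⊢
      linarith [hN0 q y]
    · field_simp

end Pool.Agent.P.MP_a374b6_co.H
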