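import Pool.Agent.P.MP_a374b6_co.H.Mb

/-! One round of the merge or align lemma. -/

namespace Pool.Agent.P.MP_a374b6_co.H

open Finset

variable {α κ : Type} [Fintype α] [DecidableEq α] [DecidableEq κ] {μ : α → ℝ}

theorem ma_stuck (hp : Prob μ) {ρ : ℝ} {j : ℕ} (hρ : 0 < ρ) (hj : 1 ≤ ρ * j) (H : κ → Finset α)
    {I : Finset κ} (hI : I.Nonempty) (hH : ∀ i ∈ I, ρ ≤ ms μ (H i))
    (hn : ∀ g ⊆ I, ¬ Good μ ρ j H g) :
    ∃ U : Finset α, ∃ i0 ∈ I, H i0 ⊆ U ∧ ms μ U < 1 / 2 + ρ ∧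
      ∀ i ∈ I, ms μ (H i \ U) < ρ ∨ ms μ (H i ∩ U) < ρ := by
  classical
  obtain ⟨i1, hi1⟩ := hI
  obtain ⟨g, hg, hmax⟩ := exists_max_image (I.powerset.filter fun g => g.Nonempty ∧
      (∀ g' ⊆ g, g'.Nonempty → g' ≠ g → ρ ≤ ms μ (g'.biUnion H ∩ (g \ g').biUnion H)) ∧
      ρ * g.card ≤ ms μ (g.biUnion H)) (fun g => ms μ (g.biUnion H))
    ⟨{i1}, mem_filter.2 ⟨mem_powerset.2 (singleton_subset_iff.2 hi1), singleton_nonempty _,
      fun g' h1 h2 h3 => by
        rcases subset_singleton_iff.1 h1 with h | h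
        exacts [absurd h h2.ne_empty, absurd h h3], by simpa using hH i1 hi1⟩⟩
  obtain ⟨hgI, ⟨i0, hi0⟩, hl, hc⟩ := mem_filter.1 hg
  rw [mem_powerset] at hgI
  have hcard : g.card ≤ j := by
    have h1 := hp.le_one (g.biUnion H)
    have h2 : ρ * g.card ≤ ρ * j := by linarith
    exact_mod_cast le_of_mul_le_mul_left h2 hρ
  refine ⟨g.biUnion H, i0, hgI hi0, subset_biUnion_of_mem H hi0, ?_, fun i hi => ?_⟩
  · by_contra hlt
    exact hn g hgI ⟨⟨i0, hi0⟩, hcard, hl, not_lt.1 hlt⟩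
  by_contra hcon
  obtain ⟨h1, h2⟩ := not_or.1 hcon
  rw [not_lt] at h1 h2
  have hig : i ∉ g := fun h => by
    rw [sdiff_eq_empty_iff_subset.2 (subset_biUnion_of_mem H h), ms_empty] at h1
    linarith
  have hms : ms μ ((insert i g).biUnion H) = ms μ (H i \ g.biUnion H) + ms μ (g.biUnion H) := by
    rw [biUnion_insert, ← ms_union_of_disj sdiff_disjoint, sdiff_union_self_eq_union]
  have := hmax (insert i g) (mem_filter.2 ⟨mem_powerset.2 (insert_subset hi hgI),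
    insert_nonempty _ _, fun g' a b c => ?_, ?_⟩)
  · linarith
  · by_cases e1 : (g' ∩ g).Nonempty
    · by_cases e2 : g' ∩ g = g
      · refine h2.trans (ms_mono hp.1 fun x hx => ?_)
        obtain ⟨x1, x2⟩ := mem_inter.1 hx
        have hgg : g ⊆ g' := e2 ▸ inter_subset_left
        refine mem_inter.2 ⟨biUnion_subset_biUnion_of_subset_left _ hgg x2,
          mem_biUnion.2 ⟨i, mem_sdiff.2 ⟨mem_insert_self _ _, fun h => c ?_⟩, x1⟩⟩
        exact Subset.antisymm a (insert_subset h hgg)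
      · refine (hl _ inter_subset_right e1 e2).trans (ms_mono hp.1 (inter_subset_inter
          (biUnion_subset_biUnion_of_subset_left _ inter_subset_left)
          (biUnion_subset_biUnion_of_subset_left _ fun x hx => ?_)))
        obtain ⟨x1, x2⟩ := mem_sdiff.1 hx
        exact mem_sdiff.2 ⟨mem_insert_of_mem x1, fun h => x2 (mem_inter.2 ⟨h, x1⟩)⟩
    · refine h2.trans (ms_mono hp.1 (inter_subset_inter ?_
        (biUnion_subset_biUnion_of_subset_left _ fun x hx => ?_)))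
      · obtain ⟨x, hx⟩ := b
        rcases mem_insert.1 (a hx) with rfl | h
        · exact subset_biUnion_of_mem H hx
        · exact absurd ⟨x, mem_inter.2 ⟨hx, h⟩⟩ e1
      · exact mem_sdiff.2 ⟨mem_insert_of_mem hx, fun h => e1 ⟨x, mem_inter.2 ⟨h, hx⟩⟩⟩
  · rw [card_insert_of_notMem hig, hms]
    push_cast
    linarith

theorem ma_step (hp : Prob μ) {ρ : ℝ} {j : ℕ} (hρ : 0 < ρ) (hj : 1 ≤ ρ * j) (H : κ → Finset α)
    (I : Finset κ) (hH : ∀ i ∈ I, ρ ≤ ms μ (H i)) :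
    (∃ G : Finset (Finset κ), (∀ g ∈ G, g ⊆ I ∧ Good μ ρ j H g) ∧ Pd G ∧
      I.card ≤ 2 * j * G.card) ∨
    ∃ U : Finset α, ∃ i0 ∈ I, ∃ I' ⊆ I, H i0 ⊆ U ∧ ms μ U < 1 / 2 + ρ ∧ I.card ≤ 4 * I'.card ∧
      ((∀ i ∈ I', ms μ (H i \ U) < ρ) ∨ ∀ i ∈ I', ms μ (H i \ Uᶜ) < ρ) := by
  classical
  obtain ⟨G, hG, hmax⟩ := exists_max_image (I.powerset.powerset.filter fun G =>
      (∀ g ∈ G, Good μ ρ j H g) ∧ Pd G) card
    ⟨∅, mem_filter.2 ⟨empty_mem_powerset _, by simp [Pd]⟩⟩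
  obtain ⟨hGI, hG1, hG2⟩ := mem_filter.1 hG
  have hsub : ∀ g ∈ G, g ⊆ I := fun g hg => mem_powerset.1 (mem_powerset.1 hGI hg)
  by_cases hc : I.card ≤ 2 * j * G.card
  · exact Or.inl ⟨G, fun g hg => ⟨hsub g hg, hG1 g hg⟩, hG2, hc⟩
  right
  have h1 : (un G).card ≤ G.card * j := card_biUnion_le_card_mul _ _ _ fun g hg => (hG1 g hg).card
  have h2 := le_card_sdiff (un G) I
  have h3 : I.card < 2 * (I \ un G).card := by
    have : 2 * j * G.card = 2 * (G.card * j) := by ring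
    omega
  obtain ⟨U, i0, hi0, h4, h5, h6⟩ := ma_stuck hp hρ hj H (I := I \ un G)
    (card_pos.1 (by omega)) (fun i hi => hH i (mem_sdiff.1 hi).1) (fun g hg hgood => by
      have hdj : ∀ g' ∈ G, Disjoint g g' := fun g' hg' => disjoint_left.2 fun x hx hx' =>
        (mem_sdiff.1 (hg hx)).2 (sub_un hg' hx')
      have hgG : g ∉ G := fun h => by
        obtain ⟨x, hx⟩ := hgood.ne
        exact disjoint_left.1 (hdj g h) hx hx
      have := hmax (insert g G) (mem_filter.2 ⟨mem_powerset.2 (insert_subset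
        (mem_powerset.2 (hg.trans sdiff_subset)) (mem_powerset.1 hGI)), fun g' hg' => ?_,
        fun A hA B hB hAB => ?_⟩)
      · rw [card_insert_of_notMem hgG] at this
        omega
      · rcases mem_insert.1 hg' with rfl | hg'
        exacts [hgood, hG1 g' hg']
      · rcases mem_insert.1 hA with e | hA' <;> rcases mem_insert.1 hB with e' | hB'
        exacts [absurd (e.trans e'.symm) hAB, e ▸ hdj B hB', e' ▸ (hdj A hA').symm,
          hG2 A hA' B hB' hAB])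
  have h7 := card_filter_add_card_filter_not (s := I \ un G) fun i => ms μ (H i \ U) < ρ
  by_cases h8 : I.card ≤ 4 * ((I \ un G).filter fun i => ms μ (H i \ U) < ρ).card
  · exact ⟨U, i0, (mem_sdiff.1 hi0).1, _, (filter_subset _ _).trans sdiff_subset, h4, h5, h8,
      Or.inl fun i hi => (mem_filter.1 hi).2⟩
  · refine ⟨U, i0, (mem_sdiff.1 hi0).1, (I \ un G).filter fun i => ¬ ms μ (H i \ U) < ρ,
      (filter_subset _ _).trans sdiff_subset, h4, h5, by omega, Or.inr fun i hi => ?_⟩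
    rw [sdiff_compl]
    exact (h6 i (mem_filter.1 hi).1).resolve_left (mem_filter.1 hi).2

end Pool.Agent.P.MP_a374b6_co.H
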