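import Pool.Agent.P.MP_a374b6_co.H.Mb

/-! Sprinkling. -/

namespace Pool.Agent.P.MP_a374b6_co.H

open Finset

theorem spr_count {α β : Type} [Fintype α] [DecidableEq α] [DecidableEq β] (B : Finset β)
    (O : Finset α) {b : β} (hb : b ∈ B) :
    ((Fintype.piFinset fun s : α => if s ∈ O then B.erase b else B).card : ℝ) ≤
      Real.exp (-(O.card : ℝ) / B.card) * (B.card : ℝ) ^ Fintype.card α := by
  have h0 : (0 : ℝ) < B.card := by exact_mod_cast card_pos.2 ⟨b, hb⟩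
  have h1 : ((B.erase b).card : ℝ) ≤ Real.exp (-(1 / B.card)) * B.card := by
    have h2 : ((B.erase b).card : ℝ) + 1 = B.card := by exact_mod_cast card_erase_add_one hb
    have h3 := mul_le_mul_of_nonneg_right (Real.one_sub_le_exp_neg (1 / (B.card : ℝ))) h0.le
    rw [sub_mul, one_div_mul_cancel h0.ne'] at h3
    linarith
  rw [Fintype.card_piFinset, Nat.cast_prod]
  refine (prod_le_prod (g := fun s => (if s ∈ O then Real.exp (-(1 / B.card)) else 1) * B.card)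
    (fun _ _ => Nat.cast_nonneg _) fun s _ => ?_).trans (le_of_eq ?_)
  · split_ifs
    · exact h1
    · rw [one_mul]
  · rw [prod_mul_distrib, prod_const, card_univ, prod_ite_mem, univ_inter, prod_const,
      ← Real.exp_nat_mul]
    congr 2
    ring

theorem assign {α β : Type} [Fintype α] [DecidableEq α] [DecidableEq β] (B : Finset β)
    (hB : B.Nonempty) (E : Finset (Finset α × β)) (l : ℝ)
    (hE : ∀ q ∈ E, q.2 ∈ B ∧ l ≤ q.1.card) (h : E.card * Real.exp (-l / B.card) < 1) :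
    ∃ a : α → β, ∀ q ∈ E, ∃ s ∈ q.1, a s = q.2 := by
  by_contra hn
  push Not at hn
  have hb : (0 : ℝ) < B.card := by exact_mod_cast hB.card_pos
  have h1 : Fintype.piFinset (fun _ : α => B) ⊆ E.biUnion fun q =>
      Fintype.piFinset fun s : α => if s ∈ q.1 then B.erase q.2 else B := by
    intro a ha
    obtain ⟨q, hq, h2⟩ := hn a
    refine mem_biUnion.2 ⟨q, hq, Fintype.mem_piFinset.2 fun s => ?_⟩
    have h3 := Fintype.mem_piFinset.1 ha s
    split_ifs with c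
    · exact mem_erase.2 ⟨h2 s c, h3⟩
    · exact h3
  have h2 := (card_le_card h1).trans card_biUnion_le
  rw [Fintype.card_piFinset, prod_const, card_univ] at h2
  have h3 : (B.card : ℝ) ^ Fintype.card α ≤
      ∑ _q ∈ E, Real.exp (-l / B.card) * (B.card : ℝ) ^ Fintype.card α := by
    refine le_trans (b := ∑ q ∈ E, ((Fintype.piFinset fun s : α =>
      if s ∈ q.1 then B.erase q.2 else B).card : ℝ)) (by exact_mod_cast h2)
      (sum_le_sum fun q hq => ?_)
    refine (spr_count B q.1 (hE q hq).1).trans (mul_le_mul_of_nonneg_right ?_ (by positivity))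
    exact Real.exp_le_exp.2 (div_le_div_of_nonneg_right (neg_le_neg (hE q hq).2) hb.le)
  rw [sum_const, nsmul_eq_mul, ← mul_assoc] at h3
  have h4 : (0 : ℝ) < (B.card : ℝ) ^ Fintype.card α := by positivity
  nlinarith

theorem sprinkle {W α : Type} [DecidableEq W] [Fintype α] [DecidableEq α] [Nonempty α]
    {r : W → W → Prop} (hs : ∀ x y, r x y → r y x) (nb : W → Finset α) (e : α ↪ W)
    (hnb : ∀ x s, s ∈ nb x → r x (e s)) {ρ : ℝ} {j : ℕ} (F : Finset (Finset W))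
    (h1 : ∀ N ∈ F, Pre r nb (fun _ => 1 / Fintype.card α) ρ j N ∧ ∀ s, e s ∉ N)
    (h2 : ∀ N ∈ F, ∀ N' ∈ F, N ≠ N' →
      Disjoint N N' ∧ Nr r nb (fun _ => 1 / Fintype.card α) ρ N N')
    (h3 : (2 ^ j * F.card + F.card ^ 2 : ℝ) * Real.exp (-(ρ * Fintype.card α) / F.card) < 1) :
    ∃ F' : Finset (Finset W), Fam r F' ∧ F'.card = F.card ∧
      ∀ N' ∈ F', ∃ N ∈ F, N' ⊆ N ∪ univ.map e := by
  classical
  rcases F.eq_empty_or_nonempty with rfl | hF
  · exact ⟨∅, ⟨fun _ h => absurd h (notMem_empty _), fun _ h => absurd h (notMem_empty _)⟩, rfl,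
      fun _ h => absurd h (notMem_empty _)⟩
  have hα : (0 : ℝ) < Fintype.card α := by exact_mod_cast Fintype.card_pos
  have hms : ∀ T : Finset α, ρ ≤ ms (fun _ : α => (1 : ℝ) / Fintype.card α) T →
      ρ * Fintype.card α ≤ T.card := fun T hT => by
    rwa [ms, sum_const, nsmul_eq_mul, mul_one_div, le_div_iff₀ hα] at hT
  have hp : ∀ N : Finset W, ∃ P : Finset (Finset W), N ∈ F →
      P.card ≤ j ∧ (∀ K ∈ P, Cn r K) ∧ un P = N := fun N => by
    by_cases hN : N ∈ F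
    · obtain ⟨P, hP⟩ := (h1 N hN).1.pcs
      exact ⟨P, fun _ => hP⟩
    · exact ⟨∅, fun h => absurd h hN⟩
  choose Pc hPc using hp
  obtain ⟨E0, c0, m0, m1, m2⟩ : ∃ E0 : Finset (Finset α × Finset W),
      E0.card ≤ 2 ^ j * F.card + F.card ^ 2 ∧ (∀ q ∈ E0, q.2 ∈ F) ∧
      (∀ N ∈ F, ∀ Q ⊆ Pc N, (cov nb (un Q) ∩ cov nb (N \ un Q), N) ∈ E0) ∧
      ∀ N ∈ F, ∀ N' ∈ F, (cov nb N ∩ cov nb N', N) ∈ E0 := by
    refine ⟨(F.biUnion fun N => (Pc N).powerset.image fun Q =>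
        (cov nb (un Q) ∩ cov nb (N \ un Q), N)) ∪
      (F ×ˢ F).image fun p => (cov nb p.1 ∩ cov nb p.2, p.1), ?_, fun q hq => ?_,
      fun N hN Q hQ => mem_union_left _ (mem_biUnion.2 ⟨N, hN,
        mem_image.2 ⟨Q, mem_powerset.2 hQ, rfl⟩⟩),
      fun N hN N' hN' => mem_union_right _ (mem_image.2 ⟨(N, N'), mem_product.2 ⟨hN, hN'⟩, rfl⟩)⟩
    · refine (card_union_le _ _).trans (add_le_add ?_ ?_)
      · rw [mul_comm]
        refine card_biUnion_le_card_mul _ _ _ fun N hN => card_image_le.trans ?_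
        rw [card_powerset]
        exact Nat.pow_le_pow_right (by norm_num) (hPc N hN).1
      · refine card_image_le.trans ?_
        rw [card_product, sq]
    · rcases mem_union.1 hq with hq | hq
      · obtain ⟨N, hN, hq⟩ := mem_biUnion.1 hq
        obtain ⟨Q, -, rfl⟩ := mem_image.1 hq
        exact hN
      · obtain ⟨p, hp, rfl⟩ := mem_image.1 hq
        exact (mem_product.1 hp).1
  obtain ⟨a, ha⟩ := assign F hF (E0.filter fun q => ρ * Fintype.card α ≤ q.1.card)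
    (ρ * Fintype.card α) (fun q hq => ⟨m0 q (mem_filter.1 hq).1, (mem_filter.1 hq).2⟩) (by
      refine lt_of_le_of_lt (mul_le_mul_of_nonneg_right ?_ (Real.exp_pos _).le) h3
      exact_mod_cast (card_filter_le _ _).trans c0)
  obtain ⟨X, hX⟩ : ∃ X : Finset W → Finset W, ∀ N x,
      x ∈ X N ↔ x ∈ N ∨ ∃ s, (a s = N ∧ s ∈ cov nb N) ∧ e s = x :=
    ⟨fun N => N ∪ (univ.filter fun s => a s = N ∧ s ∈ cov nb N).map e, fun N x => by simp⟩
  have hsub : ∀ N, N ⊆ X N := fun N x hx => (hX N x).2 (Or.inl hx)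
  have hd : ∀ N ∈ F, ∀ N' ∈ F, N ≠ N' → Disjoint (X N) (X N') := by
    intro N hN N' hN' hne
    refine disjoint_left.2 fun x k1 k2 => ?_
    rcases (hX _ _).1 k1 with g1 | ⟨s, g1, rfl⟩ <;> rcases (hX _ _).1 k2 with g2 | ⟨s', g2, k3⟩
    · exact disjoint_left.1 (h2 N hN N' hN' hne).1 g1 g2
    · exact (h1 N hN).2 s' (k3 ▸ g1)
    · exact (h1 N' hN').2 s g2
    · rw [e.injective k3] at g2
      exact hne (g1.1.symm.trans g2.1)
  refine ⟨F.image X, ⟨fun N' hN' => ?_, fun A hA B hB hAB => ?_⟩,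
    card_image_of_disj F X (fun N hN => (h1 N hN).1.ne.mono (hsub N)) hd, fun N' hN' => ?_⟩
  · obtain ⟨N, hN, rfl⟩ := mem_image.1 hN'
    obtain ⟨v, hv⟩ := (h1 N hN).1.ne
    refine cn_of_closed hs (hsub N hv) fun U _ hvU hc => ?_
    have k0 : U ∩ N = N := by
      by_contra hne
      have k1 : ¬ Tch r (U ∩ N) (N \ (U ∩ N)) := by
        rintro ⟨x, hx, y, hy, hr⟩
        obtain ⟨g1, g2⟩ := mem_sdiff.1 hy
        exact g2 (mem_inter.2 ⟨hc x (mem_inter.1 hx).1 y (hsub N g1) hr, g1⟩)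
      have k2 := ((h1 N hN).1.lnk _ inter_subset_right ⟨v, mem_inter.2 ⟨hvU, hv⟩⟩
        hne).resolve_left k1
      obtain ⟨-, p1, p2⟩ := hPc N hN
      have k3 : un ((Pc N).filter fun K => K ⊆ U ∩ N) = U ∩ N := by
        ext x
        rw [mem_un]
        constructor
        · rintro ⟨K, hK, hx⟩
          exact (mem_filter.1 hK).2 hx
        · intro hx
          obtain ⟨K, hK, hxK⟩ := mem_un.1 (p2.symm ▸ (mem_inter.1 hx).2 : x ∈ un (Pc N))
          refine ⟨K, mem_filter.2 ⟨hK, ?_⟩, hxK⟩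
          exact ((p1 K hK).sub_or_disj hs ((sub_un hK).trans p2.le) k1).resolve_right
            fun hd => disjoint_left.1 hd hxK hx
      have k4 := m1 N hN _ (filter_subset (fun K => K ⊆ U ∩ N) (Pc N))
      rw [k3] at k4
      obtain ⟨s, g1, g2⟩ := ha _ (mem_filter.2 ⟨k4, hms _ k2⟩)
      obtain ⟨g3, g4⟩ := mem_inter.1 g1
      obtain ⟨x, hx, hxs⟩ := mem_cov.1 g3
      obtain ⟨y, hy, hys⟩ := mem_cov.1 g4
      have g5 : e s ∈ U := hc x (mem_inter.1 hx).1 _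
        ((hX _ _).2 (Or.inr ⟨s, ⟨g2, cov_mono inter_subset_right g3⟩, rfl⟩)) (hnb x s hxs)
      obtain ⟨g6, g7⟩ := mem_sdiff.1 hy
      exact g7 (mem_inter.2 ⟨hc _ g5 y (hsub N g6) (hs _ _ (hnb y s hys)), g6⟩)
    intro x hx
    rcases (hX _ _).1 hx with g | ⟨s, g, rfl⟩
    · exact inter_eq_right.1 k0 g
    · obtain ⟨y, hy, hys⟩ := mem_cov.1 g.2
      exact hc y (inter_eq_right.1 k0 hy) _ hx (hnb y s hys)
  · obtain ⟨N, hN, rfl⟩ := mem_image.1 hA
    obtain ⟨N', hN', rfl⟩ := mem_image.1 hB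
    have hne : N ≠ N' := fun h => hAB (by rw [h])
    refine ⟨hd N hN N' hN' hne, ?_⟩
    rcases (h2 N hN N' hN' hne).2 with k | k
    · exact k.mono (hsub N) (hsub N')
    · obtain ⟨s, g1, g2⟩ := ha _ (mem_filter.2 ⟨m2 N hN N' hN', hms _ k⟩)
      obtain ⟨g3, g4⟩ := mem_inter.1 g1
      obtain ⟨y, hy, hys⟩ := mem_cov.1 g4
      exact ⟨e s, (hX _ _).2 (Or.inr ⟨s, ⟨g2, g3⟩, rfl⟩), y, hsub N' hy, hs _ _ (hnb y s hys)⟩
  · obtain ⟨N, hN, rfl⟩ := mem_image.1 hN'
    refine ⟨N, hN, fun x hx => ?_⟩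
    rcases (hX _ _).1 hx with g | ⟨s, -, rfl⟩
    · exact mem_union_left _ g
    · exact mem_union_right _ (mem_map_of_mem _ (mem_univ s))

end Pool.Agent.P.MP_a374b6_co.H
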