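import Pool.Agent.P.MP_a374b6_co.H.Dbl
import Pool.Agent.P.MP_a374b6_co.H.Spr

/-! The sprinkling theorem. -/

namespace Pool.Agent.P.MP_a374b6_co.H

open Finset

theorem gain_all : ∃ (ρ c : ℝ) (j m0 : ℕ), 0 < ρ ∧ 0 < c ∧
    ∀ (W ι α : Type) [Fintype W] [DecidableEq W] [DecidableEq ι] [Fintype α] [DecidableEq α]
      (r : W → W → Prop) (nb : W → Finset α) (C : ι → Finset W) (R : Finset ι) (μ : α → ℝ),
      Ctx r nb C R μ → m0 ≤ R.card → Gain r nb C R μ ρ j (c * R.card) := by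
  classical
  obtain ⟨ρ1, c1, j1, m1, hρ1, hc1, hdon⟩ := don (y0 := 1 / 10000) (η := 1 / 10000) (by norm_num)
    (by norm_num) (by norm_num)
  obtain ⟨ρ2, c2, j2, m2, hρ2, hc2, hdbl⟩ := dbl
  refine ⟨min ρ1 (min ρ2 (1 / 50)), min (c1 / 8) (min (c2 / 2) (1 / 480)), max j1 (max j2 15),
    max (8 * m1) (max (2 * m2) 480), by positivity, by positivity,
    fun W ι α _ _ _ _ _ r nb C R μ h hm => ?_⟩
  have hcard : (0 : ℝ) ≤ R.card := Nat.cast_nonneg _
  have g1 := mul_le_mul_of_nonneg_right (min_le_left (c1 / 8) (min (c2 / 2) (1 / 480))) hcard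
  have g2 := mul_le_mul_of_nonneg_right
    ((min_le_right (c1 / 8) _).trans (min_le_left (c2 / 2) (1 / 480))) hcard
  have g3 := mul_le_mul_of_nonneg_right
    ((min_le_right (c1 / 8) _).trans (min_le_right (c2 / 2) (1 / 480))) hcard
  rcases mat_or_cover (fun a b => ∃ X Y, Cut r (C a ∪ C b) X Y ∧
      1 / 2 + 1 / 10000 ≤ fv nb μ X ∧ 1 / 10000 ≤ fv nb μ Y) R ((R.card : ℝ) / 8) with
    ⟨M, hM, hP, hc⟩ | ⟨E1, hE1, hP1⟩
  · have e : R.card ≤ M.card * 8 := by exact_mod_cast (by linarith : (R.card : ℝ) ≤ M.card * 8)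
    exact (hdon W ι α r nb C R μ M h hM (by omega) hP).mono Subset.rfl (min_le_left _ _)
      (le_max_left _ _) (by nlinarith)
  rcases mat_or_cover (fun a b => ∃ v L, Don r nb μ (C a ∪ C b) v L) R ((R.card : ℝ) / 8) with
    ⟨M, hM, hP, hc⟩ | ⟨E2, hE2, hP2⟩
  · have e : R.card ≤ M.card * 8 := by exact_mod_cast (by linarith : (R.card : ℝ) ≤ M.card * 8)
    refine (vee h hM hP).mono Subset.rfl ((min_le_right _ _).trans (min_le_right _ _))
      ((le_max_right _ _).trans (le_max_right _ _)) ?_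
    have e1 : R.card ≤ 480 * (M.card / 30) := by omega
    have e2 : (R.card : ℝ) ≤ 480 * ((M.card / 30 : ℕ) : ℝ) := by exact_mod_cast e1
    linarith
  set R' := R \ (E1 ∪ E2) with hR'
  have e1 : R.card ≤ 2 * R'.card := by
    have a1 : R.card - (E1 ∪ E2).card ≤ R'.card := le_card_sdiff (E1 ∪ E2) R
    have a2 := card_union_le E1 E2
    have a3 : E1.card * 4 ≤ R.card := by exact_mod_cast (by linarith : (E1.card : ℝ) * 4 ≤ R.card)
    have a4 : E2.card * 4 ≤ R.card := by exact_mod_cast (by linarith : (E2.card : ℝ) * 4 ≤ R.card)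
    omega
  obtain ⟨i0, -⟩ := card_pos.1 (by omega : 0 < R.card)
  obtain ⟨w0, -⟩ := h.sy.ne i0
  have hch : ∀ S : Finset W, ∃ (X : Bool → Finset W) (u : Bool → W)
      (L : Bool → Finset (Finset W)), (∃ a ∈ R', ∃ b ∈ R', a ≠ b ∧ S = C a ∪ C b) →
      (∀ b, End r nb μ S (X b) (u b) (L b)) ∧ Disjoint (X true) (X false) := by
    intro S
    by_cases hS : ∃ a ∈ R', ∃ b ∈ R', a ≠ b ∧ S = C a ∪ C b
    · obtain ⟨a, ha, b, hb, hab, rfl⟩ := hS
      obtain ⟨a1, a2⟩ := mem_sdiff.1 ha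
      obtain ⟨b1, b2⟩ := mem_sdiff.1 hb
      rw [mem_union, not_or] at a2 b2
      obtain ⟨X, u, L, hh⟩ := ((classify h.sy.symm h.pb (h.sy.conn a b hab)
        (h.cov_eq a1 subset_union_left)).resolve_left
        (hP1 a a1 b b1 a2.1 b2.1 hab)).resolve_left (hP2 a a1 b b1 a2.2 b2.2 hab)
      exact ⟨X, u, L, fun _ => hh⟩
    · exact ⟨fun _ => ∅, fun _ => w0, fun _ => ∅, fun h' => absurd h' hS⟩
  choose X u L hd using hch
  refine (hdbl W ι α r nb C R' μ ⟨X, u, L⟩ (h.mono sdiff_subset) (by omega)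
    fun a ha b hb hab => hd _ ⟨a, ha, b, hb, hab, rfl⟩).mono sdiff_subset
    ((min_le_right _ _).trans (min_le_left _ _)) ((le_max_left _ _).trans (le_max_right _ _)) ?_
  have e2 : (R.card : ℝ) ≤ 2 * R'.card := by exact_mod_cast e1
  nlinarith

theorem ta_num {ρ s : ℝ} (hρ : 0 < ρ) {j M t : ℕ} (hM : 0 < M) (hMt : M ≤ t) (ht : 2 ^ j + 2 ≤ t)
    (hs : 3 / ρ * t * Real.log t ≤ s) :
    (2 ^ j * M + M ^ 2 : ℝ) * Real.exp (-(ρ * s) / M) < 1 := by
  have hM' : (0 : ℝ) < M := by exact_mod_cast hM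
  have hMt' : (M : ℝ) ≤ t := by exact_mod_cast hMt
  have ht' : (2 : ℝ) ^ j + 2 ≤ t := by exact_mod_cast ht
  have h2 : (0 : ℝ) < 2 ^ j := by positivity
  have ht0 : (0 : ℝ) < t := by linarith
  have hl : 0 ≤ Real.log t := Real.log_nonneg (by linarith)
  have e1 : -(ρ * s) / M ≤ -Real.log (t ^ 3) := by
    rw [Real.log_pow, div_le_iff₀ hM']
    have a1 := mul_le_mul_of_nonneg_left hs hρ.le
    have a2 : ρ * (3 / ρ * t * Real.log t) = 3 * (t * Real.log t) := by field_simp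
    have a3 := mul_le_mul_of_nonneg_right hMt' hl
    push_cast
    linarith
  have e2 := Real.exp_le_exp.2 e1
  rw [Real.exp_neg, Real.exp_log (by positivity)] at e2
  refine (mul_le_mul_of_nonneg_left e2 (by positivity)).trans_lt ?_
  rw [← div_eq_mul_inv, div_lt_one (by positivity)]
  have a1 : 2 ^ j * (M : ℝ) ≤ 2 ^ j * t := mul_le_mul_of_nonneg_left hMt' h2.le
  have a2 : (M : ℝ) ^ 2 ≤ t ^ 2 := pow_le_pow_left₀ hM'.le hMt' 2
  have a3 : 2 ^ j * (t : ℝ) < t ^ 2 := by nlinarith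
  nlinarith

theorem thmA : ∃ (δ K : ℝ) (r0 : ℕ), 0 < δ ∧ δ ≤ 1 ∧ 0 < K ∧ ThmA δ K r0 := by
  classical
  obtain ⟨ρ, c, j, m0, hρ, hc, hg⟩ := gain_all
  refine ⟨min c 1, 3 / ρ, max m0 (2 ^ j + 2), by positivity, min_le_right _ _, by positivity,
    fun W ι _ _ _ r C R Sg hS hd hn hr hK => ?_⟩
  have h2j : 0 < 2 ^ j := by positivity
  have hR : (2 : ℝ) ≤ R.card := by exact_mod_cast (by omega : 2 ≤ R.card)
  have hpos : (0 : ℝ) < Sg.card :=
    lt_of_lt_of_le (mul_pos (by positivity) (Real.log_pos (by linarith))) hK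
  obtain ⟨s0, hs0⟩ := card_pos.1 (by exact_mod_cast hpos : 0 < Sg.card)
  have : Nonempty Sg := ⟨⟨s0, hs0⟩⟩
  set nb : W → Finset Sg := fun x => univ.filter fun s => r x s.1 with hnb
  have hctx : Ctx r nb C R fun _ => 1 / Fintype.card Sg := ⟨hS, fun i hi => by
    refine eq_univ_of_forall fun s => ?_
    obtain ⟨x, hx, hxs⟩ := hn s.1 s.2 i hi
    exact mem_cov.2 ⟨x, hx, mem_filter.2 ⟨mem_univ _, hxs⟩⟩, fun _ => by positivity, by
      simp [hpos.ne']⟩
  obtain ⟨F, Uc, h1, h2, h3, h4⟩ := hg W ι Sg r nb C R _ hctx (by omega)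
  obtain ⟨F0, hF0, hc0⟩ := exists_subset_card_eq (s := F) (min_le_left F.card R.card)
  have hU : (Uc.card : ℝ) ≤ R.card := by exact_mod_cast card_le_card h1
  have hU0 : (0 : ℝ) ≤ Uc.card := Nat.cast_nonneg _
  have hF : 0 < F.card := by
    have : (0 : ℝ) < F.card := by nlinarith
    exact_mod_cast this
  obtain ⟨F', a1, a2, a3⟩ := sprinkle hS.symm nb (Function.Embedding.subtype _)
    (fun x s hs => (mem_filter.1 hs).2) (ρ := ρ) (j := j) F0
    (fun N hN => ⟨(h2 N (hF0 hN)).1, fun s hs => by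
      obtain ⟨i, hi, hsi⟩ := mem_biUnion.1 ((h2 N (hF0 hN)).2 hs)
      exact disjoint_left.1 (hd i (h1 hi)) s.2 hsi⟩)
    (fun N hN N' hN' => h3 N (hF0 hN) N' (hF0 hN'))
    (ta_num hρ (t := R.card) (by omega) (by omega) (by omega) (by rwa [Fintype.card_coe]))
  refine ⟨F', Uc, h1, a1, fun N' hN' => ?_, ?_⟩
  · obtain ⟨N, hN, hsub⟩ := a3 N' hN'
    refine hsub.trans (union_subset_union (h2 N (hF0 hN)).2 fun x hx => ?_)
    obtain ⟨s, -, rfl⟩ := mem_map.1 hx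
    exact s.2
  · rw [a2, hc0]
    have b1 := mul_le_mul_of_nonneg_right (min_le_left c 1) (by linarith : (0 : ℝ) ≤ R.card)
    have b2 := mul_le_mul_of_nonneg_right (min_le_right c 1) (by linarith : (0 : ℝ) ≤ R.card)
    rcases le_total F.card R.card with e | e
    · rw [min_eq_left e]
      linarith
    · rw [min_eq_right e]
      linarith

end Pool.Agent.P.MP_a374b6_co.H
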