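import Pool.Agent.P.MP_a374b6_co.H.Defs

/-! Moments of a random matching. -/

namespace Pool.Agent.P.MP_a374b6_co.H

open Finset

section

variable {A Ω : Type} [Fintype A] [DecidableEq A] [Fintype Ω] {n : ℕ} {e : A → Fin n × Fin n}
  {x : A → ℝ} {P : Ω → ℝ} {sel : Ω → Finset A}

theorem sm_ind (S : Finset A) (d : A → ℝ) :
    ∑ a ∈ S, d a = ∑ a, (if a ∈ S then 1 else 0) * d a := by
  simp only [ite_mul, one_mul, zero_mul]
  rw [← sum_filter, filter_mem_eq_inter, univ_inter]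

theorem sm_sq (t u : ℝ) (hu : 0 < u) : max 0 (t - u) ≤ t ^ 2 / (4 * u) := by
  refine max_le (by positivity) ?_
  rw [le_div_iff₀ (by positivity)]
  nlinarith [sq_nonneg (t - 2 * u)]

theorem sm_inv (hn : 2 ≤ n) : 1 / ((n : ℝ) * (n - 1)) ≤ (1 + 2 / n) / n ^ 2 := by
  have h2 : (2 : ℝ) ≤ n := by exact_mod_cast hn
  have h3 : (0 : ℝ) < n - 1 := by linarith
  rw [div_le_div_iff₀ (by positivity) (by positivity)]
  have : (1 + 2 / (n : ℝ)) * (n * (n - 1)) = (n + 2) * (n - 1) := by field_simp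
  rw [this]
  nlinarith

theorem Law.mean (h : Law e x P sel) (d : A → ℝ) :
    ∑ w, P w * ∑ a ∈ sel w, d a = ∑ a, x a / n * d a := by
  simp only [sm_ind (sel _) d, mul_sum]
  rw [sum_comm]
  refine sum_congr rfl fun a _ => ?_
  rw [← h.one a, sum_mul]
  exact sum_congr rfl fun w _ => (mul_assoc _ _ _).symm

theorem Law.sm_var (h : Law e x P sel) (hn : 2 ≤ n) (h0 : ∀ a, 0 ≤ x a) (d : A → ℝ) {D : ℝ}
    (hd0 : ∀ a, 0 ≤ d a) (hd : ∀ a, 0 < x a → d a ≤ D) :
    ∑ w, P w * (∑ a ∈ sel w, d a) ^ 2 ≤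
      D * ∑ a, x a / n * d a + (1 + 2 / n) * (∑ a, x a / n * d a) ^ 2 := by
  have hn0 : (0 : ℝ) < n := by exact_mod_cast (by omega : 0 < n)
  have e1 : ∑ w, P w * (∑ a ∈ sel w, d a) ^ 2 =
      ∑ a, ∑ b, (∑ w, P w * (if a ∈ sel w ∧ b ∈ sel w then 1 else 0)) * (d a * d b) := by
    simp only [sm_ind (sel _) d, sq, sum_mul_sum]
    simp only [mul_sum, sum_mul]
    rw [sum_comm]
    refine sum_congr rfl fun a _ => ?_
    rw [sum_comm]
    refine sum_congr rfl fun b _ => sum_congr rfl fun w _ => ?_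
    by_cases ha : a ∈ sel w <;> by_cases hb : b ∈ sel w <;> simp [ha, hb]
  have e2 : ∀ a b, (∑ w, P w * (if a ∈ sel w ∧ b ∈ sel w then 1 else 0)) * (d a * d b) ≤
      (if a = b then D * (x a / n * d a) else 0) +
        (1 + 2 / n) * (x a / n * d a * (x b / n * d b)) := by
    intro a b
    have p1 : 0 ≤ x a / n * d a := mul_nonneg (div_nonneg (h0 a) hn0.le) (hd0 a)
    have p2 : 0 ≤ x b / n * d b := mul_nonneg (div_nonneg (h0 b) hn0.le) (hd0 b)
    split_ifs with hab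
    · subst hab
      simp only [and_self]
      rw [h.one a]
      have p3 : 0 ≤ (1 + 2 / (n : ℝ)) * (x a / n * d a * (x a / n * d a)) := by positivity
      rcases (h0 a).eq_or_lt with e | e
      · simp [← e]
      · nlinarith [mul_le_mul_of_nonneg_left (hd a e) p1]
    · refine (mul_le_mul_of_nonneg_right (h.two a b hab) (mul_nonneg (hd0 a) (hd0 b))).trans ?_
      have p3 := mul_le_mul_of_nonneg_left (sm_inv hn)
        (mul_nonneg (mul_nonneg (h0 a) (h0 b)) (mul_nonneg (hd0 a) (hd0 b)))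
      refine le_trans (le_of_eq ?_) (p3.trans (le_of_eq ?_))
      · ring
      · field_simp
        ring
  rw [e1]
  refine (sum_le_sum fun a _ => sum_le_sum fun b _ => e2 a b).trans (le_of_eq ?_)
  simp only [sum_add_distrib, sum_ite_eq, mem_univ, if_true, sq, sum_mul_sum]
  simp only [mul_sum]

theorem Law.var (h : Law e x P sel) (hn : 2 ≤ n) (h0 : ∀ a, 0 ≤ x a) (d : A → ℝ) {D : ℝ}
    (hd : ∀ a, 0 < x a → 0 ≤ d a ∧ d a ≤ D) :
    ∑ w, P w * (∑ a ∈ sel w, d a - ∑ a, x a / n * d a) ^ 2 ≤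
      D * ∑ a, x a / n * d a + 2 / n * (∑ a, x a / n * d a) ^ 2 := by
  set d' : A → ℝ := fun a => if 0 < x a then d a else 0 with hd'
  have e1 : ∀ w, ∑ a ∈ sel w, d a = ∑ a ∈ sel w, d' a := fun w =>
    sum_congr rfl fun a ha => by simp [hd', h.pos w a ha]
  have e2 : ∑ a, x a / n * d a = ∑ a, x a / n * d' a := sum_congr rfl fun a _ => by
    rcases (h0 a).eq_or_lt with e | e
    · simp [← e]
    · simp [hd', e]
  have h1 := h.sm_var hn h0 d' (D := D) (fun a => by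
    simp only [hd']
    split_ifs with e
    exacts [(hd a e).1, le_rfl]) fun a e => by simpa [hd', e] using (hd a e).2
  have h2 := h.mean d'
  simp only [e1, e2]
  generalize ∑ a, x a / n * d' a = m at h1 h2 ⊢
  have e3 : ∑ w, P w * (∑ a ∈ sel w, d' a - m) ^ 2 = ∑ w, P w * (∑ a ∈ sel w, d' a) ^ 2 -
      2 * m * ∑ w, P w * ∑ a ∈ sel w, d' a + m ^ 2 * ∑ w, P w := by
    rw [mul_sum, mul_sum, ← sum_sub_distrib, ← sum_add_distrib]
    exact sum_congr rfl fun w _ => by ring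
  rw [e3, h2, h.p1]
  linarith

/-- Expected shortfall below `1` when the mean is `1 + u`. -/
theorem Law.short (h : Law e x P sel) (hn : 2 ≤ n) (h0 : ∀ a, 0 ≤ x a) (d : A → ℝ) {D u : ℝ}
    (hu : 0 < u) (hd : ∀ a, 0 < x a → 0 ≤ d a ∧ d a ≤ D) (hm : ∑ a, x a / n * d a = 1 + u) :
    ∑ w, P w * max 0 (1 - ∑ a ∈ sel w, d a) ≤ (D * (1 + u) + 2 / n * (1 + u) ^ 2) / (4 * u) := by
  have h1 := h.var hn h0 d hd
  rw [hm] at h1
  refine le_trans ?_ (div_le_div_of_nonneg_right h1 (by positivity))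
  rw [sum_div]
  refine sum_le_sum fun w _ => ?_
  rw [mul_div_assoc]
  refine mul_le_mul_of_nonneg_left ?_ (h.p0 w)
  have := sm_sq (1 + u - ∑ a ∈ sel w, d a) u hu
  rw [show 1 + u - ∑ a ∈ sel w, d a - u = 1 - ∑ a ∈ sel w, d a by ring] at this
  exact this.trans (le_of_eq (by ring))

/-- Expected excess above `1` when the mean is at most `1 - u`. -/
theorem Law.excess (h : Law e x P sel) (hn : 2 ≤ n) (h0 : ∀ a, 0 ≤ x a) (d : A → ℝ) {D u : ℝ}
    (hu : 0 < u) (hD : 0 ≤ D) (hd : ∀ a, 0 < x a → 0 ≤ d a ∧ d a ≤ D)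
    (hm : ∑ a, x a / n * d a ≤ 1 - u) :
    ∑ w, P w * max 0 (∑ a ∈ sel w, d a - 1) ≤ (D + 2 / n) / (4 * u) := by
  have h1 := h.var hn h0 d hd
  have hm0 : 0 ≤ ∑ a, x a / n * d a := sum_nonneg fun a _ => by
    rcases (h0 a).eq_or_lt with e | e
    · simp [← e]
    · exact mul_nonneg (div_nonneg e.le (Nat.cast_nonneg _)) (hd a e).1
  generalize ∑ a, x a / n * d a = m at h1 hm hm0
  have h2 : D * m + 2 / n * m ^ 2 ≤ D + 2 / n := by
    have : m ^ 2 ≤ 1 := by nlinarith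
    have p : (0 : ℝ) ≤ 2 / n := by positivity
    nlinarith
  refine le_trans ?_ (div_le_div_of_nonneg_right (h1.trans h2) (by positivity))
  rw [sum_div]
  refine sum_le_sum fun w _ => ?_
  rw [mul_div_assoc]
  refine mul_le_mul_of_nonneg_left ?_ (h.p0 w)
  exact (max_le_max le_rfl (by linarith)).trans (sm_sq (∑ a ∈ sel w, d a - m) u hu)

open Classical in
theorem Law.pairs (h : Law e x P sel) (hn : 2 ≤ n) (h0 : ∀ a, 0 ≤ x a) (cf : A → A → Prop) :
    ∑ w, P w * (((sel w ×ˢ sel w).filter fun q => q.1 ≠ q.2 ∧ cf q.1 q.2).card : ℝ) ≤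
      2 / (n : ℝ) ^ 2 * ∑ a, ∑ b, if cf a b then x a * x b else 0 := by
  have h2 : (2 : ℝ) ≤ n := by exact_mod_cast hn
  have e1 : ∀ w, (((sel w ×ˢ sel w).filter fun q => q.1 ≠ q.2 ∧ cf q.1 q.2).card : ℝ) =
      ∑ a, ∑ b, (if a ∈ sel w ∧ b ∈ sel w then 1 else 0) *
        (if a ≠ b ∧ cf a b then (1 : ℝ) else 0) := fun w => by
    rw [card_filter, sum_product]
    push_cast
    rw [sm_ind (sel w)]
    refine sum_congr rfl fun a _ => ?_
    rw [sm_ind (sel w), mul_sum]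
    refine sum_congr rfl fun b _ => ?_
    by_cases ha : a ∈ sel w <;> by_cases hb : b ∈ sel w <;> simp [ha, hb]
  simp only [e1, mul_sum]
  rw [sum_comm]
  refine sum_le_sum fun a _ => ?_
  rw [sum_comm]
  refine sum_le_sum fun b _ => ?_
  simp only [← mul_assoc]
  rw [← sum_mul]
  have p := mul_nonneg (h0 a) (h0 b)
  by_cases hc : a ≠ b ∧ cf a b
  · rw [if_pos hc, if_pos hc.2, mul_one]
    refine (h.two a b hc.1).trans ?_
    have h3 : (0 : ℝ) < n - 1 := by linarith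
    rw [div_mul_eq_mul_div, div_le_div_iff₀ (by positivity) (by positivity)]
    nlinarith [mul_nonneg p (mul_nonneg (by linarith : (0 : ℝ) ≤ n) (by linarith : (0 : ℝ) ≤ n - 2))]
  · rw [if_neg hc, mul_zero]
    split_ifs <;> positivity

end

end Pool.Agent.P.MP_a374b6_co.H
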