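import Pool.Agent.P.MP_a374b6_co.H.Rnd
import Pool.Agent.P.MP_a374b6_co.H.Sm
import Pool.Agent.P.MP_a374b6_co.H.Dh

/-! Rounding an equilibrium. -/

namespace Pool.Agent.P.MP_a374b6_co.H

open Finset

theorem round_exists {Ω : Type} [Fintype Ω] {P f : Ω → ℝ} (h0 : ∀ w, 0 ≤ P w) (h1 : ∑ w, P w = 1)
    {T : ℝ} (h : T ≤ ∑ w, P w * f w) : ∃ w, T ≤ f w := by
  by_contra hn
  push Not at hn
  obtain ⟨w, -, hw⟩ := exists_ne_zero_of_sum_ne_zero (h1.trans_ne one_ne_zero)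
  have : ∑ w, P w * f w < ∑ w, P w * T :=
    sum_lt_sum (fun w _ => mul_le_mul_of_nonneg_left (hn w).le (h0 w))
      ⟨w, mem_univ w, mul_lt_mul_of_pos_left (hn w) ((h0 w).lt_of_ne' hw)⟩
  rw [← sum_mul, h1, one_mul] at this
  linarith

theorem round_biUnion {A Q : Type} [DecidableEq A] [DecidableEq Q] (S : Finset A)
    (rq : A → Finset Q) {f : Q → ℝ} (hf : ∀ q, 0 ≤ f q) :
    ∑ q ∈ S.biUnion rq, f q ≤ ∑ a ∈ S, ∑ q ∈ rq a, f q := by
  induction S using Finset.induction_on with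
  | empty => simp
  | insert a S ha ih =>
    rw [biUnion_insert, sum_insert ha]
    have h1 := sum_union_inter (s₁ := rq a) (s₂ := S.biUnion rq) (f := f)
    have h2 := sum_nonneg (s := rq a ∩ S.biUnion rq) fun q _ => hf q
    linarith

theorem round_swap {Ω κ : Type} [Fintype Ω] (P : Ω → ℝ) (S : Finset κ) (f : κ → Ω → ℝ) {B : ℝ}
    (h : ∀ k ∈ S, ∑ w, P w * f k w ≤ B) : ∑ w, P w * ∑ k ∈ S, f k w ≤ S.card * B := by
  simp only [mul_sum]
  rw [sum_comm, ← nsmul_eq_mul]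
  exact sum_le_card_nsmul _ _ _ h

variable {A Q Y : Type} [Fintype A] [DecidableEq A] [Fintype Q] [DecidableEq Q] [Fintype Y]
  [DecidableEq Y] [Nonempty Y] {n : ℕ}

omit [Fintype A] [DecidableEq A] [Fintype Q] [DecidableEq Q] [Fintype Y] [DecidableEq Y]
  [Nonempty Y] in
theorem round_w {lam : Q → Y → ℝ} {Y0 : Finset Y} {qy : Y → ℝ}
    (hl : ∀ q y, 0 ≤ lam q y ∧ (lam q y ≠ 0 → y ∈ Y0)) (hlow : ∀ y ∈ Y0, 1 / 200 ≤ qy y) :
    ∃ w : Q → Y → ℝ, ∀ q y, 0 ≤ w q y ∧ w q y ≤ 204 * lam q y ∧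
      w q y * qy y = 51 / 50 * lam q y := by
  refine ⟨fun q y => 51 / 50 * lam q y / qy y, fun q y => ?_⟩
  by_cases h : lam q y = 0
  · simp [h]
  · have h1 := hlow y ((hl q y).2 h)
    have h2 : 0 < qy y := by linarith
    have h3 := (hl q y).1
    refine ⟨by positivity, ?_, div_mul_cancel₀ _ h2.ne'⟩
    rw [div_le_iff₀ h2]
    nlinarith

section Law

variable {Ω : Type} [Fintype Ω] {e : A → Fin n × Fin n} {x : A → ℝ} {P : Ω → ℝ}
  {sel : Ω → Finset A}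

omit [Nonempty Y] in
theorem round_row (hL : Law e x P sel) (hn : 2 ≤ n) (h0 : ∀ a, 0 ≤ x a) {sp : A → Finset Y}
    {l w : Y → ℝ} {m s : ℝ} (hm : 0 < m) (hs : 0 ≤ s) (hsp : ∀ a, ((sp a).card : ℝ) ≤ 2 * s)
    (hl : ∀ y, l y ≤ 1 / m) (h1 : ∑ y, l y = 1)
    (hw : ∀ y, 0 ≤ w y ∧ w y ≤ 204 * l y ∧
      w y * ∑ a, x a / n * (if y ∈ sp a then 1 else 0) = 51 / 50 * l y) :
    ∑ o, P o * max 0 (1 - ∑ a ∈ sel o, ∑ y ∈ sp a, w y) ≤ 5300 * s / m + 27 / n := by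
  have hn' : (0 : ℝ) < n := by exact_mod_cast (by omega : 0 < n)
  have hmean : ∑ a, x a / n * ∑ y ∈ sp a, w y = 1 + 1 / 50 := by
    calc ∑ a, x a / n * ∑ y ∈ sp a, w y
        = ∑ a, ∑ y, w y * (x a / n * (if y ∈ sp a then 1 else 0)) := by
          refine sum_congr rfl fun a _ => ?_
          simp only [mul_ite, mul_one, mul_zero, sum_ite_mem, univ_inter, mul_sum]
          exact sum_congr rfl fun y _ => mul_comm _ _
      _ = ∑ y, 51 / 50 * l y := by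
          rw [sum_comm]
          exact sum_congr rfl fun y _ => by rw [← mul_sum, (hw y).2.2]
      _ = 1 + 1 / 50 := by
          rw [← mul_sum, h1]
          norm_num
  refine (hL.short hn h0 (fun a => ∑ y ∈ sp a, w y) (D := 408 * (s / m)) (by norm_num)
    (fun a _ => ⟨sum_nonneg fun y _ => (hw y).1, ?_⟩) hmean).trans ?_
  · have h2 := sum_le_card_nsmul (sp a) w (204 * (1 / m)) fun y _ =>
      (hw y).2.1.trans (by linarith [hl y])
    rw [nsmul_eq_mul] at h2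
    have h3 := mul_le_mul_of_nonneg_right (hsp a) (by positivity : 0 ≤ 204 * (1 / m))
    calc _ ≤ 2 * s * (204 * (1 / m)) := h2.trans h3
      _ = _ := by ring
  · have h2 : 0 ≤ s / m := by positivity
    have h3 : 0 ≤ 1 / (n : ℝ) := by positivity
    rw [mul_div_assoc, div_eq_mul_one_div 2, div_eq_mul_one_div 27, div_le_iff₀ (by norm_num)]
    linarith

omit [Fintype Q] [DecidableEq Q] in
theorem round_col (hL : Law e x P sel) (hn : 2 ≤ n) (h0 : ∀ a, 0 ≤ x a) {rq : A → Finset Q}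
    {l w : Q → ℝ} {m t : ℝ} (hm : 0 < m) (ht : 0 < t)
    (hrq : ∀ a, 0 < x a → ∑ q ∈ rq a, l q ≤ 2 / m)
    (hbal : 26 / 25 * ∑ a, x a / n * ∑ q ∈ rq a, l q ≤ t)
    (hw : ∀ q, 0 ≤ w q ∧ w q ≤ 204 * l q ∧ w q * t = 51 / 50 * l q) :
    ∑ o, P o * max 0 (∑ a ∈ sel o, ∑ q ∈ rq a, w q - 1) ≤ 7700 / m + 38 / n := by
  have hn' : (0 : ℝ) < n := by exact_mod_cast (by omega : 0 < n)
  have hmean : (∑ a, x a / n * ∑ q ∈ rq a, w q) * t =
      51 / 50 * ∑ a, x a / n * ∑ q ∈ rq a, l q := by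
    rw [sum_mul, mul_sum]
    refine sum_congr rfl fun a _ => ?_
    rw [mul_assoc, sum_mul, sum_congr rfl fun q _ => (hw q).2.2, ← mul_sum]
    ring
  refine (hL.excess hn h0 (fun a => ∑ q ∈ rq a, w q) (D := 408 * (1 / m)) (u := 1 / 75)
    (by norm_num) (by positivity) (fun a ha => ⟨sum_nonneg fun q _ => (hw q).1, ?_⟩) ?_).trans ?_
  · have h2 := sum_le_sum fun q (_ : q ∈ rq a) => (hw q).2.1
    have h3 := hrq a ha
    rw [← mul_sum] at h2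
    rw [div_eq_mul_one_div] at h3
    linarith
  · refine le_of_mul_le_mul_right ?_ ht
    rw [hmean]
    linarith
  · have h2 : 0 ≤ 1 / m := by positivity
    have h3 : 0 ≤ 1 / (n : ℝ) := by positivity
    rw [div_eq_mul_one_div 2, div_eq_mul_one_div 38, div_eq_mul_one_div 7700,
      div_le_iff₀ (by norm_num)]
    linarith

end Law

open Classical in
theorem round1 (hn : 2 ≤ n) (e : A → Fin n × Fin n) (x : A → ℝ) (h0 : ∀ a, 0 ≤ x a)
    (h1 : ∀ c, ∑ a with e a = c, x a = 1) (sp : A → Finset Y) (rq : A → Finset Q)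
    (lam : Q → Y → ℝ) (ct : A → ℝ) (cf : A → A → Prop) (Q0 : Finset Q) (Y0 : Finset Y)
    {m s : ℝ} (hm : 0 < m) (hs : 0 ≤ s) (hsp : ∀ a, ((sp a).card : ℝ) ≤ 2 * s)
    (hdj : ∀ a b, (e a).1 ≠ (e b).1 → (e a).2 ≠ (e b).2 → Disjoint (sp a) (sp b))
    (hl : ∀ q y, 0 ≤ lam q y ∧ lam q y ≤ 1 / m ∧ (lam q y ≠ 0 → y ∈ Y0))
    (hrq : ∀ a, 0 < x a → rq a ⊆ Q0 ∧ (∀ q ∈ rq a, ∑ y, lam q y = 1) ∧
      ∀ y, ∑ q ∈ rq a, lam q y ≤ 2 / m)
    (hlow : ∀ y ∈ Y0, 1 / 200 ≤ ∑ a, x a / n * (if y ∈ sp a then 1 else 0))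
    (hbal : ∀ y, 26 / 25 * ∑ a, x a / n * ∑ q ∈ rq a, lam q y ≤
      ∑ a, x a / n * (if y ∈ sp a then 1 else 0)) :
    ∃ (sl : Finset A) (srv : Finset Q) (φ : Q → Y), (∀ a ∈ sl, 0 < x a) ∧ Mt e sl ∧
      srv ⊆ sl.biUnion rq ∧ Set.InjOn φ srv ∧
      (∀ q ∈ srv, lam q (φ q) ≠ 0 ∧ φ q ∈ sl.biUnion sp) ∧
      ∑ a, x a / n * ct a - (Q0.card * (5300 * s / m + 27 / n) + Y0.card * (7700 / m + 38 / n) +
          2 / (n : ℝ) ^ 2 * ∑ a, ∑ b, if cf a b then x a * x b else 0) ≤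
        ∑ a ∈ sl, ct a - ((sl.biUnion rq \ srv).card : ℝ) -
          (((sl ×ˢ sl).filter fun q => q.1 ≠ q.2 ∧ cf q.1 q.2).card : ℝ) := by
  obtain ⟨Ω, _, P, sel, hL⟩ := exists_law hn e x h0 h1
  obtain ⟨w, hw⟩ := round_w (fun q y => ⟨(hl q y).1, (hl q y).2.2⟩) hlow
  have hw0 : ∀ q y, lam q y = 0 → w q y = 0 := fun q y h =>
    le_antisymm (by simpa [h] using (hw q y).2.1) (hw q y).1
  have e1 := round_swap P (Q0.filter fun q => ∑ y, lam q y = 1)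
    (fun q o => max 0 (1 - ∑ a ∈ sel o, ∑ y ∈ sp a, w q y)) fun q hq =>
      round_row hL hn h0 hm hs hsp (fun y => (hl q y).2.1) (mem_filter.1 hq).2 (hw q)
  have e2 := round_swap P Y0 (fun y o => max 0 (∑ a ∈ sel o, ∑ q ∈ rq a, w q y - 1)) fun y hy =>
    round_col hL hn h0 (l := fun q => lam q y) hm (lt_of_lt_of_le (by norm_num) (hlow y hy))
      (fun a ha => (hrq a ha).2.2 y) (hbal y) fun q => hw q y
  have e3 := hL.pairs hn h0 cf
  have e4 := hL.mean ct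
  have e5 : ((Q0.filter fun q => ∑ y, lam q y = 1).card : ℝ) * (5300 * s / m + 27 / n) ≤
      Q0.card * (5300 * s / m + 27 / n) :=
    mul_le_mul_of_nonneg_right (by exact_mod_cast card_filter_le _ _) (by positivity)
  obtain ⟨o, ho⟩ := round_exists (f := fun o => ∑ a ∈ sel o, ct a -
      ∑ q ∈ Q0.filter fun q => ∑ y, lam q y = 1, max 0 (1 - ∑ a ∈ sel o, ∑ y ∈ sp a, w q y) -
      ∑ y ∈ Y0, max 0 (∑ a ∈ sel o, ∑ q ∈ rq a, w q y - 1) -
      (((sel o ×ˢ sel o).filter fun q => q.1 ≠ q.2 ∧ cf q.1 q.2).card : ℝ)) hL.p0 hL.p1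
    (T := ∑ a, x a / n * ct a - (Q0.card * (5300 * s / m + 27 / n) + Y0.card * (7700 / m + 38 / n) +
      2 / (n : ℝ) ^ 2 * ∑ a, ∑ b, if cf a b then x a * x b else 0)) (by
      simp only [mul_sub, sum_sub_distrib]
      linarith)
  obtain ⟨srv, s1, φ, s2, s3, s4⟩ := defect_hall ((sel o).biUnion rq) ((sel o).biUnion sp) w
    fun q y => (hw q y).1
  refine ⟨sel o, srv, φ, hL.pos o, hL.mt o, s1, s2,
    fun q hq => ⟨fun h => (s3 q hq).2 (hw0 _ _ h), (s3 q hq).1⟩, ho.trans ?_⟩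
  have r1 : ∑ q ∈ (sel o).biUnion rq, max 0 (1 - ∑ y ∈ (sel o).biUnion sp, w q y) ≤
      ∑ q ∈ Q0.filter fun q => ∑ y, lam q y = 1, max 0 (1 - ∑ a ∈ sel o, ∑ y ∈ sp a, w q y) := by
    have hd : (sel o : Set A).PairwiseDisjoint sp := fun a ha b hb hab =>
      hdj a b (hL.mt o a ha b hb hab).1 (hL.mt o a ha b hb hab).2
    simp only [sum_biUnion hd]
    refine sum_le_sum_of_subset_of_nonneg (fun q hq => ?_) fun _ _ _ => le_max_left _ _
    obtain ⟨a, ha, hq⟩ := mem_biUnion.1 hq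
    exact mem_filter.2 ⟨(hrq a (hL.pos o a ha)).1 hq, (hrq a (hL.pos o a ha)).2.1 q hq⟩
  have r2 : ∑ y ∈ (sel o).biUnion sp, max 0 (∑ q ∈ (sel o).biUnion rq, w q y - 1) ≤
      ∑ y ∈ Y0, max 0 (∑ a ∈ sel o, ∑ q ∈ rq a, w q y - 1) := by
    refine le_trans ?_ (sum_le_sum fun y _ =>
      max_le_max le_rfl (sub_le_sub_right (round_biUnion _ rq fun q => (hw q y).1) _))
    refine (sum_le_sum_of_subset_of_nonneg (subset_univ _) fun _ _ _ => le_max_left _ _).trans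
      (sum_subset (subset_univ Y0) fun y _ hY => ?_).ge
    rw [sum_eq_zero fun q _ => hw0 q y (by_contra fun h => hY ((hl q y).2.2 h))]
    norm_num
  linarith

end Pool.Agent.P.MP_a374b6_co.H
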