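import Pool.Agent.P.MP_a374b6_co.H.Eq
import Pool.Agent.P.MP_a374b6_co.H.Asm
import Pool.Agent.P.MP_a374b6_co.H.Round
import Pool.Agent.P.MP_a374b6_co.H.Lam
import Pool.Agent.P.MP_a374b6_co.H.Cf

/-! The theorem on few types. -/

namespace Pool.Agent.P.MP_a374b6_co.H

open Finset

theorem thmC {W : Type} [Fintype W] [DecidableEq W] {n : ℕ} {r : W → W → Prop}
    {C : Bool × Fin n → Finset W} (hS : Sy r C) {G s m : ℕ} (hG : Few r C G)
    (hs : ∀ O, (C O).card ≤ s) (hG1 : 1 ≤ G) (hs1 : 1 ≤ s) (hm : 10 ^ 7 * G * s ≤ m)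
    (hn : 8000 * m ^ 2 * G ^ 2 ≤ n) : Win r C (n / 50) := by
  classical
  have hm0 : 0 < m := lt_of_lt_of_le (by positivity) hm
  have hmG : 1 ≤ m * G := Nat.mul_pos hm0 hG1
  have hn1 : 8000 * (m * G) ^ 2 ≤ n := by rw [mul_pow, ← mul_assoc]; exact hn
  have hn2 : 4 * (m * G + 1) ≤ n := by nlinarith
  have hn3 : 2 ≤ n := by omega
  obtain ⟨w0, -⟩ := hS.ne (true, ⟨0, by omega⟩)
  have : Nonempty W := ⟨w0⟩
  have hmr : (0 : ℝ) < m := by exact_mod_cast hm0
  have hnr : (0 : ℝ) < n := by exact_mod_cast (by omega : 0 < n)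
  obtain ⟨p, x, hE⟩ := exists_equi hS hm0 hG hn2
  have hV : ∀ a, 0 < x a → Valid r C m a := fun a ha => (valid_of_mar (hE.pos a ha)).1
  obtain ⟨lam, l1, l2, l3⟩ := exists_lam x hE.x0 req (dem m) (fun q => cand r C q.1 q.2) hmr
    fun a ha => ⟨((hV a ha).dem_facts hm0).1, ((hV a ha).dem_facts hm0).2.1,
      ((hV a ha).dem_facts hm0).2.2.1⟩
  set Q0 : Finset ((Bool × Fin n) × Finset W) :=
    univ.biUnion fun O => ((oth C O).image (typ r C O)).image fun τ => (O, τ) with hQ0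
  have hQc : Q0.card ≤ 2 * n * G :=
    (card_biUnion_le_card_mul _ _ G fun O _ => card_image_le.trans (hG O)).trans (by simp)
  have hYc : (univ.biUnion C).card ≤ 2 * n * s :=
    (card_biUnion_le_card_mul _ _ s fun O _ => hs O).trans (by simp)
  have hdiv : ∀ f : Atom n W → ℝ, ∑ a, x a / n * f a = (∑ a, x a * f a) / n := fun f => by
    rw [sum_div]
    exact sum_congr rfl fun a _ => by ring
  obtain ⟨sl, srv, φ, r1, r2, r3, r4, r5, r6⟩ := round1 hn3 (fun a : Atom n W => a.1) x hE.x0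
    hE.x1 (spl C) req lam cnt (Conf r C m (pg p)) Q0 (univ.biUnion C) hmr (s := s)
    (Nat.cast_nonneg _)
    (fun a => by
      have : (spl C a).card ≤ (C (sd a.1 true)).card + (C (sd a.1 false)).card :=
        (card_le_card (sdiff_subset : spl C a ⊆ SS C a.1)).trans (card_union_le _ _)
      have h1 := hs (sd a.1 true)
      have h2 := hs (sd a.1 false)
      exact_mod_cast (by omega : (spl C a).card ≤ 2 * s))
    (fun a b h1 h2 => (SS_disj hS h1 h2).mono sdiff_subset sdiff_subset)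
    (fun q y => ⟨(l1 q y).1, (l1 q y).2.1, fun hne => by
      obtain ⟨F, -, hF⟩ := mem_oth.1 (mem_cand.1 ((l1 q y).2.2 hne)).1
      exact mem_biUnion.2 ⟨F, mem_univ _, hF⟩⟩)
    (fun a ha => ⟨fun q hq => mem_biUnion.2 ⟨q.1, mem_univ _, mem_image.2
      ⟨q.2, ((hV a ha).dem_facts hm0).2.2.2 q hq, rfl⟩⟩, l2 a ha⟩) hE.low
    (fun y => by
      have := hE.bal y
      rw [hdiv, ← l3 y, ← hdiv] at this
      exact this)
  obtain ⟨F, f1, f2, f3⟩ := assemble hS hm0 hE.p0 sl srv φ (fun a ha => hE.pos a (r1 a ha)) r2 r3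
    r4 fun q hq => ⟨(l1 q _).2.2 (r5 q hq).1, (r5 q hq).2⟩
  refine ⟨F, univ, f1, f2, ?_⟩
  have c1 := conf_le hS hG hE
  have c2 := hE.tot
  have hG' : (1 : ℝ) ≤ G := by exact_mod_cast hG1
  have hs' : (1 : ℝ) ≤ s := by exact_mod_cast hs1
  have hm' : (10 : ℝ) ^ 7 * G * s ≤ m := by exact_mod_cast hm
  have hn' : 8000 * ((m : ℝ) * G) ^ 2 ≤ n := by exact_mod_cast hn1
  have hQ' : (Q0.card : ℝ) ≤ 2 * n * G := by exact_mod_cast hQc
  have hY' : ((univ.biUnion C).card : ℝ) ≤ 2 * n * s := by exact_mod_cast hYc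
  have hGs : (G : ℝ) * s / m ≤ 1 / 10 ^ 7 := by
    rw [div_le_div_iff₀ hmr (by positivity)]
    linarith
  have hsm : (s : ℝ) / m ≤ G * s / m := div_le_div_of_nonneg_right (by nlinarith) hmr.le
  have hbig : (10 : ℝ) ^ 7 * (G * s) ≤ n := by
    have b1 : (1 : ℝ) ≤ m * G := by exact_mod_cast hmG
    have b2 : (m : ℝ) ≤ m * G := le_mul_of_one_le_right hmr.le hG'
    have b3 : (m : ℝ) * G ≤ (m * G) ^ 2 := le_self_pow₀ b1 two_ne_zero
    linarith
  have e1 : (Q0.card : ℝ) * (5300 * s / m + 27 / n) ≤ 10600 * n * (G * s / m) + 54 * G :=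
    (mul_le_mul_of_nonneg_right hQ' (by positivity)).trans (le_of_eq (by field_simp; ring))
  have e2 : ((univ.biUnion C).card : ℝ) * (7700 / m + 38 / n) ≤ 15400 * n * (s / m) + 76 * s :=
    (mul_le_mul_of_nonneg_right hY' (by positivity)).trans (le_of_eq (by field_simp; ring))
  have e3 := (mul_le_mul_of_nonneg_left c1 (by positivity : (0 : ℝ) ≤ 2 / (n : ℝ) ^ 2)).trans
    (le_of_eq (by field_simp; ring : _ = 8 * ((m : ℝ) * G) ^ 2))
  have e4 := mul_le_mul_of_nonneg_left hGs hnr.le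
  have e5 := mul_le_mul_of_nonneg_left (hsm.trans hGs) hnr.le
  have e6 : (G : ℝ) ≤ G * s := by nlinarith
  have e7 : (s : ℝ) ≤ G * s := by nlinarith
  rw [card_univ, Fintype.card_prod, Fintype.card_bool, Fintype.card_fin]
  push_cast
  linarith

end Pool.Agent.P.MP_a374b6_co.H
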