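import Pool.Agent.P.MP_a374b6_co.H.Mc
import Pool.Agent.P.MP_a374b6_co.H.Glue
import Pool.Agent.P.MP_a374b6_co.H.Deg
import Pool.Agent.P.MP_a374b6_co.H.Tc
import Pool.Agent.P.MP_a374b6_co.H.Ta

/-! The trichotomy. -/

namespace Pool.Agent.P.MP_a374b6_co.H

open Finset

theorem win_all : ∃ (δ : ℝ) (t0 : ℕ), 0 < δ ∧
    ∀ (W ι : Type) [Fintype W] [DecidableEq W] [Fintype ι] [DecidableEq ι]
      (r : W → W → Prop) (C : ι → Finset W), Sy r C → t0 ≤ Fintype.card ι →
      Win r C (δ * Fintype.card ι) := by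
  classical
  obtain ⟨δ, K, r0, h0, h1, hK, hA⟩ := thmA
  set K' : ℝ := max 1 (8 * K / δ) with hK'
  have hK1 : 1 ≤ K' := le_max_left _ _
  have hlog : 0 < Real.log (20 * K') := Real.log_pos (by linarith)
  set c : ℝ := min (1 / (20 * Real.log (20 * K'))) K with hc
  have hc0 : 0 < c := lt_min (by positivity) hK
  have hc1 : c * Real.log (20 * K') ≤ 1 / 20 := by
    refine (mul_le_mul_of_nonneg_right (min_le_left _ _) hlog.le).trans (le_of_eq ?_)
    field_simp
  obtain ⟨tA, hAA⟩ := caseA h0 h1 hK hA (le_max_right 1 (8 * K / δ))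
  obtain ⟨tB, hBB⟩ := caseB h0 hK hA hc0 (min_le_right _ _)
  obtain ⟨tC, hCC⟩ := caseC hK1 hc0 hc1
  refine ⟨min (δ / 8) (min (δ * c / (16 * K)) (1 / 500)), max tA (max tB tC), by positivity,
    fun W ι _ _ _ _ r C hS ht => ?_⟩
  have ht0 : (0 : ℝ) ≤ Fintype.card ι := Nat.cast_nonneg _
  set B := univ.filter fun i => K' * Real.log (Fintype.card ι) ≤ (C i).card with hB
  by_cases hb : δ / 4 * Fintype.card ι ≤ B.card
  · exact (hAA W ι r C B hS ((le_max_left _ _).trans ht) hb fun i hi => (mem_filter.1 hi).2).mono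
      (mul_le_mul_of_nonneg_right (min_le_left _ _) ht0)
  rcases mat_or_cover (fun a b => ∃ Y, (Y ⊆ C a ∨ Y ⊆ C b) ∧
      c * Real.log (Fintype.card ι) ≤ Y.card ∧ Cn r ((C a ∪ C b) \ Y)) Bᶜ
      ((Fintype.card ι : ℝ) / 8) with ⟨M, hM, hP, hm⟩ | ⟨Ex, hE, hP⟩
  · exact (hBB W ι r C M hS (((le_max_left _ _).trans (le_max_right _ _)).trans ht)
      (hM.mono Subset.rfl (subset_univ _)) hm hP).mono
      (mul_le_mul_of_nonneg_right ((min_le_right _ _).trans (min_le_left _ _)) ht0)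
  · refine (hCC W ι r C (Bᶜ \ Ex) hS (((le_max_right _ _).trans (le_max_right _ _)).trans ht)
      ?_ (fun i hi => ?_) fun i hi j hj hij Y hY hl hcn => ?_).mono ?_
    · have e1 : B.card + Bᶜ.card = Fintype.card ι := card_add_card_compl B
      have e2 := le_card_sdiff Ex Bᶜ
      have e3 : Fintype.card ι ≤ B.card + Ex.card + (Bᶜ \ Ex).card := by omega
      have e4 : (Fintype.card ι : ℝ) ≤ B.card + Ex.card + (Bᶜ \ Ex).card := by exact_mod_cast e3
      have e5 := mul_le_mul_of_nonneg_right h1 ht0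
      linarith
    · have := mem_compl.1 (mem_sdiff.1 hi).1
      rw [hB, mem_filter] at this
      exact (not_le.1 fun h => this ⟨mem_univ _, h⟩).le
    · exact hP i (mem_sdiff.1 hi).1 j (mem_sdiff.1 hj).1 (mem_sdiff.1 hi).2 (mem_sdiff.1 hj).2 hij
        ⟨Y, Or.inr hY, hl, hcn⟩
    · have := mul_le_mul_of_nonneg_right ((min_le_right (δ / 8) _).trans
        (min_le_right (δ * c / (16 * K)) (1 / 500))) ht0
      linarith

theorem minor_all : ∃ c : ℝ, 1 / 2 < c ∧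
    ∀ (W ι : Type) [Fintype W] [DecidableEq W] [Fintype ι] [DecidableEq ι]
      (r : W → W → Prop) (C : ι → Finset W), Sy r C →
      ∃ F : Finset (Finset W), Fam r F ∧ ⌊c * Fintype.card ι⌋₊ ≤ F.card := by
  obtain ⟨δ, t0, h0, h⟩ := win_all
  set t1 : ℕ := max t0 ⌈2 / δ⌉₊ + 1 with ht1
  have h1 : (0 : ℝ) < t1 := by positivity
  have h2 : 0 < min (δ / 4) (1 / (2 * t1)) := lt_min (by positivity) (by positivity)
  refine ⟨1 / 2 + min (δ / 4) (1 / (2 * t1)), by linarith, fun W ι _ _ _ _ r C hS => ?_⟩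
  have ht0 : (0 : ℝ) ≤ Fintype.card ι := Nat.cast_nonneg _
  by_cases ht : t1 ≤ Fintype.card ι
  · obtain ⟨F, hF, hc⟩ := (h W ι r C hS (by omega)).fin hS
    refine ⟨F, hF, Nat.floor_le_of_le ?_⟩
    have e1 : 2 / δ ≤ Fintype.card ι :=
      (Nat.le_ceil _).trans (by exact_mod_cast (by omega : ⌈2 / δ⌉₊ ≤ Fintype.card ι))
    rw [div_le_iff₀ h0] at e1
    have e2 := mul_le_mul_of_nonneg_right (min_le_left (δ / 4) (1 / (2 * t1))) ht0
    linarith
  · have hw : Win r C 0 := ⟨∅, ∅, by simp [Fam], by simp, by simp⟩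
    obtain ⟨F, hF, hc⟩ := hw.fin hS
    refine ⟨F, hF, Nat.lt_succ_iff.1 ((Nat.floor_lt (by positivity)).2 ?_)⟩
    have e1 : (Fintype.card ι : ℝ) < t1 := by exact_mod_cast not_le.1 ht
    have e2 := mul_le_mul_of_nonneg_right (min_le_right (δ / 4) (1 / (2 * t1))) ht0
    have e3 : 1 / (2 * (t1 : ℝ)) * Fintype.card ι < 1 / 2 := by
      rw [div_mul_eq_mul_div, div_lt_div_iff₀ (by positivity) (by norm_num)]
      linarith
    push_cast
    linarith

end Pool.Agent.P.MP_a374b6_co.H
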