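import Pool.Agent.P.MP_a374b6_co.H.Gb

/-! The calculus of weights and coverage. -/

namespace Pool.Agent.P.MP_a374b6_co.H

open Finset

section

variable {β : Type} [DecidableEq β] {g : β → ℝ}

theorem ms_nonneg (h : ∀ a, 0 ≤ g a) (T : Finset β) : 0 ≤ ms g T := by
  exact sum_nonneg fun a _ => h a

theorem ms_mono (h : ∀ a, 0 ≤ g a) {S T : Finset β} (hST : S ⊆ T) : ms g S ≤ ms g T := by
  exact sum_le_sum_of_subset_of_nonneg hST fun a _ _ => h a

theorem ms_empty : ms g ∅ = 0 := by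
  simp [ms]

theorem ms_union_add_inter (S T : Finset β) : ms g (S ∪ T) + ms g (S ∩ T) = ms g S + ms g T := by
  exact sum_union_inter

theorem ms_union_le (h : ∀ a, 0 ≤ g a) (S T : Finset β) : ms g (S ∪ T) ≤ ms g S + ms g T := by
  have h1 := ms_union_add_inter (g := g) S T
  have h2 := ms_nonneg h (S ∩ T)
  linarith

theorem ms_union_of_disj {S T : Finset β} (h : Disjoint S T) :
    ms g (S ∪ T) = ms g S + ms g T := by
  exact sum_union h

theorem ms_inter_add_sdiff (S T : Finset β) : ms g (S ∩ T) + ms g (S \ T) = ms g S := by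
  exact sum_inter_add_sum_sdiff S T g

theorem ms_le_of_sub_union (h : ∀ a, 0 ≤ g a) {S T U : Finset β} (hS : S ⊆ T ∪ U) :
    ms g S ≤ ms g T + ms g U := by
  exact (ms_mono h hS).trans (ms_union_le h T U)

theorem ms_le_mul {g' : β → ℝ} {B : ℝ} (h : ∀ a, g' a ≤ B * g a) (T : Finset β) :
    ms g' T ≤ B * ms g T := by
  unfold ms
  rw [mul_sum]
  exact sum_le_sum fun a _ => h a

theorem sub_ms (h : ∀ a, 0 ≤ g a) : Sub (ms g) := by
  exact ⟨ms_empty, fun _ _ hAB => ms_mono h hAB, ms_union_le h⟩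

end

variable {W ι α : Type} [DecidableEq W] [DecidableEq ι] [Fintype α] [DecidableEq α]
  {r : W → W → Prop} {nb : W → Finset α} {C : ι → Finset W} {R : Finset ι} {μ : α → ℝ}

theorem Prob.ms_univ (h : Prob μ) : ms μ univ = 1 := by
  exact h.2

theorem Prob.le_one (h : Prob μ) (T : Finset α) : ms μ T ≤ 1 := by
  exact (ms_mono h.1 (subset_univ T)).trans h.ms_univ.le

theorem Prob.compl (h : Prob μ) (T : Finset α) : ms μ Tᶜ = 1 - ms μ T := by
  have h1 := ms_union_of_disj (g := μ) (disjoint_compl_right (a := T))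
  rw [union_compl, h.ms_univ] at h1
  linarith

theorem Prob.inter_ge (h : Prob μ) (S T : Finset α) : ms μ S + ms μ T - 1 ≤ ms μ (S ∩ T) := by
  have h1 := ms_union_add_inter (g := μ) S T
  have h2 := h.le_one (S ∪ T)
  linarith

theorem Prob.inter_eq (h : Prob μ) {S T : Finset α} (hu : S ∪ T = univ) :
    ms μ (S ∩ T) = ms μ S + ms μ T - 1 := by
  have h1 := ms_union_add_inter (g := μ) S T
  rw [hu, h.ms_univ] at h1
  linarith

theorem Prob.mix_prob (h : Prob μ) {U : Finset α} (hU : 0 < ms μ U) {γ : ℝ} (h0 : 0 ≤ γ)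
    (h1 : γ ≤ 1) : Prob (mix μ U γ) := by
  refine ⟨fun a => ?_, ?_⟩
  · have := h.1 a
    unfold mix
    refine add_nonneg (mul_nonneg (by linarith) this) (mul_nonneg h0 ?_)
    split_ifs
    · exact div_nonneg this hU.le
    · exact le_rfl
  · unfold mix
    rw [sum_add_distrib, ← mul_sum, ← mul_sum, h.2, ← sum_filter, filter_mem_eq_inter,
      univ_inter, ← sum_div]
    have : (∑ a ∈ U, μ a) / ms μ U = 1 := div_self hU.ne'
    rw [this]
    ring

theorem ms_mix (U T : Finset α) (γ : ℝ) :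
    ms (mix μ U γ) T = (1 - γ) * ms μ T + γ * (ms μ (T ∩ U) / ms μ U) := by
  unfold mix
  conv_lhs => unfold ms
  rw [sum_add_distrib, ← mul_sum, ← mul_sum, ← sum_filter, filter_mem_eq_inter, ← sum_div]
  rfl

theorem mix_le (h : Prob μ) {U : Finset α} {γ y : ℝ} (h0 : 0 ≤ γ) (hy : 0 < y)
    (hU : y ≤ ms μ U) (a : α) : mix μ U γ a ≤ (1 - γ + γ / y) * μ a := by
  have h1 := h.1 a
  have h2 : (if a ∈ U then μ a / ms μ U else 0) ≤ μ a / y := by
    split_ifs
    · exact div_le_div_of_nonneg_left h1 hy hU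
    · exact div_nonneg h1 hy.le
  have h3 := mul_le_mul_of_nonneg_left h2 h0
  have h4 : (1 - γ + γ / y) * μ a = (1 - γ) * μ a + γ * (μ a / y) := by ring
  unfold mix
  linarith

theorem mem_cov {S : Finset W} {a : α} : a ∈ cov nb S ↔ ∃ x ∈ S, a ∈ nb x := by
  simp [cov]

theorem cov_mono {S T : Finset W} (h : S ⊆ T) : cov nb S ⊆ cov nb T := by
  exact biUnion_subset_biUnion_of_subset_left _ h

theorem cov_union (S T : Finset W) : cov nb (S ∪ T) = cov nb S ∪ cov nb T := by
  exact union_biUnion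

theorem cov_empty : cov nb (∅ : Finset W) = ∅ := by
  simp [cov]

theorem mem_cov_un {L : Finset (Finset W)} {a : α} :
    a ∈ cov nb (un L) ↔ ∃ K ∈ L, a ∈ cov nb K := by
  simp only [mem_cov, mem_un]
  constructor
  · rintro ⟨x, ⟨K, hK, hx⟩, ha⟩
    exact ⟨K, hK, x, hx, ha⟩
  · rintro ⟨K, hK, x, hx, ha⟩
    exact ⟨x, ⟨K, hK, hx⟩, ha⟩

theorem fv_mono (h : Prob μ) {S T : Finset W} (hST : S ⊆ T) : fv nb μ S ≤ fv nb μ T := by
  exact ms_mono h.1 (cov_mono hST)

theorem fv_union_le (h : Prob μ) (S T : Finset W) :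
    fv nb μ (S ∪ T) ≤ fv nb μ S + fv nb μ T := by
  unfold fv
  rw [cov_union]
  exact ms_union_le h.1 _ _

/-- Coverage inside a fixed set is monotone and subadditive on families. -/
theorem sub_cov_un (h : Prob μ) (T : Finset α) :
    Sub fun M : Finset (Finset W) => ms μ (cov nb (un M) ∩ T) := by
  refine ⟨?_, fun A B hAB => ?_, fun A B => ?_⟩
  · simp only [un_empty, cov_empty, empty_inter, ms_empty]
  · exact ms_mono h.1 (inter_subset_inter_right (cov_mono (un_mono hAB)))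
  · simp only [un_union, cov_union, union_inter_distrib_right]
    exact ms_union_le h.1 _ _

theorem Ctx.cov_eq (h : Ctx r nb C R μ) {i : ι} (hi : i ∈ R) {S : Finset W} (hS : C i ⊆ S) :
    cov nb S = univ := by
  exact univ_subset_iff.1 (h.cv i hi ▸ cov_mono hS)

/-- A set containing a class is seen from `X` or from the rest. -/
theorem Ctx.cov_split (h : Ctx r nb C R μ) {i : ι} (hi : i ∈ R) {S : Finset W} (hS : C i ⊆ S)
    (X : Finset W) : cov nb X ∪ cov nb (S \ X) = univ := by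
  rw [← cov_union]
  refine h.cov_eq hi (hS.trans fun x hx => ?_)
  by_cases hX : x ∈ X
  · exact mem_union_left _ hX
  · exact mem_union_right _ (mem_sdiff.2 ⟨hx, hX⟩)

theorem Ctx.one_le (h : Ctx r nb C R μ) {i : ι} (hi : i ∈ R) {S : Finset W} (hS : C i ⊆ S)
    (X : Finset W) : 1 ≤ fv nb μ X + fv nb μ (S \ X) := by
  have h1 := ms_union_le h.pb.1 (cov nb X) (cov nb (S \ X))
  rw [h.cov_split hi hS X, h.pb.ms_univ] at h1
  exact h1

theorem Ctx.mono (h : Ctx r nb C R μ) {R' : Finset ι} (hR : R' ⊆ R) : Ctx r nb C R' μ := by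
  exact ⟨h.sy, fun i hi => h.cv i (hR hi), h.pb⟩

theorem Ctx.change (h : Ctx r nb C R μ) {ν : α → ℝ} (hν : Prob ν) : Ctx r nb C R ν := by
  exact ⟨h.sy, h.cv, hν⟩

end Pool.Agent.P.MP_a374b6_co.H
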