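import Pool.Agent.P.MP_a374b6_co.H.Glue1
import Pool.Agent.P.MP_a374b6_co.H.Deg
import Pool.Agent.P.MP_a374b6_co.H.Tc

/-! The case of small classes without droppable sets. -/

namespace Pool.Agent.P.MP_a374b6_co.H

open Finset

theorem caseC_num {K' c : ℝ} (hK : 1 ≤ K') (hc : 0 < c) (hcK : c * Real.log (20 * K') ≤ 1 / 20) :
    ∃ t0 : ℕ, ∀ t ≥ t0, ∀ G s : ℕ, (s : ℝ) ≤ K' * Real.log t →
      (G : ℝ) ≤ (1 + 1 / (20 * K')) ^ s / (1 / (20 * K')) ^ (2 * ⌈c * Real.log t⌉₊) →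
      8000 * (10 ^ 7 * G * s) ^ 2 * G ^ 2 ≤ t / 8 := by
  obtain ⟨k, hk⟩ : ∃ k : ℝ, k = 20 * K' := ⟨_, rfl⟩
  have hk1 : 1 ≤ k := by linarith
  have hk0 : 0 < k := by linarith
  obtain ⟨A, hA⟩ : ∃ A : ℝ, A = 64000 * 10 ^ 14 * k ^ 10 := ⟨_, rfl⟩
  have hA1 : 1 ≤ A := by
    have := one_le_pow₀ (n := 10) hk1
    rw [hA]
    nlinarith
  refine ⟨⌈A ^ 20⌉₊, fun t ht G s hs hG => ?_⟩
  rw [← hk] at hG hcK
  have ht1 : A ^ 20 ≤ t := Nat.ceil_le.1 ht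
  have ht2 : (1 : ℝ) ≤ t := (one_le_pow₀ hA1).trans ht1
  have hl : 0 ≤ Real.log t := Real.log_nonneg ht2
  obtain ⟨u, hu⟩ : ∃ u : ℝ, u = Real.exp (Real.log t / 20) := ⟨_, rfl⟩
  have hu0 : 0 < u := by rw [hu]; exact Real.exp_pos _
  have hu20 : u ^ 20 = t := by
    rw [hu, ← Real.exp_nat_mul]
    rw [show ((20 : ℕ) : ℝ) * (Real.log t / 20) = Real.log t by push_cast; ring]
    exact Real.exp_log (by linarith)
  have hAu : A ≤ u := le_of_pow_le_pow_left₀ (by norm_num) hu0.le (hu20 ▸ ht1)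
  have hlu : Real.log t / 20 ≤ u := by
    have := Real.add_one_le_exp (Real.log t / 20)
    linarith
  have hs' : (s : ℝ) ≤ k * u := by
    have : K' * Real.log t ≤ K' * (20 * u) := mul_le_mul_of_nonneg_left (by linarith) (by linarith)
    rw [hk]
    linarith
  have e1 : (1 + 1 / k) ^ s ≤ u := by
    have h1 : (1 + 1 / k) ^ s ≤ Real.exp (1 / k) ^ s :=
      pow_le_pow_left₀ (by positivity) (by linarith [Real.add_one_le_exp (1 / k)]) s
    rw [← Real.exp_nat_mul] at h1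
    refine h1.trans ?_
    rw [hu]
    refine Real.exp_le_exp.2 ?_
    rw [mul_one_div, div_le_iff₀ hk0, hk]
    linarith
  have e2 : k ^ (2 * ⌈c * Real.log t⌉₊) ≤ k ^ 2 * u ^ 2 := by
    have hlk : 0 ≤ Real.log k := Real.log_nonneg hk1
    have h1 : (⌈c * Real.log t⌉₊ : ℝ) ≤ c * Real.log t + 1 :=
      (Nat.ceil_lt_add_one (by positivity)).le
    have h2 : k ^ (2 * ⌈c * Real.log t⌉₊) =
        Real.exp (((2 * ⌈c * Real.log t⌉₊ : ℕ) : ℝ) * Real.log k) := by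
      rw [Real.exp_nat_mul, Real.exp_log hk0]
    have h3 : k ^ 2 * u ^ 2 = Real.exp (((2 : ℕ) : ℝ) * Real.log k +
        ((2 : ℕ) : ℝ) * (Real.log t / 20)) := by
      rw [Real.exp_add, Real.exp_nat_mul, Real.exp_nat_mul, Real.exp_log hk0, hu]
    rw [h2, h3]
    refine Real.exp_le_exp.2 ?_
    push_cast
    have h4 := mul_le_mul_of_nonneg_right h1 hlk
    have h5 := mul_le_mul_of_nonneg_left hcK hl
    nlinarith
  have hG' : (G : ℝ) ≤ k ^ 2 * u ^ 3 := by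
    rw [one_div k, inv_pow, div_inv_eq_mul, ← one_div k] at hG
    calc (G : ℝ) ≤ _ := hG
      _ ≤ u * (k ^ 2 * u ^ 2) := mul_le_mul e1 e2 (by positivity) hu0.le
      _ = _ := by ring
  rw [Nat.le_div_iff_mul_le (by norm_num)]
  have key : ((8000 * (10 ^ 7 * G * s) ^ 2 * G ^ 2 * 8 : ℕ) : ℝ) ≤ t := by
    push_cast
    have h1 : (G : ℝ) ^ 4 ≤ (k ^ 2 * u ^ 3) ^ 4 := pow_le_pow_left₀ (by positivity) hG' 4
    have h2 : (s : ℝ) ^ 2 ≤ (k * u) ^ 2 := pow_le_pow_left₀ (by positivity) hs' 2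
    have h3 : A ≤ u ^ 6 := hAu.trans (le_self_pow₀ (hA1.trans hAu) (by norm_num))
    calc (8000 * (10000000 * (G : ℝ) * s) ^ 2 * G ^ 2 * 8)
        = 64000 * 10 ^ 14 * ((G : ℝ) ^ 4 * s ^ 2) := by ring
      _ ≤ 64000 * 10 ^ 14 * ((k ^ 2 * u ^ 3) ^ 4 * (k * u) ^ 2) := by gcongr
      _ = A * u ^ 14 := by rw [hA]; ring
      _ ≤ u ^ 6 * u ^ 14 := by gcongr
      _ = t := by rw [← hu20]; ring
  exact_mod_cast key

theorem caseC {K' c : ℝ} (hK : 1 ≤ K') (hc : 0 < c) (hcK : c * Real.log (20 * K') ≤ 1 / 20) :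
    ∃ t0 : ℕ, ∀ (W ι : Type) [Fintype W] [DecidableEq W] [Fintype ι] [DecidableEq ι]
      (r : W → W → Prop) (C : ι → Finset W) (R : Finset ι), Sy r C → t0 ≤ Fintype.card ι →
      (Fintype.card ι : ℝ) / 4 ≤ R.card →
      (∀ i ∈ R, ((C i).card : ℝ) ≤ K' * Real.log (Fintype.card ι)) →
      (∀ i ∈ R, ∀ j ∈ R, i ≠ j → ∀ Y ⊆ C j, c * Real.log (Fintype.card ι) ≤ Y.card →
        ¬ Cn r ((C i ∪ C j) \ Y)) →
      Win r C (Fintype.card ι / 500) := by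
  obtain ⟨t0, ht0⟩ := caseC_num hK hc hcK
  refine ⟨max t0 40, fun W ι _ _ _ _ r C R hS ht hR hsm hnd => ?_⟩
  obtain ⟨t, htd⟩ : ∃ t, t = Fintype.card ι := ⟨_, rfl⟩
  rw [← htd] at ht hR hsm hnd ⊢
  have h40 : 40 ≤ t := (le_max_right _ _).trans ht
  have hR' : t ≤ 4 * R.card := by
    have : (t : ℝ) ≤ 4 * R.card := by linarith
    exact_mod_cast this
  obtain ⟨f, hf⟩ := Function.Embedding.exists_of_card_le_finset (α := Bool × Fin (t / 8)) (s := R)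
    (by rw [Fintype.card_prod, Fintype.card_bool, Fintype.card_fin]; omega)
  have hfR : ∀ O, f O ∈ R := fun O => mem_coe.1 (hf ⟨O, rfl⟩)
  have hS' : Sy r (C ∘ f) := hS.comp f.injective
  have hx0 : 0 < 1 / (20 * K') := by positivity
  have hx1 : 1 / (20 * K') ≤ 1 := by
    rw [div_le_one (by positivity)]
    linarith
  have hs : ∀ O, ((C ∘ f) O).card ≤ ⌊K' * Real.log t⌋₊ := fun O => Nat.le_floor (hsm _ (hfR O))
  have hfew := few_of_no_drop hS' (L := ⌈c * Real.log t⌉₊) hs (fun i j hij Y hY hL =>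
    hnd _ (hfR i) _ (hfR j) (f.injective.ne hij) Y hY (Nat.ceil_le.1 hL)) hx0 hx1
  have hl : 0 ≤ Real.log t := Real.log_natCast_nonneg t
  have hs1 : 1 ≤ ⌊K' * Real.log t⌋₊ :=
    (card_pos.2 (hS'.ne (true, ⟨0, by omega⟩))).trans_le (hs _)
  have hG1 : (1 : ℝ) ≤ (1 + 1 / (20 * K')) ^ ⌊K' * Real.log t⌋₊ /
      (1 / (20 * K')) ^ (2 * ⌈c * Real.log t⌉₊) := by
    rw [le_div_iff₀ (by positivity), one_mul]
    exact (pow_le_one₀ hx0.le hx1).trans (one_le_pow₀ (by linarith))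
  have hw := thmC hS' hfew hs (Nat.le_floor (by exact_mod_cast hG1)) hs1 le_rfl
    (ht0 t ((le_max_left _ _).trans ht) _ _ (Nat.floor_le (by positivity))
      (Nat.floor_le (by linarith)))
  refine (hw.comp f.injective).mono ?_
  have h1 : t ≤ 10 * (t / 8) := by omega
  have h2 : (t : ℝ) ≤ 10 * ((t / 8 : ℕ) : ℝ) := by exact_mod_cast h1
  linarith

end Pool.Agent.P.MP_a374b6_co.H
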