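import Pool.Agent.P.MP_a374b6_co.H.Mb

/-! Types, offers and their prices. -/

namespace Pool.Agent.P.MP_a374b6_co.H

open Finset

variable {W ι : Type} [Fintype W] [DecidableEq W] [Fintype ι] [DecidableEq ι] {r : W → W → Prop}
  {C : ι → Finset W} {m : ℕ} {O : ι}

theorem mem_oth {y : W} : y ∈ oth C O ↔ ∃ F, F ≠ O ∧ y ∈ C F := by
  simp [oth]

theorem mem_typ {x y : W} : x ∈ typ r C O y ↔ x ∈ C O ∧ r y x := by
  classical
  unfold typ
  convert mem_filter

theorem mem_cand {τ : Finset W} {y : W} : y ∈ cand r C O τ ↔ y ∈ oth C O ∧ typ r C O y = τ := by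
  exact mem_filter

theorem continuous_ms (T : Finset W) : Continuous fun g : W → ℝ => ms g T := by
  exact continuous_finsetSum _ fun a _ => continuous_apply a

theorem continuous_phi (R0 : Finset W) : Continuous (phi r C m O R0) := by
  unfold phi
  refine Continuous.finset_inf'_apply _ fun q _ => ?_
  split_ifs
  · exact continuous_finsetSum _ fun τ _ => (continuous_ms _).div_const _
  · exact continuous_const

theorem phi_nonneg (R0 : Finset W) {g : W → ℝ} (hg : ∀ y, 0 ≤ g y) : 0 ≤ phi r C m O R0 g := by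
  unfold phi
  refine le_inf' _ _ fun q _ => ?_
  split_ifs
  · exact sum_nonneg fun τ _ => div_nonneg (ms_nonneg hg _) (Nat.cast_nonneg _)
  · norm_num

theorem phi_attained {R0 : Finset W} {g : W → ℝ} (h : phi r C m O R0 g < 2) :
    ∃ T L, Lnk (C O) R0 T ∧ Ok r C m O T L ∧ cost m T L g = phi r C m O R0 g := by
  unfold phi at h ⊢
  generalize_proofs hne at h ⊢
  generalize hf : (fun q : Finset (Finset W) × (Finset W → Finset W) => _) = f at h ⊢
  obtain ⟨q, -, hq⟩ := exists_mem_eq_inf' hne f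
  rw [hq] at h ⊢
  rw [← hf] at h ⊢
  simp only at h ⊢
  split_ifs at h ⊢ with c
  · exact ⟨q.1, q.2, c.1, c.2, rfl⟩
  · exact absurd h (lt_irrefl _)

theorem phi_mem_exc {g : W → ℝ} {F : ι} : F ∈ Exc r C m O g ↔ F ≠ O ∧
    ∃ y ∈ C F, ((cand r C O (typ r C O y)).filter fun y' => g y' ≤ g y).card < m := by
  simp [Exc]

omit [Fintype W] [Fintype ι] [DecidableEq W] [DecidableEq ι] in
theorem phi_mem_nbh {F : ι} {J : Finset W} {y : W} :
    y ∈ nbh r C F J ↔ y ∈ C F ∧ ∃ x ∈ J, r y x := by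
  simp [nbh]

theorem phi_le_cost {R0 : Finset W} {T : Finset (Finset W)} {L : Finset W → Finset W}
    (h1 : Lnk (C O) R0 T) (h2 : Ok r C m O T L) (g : W → ℝ) :
    phi r C m O R0 g ≤ cost m T L g := by
  unfold phi
  refine (inf'_le _ (mem_univ (T, L))).trans (le_of_eq ?_)
  exact if_pos ⟨h1, h2⟩

theorem card_exc (hS : Sy r C) {G : ℕ} (hG : Few r C G) (g : W → ℝ) :
    (Exc r C m O g).card ≤ m * G := by
  classical
  obtain ⟨Wi, hW⟩ : ∃ Wi : Finset W, ∀ y, y ∈ Wi ↔ y ∈ oth C O ∧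
      ((cand r C O (typ r C O y)).filter fun y' => g y' ≤ g y).card < m :=
    ⟨(oth C O).filter _, fun y => mem_filter⟩
  have h1 : ∀ F ∈ Exc r C m O g, ∃ y ∈ Wi, y ∈ C F := fun F hF => by
    obtain ⟨k1, y, k2, k3⟩ := phi_mem_exc.1 hF
    exact ⟨y, (hW y).2 ⟨mem_oth.2 ⟨F, k1, k2⟩, k3⟩, k2⟩
  have h2 : (Exc r C m O g).card ≤ Wi.card := by
    choose f hf hf' using h1
    refine card_le_card_of_forall_subsingleton (fun F y => y ∈ C F)
      (fun F hF => ⟨f F hF, hf F hF, hf' F hF⟩) fun y _ F hF F' hF' => ?_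
    exact hS.eq_of_mem hF.2 hF'.2
  have h3 : Wi.card ≤ m * ((oth C O).image (typ r C O)).card := by
    refine card_le_mul_card_image_of_maps_to (f := typ r C O)
      (fun y hy => mem_image_of_mem _ ((hW y).1 hy).1) _ fun τ _ => ?_
    rcases (Wi.filter fun y => typ r C O y = τ).eq_empty_or_nonempty with he | hne
    · rw [he, card_empty]
      exact Nat.zero_le _
    · obtain ⟨y, hy, hmax⟩ := exists_max_image _ g hne
      obtain ⟨k1, k2⟩ := mem_filter.1 hy
      refine le_trans (card_le_card fun y' hy' => ?_) ((hW y).1 k1).2.le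
      obtain ⟨k3, k4⟩ := mem_filter.1 hy'
      exact mem_filter.2 ⟨mem_cand.2 ⟨((hW y').1 k3).1, k4.trans k2.symm⟩, hmax y' hy'⟩
  exact h2.trans (h3.trans (Nat.mul_le_mul_left _ (hG O)))

/-- The neighbours of `J` in a class which is not exceptional bound the price of linking. -/
theorem phi_le (hS : Sy r C) (hm : 0 < m) {g : W → ℝ} (hg : ∀ y, 0 ≤ g y) {F : ι} (hF : F ≠ O)
    (hE : F ∉ Exc r C m O g) {R0 J : Finset W} (h0 : R0 ⊆ C O) (h1 : R0.Nonempty)
    (hJ : C O \ R0 ⊆ J) : phi r C m O R0 g ≤ ms g (nbh r C F J) := by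
  classical
  have k1 : ∀ τ : Finset W, ∃ (L : Finset W) (c : ℝ), ∀ hτ : τ ∈ (nbh r C F J).image (typ r C O),
      (L ⊆ cand r C O τ ∧ L.card = m) ∧ ms g L / m ≤ c ∧
        ∃ y ∈ nbh r C F J, typ r C O y = τ ∧ c = g y := by
    intro τ
    by_cases hτ : τ ∈ (nbh r C F J).image (typ r C O)
    · obtain ⟨y, hy, rfl⟩ := mem_image.1 hτ
      have h3 : m ≤ ((cand r C O (typ r C O y)).filter fun y' => g y' ≤ g y).card := by
        by_contra hn
        exact hE (phi_mem_exc.2 ⟨hF, y, (phi_mem_nbh.1 hy).1, not_le.1 hn⟩)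
      obtain ⟨L, hL, hc⟩ := exists_subset_card_eq h3
      refine ⟨L, g y, fun _ => ⟨⟨hL.trans (filter_subset _ _), hc⟩, ?_, y, hy, rfl, rfl⟩⟩
      rw [div_le_iff₀ (by exact_mod_cast hm), mul_comm, ← hc, ← nsmul_eq_mul]
      exact sum_le_card_nsmul _ _ _ fun y' hy' => (mem_filter.1 (hL hy')).2
    · exact ⟨∅, 0, fun h => absurd h hτ⟩
  choose L c hL using k1
  have k2 : Lnk (C O) R0 ((nbh r C F J).image (typ r C O)) := by
    intro U hU hR hc
    by_contra hne
    have hJ' : C O \ U ⊆ J := (sdiff_subset_sdiff Subset.rfl hR).trans hJ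
    have h3 := (hS.conn O F hF.symm).eq_of_closed (U := C O \ U ∪ nbh r C F (C O \ U))
      (union_subset_union sdiff_subset fun y hy => (phi_mem_nbh.1 hy).1)
      ((sdiff_nonempty.2 fun h => hne (Subset.antisymm hU h)).mono subset_union_left) (by
        intro x hx y hy hr
        rcases mem_union.1 hx with hx | hx <;> rcases mem_union.1 hy with hy | hy
        · exact absurd hr (hS.indep O x (mem_sdiff.1 hx).1 y hy)
        · exact mem_union_right _ (phi_mem_nbh.2 ⟨hy, x, hx, hS.symm _ _ hr⟩)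
        · obtain ⟨g1, x', g2, g3⟩ := phi_mem_nbh.1 hx
          refine mem_union_left _ (mem_sdiff.2 ⟨hy, fun hyU => (mem_sdiff.1 g2).2 ?_⟩)
          exact hc _ (mem_image_of_mem _ (phi_mem_nbh.2 ⟨g1, x', hJ' g2, g3⟩))
            ⟨y, mem_inter.2 ⟨mem_typ.2 ⟨hy, hr⟩, hyU⟩⟩ (mem_typ.2 ⟨(mem_sdiff.1 g2).1, g3⟩)
        · exact absurd hr (hS.indep F x (phi_mem_nbh.1 hx).1 y hy))
    obtain ⟨x, hx⟩ := h1
    have h4 : x ∈ C O \ U ∪ nbh r C F (C O \ U) := by
      rw [h3]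
      exact mem_union_left _ (h0 hx)
    rcases mem_union.1 h4 with h4 | h4
    · exact (mem_sdiff.1 h4).2 (hR hx)
    · exact hF (hS.eq_of_mem (phi_mem_nbh.1 h4).1 (h0 hx))
  refine (phi_le_cost k2 (fun τ hτ => (hL τ hτ).1) g).trans ?_
  unfold cost ms
  rw [← sum_fiberwise_of_maps_to (s := nbh r C F J) (t := (nbh r C F J).image (typ r C O))
    (g := typ r C O) fun y hy => mem_image_of_mem _ hy]
  refine sum_le_sum fun τ hτ => ?_
  obtain ⟨-, h3, y, hy, h4, h5⟩ := hL τ hτ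
  refine h3.trans (h5.le.trans ?_)
  exact single_le_sum (f := g) (fun y _ => hg y) (mem_filter.2 ⟨hy, h4⟩)

theorem own_of_lnk (hS : Sy r C) {K Z : Finset W} {T : Finset (Finset W)} (hK : Cn r K)
    (h1 : Z ⊆ K) (h2 : K ⊆ C O ∪ Z) (h3 : (K ∩ C O).Nonempty) (h4 : Lnk (C O) (K ∩ C O) T) :
    Own r C O Z T := by
  intro Y hY hY'
  obtain ⟨v, hv⟩ := h3
  have hKS : K ⊆ C O ∪ Z ∪ Y := h2.trans subset_union_left
  refine cn_of_closed hS.symm (hKS (mem_inter.1 hv).1) fun U _ hvU hc => ?_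
  have k1 : K ∩ U = K := hK.eq_of_closed inter_subset_left
    ⟨v, mem_inter.2 ⟨(mem_inter.1 hv).1, hvU⟩⟩ fun x hx y hy hr =>
      mem_inter.2 ⟨hy, hc x (mem_inter.1 hx).2 y (hKS hy) hr⟩
  have k2 : K ⊆ U := inter_eq_left.1 k1
  have k3 : U ∩ C O = C O := by
    refine h4 _ inter_subset_right (inter_subset_inter_right k2) fun τ hτ hne => ?_
    obtain ⟨y, hy, rfl⟩ := hY τ hτ
    obtain ⟨x, hx⟩ := hne
    obtain ⟨g1, g2⟩ := mem_inter.1 hx
    have g3 : y ∈ U := hc x (mem_inter.1 g2).1 y (mem_union_right _ hy)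
      (hS.symm _ _ (mem_typ.1 g1).2)
    intro x' hx'
    obtain ⟨g4, g5⟩ := mem_typ.1 hx'
    exact mem_inter.2 ⟨hc y g3 x' (mem_union_left _ (mem_union_left _ g4)) g5, g4⟩
  have k4 : C O ⊆ U := inter_eq_right.1 k3
  refine union_subset (union_subset k4 (h1.trans k2)) fun y hy => ?_
  obtain ⟨x, hx, hr⟩ := hY' y hy
  exact hc x (k4 hx) y (mem_union_right _ hy) (hS.symm _ _ hr)

theorem own_pair (hS : Sy r C) {F : ι} (hF : F ≠ O) : Own r C O (C F) ∅ := by
  intro Y _ hY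
  refine (hS.conn O F hF.symm).extend hS.symm subset_union_left fun y hy => ?_
  rcases mem_union.1 hy with hy | hy
  · exact Or.inl hy
  · obtain ⟨x, hx, hr⟩ := hY y hy
    exact Or.inr ⟨x, mem_union_left _ hx, hS.symm _ _ hr⟩

/-- A certified node touches every node with a heavy anchor in a class which is not exceptional. -/
theorem cert_tch (hS : Sy r C) (hm : 0 < m) {g : W → ℝ} (hg : ∀ y, 0 ≤ g y) {F : ι}
    (hF : F ≠ O) (hE : F ∉ Exc r C m O g) {D D' : Finset W} {v : W} (hv : v ∈ C O) {θ : ℝ}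
    (h1 : θ < phi r C m O (insert v (D ∩ C O)) g) (h2 : ms g (D' ∩ C F) < θ) :
    Tch r (C O \ D) (C F \ D') := by
  by_contra hn
  have k1 := phi_le hS hm hg hF hE (R0 := insert v (D ∩ C O)) (J := C O \ D)
    (insert_subset hv inter_subset_right) (insert_nonempty _ _) fun x hx => by
      simp only [mem_sdiff, mem_insert, mem_inter] at hx ⊢
      tauto
  have k2 : nbh r C F (C O \ D) ⊆ D' ∩ C F := fun y hy => by
    obtain ⟨g1, x, g2, g3⟩ := phi_mem_nbh.1 hy
    refine mem_inter.2 ⟨?_, g1⟩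
    by_contra hy'
    exact hn ⟨x, g2, y, mem_sdiff.2 ⟨g1, hy'⟩, hS.symm _ _ g3⟩
  have k3 := ms_mono hg k2
  linarith

end Pool.Agent.P.MP_a374b6_co.H
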