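import Pool.Agent.P.MP_a374b6_co.H.Defs

/-! A random matching of atoms. -/

namespace Pool.Agent.P.MP_a374b6_co.H

open Finset

theorem rnd_split {B D : Type} [Fintype B] [Fintype D] (p : B → Prop) (q : D → Prop)
    [DecidablePred p] [DecidablePred q] [∀ w : B × D, Decidable (p w.1 ∧ q w.2)] (f : D → ℝ)
    (N : ℝ) : ∑ w : B × D, f w.2 / N * (if p w.1 ∧ q w.2 then 1 else 0) =
      (∑ s, if p s then (1 : ℝ) else 0) * (∑ t, f t * if q t then 1 else 0) / N := by
  rw [sum_mul_sum, Fintype.sum_prod_type, sum_div]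
  refine sum_congr rfl fun s _ => ?_
  rw [sum_div]
  refine sum_congr rfl fun t _ => ?_
  by_cases h1 : p s <;> by_cases h2 : q t <;> simp [h1, h2]

theorem rnd_xi {I A : Type} [Fintype I] [DecidableEq I] [Fintype A] (y g : I → A → ℝ) :
    ∑ ξ : I → A, (∏ c, y c (ξ c)) * ∏ c, g c (ξ c) = ∏ c, ∑ a, y c a * g c a := by
  rw [Fintype.prod_sum]
  exact sum_congr rfl fun ξ _ => prod_mul_distrib.symm

theorem rnd_xi_one {I A : Type} [Fintype I] [DecidableEq I] [Fintype A] [DecidableEq A]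
    (y : I → A → ℝ) (y1 : ∀ c, ∑ a, y c a = 1) (i : I) (a : A) :
    ∑ ξ : I → A, (∏ c, y c (ξ c)) * (if ξ i = a then 1 else 0) = y i a := by
  have h := rnd_xi y fun c a' => if c = i then (if a' = a then 1 else 0) else 1
  simp only [prod_ite_eq', mem_univ, if_true] at h
  rw [h, prod_eq_single i]
  · simp
  · intro c _ hc
    simp [hc, y1]
  · simp

theorem rnd_xi_two {I A : Type} [Fintype I] [DecidableEq I] [Fintype A] [DecidableEq A]
    (y : I → A → ℝ) (y1 : ∀ c, ∑ a, y c a = 1) {i i' : I} (hi : i ≠ i') (a a' : A) :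
    ∑ ξ : I → A, (∏ c, y c (ξ c)) * (if ξ i = a ∧ ξ i' = a' then 1 else 0) =
      y i a * y i' a' := by
  have h := rnd_xi y fun c b => (if c = i then (if b = a then 1 else 0) else 1) *
    (if c = i' then (if b = a' then 1 else 0) else 1)
  simp only [prod_mul_distrib, prod_ite_eq', mem_univ, if_true] at h
  simp only [ite_and, ite_zero_mul_ite_zero, mul_one] at h ⊢
  rw [h, prod_eq_mul i i' hi]
  · simp [hi, hi.symm]
  · intro c _ hc
    simp [hc.1, hc.2, y1]
  · simp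
  · simp

theorem rnd_fib {G B : Type} [Group G] [Fintype G] [Fintype B] [DecidableEq B] (φ : G → B)
    (j : B) (T : Finset B) (h : ∀ k ∈ T, ∃ σ : G, ∀ π, φ (σ * π) = k ↔ φ π = j) :
    T.card * ∑ π, (if φ π = j then (1 : ℝ) else 0) =
      ∑ π, if φ π ∈ T then (1 : ℝ) else 0 := by
  have h1 : ∀ k ∈ T, ∑ π, (if φ π = k then (1 : ℝ) else 0) =
      ∑ π, (if φ π = j then (1 : ℝ) else 0) := by
    intro k hk
    obtain ⟨σ, hσ⟩ := h k hk
    rw [← Equiv.sum_comp (Equiv.mulLeft σ)]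
    simp only [Equiv.coe_mulLeft, hσ]
  rw [← nsmul_eq_mul, ← sum_const, ← sum_congr rfl h1, sum_comm]
  simp only [sum_ite_eq]

theorem rnd_one {n : ℕ} (i j : Fin n) :
    ∑ π : Equiv.Perm (Fin n), (if π i = j then (1 : ℝ) else 0) =
      Fintype.card (Equiv.Perm (Fin n)) / n := by
  have h := rnd_fib (fun π : Equiv.Perm (Fin n) => π i) j univ fun k _ =>
    ⟨Equiv.swap j k, fun π => by
      rw [Equiv.Perm.mul_apply, ← Equiv.eq_symm_apply, Equiv.symm_swap,
        Equiv.swap_apply_right]⟩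
  have hn : (0 : ℝ) < n := by exact_mod_cast i.pos
  simp only [mem_univ, if_true, sum_const, card_univ, Fintype.card_fin, nsmul_eq_mul,
    mul_one] at h
  rw [eq_div_iff hn.ne', mul_comm, h]

theorem rnd_two {n : ℕ} {c c' : Fin n × Fin n} (h : c ≠ c') :
    (∑ π : Equiv.Perm (Fin n), if π c.1 = c.2 ∧ π c'.1 = c'.2 then (1 : ℝ) else 0) *
      (n * (n - 1)) ≤ Fintype.card (Equiv.Perm (Fin n)) := by
  by_cases hj : c.2 = c'.2
  · rw [sum_eq_zero, zero_mul]
    · positivity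
    · intro π _
      exact if_neg fun h' => h (Prod.ext (π.injective (by rw [h'.1, h'.2, hj])) hj)
  have h1 := rnd_fib (fun π : Equiv.Perm (Fin n) => (π c.1, π c'.1)) (c.2, c'.2)
    (univ : Finset (Fin n)).offDiag fun k hk => by
      have hk' : k.1 ≠ k.2 := (mem_offDiag.1 hk).2.2
      obtain ⟨σ, s1, s2⟩ : ∃ σ : Equiv.Perm (Fin n), σ c.2 = k.1 ∧ σ c'.2 = k.2 := by
        refine ⟨Equiv.swap (Equiv.swap c.2 k.1 c'.2) k.2 * Equiv.swap c.2 k.1, ?_, ?_⟩
        · rw [Equiv.Perm.mul_apply, Equiv.swap_apply_left]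
          refine Equiv.swap_apply_of_ne_of_ne (fun h' => hj ?_) hk'
          exact (Equiv.swap c.2 k.1).injective ((Equiv.swap_apply_left _ _).trans h')
        · rw [Equiv.Perm.mul_apply, Equiv.swap_apply_left]
      refine ⟨σ, fun π => ?_⟩
      rw [Prod.ext_iff, Prod.ext_iff]
      simp only [Equiv.Perm.mul_apply, ← s1, ← s2, Equiv.apply_eq_iff_eq]
  have h2 : ∑ π : Equiv.Perm (Fin n), (if (π c.1, π c'.1) ∈ (univ : Finset (Fin n)).offDiag
      then (1 : ℝ) else 0) ≤ Fintype.card (Equiv.Perm (Fin n)) := by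
    rw [← card_univ, ← mul_one ((card _ : ℕ) : ℝ), ← nsmul_eq_mul, ← sum_const]
    refine sum_le_sum fun π _ => ?_
    split_ifs <;> norm_num
  have h3 : (((univ : Finset (Fin n)).offDiag.card : ℕ) : ℝ) = n * (n - 1) := by
    rw [offDiag_card, card_univ, Fintype.card_fin, Nat.cast_sub (Nat.le_mul_self n)]
    push_cast
    ring
  rw [h3] at h1
  simp only [Prod.mk.injEq] at h1
  rw [mul_comm, h1]
  exact h2

theorem exists_law {A : Type} [Fintype A] [DecidableEq A] {n : ℕ} (hn : 2 ≤ n)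
    (e : A → Fin n × Fin n) (x : A → ℝ) (h0 : ∀ a, 0 ≤ x a)
    (h1 : ∀ c, ∑ a with e a = c, x a = 1) :
    ∃ (Ω : Type) (_ : Fintype Ω) (P : Ω → ℝ) (sel : Ω → Finset A), Law e x P sel := by
  classical
  have hN : (0 : ℝ) < Fintype.card (Equiv.Perm (Fin n)) := by exact_mod_cast Fintype.card_pos
  obtain ⟨y, hy⟩ : ∃ y : Fin n × Fin n → A → ℝ, y = fun c a => if e a = c then x a else 0 :=
    ⟨_, rfl⟩
  have y0 : ∀ c a, 0 ≤ y c a := fun c a => by
    rw [hy]
    beta_reduce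
    split_ifs
    · exact h0 a
    · exact le_rfl
  have y1 : ∀ c, ∑ a, y c a = 1 := fun c => by
    rw [← h1 c, sum_filter, hy]
  have ye : ∀ a, y (e a) a = x a := fun a => by rw [hy]; exact if_pos rfl
  have hsel : ∀ (w : Equiv.Perm (Fin n) × (Fin n × Fin n → A)) (a : A),
      a ∈ (univ.filter fun a => 0 < x a ∧ w.1 (e a).1 = (e a).2 ∧ w.2 (e a) = a) ↔
        0 < x a ∧ w.1 (e a).1 = (e a).2 ∧ w.2 (e a) = a := fun w a => by
    rw [mem_filter, and_iff_right (mem_univ a)]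
  refine ⟨Equiv.Perm (Fin n) × (Fin n × Fin n → A), inferInstance,
    fun w => (∏ c, y c (w.2 c)) / Fintype.card (Equiv.Perm (Fin n)),
    fun w => univ.filter fun a => 0 < x a ∧ w.1 (e a).1 = (e a).2 ∧ w.2 (e a) = a,
    fun w => div_nonneg (prod_nonneg fun c _ => y0 c _) hN.le, ?_,
    fun w a ha => ((hsel w a).1 ha).1, ?_, ?_, ?_⟩
  · rw [Fintype.sum_prod_type]
    simp only [← sum_div, ← Fintype.prod_sum, y1, prod_const_one, sum_const, card_univ,
      nsmul_eq_mul, mul_one]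
    exact div_self hN.ne'
  · intro w a ha b hb hab
    obtain ⟨-, a1, a2⟩ := (hsel w a).1 ha
    obtain ⟨-, b1, b2⟩ := (hsel w b).1 hb
    have key : e a ≠ e b := fun h => hab (by rw [← a2, h, b2])
    constructor
    · intro h
      exact key (Prod.ext h (by rw [← a1, h, b1]))
    · intro h
      exact key (Prod.ext (w.1.injective (by rw [a1, b1, h])) h)
  · intro a
    simp only [hsel]
    rcases (h0 a).eq_or_lt with h | h
    · simp [← h]
    · simp only [h, true_and]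
      rw [rnd_split (fun π : Equiv.Perm (Fin n) => π (e a).1 = (e a).2)
        (fun ξ : Fin n × Fin n → A => ξ (e a) = a) (fun ξ => ∏ c, y c (ξ c)),
        rnd_one, rnd_xi_one y y1, ye]
      field_simp
  · intro a b hab
    have hn' : (0 : ℝ) < n * (n - 1) := by
      have : (2 : ℝ) ≤ n := by exact_mod_cast hn
      nlinarith
    have hr : 0 ≤ x a * x b / (n * (n - 1)) := div_nonneg (mul_nonneg (h0 a) (h0 b)) hn'.le
    simp only [hsel]
    by_cases hx : 0 < x a ∧ 0 < x b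
    swap
    · refine le_trans (le_of_eq (sum_eq_zero fun w _ => ?_)) hr
      rw [if_neg fun h => hx ⟨h.1.1, h.2.1⟩, mul_zero]
    by_cases he : e a = e b
    · refine le_trans (le_of_eq (sum_eq_zero fun w _ => ?_)) hr
      rw [if_neg fun h => hab (by rw [← h.1.2.2, he, h.2.2.2]), mul_zero]
    have hand : ∀ w : Equiv.Perm (Fin n) × (Fin n × Fin n → A),
        ((w.1 (e a).1 = (e a).2 ∧ w.2 (e a) = a) ∧ w.1 (e b).1 = (e b).2 ∧ w.2 (e b) = b) ↔
        ((w.1 (e a).1 = (e a).2 ∧ w.1 (e b).1 = (e b).2) ∧ w.2 (e a) = a ∧ w.2 (e b) = b) :=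
      fun w => and_and_and_comm
    simp only [hx.1, hx.2, true_and, hand]
    rw [rnd_split (fun π : Equiv.Perm (Fin n) => π (e a).1 = (e a).2 ∧ π (e b).1 = (e b).2)
      (fun ξ : Fin n × Fin n → A => ξ (e a) = a ∧ ξ (e b) = b) (fun ξ => ∏ c, y c (ξ c)),
      rnd_xi_two y y1 he, ye, ye, div_le_div_iff₀ hN hn']
    have h2 := rnd_two he
    have h3 := mul_pos hx.1 hx.2
    nlinarith

end Pool.Agent.P.MP_a374b6_co.H
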