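import Pool.Agent.P.MP_a374b6_co.H.Mb
import Pool.Agent.P.MP_a374b6_co.H.Cen

/-! Bundles of legs. -/

namespace Pool.Agent.P.MP_a374b6_co.H

open Finset

variable {W ι α : Type} [DecidableEq W] [DecidableEq ι] [Fintype α] [DecidableEq α]
  {r : W → W → Prop} {nb : W → Finset α} {C : ι → Finset W} {R : Finset ι} {μ : α → ℝ}
  {p : ι × ι} {D : ι} {v : W} {L : Finset (Finset W)}

theorem v0_other (hS : Sy r C) (h12 : p.1 ≠ p.2) (hd : Legs r (pr C p) v L) :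
    ∃ i j, i ≠ j ∧ (j = p.1 ∨ j = p.2) ∧ pr C p = C i ∪ C j ∧ C j ⊆ un L := by
  have key : ∀ i j, i ≠ j → v ∈ C i → pr C p = C i ∪ C j → C j ⊆ un L := by
    intro i j hij hv he x hx
    rw [hd.cover, he]
    exact mem_erase.2 ⟨fun e => hij (hS.eq_of_mem hv (e ▸ hx)), mem_union_right _ hx⟩
  rcases mem_union.1 hd.mem with hv | hv
  · exact ⟨_, _, h12, Or.inr rfl, rfl, key _ _ h12 hv rfl⟩
  · exact ⟨_, _, h12.symm, Or.inl rfl, union_comm _ _, key _ _ h12.symm hv (union_comm _ _)⟩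

omit [DecidableEq ι] in
theorem v0_sub (hd : Legs r (pr C p) v L) : un L ⊆ pr C p := by
  rw [hd.cover]
  exact erase_subset _ _

theorem v0_nbr (hS : Sy r C) (hD1 : D ≠ p.1) (hD2 : D ≠ p.2) {x : W} (hx : x ∈ pr C p) :
    x ∉ C D ∧ ∃ d ∈ C D, r x d := by
  rcases mem_union.1 hx with h | h
  · exact ⟨fun h' => hD1 (hS.eq_of_mem h' h), hS.nbr hD1.symm h⟩
  · exact ⟨fun h' => hD2 (hS.eq_of_mem h' h), hS.nbr hD2.symm h⟩

theorem v0_conn (hS : Sy r C) (h12 : p.1 ≠ p.2) (hD1 : D ≠ p.1) (hD2 : D ≠ p.2)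
    (hd : Legs r (pr C p) v L) : Cn r (un L ∪ C D) := by
  obtain ⟨i, j, -, hj, -, hs⟩ := v0_other hS h12 hd
  have hjD : j ≠ D := by
    rcases hj with rfl | rfl
    · exact hD1.symm
    · exact hD2.symm
  refine (hS.conn j D hjD).extend hS.symm (union_subset_union hs Subset.rfl) fun y hy => ?_
  rcases mem_union.1 hy with hy | hy
  · obtain ⟨d, hd', hr⟩ := (v0_nbr hS hD1 hD2 (v0_sub hd hy)).2
    exact Or.inr ⟨d, mem_union_right _ hd', hS.symm _ _ hr⟩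
  · exact Or.inl (mem_union_right _ hy)

/-- The parts: legs and points of the class `D`. -/
def v0_P (L : Finset (Finset W)) (A : Finset W) : Finset (Finset W) := L ∪ A.image fun d => {d}

theorem v0_mem_P {A K : Finset W} : K ∈ v0_P L A ↔ K ∈ L ∨ ∃ d ∈ A, {d} = K := by
  simp [v0_P]

theorem v0_un {A : Finset W} {Q : Finset (Finset W)} (hQ : Q ⊆ v0_P L A) :
    un Q = un (Q ∩ L) ∪ A.filter fun d => {d} ∈ Q := by
  ext x
  simp only [mem_union, mem_un, mem_inter, mem_filter]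
  constructor
  · rintro ⟨K, hK, hx⟩
    rcases v0_mem_P.1 (hQ hK) with h | ⟨d, hd, rfl⟩
    · exact Or.inl ⟨K, ⟨hK, h⟩, hx⟩
    · obtain rfl := mem_singleton.1 hx
      exact Or.inr ⟨hd, hK⟩
  · rintro (⟨K, ⟨hK, -⟩, hx⟩ | ⟨-, h⟩)
    · exact ⟨K, hK, hx⟩
    · exact ⟨_, h, mem_singleton_self x⟩

omit [DecidableEq ι] in
theorem v0_parts_cn (hd : Legs r (pr C p) v L) {A : Finset W} : ∀ K ∈ v0_P L A, Cn r K := by
  intro K hK
  rcases v0_mem_P.1 hK with h | ⟨d, -, rfl⟩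
  · exact hd.cn K h
  · exact cn_singleton d

theorem v0_P_inter (A : Finset W) : v0_P L A ∩ L = L := inter_eq_right.2 subset_union_left

theorem v0_parts (hS : Sy r C) (h12 : p.1 ≠ p.2) (hD1 : D ≠ p.1) (hD2 : D ≠ p.2)
    (hd : Legs r (pr C p) v L) : Cn (Tch r) (v0_P L (C D)) := by
  have hLD : ∀ K ∈ L, ∀ d ∈ C D, d ∉ K := fun K hK d hdD h =>
    (v0_nbr hS hD1 hD2 (v0_sub hd (sub_un hK h))).1 hdD
  refine cn_parts (fun K hK => (v0_parts_cn hd K hK).1) (fun K hK K' hK' hne => ?_) ?_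
  · rcases v0_mem_P.1 hK with h | ⟨d, hd1, rfl⟩ <;> rcases v0_mem_P.1 hK' with h' | ⟨d', hd2, rfl⟩
    · exact hd.pd K h K' h' hne
    · exact disjoint_singleton_right.2 (hLD K h d' hd2)
    · exact disjoint_singleton_left.2 (hLD K' h' d hd1)
    · exact disjoint_singleton.2 fun e => hne (congrArg _ e)
  · rw [v0_un Subset.rfl, v0_P_inter, filter_true_of_mem fun d hd' =>
      v0_mem_P.2 (Or.inr ⟨d, hd', rfl⟩)]
    exact v0_conn hS h12 hD1 hD2 hd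

/-- The weight of a family of parts. -/
def v0_h (nb : W → Finset α) (μ : α → ℝ) (L : Finset (Finset W)) (T : Finset α)
    (Q : Finset (Finset W)) : ℝ := ms μ (cov nb (un (Q ∩ L)) ∩ T)

theorem v0_h_sub (h : Prob μ) (T : Finset α) : Sub (v0_h nb μ L T) := by
  have h0 := sub_cov_un (nb := nb) h T
  refine ⟨?_, fun A B hAB => h0.mono _ _ (inter_subset_inter_right hAB), fun A B => ?_⟩
  · rw [v0_h, empty_inter]
    exact h0.empty
  · rw [v0_h, union_inter_distrib_right]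
    exact h0.union _ _

theorem v0_h_one (h : Prob μ) (hs : ∀ K ∈ L, fv nb μ K ≤ 1 / 100) (T : Finset α) (K : Finset W) :
    v0_h nb μ L T {K} ≤ 1 / 100 := by
  by_cases hK : K ∈ L
  · rw [v0_h, singleton_inter_of_mem hK, un_singleton]
    exact (ms_mono h.1 inter_subset_left).trans (hs K hK)
  · rw [v0_h, singleton_inter_of_notMem hK, un_empty, cov_empty, empty_inter, ms_empty]
    norm_num

theorem v0_cov (h : Ctx r nb C R μ) (h1 : p.1 ∈ R) (h2 : p.2 ∈ R) (h12 : p.1 ≠ p.2)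
    (hd : Legs r (pr C p) v L) : cov nb (un L) = univ := by
  obtain ⟨i, j, -, hj, -, hs⟩ := v0_other h.sy h12 hd
  rcases hj with rfl | rfl
  · exact h.cov_eq h1 hs
  · exact h.cov_eq h2 hs

theorem v0a (h : Ctx r nb C R μ) (h1 : p.1 ∈ R) (h2 : p.2 ∈ R) (h12 : p.1 ≠ p.2) (hD1 : D ≠ p.1)
    (hD2 : D ≠ p.2) (hd : Don r nb μ (pr C p) v L) {d : W} (hdD : d ∈ C D) {y : ℝ}
    (hy0 : 0 ≤ y) (hy1 : y ≤ 1) :
    ∃ M D', Bun r L (C D) M D' ∧ d ∈ D' ∧ y ≤ fv nb μ (un M) ∧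
      fv nb μ (un M) ≤ y + 1 / 100 := by
  obtain ⟨Q, hQ, hdQ, hc, ha, hb⟩ := gro (fun _ _ => Tch.symm h.sy.symm)
    (v0_parts h.sy h12 hD1 hD2 hd.legs) (v0_mem_P.2 (Or.inr ⟨d, hdD, rfl⟩))
    (v0_h_sub (nb := nb) (L := L) h.pb univ) (fun K _ => v0_h_one h.pb hd.small univ K) hy0 (by
      rw [v0_h, v0_P_inter, v0_cov h h1 h2 h12 hd.legs, inter_univ, h.pb.ms_univ]
      exact hy1)
  rw [v0_h, inter_univ] at ha hb
  have hm : d ∈ (C D).filter fun d => {d} ∈ Q := mem_filter.2 ⟨hdD, hdQ⟩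
  refine ⟨Q ∩ L, _, ⟨inter_subset_right, filter_subset _ _, ⟨d, hm⟩, ?_⟩, hm, ha, hb⟩
  rw [← v0_un hQ]
  exact cn_un h.sy.symm (fun K hK => v0_parts_cn hd.legs K (hQ hK)) hc

theorem v0_pair (h : Ctx r nb C R μ) (h1 : p.1 ∈ R) (h2 : p.2 ∈ R) (h12 : p.1 ≠ p.2)
    (hd : Don r nb μ (pr C p) v L) {Q Q' : Finset (Finset W)} (hc : (Q ∩ Q').card ≤ 1) :
    ms μ ((cov nb (pr C p \ un (Q ∩ L)))ᶜ ∩ (cov nb (pr C p \ un (Q' ∩ L)))ᶜ) ≤ 1 / 100 := by
  obtain ⟨K, hK⟩ := card_le_one_iff_subset_singleton.1 hc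
  refine le_trans (ms_mono h.pb.1 fun a ha => ?_) (((v0_h_sub h.pb univ).mono _ _ hK).trans
    (v0_h_one h.pb hd.small univ K))
  obtain ⟨ha1, ha2⟩ := mem_inter.1 ha
  obtain ⟨x, hx, hax⟩ := mem_cov.1 (v0_cov h h1 h2 h12 hd.legs ▸ mem_univ a)
  have key : ∀ M, a ∈ (cov nb (pr C p \ un M))ᶜ → x ∈ un M := fun M hM => by
    by_contra hn
    exact mem_compl.1 hM (mem_cov.2 ⟨x, mem_sdiff.2 ⟨v0_sub hd.legs hx, hn⟩, hax⟩)
  obtain ⟨K1, hK1, hx1⟩ := mem_un.1 (key _ ha1)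
  obtain ⟨K2, hK2, hx2⟩ := mem_un.1 (key _ ha2)
  obtain rfl := hd.legs.pd.eq_of_mem (mem_inter.1 hK1).2 (mem_inter.1 hK2).2 hx1 hx2
  exact mem_inter.2 ⟨mem_cov.2 ⟨x, mem_un.2 ⟨K1, mem_inter.2 ⟨mem_inter.2
    ⟨(mem_inter.1 hK1).1, (mem_inter.1 hK2).1⟩, (mem_inter.1 hK1).2⟩, hx1⟩, hax⟩, mem_univ a⟩

theorem v0_three (h : Prob μ) (E : Fin 3 → Finset α)
    (hE : ∀ i j, i ≠ j → ms μ (E i ∩ E j) ≤ 1 / 100) : ∃ i, ms μ (E i) ≤ 2 / 5 := by
  by_contra hn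
  push Not at hn
  have a1 := ms_union_add_inter (g := μ) (E 0) (E 1)
  have a2 := ms_union_add_inter (g := μ) (E 0 ∪ E 1) (E 2)
  have a3 := ms_union_le h.1 (E 0 ∩ E 2) (E 1 ∩ E 2)
  rw [← union_inter_distrib_right] at a3
  linarith [h.le_one (E 0 ∪ E 1 ∪ E 2), hE 0 1 (by decide), hE 0 2 (by decide), hE 1 2 (by decide),
    hn 0, hn 1, hn 2]

theorem v0b (h : Ctx r nb C R μ) (h1 : p.1 ∈ R) (h2 : p.2 ∈ R) (h12 : p.1 ≠ p.2) (hD1 : D ≠ p.1)
    (hD2 : D ≠ p.2) (hd : Don r nb μ (pr C p) v L) {T : Finset α} (hT : 1 / 4 ≤ ms μ T) :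
    ∃ M D', Bun r L (C D) M D' ∧ 1 / 50 ≤ ms μ (cov nb (un M) ∩ T) ∧
      3 / 5 ≤ fv nb μ (pr C p \ un M) := by
  obtain ⟨Q, hQ, hc⟩ := chunk (fun _ _ => Tch.symm h.sy.symm)
    (v0_parts h.sy h12 hD1 hD2 hd.legs) (v0_h_sub (nb := nb) (L := L) h.pb T)
    (a := 1 / 50) (by norm_num) (fun K _ => v0_h_one h.pb hd.small T K) (by
      rw [v0_h, v0_P_inter, v0_cov h h1 h2 h12 hd.legs, univ_inter]
      linarith)
  obtain ⟨i, hi⟩ := v0_three h.pb (fun i => (cov nb (pr C p \ un (Q i ∩ L)))ᶜ) fun i j hij =>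
    v0_pair h h1 h2 h12 hd (hc i j hij)
  obtain ⟨q1, q2, q3⟩ := hQ i
  rw [h.pb.compl] at hi
  have hne : (un (Q i ∩ L)).Nonempty := by
    rw [nonempty_iff_ne_empty]
    intro he
    rw [v0_h, he, cov_empty, empty_inter, ms_empty] at q3
    norm_num at q3
  obtain ⟨x, hx⟩ := hne
  obtain ⟨d, hdD, hr⟩ := (v0_nbr h.sy hD1 hD2 (v0_sub hd.legs (un_mono inter_subset_right hx))).2
  have hcn := cn_un h.sy.symm (fun K hK => v0_parts_cn hd.legs K (q1 hK)) q2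
  rw [v0_un q1] at hcn
  refine ⟨Q i ∩ L, ((C D).filter fun d => {d} ∈ Q i) ∪ {d}, ⟨inter_subset_right,
    union_subset (filter_subset _ _) (singleton_subset_iff.2 hdD),
    ⟨d, mem_union_right _ (mem_singleton_self d)⟩, ?_⟩, q3, ?_⟩
  · rw [← union_assoc]
    exact hcn.union_tch h.sy.symm (cn_singleton d)
      ⟨x, mem_union_left _ hx, d, mem_singleton_self d, hr⟩
  · rw [fv]
    linarith

theorem v0_join (hs : ∀ x y, r x y → r y x) {N : Finset W} (hN : Cn r N) {x y d1 d2 : W}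
    (hx : x ∈ N) (hy : y ∈ N) (h1 : r x d1) (h2 : r y d2) : Cn r (N ∪ {d1, d2}) := by
  refine hN.extend hs subset_union_left fun z hz => ?_
  simp only [mem_union, mem_insert, mem_singleton] at hz
  rcases hz with hz | rfl | rfl
  · exact Or.inl hz
  · exact Or.inr ⟨x, hx, h1⟩
  · exact Or.inr ⟨y, hy, h2⟩

theorem v0c (hS : Sy r C) (h12 : p.1 ≠ p.2) (hD1 : D ≠ p.1) (hD2 : D ≠ p.2)
    (hd : Legs r (pr C p) v L) {D1 D2 : Finset W} (hu : D1 ∪ D2 = C D) (hn1 : D1.Nonempty)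
    (hn2 : D2.Nonempty) :
    ∃ d1 ∈ D1, ∃ d2 ∈ D2, ∃ M ⊆ L, M.card ≤ 2 ∧ Cn r (un M ∪ {d1, d2}) := by
  classical
  by_contra hn
  have hs1 : D1 ⊆ C D := hu ▸ subset_union_left
  have hs2 : D2 ⊆ C D := hu ▸ subset_union_right
  have hU : un (L.filter fun K => Tch r K D1) ∪ D1 = un L ∪ C D := by
    refine (v0_conn hS h12 hD1 hD2 hd).eq_of_closed
      (union_subset_union (un_mono (filter_subset _ _)) hs1) (hn1.mono subset_union_right)
      fun x hx y hy hr => ?_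
    rcases mem_union.1 hx with hx | hx
    · obtain ⟨K, hK, hxK⟩ := mem_un.1 hx
      obtain ⟨hKL, x1, hx1, d1, hd1, hr1⟩ := mem_filter.1 hK
      rcases mem_union.1 hy with hy | hy
      · obtain ⟨K', hK', hyK⟩ := mem_un.1 hy
        obtain ⟨d, hdD, hr2⟩ := (v0_nbr hS hD1 hD2 (v0_sub hd hy)).2
        rcases mem_union.1 (hu ▸ hdD : d ∈ D1 ∪ D2) with h | h
        · exact mem_union_left _ (mem_un.2 ⟨K', mem_filter.2 ⟨hK', y, hyK, d, h, hr2⟩, hyK⟩)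
        · refine absurd ⟨d1, hd1, d, h, {K, K'}, insert_subset hKL (singleton_subset_iff.2 hK'),
            card_le_two, ?_⟩ hn
          rw [un_insert, un_singleton]
          exact v0_join hS.symm ((hd.cn K hKL).union_tch hS.symm (hd.cn K' hK')
            ⟨x, hxK, y, hyK, hr⟩) (mem_union_left _ hx1) (mem_union_right _ hyK) hr1 hr2
      · rcases mem_union.1 (hu ▸ hy : y ∈ D1 ∪ D2) with h | h
        · exact mem_union_right _ h
        · refine absurd ⟨d1, hd1, y, h, {K}, singleton_subset_iff.2 hKL, by simp, ?_⟩ hn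
          rw [un_singleton]
          exact v0_join hS.symm (hd.cn K hKL) hx1 hxK hr1 hr
    · rcases mem_union.1 hy with hy | hy
      · obtain ⟨K', hK', hyK⟩ := mem_un.1 hy
        exact mem_union_left _
          (mem_un.2 ⟨K', mem_filter.2 ⟨hK', y, hyK, x, hx, hS.symm _ _ hr⟩, hyK⟩)
      · exact absurd hr (hS.indep D x (hs1 hx) y hy)
  obtain ⟨d, hd2⟩ := hn2
  rcases mem_union.1 (hU ▸ mem_union_right _ (hs2 hd2) :
    d ∈ un (L.filter fun K => Tch r K D1) ∪ D1) with h | h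
  · exact (v0_nbr hS hD1 hD2 (v0_sub hd (un_mono (filter_subset _ _) h))).1 (hs2 hd2)
  · refine hn ⟨d, h, d, hd2, ∅, empty_subset _, by simp, ?_⟩
    rw [un_empty, empty_union, pair_eq_singleton]
    exact cn_singleton d

end Pool.Agent.P.MP_a374b6_co.H
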