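import Pool.Agent.P.MP_a374b6_co.H.V0

/-! One growth step with two spiders. -/

namespace Pool.Agent.P.MP_a374b6_co.H

open Finset

variable {W ι α : Type} [DecidableEq W] [DecidableEq ι] [Fintype α] [DecidableEq α]
  {r : W → W → Prop} {nb : W → Finset α} {C : ι → Finset W} {R : Finset ι} {μ : α → ℝ}

theorem v1_join (hs : ∀ x y, r x y → r y x) {L L' M M' : Finset (Finset W)} {D D1 D2 : Finset W}
    (h : Bun r L D M D1) (h' : Bun r L' D M' D2) {d : W} (h1 : d ∈ D1) (h2 : d ∈ D2) :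
    Cn r (un M ∪ un M' ∪ (D1 ∪ D2)) := by
  have := h.cn.union_inter hs h'.cn (mem_union_right _ h1) (mem_union_right _ h2)
  rwa [union_union_union_comm] at this

theorem v1 (h : Ctx r nb C R μ) {p p' : ι × ι} {D : ι} {v v' : W} {L L' : Finset (Finset W)}
    (h1 : p.1 ∈ R) (h2 : p.2 ∈ R) (h12 : p.1 ≠ p.2) (hD1 : D ≠ p.1) (hD2 : D ≠ p.2)
    (hd : Don r nb μ (pr C p) v L)
    (h1' : p'.1 ∈ R) (h2' : p'.2 ∈ R) (h12' : p'.1 ≠ p'.2) (hD1' : D ≠ p'.1) (hD2' : D ≠ p'.2)
    (hd' : Don r nb μ (pr C p') v' L') {U : Finset α} (hU : 1 / 4 ≤ ms μ U)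
    (hU' : ms μ U ≤ 1 / 2 + 1 / 50) :
    ∃ M ⊆ L, ∃ M' ⊆ L', ∃ D' ⊆ C D, Cn r (un M ∪ un M' ∪ D') ∧
      1 / 50 ≤ ms μ (cov nb (un M ∪ un M' ∪ D') ∩ U) ∧
      1 / 50 ≤ ms μ (cov nb (un M ∪ un M' ∪ D') \ U) ∧
      3 / 5 ≤ fv nb μ (pr C p \ un M) ∧ 3 / 5 ≤ fv nb μ (pr C p' \ un M') := by
  classical
  have hs := h.sy.symm
  have hp := h.pb
  have hUc : 1 / 4 ≤ ms μ Uᶜ := by rw [hp.compl]; linarith
  have hrest : ∀ M : Finset (Finset W), fv nb μ (un M) ≤ 2 / 5 →
      3 / 5 ≤ fv nb μ (pr C p \ un M) := fun M hM => by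
    linarith [h.one_le h1 (S := pr C p) subset_union_left (un M)]
  have hin : ∀ {A B : Finset W} (T : Finset α), A ⊆ B → 1 / 50 ≤ ms μ (cov nb A ∩ T) →
      1 / 50 ≤ ms μ (cov nb B ∩ T) := fun T hAB hA =>
    hA.trans (ms_mono hp.1 (inter_subset_inter_right (cov_mono hAB)))
  set E : Finset α → Finset W := fun T => (C D).filter fun d => ∃ M D', Bun r L (C D) M D' ∧
    d ∈ D' ∧ fv nb μ (un M) ≤ 5 / 100 ∧ 1 / 50 ≤ ms μ (cov nb (un M) ∩ T) with hE
  have hall : ∀ d ∈ C D, d ∈ E U ∨ d ∈ E Uᶜ := fun d hdD => by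
    obtain ⟨M, D', b1, b2, b3, b4⟩ := v0a h h1 h2 h12 hD1 hD2 hd hdD (y := 1 / 25)
      (by norm_num) (by norm_num)
    have b5 := ms_inter_add_sdiff (g := μ) (cov nb (un M)) U
    rw [sdiff_eq_inter_compl] at b5
    unfold fv at b3
    by_cases b6 : 1 / 50 ≤ ms μ (cov nb (un M) ∩ U)
    · exact Or.inl (mem_filter.2 ⟨hdD, M, D', b1, b2, by linarith, b6⟩)
    · exact Or.inr (mem_filter.2 ⟨hdD, M, D', b1, b2, by linarith, by linarith⟩)
  simp only [sdiff_eq_inter_compl (cov nb _)]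
  by_cases n1 : (E U).Nonempty
  · by_cases n2 : (E Uᶜ).Nonempty
    · obtain ⟨d1, e1, d2, e2, M0, hM0, c0, cn0⟩ := v0c h.sy h12 hD1 hD2 hd.legs
        (D1 := E U) (D2 := E Uᶜ) (Subset.antisymm
          (union_subset (filter_subset _ _) (filter_subset _ _))
          fun d hdD => mem_union.2 (hall d hdD)) n1 n2
      obtain ⟨-, M1, D1, a1, a2, a3, a4⟩ := mem_filter.1 e1
      obtain ⟨-, M2, D2, b1, b2, b3, b4⟩ := mem_filter.1 e2
      have f0 : fv nb μ (un M0) ≤ 2 / 100 := by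
        rcases M0.eq_empty_or_nonempty with rfl | ⟨K, hK⟩
        · simp only [fv, un_empty, cov_empty, ms_empty]
          norm_num
        · have k1 := hd.small K (hM0 hK)
          rcases (M0.erase K).eq_empty_or_nonempty with e | ⟨K', hK'⟩
          · rw [← insert_erase hK, e, un_insert, un_empty, union_empty]
            linarith
          · have k2 := hd.small K' (hM0 (mem_of_mem_erase hK'))
            have k3 := card_erase_add_one hK
            have k4 : M0.erase K = {K'} := (eq_of_subset_of_card_le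
              (singleton_subset_iff.2 hK') (by rw [card_singleton]; omega)).symm
            rw [← insert_erase hK, k4, un_insert, un_singleton]
            linarith [fv_union_le (nb := nb) hp K K']
      have cn1 := (cn0.union_inter hs a1.cn (mem_union_right _ (mem_insert_self _ _))
        (mem_union_right _ a2)).union_inter hs b1.cn (x := d2)
        (mem_union_left _ (mem_union_right _ (by simp))) (mem_union_right _ b2)
      have eq1 : un M0 ∪ {d1, d2} ∪ (un M1 ∪ D1) ∪ (un M2 ∪ D2) =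
          un (M0 ∪ M1 ∪ M2) ∪ un ∅ ∪ (D1 ∪ D2) := by
        ext z
        simp only [un_union, un_empty, mem_union, mem_insert, mem_singleton, notMem_empty]
        constructor
        · rintro (((z1 | rfl | rfl) | z1 | z1) | z1 | z1) <;> simp [*]
        · rintro ((((z1 | z1) | z1) | z1) | z1 | z1) <;> simp_all
      refine ⟨M0 ∪ M1 ∪ M2, union_subset (union_subset hM0 a1.sub) b1.sub, ∅, empty_subset _,
        D1 ∪ D2, union_subset a1.dsub b1.dsub, eq1 ▸ cn1,
        hin U (eq1 ▸ fun z hz => by simp [hz]) a4, hin Uᶜ (eq1 ▸ fun z hz => by simp [hz]) b4,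
        hrest _ ?_, ?_⟩
      · rw [un_union, un_union]
        linarith [fv_union_le (nb := nb) hp (un M0 ∪ un M1) (un M2),
          fv_union_le (nb := nb) hp (un M0) (un M1)]
      · rw [un_empty, sdiff_empty, fv, h.cov_eq h1' (S := pr C p') subset_union_left,
          hp.ms_univ]
        norm_num
    · obtain ⟨M', D2, b1, b2, b3⟩ := v0b h h1' h2' h12' hD1' hD2' hd' hUc
      obtain ⟨d, hd2⟩ := b1.ne
      obtain ⟨-, M, D1, a1, a2, a3, a4⟩ := mem_filter.1
        ((hall d (b1.dsub hd2)).resolve_right fun e => n2 ⟨d, e⟩)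
      exact ⟨M, a1.sub, M', b1.sub, D1 ∪ D2, union_subset a1.dsub b1.dsub,
        v1_join hs a1 b1 a2 hd2, hin U (fun z hz => by simp [hz]) a4,
        hin Uᶜ (fun z hz => by simp [hz]) b2, hrest _ (by linarith), b3⟩
  · obtain ⟨M', D2, b1, b2, b3⟩ := v0b h h1' h2' h12' hD1' hD2' hd' hU
    obtain ⟨d, hd2⟩ := b1.ne
    obtain ⟨-, M, D1, a1, a2, a3, a4⟩ := mem_filter.1
      ((hall d (b1.dsub hd2)).resolve_left fun e => n1 ⟨d, e⟩)
    exact ⟨M, a1.sub, M', b1.sub, D1 ∪ D2, union_subset a1.dsub b1.dsub,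
      v1_join hs a1 b1 a2 hd2, hin U (fun z hz => by simp [hz]) b2,
      hin Uᶜ (fun z hz => by simp [hz]) a4, hrest _ (by linarith), b3⟩

end Pool.Agent.P.MP_a374b6_co.H
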