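import Pool.Agent.P.MP_a374b6_co.H.Val1
import Pool.Agent.P.MP_a374b6_co.H.At
import Pool.Agent.P.MP_a374b6_co.H.Cen

/-! Every pair has an atom of guaranteed value, and the guarantees add up. -/

namespace Pool.Agent.P.MP_a374b6_co.H

open Finset

variable {W : Type} [Fintype W] [DecidableEq W] {n : ℕ} [NeZero n] {r : W → W → Prop}
  {C : Bool × Fin n → Finset W} {m : ℕ}

theorem val (hS : Sy r C) {v0 : Bool × Fin n → W} (hv : ∀ O, v0 O ∈ C O) {p : Option W → ℝ}
    (hp : p ∈ stdSimplex ℝ (Option W)) (e : Fin n × Fin n) :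
    ∃ a : Atom n W, a.1 = e ∧ 0 < mar r C m a p ∧ B0 r C m v0 e p ≤ ∑ k, p k * net C m a k := by
  have hp0 : ∀ k, 0 ≤ p k := hp.1
  have hp1 : p none ≤ 1 := hp.2 ▸ single_le_sum (fun k _ => hp0 k) (mem_univ none)
  have h0 := hp0 none
  unfold B0
  set u := min (ms (pg p) (C (sd e true))) (ms (pg p) (C (sd e false))) with hu
  set b := univ.sup' univ_nonempty fun O => phi r C m O {v0 O} (pg p) with hb
  by_cases h1 : min (p none / 20) (max (u - 2 / 5 * p none) (12 / 25 * p none - b)) ≤ 0
  · rw [max_eq_left h1, add_zero]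
    exact val_pair hS p e
  rw [not_le] at h1
  rw [max_eq_right h1.le]
  obtain ⟨h2, h3⟩ := lt_min_iff.1 h1
  rcases le_total (u - 2 / 5 * p none) (12 / 25 * p none - b) with h4 | h4
  · rw [max_eq_right h4] at h3 ⊢
    obtain ⟨a, a1, a2, a3⟩ := val_two hS hv hp0 e (b := b) (by linarith)
      fun O => le_sup' (fun O => phi r C m O {v0 O} (pg p)) (mem_univ O)
    exact ⟨a, a1, a2, by linarith [min_le_right (p none / 20) (12 / 25 * p none - b)]⟩
  · rw [max_eq_left h4] at h3 ⊢
    refine val_drop hS hp0 (by linarith) hp1 e (by linarith) fun c => ?_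
    cases c
    exacts [min_le_right _ _, min_le_left _ _]

theorem wal (hS : Sy r C) (hm : 0 < m) {G : ℕ} (hG : Few r C G) (hn : 4 * (m * G + 1) ≤ n)
    {v0 : Bool × Fin n → W} (hv : ∀ O, v0 O ∈ C O) {p : Option W → ℝ} (hp : ∀ k, 0 ≤ p k) :
    103 / 100 * p none * (n : ℝ) ^ 2 ≤ ∑ e, B0 r C m v0 e p := by
  classical
  have h0 := hp none
  have hg : ∀ y, 0 ≤ pg p y := fun y => hp _
  obtain ⟨O, -, hO⟩ := exists_mem_eq_sup' (univ_nonempty (α := Bool × Fin n))
    fun O => phi r C m O {v0 O} (pg p)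
  set Bad := insert O (Exc r C m O (pg p)) with hBad
  have hBc : Bad.card ≤ m * G + 1 :=
    (card_insert_le _ _).trans (Nat.add_le_add_right (card_exc hS hG _) 1)
  have hgood : ∀ F, F ∉ Bad → phi r C m O {v0 O} (pg p) ≤ ms (pg p) (C F) := fun F hF => by
    rw [hBad, mem_insert, not_or] at hF
    exact (phi_le hS hm hg hF.1 hF.2 (singleton_subset_iff.2 (hv O)) (singleton_nonempty _)
      (J := C O) sdiff_subset).trans (ms_mono hg (filter_subset _ _))
  set T : Finset (Fin n × Fin n) := univ.filter fun e => sd e true ∈ Bad ∨ sd e false ∈ Bad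
    with hT
  have hTc : T.card ≤ Bad.card * n := by
    refine (card_le_card (t := (Bad ×ˢ (univ : Finset (Fin n))).image fun q =>
      if q.1.1 then (q.1.2, q.2) else (q.2, q.1.2)) fun e he => ?_).trans
      (card_image_le.trans (by simp))
    rcases (mem_filter.1 he).2 with h | h
    · exact mem_image.2 ⟨(sd e true, e.2), mem_product.2 ⟨h, mem_univ _⟩, by simp [sd]⟩
    · exact mem_image.2 ⟨(sd e false, e.1), mem_product.2 ⟨h, mem_univ _⟩, by simp [sd]⟩
  have hT4 : 4 * T.card ≤ n * n := by nlinarith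
  have hT4' : 4 * (T.card : ℝ) ≤ n * n := by exact_mod_cast hT4
  have hB : ∀ e, 26 / 25 * p none - (if e ∈ T then p none / 25 else 0) ≤ B0 r C m v0 e p := by
    intro e
    unfold B0
    rw [hO]
    split_ifs with he
    · linarith [le_max_left 0 (min (p none / 20)
        (max (min (ms (pg p) (C (sd e true))) (ms (pg p) (C (sd e false))) - 2 / 5 * p none)
          (12 / 25 * p none - phi r C m O {v0 O} (pg p))))]
    · rw [hT, mem_filter, not_and, not_or] at he
      obtain ⟨a1, a2⟩ := he (mem_univ _)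
      have a3 := le_min (hgood _ a1) (hgood _ a2)
      generalize min (ms (pg p) (C (sd e true))) (ms (pg p) (C (sd e false))) = u at a3 ⊢
      generalize phi r C m O {v0 O} (pg p) = b at a3 ⊢
      have a4 : p none / 25 ≤ min (p none / 20)
          (max (u - 2 / 5 * p none) (12 / 25 * p none - b)) := le_min (by linarith) (by
        linarith [le_max_left (u - 2 / 5 * p none) (12 / 25 * p none - b),
          le_max_right (u - 2 / 5 * p none) (12 / 25 * p none - b)])
      linarith [le_max_right 0 (min (p none / 20)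
        (max (u - 2 / 5 * p none) (12 / 25 * p none - b)))]
  refine le_trans ?_ (sum_le_sum fun e _ => hB e)
  rw [sum_sub_distrib, sum_const, ← sum_filter, filter_mem_eq_inter, univ_inter, sum_const,
    card_univ, Fintype.card_prod, Fintype.card_fin, nsmul_eq_mul, nsmul_eq_mul]
  push_cast
  nlinarith [mul_le_mul_of_nonneg_left hT4' h0]

end Pool.Agent.P.MP_a374b6_co.H
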