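import Pool.Agent.P.MP_a374b6_co.H.At
import Pool.Agent.P.MP_a374b6_co.H.Cen

/-! Three kinds of atoms of guaranteed value. -/

namespace Pool.Agent.P.MP_a374b6_co.H

open Finset

variable {W : Type} [Fintype W] [DecidableEq W] {n : ℕ} [NeZero n] {r : W → W → Prop}
  {C : Bool × Fin n → Finset W} {m : ℕ}

omit [NeZero n] in
theorem val1_mar {a : Atom n W} {p : Option W → ℝ} (h : Valid r C m a)
    (h' : ∀ b, 0 < mr r C m a p b) : 0 < mar r C m a p := by
  rw [mar, if_pos h]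
  exact lt_min (h' true) (h' false)

omit [NeZero n] in
theorem val1_cert (p : Option W → ℝ) (e : Fin n × Fin n) (b : Bool) {D : Finset W} {v : W}
    (hD : D ⊆ SS C e) (h1 : Cn r (SS C e \ D)) (hv : v ∈ C (sd e b))
    (h2 : ms (pg p) (D ∩ C (sd e (!b))) < p none / 6)
    (h3 : p none / 6 < phi r C m (sd e b) (insert v (D ∩ C (sd e b))) (pg p)) :
    ∃ a : Atom n W, a.1 = e ∧ 0 < mar r C m a p ∧
      ∑ k, p k * net C m a k = p none + ms (pg p) D := by
  refine ⟨(e, fun c => ⟨if c = b then 1 else 0, D, v, ∅, fun _ => ∅⟩), rfl,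
    val1_mar ⟨?_, fun c hc => ?_, fun c hc => ?_⟩ fun c => ?_, ?_⟩
  · cases b <;> simp [base]
  · obtain rfl : c = b := by
      by_contra h
      simp [h] at hc
    exact ⟨by simp, h1, hv⟩
  · by_cases h : c = b <;> simp [h] at hc
  · by_cases h : c = b
    · subst h
      simpa [mr] using ⟨h2, h3⟩
    · simp [mr, h]
  · rw [value_eq]
    cases b <;> simp [cnt, spl, base, Finset.sdiff_sdiff_eq_self hD]

omit [NeZero n] in
theorem val1_own (hS : Sy r C) (p : Option W → ℝ) (e : Fin n × Fin n) (b : Bool) {Z : Finset W}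
    {T : Finset (Finset W)} {L : Finset W → Finset W} (hZ : Z ⊆ C (sd e (!b)))
    (h1 : Own r C (sd e b) Z T) (h2 : Ok r C m (sd e b) T L) :
    ∃ a : Atom n W, a.1 = e ∧ 0 < mar r C m a p ∧ ∑ k, p k * net C m a k =
      p none + ms (pg p) (SS C e \ (C (sd e b) ∪ Z)) - 26 / 25 * cost m T L (pg p) := by
  obtain ⟨v, -⟩ := hS.ne (sd e b)
  refine ⟨(e, fun c => ⟨if c = b then 2 else 0, Z, v, T, L⟩), rfl,
    val1_mar ⟨?_, fun c hc => ?_, fun c hc => ?_⟩ fun c => ?_, ?_⟩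
  · cases b <;> simp [base]
  · by_cases h : c = b <;> simp [h] at hc
  · obtain rfl : c = b := by
      by_contra h
      simp [h] at hc
    exact ⟨hZ, h1, h2⟩
  · by_cases h : c = b <;> simp [mr, h]
  · rw [value_eq]
    cases b <;> simp [cnt, spl, base]

theorem val_pair (hS : Sy r C) (p : Option W → ℝ) (e : Fin n × Fin n) :
    ∃ a : Atom n W, a.1 = e ∧ 0 < mar r C m a p ∧ p none ≤ ∑ k, p k * net C m a k := by
  obtain ⟨a, h1, h2, h3⟩ := val1_own (m := m) (L := fun _ => ∅) hS p e true Subset.rfl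
    (own_pair hS (sd_ne e true).symm) (fun _ h => absurd h (notMem_empty _))
  refine ⟨a, h1, h2, ?_⟩
  rw [h3, SS_eq e true, Finset.sdiff_self, ms_empty]
  simp [cost]

theorem val_two (hS : Sy r C) {v0 : Bool × Fin n → W} (hv : ∀ O, v0 O ∈ C O)
    {p : Option W → ℝ} (hp : ∀ k, 0 ≤ p k) (e : Fin n × Fin n) {b : ℝ} (hb : b < 2)
    (h : ∀ O, phi r C m O {v0 O} (pg p) ≤ b) :
    ∃ a : Atom n W, a.1 = e ∧ 0 < mar r C m a p ∧
      2 * p none - 52 / 25 * b ≤ ∑ k, p k * net C m a k := by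
  choose T L h1 h2 h3 using fun O => phi_attained ((h O).trans_lt hb)
  refine ⟨(e, fun c => ⟨2, ∅, v0 (sd e c), T (sd e c), L (sd e c)⟩), rfl,
    val1_mar ⟨?_, fun c hc => ?_, fun c _ => ⟨empty_subset _, ?_, h2 _⟩⟩ fun c => ?_, ?_⟩
  · simpa [base] using hS.disj _ _ (sd_ne e true)
  · simp at hc
  · have h4 : {v0 (sd e c)} ∩ C (sd e c) = {v0 (sd e c)} := singleton_inter_of_mem (hv _)
    refine own_of_lnk hS (cn_singleton (v0 (sd e c))) (empty_subset _) (by simpa using hv _) ?_ ?_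
    · exact h4.symm ▸ singleton_nonempty _
    · exact h4.symm ▸ h1 _
  · simp [mr]
  · rw [value_eq]
    have h4 := ms_nonneg (g := pg p) (fun y => hp _)
      (spl C (e, fun c => ⟨2, ∅, v0 (sd e c), T (sd e c), L (sd e c)⟩))
    have h5 := h (sd e true)
    have h6 := h (sd e false)
    simp only [cnt, Fintype.sum_bool, h3, if_true, Fin.reduceEq, if_false]
    linarith

theorem val_drop (hS : Sy r C) {p : Option W → ℝ} (hp : ∀ k, 0 ≤ p k) (h0 : 0 < p none)
    (h1 : p none ≤ 1) (e : Fin n × Fin n) {u : ℝ} (hu : 2 / 5 * p none ≤ u)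
    (h : ∀ b, u ≤ ms (pg p) (C (sd e b))) :
    ∃ a : Atom n W, a.1 = e ∧ 0 < mar r C m a p ∧
      p none + min (p none / 20) (u - 2 / 5 * p none) ≤ ∑ k, p k * net C m a k := by
  have hg : ∀ y, 0 ≤ pg p y := fun y => hp _
  have hb : ∀ x ∈ SS C e, ∃ b, x ∈ C (sd e b) ∧ x ∉ C (sd e (!b)) := fun x hx => by
    rcases mem_union.1 hx with hx | hx
    · exact ⟨true, hx, disjoint_left.1 (hS.disj _ _ (sd_ne e true)) hx⟩
    · exact ⟨false, hx, disjoint_left.1 (hS.disj _ _ (sd_ne e false)) hx⟩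
  obtain ⟨D, hD, v, hv, h2, h3, h4, h5⟩ := drop hS.symm (S := SS C e)
    (hS.conn _ _ (sd_ne e true)) (sub_ms hg) (a := p none / 12) (by linarith) fun x hx => by
      obtain ⟨b, -, hb⟩ := hb x hx
      have h2 : C (sd e (!b)) ⊆ (SS C e).erase x :=
        subset_erase.2 ⟨SS_eq (C := C) e b ▸ subset_union_right, hb⟩
      linarith [ms_mono hg h2, h (!b)]
  obtain ⟨b, hvb, hvb'⟩ := hb v hv
  have h6 : ms (pg p) (D ∩ C (sd e (!b))) < p none / 6 := by
    have h6 : D ∩ C (sd e (!b)) ⊆ D.erase v :=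
      subset_erase.2 ⟨inter_subset_left, fun h => hvb' (mem_inter.1 h).2⟩
    linarith [ms_mono hg h6]
  by_cases h7 : p none / 6 < phi r C m (sd e b) (insert v (D ∩ C (sd e b))) (pg p)
  · obtain ⟨a, k1, k2, k3⟩ := val1_cert p e b hD h2 hvb h6 h7
    exact ⟨a, k1, k2, by linarith [min_le_left (p none / 20) (u - 2 / 5 * p none)]⟩
  push Not at h7
  obtain ⟨T, L, k1, k2, k3⟩ := phi_attained (h7.trans_lt (by linarith))
  have h8 : insert v D ∩ C (sd e b) = insert v (D ∩ C (sd e b)) := insert_inter_of_mem hvb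
  have h9 : Own r C (sd e b) (D ∩ C (sd e (!b))) T := by
    refine own_of_lnk hS h3 (inter_subset_left.trans (subset_insert v D)) (fun x hx => ?_)
      (h8 ▸ insert_nonempty _ _) (h8 ▸ k1)
    rcases mem_insert.1 hx with rfl | hx
    · exact mem_union_left _ hvb
    · have h9 := hD hx
      rw [SS_eq e b, mem_union] at h9
      exact mem_union.2 (h9.imp_right fun h => mem_inter.2 ⟨hx, h⟩)
  obtain ⟨a, j1, j2, j3⟩ := val1_own hS p e b inter_subset_right h9 k2
  have j4 : C (sd e (!b)) ⊆ (SS C e \ (C (sd e b) ∪ D ∩ C (sd e (!b)))) ∪ D ∩ C (sd e (!b)) := by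
    intro x hx
    have j4 : x ∉ C (sd e b) := disjoint_right.1 (hS.disj _ _ (sd_ne e b)) hx
    by_cases hxD : x ∈ D <;> simp [SS_eq e b, hx, hxD, j4]
  refine ⟨a, j1, j2, ?_⟩
  linarith [ms_le_of_sub_union hg j4, h (!b), min_le_right (p none / 20) (u - 2 / 5 * p none)]

end Pool.Agent.P.MP_a374b6_co.H
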