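import Pool.Agent.P.MP_a374b6_co.H.Wb

/-! Extension of a side by legs, and typed legs. -/

namespace Pool.Agent.P.MP_a374b6_co.H

open Finset

variable {W ι α : Type} [DecidableEq W] [DecidableEq ι] [Fintype α] [DecidableEq α]
  {r : W → W → Prop} {nb : W → Finset α} {C : ι → Finset W} {R : Finset ι} {μ : α → ℝ}
  {d : Dat W} {e : ℕ} {a b a' b' : ι}

theorem w2_split (hp : Prob μ) {S : Finset W} (h : Dbl r nb μ d S) (hS : cov nb S = univ)
    (k : Bool) {A : Finset (Finset W)} (hA : A ⊆ d.L S k) {T : Finset α}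
    (hT : 5 / 10000 ≤ ms μ (cov nb (un A) ∩ T)) :
    ∃ M ⊆ A, 2 / 10000 ≤ ms μ (cov nb (un M) ∩ T) ∧ 2 / 3 ≤ fv nb μ (S \ un M) := by
  have hE := h.1 k
  have hh := sub_cov_un (nb := nb) hp T
  obtain ⟨M, hM, m1, m2⟩ := sel (L := A) hh (k := 1 / 10000) (y := 2 / 10000) (fun K hK => by
    rw [un_singleton]
    exact (ms_mono hp.1 inter_subset_left).trans (hE.leg K (hA hK))) (by norm_num)
    (by linarith)
  have e1 := hh.union M (A \ M)
  rw [union_sdiff_of_subset hM] at e1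
  beta_reduce at e1 m1 m2
  have sub : ∀ M' ⊆ A, (cov nb (S \ un M'))ᶜ ⊆ Ee nb d S k := fun M' hM' =>
    compl_subset_compl.2 (cov_mono (sdiff_subset_sdiff Subset.rfl
      ((hE.spi.legs.un_sub (hM'.trans hA)).trans (erase_subset _ _))))
  have hd : Disjoint (cov nb (S \ un M))ᶜ (cov nb (S \ un (A \ M)))ᶜ := by
    refine disjoint_left.2 fun s hs hs' => ?_
    obtain ⟨x, hx, hsx⟩ := mem_cov.1 (show s ∈ cov nb S by rw [hS]; exact mem_univ s)
    have hd' := hE.spi.legs.pd.disjoint_un (hM.trans hA) (sdiff_subset.trans hA)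
      (disjoint_sdiff (s := M) (t := A))
    by_cases hxM : x ∈ un M
    · exact mem_compl.1 hs'
        (mem_cov.2 ⟨x, mem_sdiff.2 ⟨hx, disjoint_left.1 hd' hxM⟩, hsx⟩)
    · exact mem_compl.1 hs (mem_cov.2 ⟨x, mem_sdiff.2 ⟨hx, hxM⟩, hsx⟩)
  have e2 := ms_union_of_disj (g := μ) hd
  have e3 := ms_mono hp.1 (union_subset (sub M hM) (sub (A \ M) sdiff_subset))
  have e4 := (h.ee hp hS k).2.1
  rw [hp.compl, hp.compl] at e2
  by_cases hc : 2 / 3 ≤ fv nb μ (S \ un M)
  · exact ⟨M, hM, m1, hc⟩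
  · refine ⟨A \ M, sdiff_subset, by linarith, ?_⟩
    unfold fv at hc ⊢
    linarith [not_le.1 hc]

theorem DC.half_of_ext (h : DC r nb C R μ d e) (ha : a ∈ R) (hb : b ∈ R) (ha' : a' ∈ R)
    (hb' : b' ∈ R) (hab : a ≠ b) (hab' : a' ≠ b') (h1 : a ≠ a') (h2 : a ≠ b') (h3 : b ≠ a')
    (h4 : b ≠ b') (hx : Ext r nb μ d (C a ∪ C b) (C a' ∪ C b')) :
    Half r nb C μ {a, b, a', b'} := by
  classical
  obtain ⟨c, k, hx⟩ := hx
  have hsy := h.ctx.sy
  have hp := h.ctx.pb
  have hD := h.dbl a ha b hb hab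
  have hD' := h.dbl a' ha' b' hb' hab'
  have hS : cov nb (C a ∪ C b) = univ := h.ctx.cov_eq ha subset_union_left
  have hS' : cov nb (C a' ∪ C b') = univ := h.ctx.cov_eq ha' subset_union_left
  have hSS : Disjoint (C a ∪ C b) (C a' ∪ C b') := by
    rw [disjoint_union_left, disjoint_union_right, disjoint_union_right]
    exact ⟨⟨hsy.disj _ _ h1, hsy.disj _ _ h2⟩, hsy.disj _ _ h3, hsy.disj _ _ h4⟩
  have hQ : ({a, b, a', b'} : Finset ι).biUnion C = (C a ∪ C b) ∪ (C a' ∪ C b') := by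
    rw [biUnion_insert, biUnion_insert, biUnion_insert, singleton_biUnion, union_assoc]
  obtain ⟨M, hM, m1, m2⟩ := w2_split hp hD' hS' k (A := tl r d (C a' ∪ C b') k
    (side d (C a ∪ C b) c)) (filter_subset _ _) (T := (cov nb (side d (C a ∪ C b) c))ᶜ)
    (by rwa [← sdiff_eq_inter_compl])
  obtain ⟨s1, s2, -, s4, -, s6, -⟩ := hD.side_facts hsy.symm hp hS c
  obtain ⟨t1, t2, -, -, -, t6, -⟩ := hD.side_facts hsy.symm hp hS (!c)
  have hE := hD'.1 k
  have hML : M ⊆ d.L (C a' ∪ C b') k := hM.trans (filter_subset _ _)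
  have hMS : un M ⊆ C a' ∪ C b' :=
    (hE.spi.legs.un_sub hML).trans ((erase_subset _ _).trans hE.spi.sub)
  have c1 : Cn r ((C a' ∪ C b') \ un M) := hE.spi.cn_drop hsy.symm hML
  have c2 : Cn r (side d (C a ∪ C b) c ∪ un M) :=
    s1.attach hsy.symm fun K hK =>
      ⟨hE.spi.legs.cn K (hML hK), (mem_filter.1 (hM hK)).2.symm hsy.symm⟩
  have f2 : 1 / 2 + 1 / 10000 ≤ fv nb μ (side d (C a ∪ C b) c ∪ un M) := by
    have e1 := ms_inter_add_sdiff (g := μ) (cov nb (side d (C a ∪ C b) c ∪ un M))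
      (cov nb (side d (C a ∪ C b) c))
    have e2 : ms μ (cov nb (side d (C a ∪ C b) c)) ≤
        ms μ (cov nb (side d (C a ∪ C b) c ∪ un M) ∩ cov nb (side d (C a ∪ C b) c)) :=
      ms_mono hp.1 (subset_inter (cov_mono subset_union_left) Subset.rfl)
    have e3 : ms μ (cov nb (un M) ∩ (cov nb (side d (C a ∪ C b) c))ᶜ) ≤
        ms μ (cov nb (side d (C a ∪ C b) c ∪ un M) \ cov nb (side d (C a ∪ C b) c)) := by
      rw [sdiff_eq_inter_compl]
      exact ms_mono hp.1 (inter_subset_inter (cov_mono subset_union_right) Subset.rfl)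
    unfold fv at s6 ⊢
    linarith
  have g0 : Cores r nb C μ (1 / 10000) 2 {a, b, a', b'} ∅ :=
    ⟨fun N hN => absurd hN (notMem_empty N), fun N hN => absurd hN (notMem_empty N)⟩
  obtain ⟨g1, g2⟩ := g0.ins (c2.pre (by norm_num))
    (by rw [hQ]; exact union_subset_union s2 hMS) f2 fun N hN => absurd hN (notMem_empty N)
  obtain ⟨g3, g4⟩ := g1.ins (c1.pre (by norm_num))
    (by rw [hQ]; exact sdiff_subset.trans subset_union_right) (by linarith) (by
      intro N hN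
      rcases mem_insert.1 hN with e | hN
      · rw [e, disjoint_union_right]
        exact ⟨hSS.symm.mono sdiff_subset s2, sdiff_disjoint⟩
      · exact absurd hN (notMem_empty N))
  refine ⟨_, side d (C a ∪ C b) (!c), g3, by rw [g4, g2, card_empty], t1,
    by rw [hQ]; exact t2.trans subset_union_left, by linarith, fun N hN => ?_⟩
  rcases mem_insert.1 hN with e | hN
  · rw [e]
    exact hSS.symm.mono sdiff_subset t2
  · rcases mem_insert.1 hN with e | hN
    · rw [e, disjoint_union_left]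
      exact ⟨s4, hSS.symm.mono hMS t2⟩
    · exact absurd hN (notMem_empty N)

theorem DC.typed_cov (h : DC r nb C R μ d e) (ha : a ∈ R) (hb : b ∈ R) (ha' : a' ∈ R)
    (hb' : b' ∈ R) (hab : a ≠ b) (hab' : a' ≠ b')
    (hx : ¬ Ext r nb μ d (C a ∪ C b) (C a' ∪ C b')) (c k : Bool) {T : Finset α}
    (hT : T ⊆ Ee nb d (C a' ∪ C b') k) (ht : Typ nb μ d (C a ∪ C b) T) :
    ms μ T / 4 - 7 / 10000 ≤
      ms μ (cov nb (un (ntl r d (C a' ∪ C b') k (side d (C a ∪ C b) (!c)))) ∩ T) := by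
  classical
  have hsy := h.ctx.sy
  have hp := h.ctx.pb
  have hD := h.dbl a ha b hb hab
  have hS : cov nb (C a ∪ C b) = univ := h.ctx.cov_eq ha subset_union_left
  obtain ⟨-, -, s3, -, -, -, s7⟩ := hD.side_facts hsy.symm hp hS c
  have e1 := ht c
  have e2 : ms μ (cov nb (un (tl r d (C a' ∪ C b') k (side d (C a ∪ C b) (!c)))) \
      cov nb (side d (C a ∪ C b) (!c))) < 5 / 10000 :=
    not_le.1 fun h' => hx ⟨!c, k, h'⟩
  have e3 : cov nb (d.X (C a ∪ C b) c) ∩ T ⊆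
      (cov nb (side d (C a ∪ C b) c) ∩ cov nb (side d (C a ∪ C b) (!c))) ∪
      ((cov nb (un (tl r d (C a' ∪ C b') k (side d (C a ∪ C b) (!c)))) \
        cov nb (side d (C a ∪ C b) (!c))) ∪
      (cov nb (un (ntl r d (C a' ∪ C b') k (side d (C a ∪ C b) (!c)))) ∩ T)) := by
    intro s hs
    rw [mem_inter] at hs
    by_cases h1 : s ∈ cov nb (side d (C a ∪ C b) (!c))
    · exact mem_union_left _ (mem_inter.2 ⟨cov_mono s3 hs.1, h1⟩)
    refine mem_union_right _ ?_
    obtain ⟨K, hK, hsK⟩ := mem_cov_un.1 (h.ee_leg ha' hb' hab' k (hT hs.2))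
    by_cases h2 : Tch r K (side d (C a ∪ C b) (!c))
    · exact mem_union_left _ (mem_sdiff.2 ⟨mem_cov_un.2 ⟨K, mem_filter.2 ⟨hK, h2⟩, hsK⟩, h1⟩)
    · exact mem_union_right _
        (mem_inter.2 ⟨mem_cov_un.2 ⟨K, mem_filter.2 ⟨hK, h2⟩, hsK⟩, hs.2⟩)
  have e4 := ms_le_of_sub_union hp.1 e3
  have e5 := ms_union_le hp.1
    (cov nb (un (tl r d (C a' ∪ C b') k (side d (C a ∪ C b) (!c)))) \
        cov nb (side d (C a ∪ C b) (!c)))
    (cov nb (un (ntl r d (C a' ∪ C b') k (side d (C a ∪ C b) (!c)))) ∩ T)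
  linarith

/-- Deleting the legs through two given points costs little. -/
theorem Dbl.avoid (hp : Prob μ) {S : Finset W} (h : Dbl r nb μ d S) (k : Bool)
    {M : Finset (Finset W)} (hM : M ⊆ d.L S k) (x y : W) :
    ∃ M' ⊆ M, x ∉ un M' ∧ y ∉ un M' ∧ ∀ T : Finset α,
      ms μ (cov nb (un M) ∩ T) - 2 / 10000 ≤ ms μ (cov nb (un M') ∩ T) := by
  have hE := h.1 k
  have key : ∀ (z : W) (T : Finset α),
      ms μ (cov nb (un (M.filter fun K => z ∈ K)) ∩ T) ≤ 1 / 10000 := by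
    intro z T
    rcases (M.filter fun K => z ∈ K).eq_empty_or_nonempty with h0 | ⟨K, hK⟩
    · rw [h0, un_empty, cov_empty, empty_inter, ms_empty]
      norm_num
    · rw [mem_filter] at hK
      refine le_trans (ms_mono hp.1 (inter_subset_left.trans (cov_mono fun w hw => ?_)))
        (hE.leg K (hM hK.1))
      obtain ⟨K', hK', hw⟩ := mem_un.1 hw
      rw [mem_filter] at hK'
      rwa [hE.spi.legs.pd.eq_of_mem (hM hK.1) (hM hK'.1) hK.2 hK'.2]
  refine ⟨M.filter fun K => x ∉ K ∧ y ∉ K, filter_subset _ _, fun hx => ?_, fun hy => ?_,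
    fun T => ?_⟩
  · obtain ⟨K, hK, hx⟩ := mem_un.1 hx
    exact (mem_filter.1 hK).2.1 hx
  · obtain ⟨K, hK, hy⟩ := mem_un.1 hy
    exact (mem_filter.1 hK).2.2 hy
  · have hh := sub_cov_un (nb := nb) hp T
    have e1 := hh.mono M ((M.filter fun K => x ∉ K ∧ y ∉ K) ∪
      ((M.filter fun K => x ∈ K) ∪ (M.filter fun K => y ∈ K))) (by
        intro K hK
        simp only [mem_union, mem_filter]
        tauto)
    have e2 := hh.union (M.filter fun K => x ∉ K ∧ y ∉ K)
      ((M.filter fun K => x ∈ K) ∪ (M.filter fun K => y ∈ K))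
    have e3 := hh.union (M.filter fun K => x ∈ K) (M.filter fun K => y ∈ K)
    have e4 := key x T
    have e5 := key y T
    beta_reduce at e1 e2 e3
    linarith

end Pool.Agent.P.MP_a374b6_co.H
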