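import Pool.Agent.P.MP_a374b6_co.H.W2

/-! One half of the construction with typed legs. -/

namespace Pool.Agent.P.MP_a374b6_co.H

open Finset

variable {W ι α : Type} [DecidableEq W] [DecidableEq ι] [Fintype α] [DecidableEq α]
  {r : W → W → Prop} {nb : W → Finset α} {C : ι → Finset W} {R : Finset ι} {μ : α → ℝ}
  {d : Dat W} {e : ℕ}

omit [DecidableEq ι] [Fintype α] [DecidableEq α] in
theorem w3_mem_ntl {S Z K : Finset W} {k : Bool} :
    K ∈ ntl r d S k Z ↔ K ∈ d.L S k ∧ ¬ Tch r K Z := by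
  simp [ntl]

omit [DecidableEq ι] [Fintype α] [DecidableEq α] in
theorem w3_ntl_sub {S Z : Finset W} {k : Bool} : ntl r d S k Z ⊆ d.L S k :=
  fun _ h => (w3_mem_ntl.1 h).1

omit [DecidableEq ι] [Fintype α] [DecidableEq α] in
theorem w3_not_tch {S Z : Finset W} {k : Bool} {M : Finset (Finset W)} (hM : M ⊆ ntl r d S k Z)
    {x y : W} (hx : x ∈ un M) (hy : y ∈ Z) : ¬ r x y := fun hr => by
  obtain ⟨K, h1, h2⟩ := mem_un.1 hx
  exact (w3_mem_ntl.1 (hM h1)).2 ⟨x, h2, y, hy, hr⟩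

theorem DC.typed_half (h : DC r nb C R μ d e) {a b E F G : ι} (ha : a ∈ R) (hb : b ∈ R)
    (hE : E ∈ R) (hF : F ∈ R) (hG : G ∈ R) (hab : a ≠ b) (hEF : E ≠ F) (hEG : E ≠ G)
    (hFG : F ≠ G) (haE : a ≠ E) (haF : a ≠ F) (haG : a ≠ G) (hbE : b ≠ E) (hbF : b ≠ F)
    (hbG : b ≠ G) (hx1 : ¬ Ext r nb μ d (C a ∪ C b) (C E ∪ C G))
    (hx2 : ¬ Ext r nb μ d (C a ∪ C b) (C E ∪ C F)) (hc : Crs nb μ d (C E ∪ C G) (C E ∪ C F))
    (b0 b1 c : Bool) (hu : d.u (C E ∪ C F) b1 ≠ d.u (C E ∪ C G) b0)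
    (t1 : Typ nb μ d (C a ∪ C b) (Ee nb d (C E ∪ C G) b0 ∩ Ee nb d (C E ∪ C F) b1))
    (t2 : Typ nb μ d (C a ∪ C b) (Ee nb d (C E ∪ C G) b0 ∩ Ee nb d (C E ∪ C F) (!b1)))
    (t3 : Typ nb μ d (C a ∪ C b) (Ee nb d (C E ∪ C F) b1)) (w : W) :
    ∃ P Z : Finset W, Pre r nb μ (1 / 10000) 2 P ∧ 1 / 2 + 1 / 10000 ≤ fv nb μ P ∧ Cn r Z ∧
      1 / 30 ≤ fv nb μ Z ∧ Disjoint P Z ∧ Z ⊆ C E ∪ C F ∧
      ∀ x ∈ P, x ∈ C E ∪ C F ∨ x = d.u (C E ∪ C G) b0 ∨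
        (x ∈ C E ∪ C G ∧ x ≠ w ∧ ¬ Tch r {x} (side d (C a ∪ C b) (!c))) := by
  have hs := h.ctx.sy.symm
  have hp := h.ctx.pb
  have D0 := h.dbl a ha b hb hab
  have D1 := h.dbl E hE G hG hEG
  have D2 := h.dbl E hE F hF hEF
  have c0 : cov nb (C a ∪ C b) = univ := h.ctx.cov_eq ha subset_union_left
  have c2 : cov nb (C E ∪ C F) = univ := h.ctx.cov_eq hE subset_union_left
  obtain ⟨L1, l1, l2, l3, l4⟩ := D1.avoid hp b0
    (w3_ntl_sub (r := r) (Z := side d (C a ∪ C b) (!c))) (d.u (C E ∪ C F) b1) w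
  obtain ⟨L2, m1, m2, -, m4⟩ := D2.avoid hp b1
    (w3_ntl_sub (r := r) (Z := side d (C a ∪ C b) (!(!c)))) (d.u (C E ∪ C G) b0) w
  have k1 := h.typed_cov ha hb hE hG hab hEG hx1 c b0 inter_subset_left t1
  have k2 := h.typed_cov ha hb hE hG hab hEG hx1 c b0 inter_subset_left t2
  have k3 := h.typed_cov ha hb hE hF hab hEF hx2 (!c) b1 Subset.rfl t3
  have g1 := l4 (Ee nb d (C E ∪ C G) b0 ∩ Ee nb d (C E ∪ C F) b1)
  have g2 := l4 (Ee nb d (C E ∪ C G) b0 ∩ Ee nb d (C E ∪ C F) (!b1))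
  have g3 := m4 (Ee nb d (C E ∪ C F) b1)
  have e1 := hc b0 b1
  have e2 := hc b0 (!b1)
  have e3 := (D2.ee hp c2 b1).1
  have s1 := (D1.1 b0).spi
  have s2 := (D2.1 b1).spi
  have x1 : un L1 ⊆ C E ∪ C G :=
    ((s1.legs.un_sub (l1.trans w3_ntl_sub)).trans (erase_subset _ _)).trans s1.sub
  have x2 : insert (d.u (C E ∪ C F) b1) (un L2) ⊆ d.X (C E ∪ C F) b1 :=
    insert_subset s2.legs.mem ((s2.legs.un_sub (m1.trans w3_ntl_sub)).trans (erase_subset _ _))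
  obtain ⟨-, y1, -, y2⟩ := D2.cn_X hs b1
  refine ⟨(C E ∪ C F) \ d.X (C E ∪ C F) b1 ∪ insert (d.u (C E ∪ C G) b0) (un L1),
    insert (d.u (C E ∪ C F) b1) (un L2), ?_, ?_, s2.legs.cn_star hs (m1.trans w3_ntl_sub), ?_, ?_,
    x2.trans s2.sub, fun x hx => ?_⟩
  · refine Pre.union (j := 1) (j' := 1) hs hp (y1.pre le_rfl)
      ((s1.legs.cn_star hs (l1.trans w3_ntl_sub)).pre le_rfl) (Or.inr (Or.inr ?_))
    refine le_trans (by linarith) (ms_mono hp.1 (S := cov nb (un L1) ∩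
      (Ee nb d (C E ∪ C G) b0 ∩ Ee nb d (C E ∪ C F) (!b1))) fun z hz => ?_)
    obtain ⟨z1, z2⟩ := mem_inter.1 hz
    exact mem_inter.2 ⟨cov_mono y2 ((D2.ee hp c2 (!b1)).2.2.1 (mem_inter.1 z2).2),
      cov_mono (subset_insert _ _) z1⟩
  · have f1 := (D2.fv_ge hp c2 b1).2.1
    have f2 : Disjoint (cov nb ((C E ∪ C F) \ d.X (C E ∪ C F) b1))
        (cov nb (un L1) ∩ (Ee nb d (C E ∪ C G) b0 ∩ Ee nb d (C E ∪ C F) b1)) :=
      disjoint_left.2 fun z z1 z2 => mem_compl.1 (mem_inter.1 (mem_inter.1 z2).2).2 z1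
    have f3 := ms_union_of_disj (g := μ) f2
    refine le_trans ?_ (f3.ge.trans (ms_mono hp.1 (union_subset (cov_mono subset_union_left)
      (inter_subset_left.trans (cov_mono ((subset_insert _ _).trans subset_union_right))))))
    unfold fv at f1
    linarith
  · exact le_trans (by linarith) (ms_mono hp.1 (S := cov nb (un L2) ∩ Ee nb d (C E ∪ C F) b1)
      (inter_subset_left.trans (cov_mono (subset_insert _ _))))
  · refine disjoint_left.2 fun x h1 h2 => ?_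
    rcases mem_union.1 h1 with h1 | h1
    · exact (mem_sdiff.1 h1).2 (x2 h2)
    rcases mem_insert.1 h1 with rfl | h1 <;> rcases mem_insert.1 h2 with h2 | h2
    · exact hu h2.symm
    · exact m2 h2
    · exact l2 (h2 ▸ h1)
    · have : ∃ y ∈ C a, r x y := by
        rcases mem_union.1 (x1 h1) with h3 | h3
        · exact h.ctx.sy.nbr haE.symm h3
        · exact h.ctx.sy.nbr haG.symm h3
      obtain ⟨y, hy, hr⟩ := this
      have h4 : y ∈ side d (C a ∪ C b) (!c) ∪ side d (C a ∪ C b) (!(!c)) := by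
        rw [(D0.side_facts hs hp c0 (!c)).2.2.2.2.1]
        exact mem_union_left _ hy
      rcases mem_union.1 h4 with h4 | h4
      · exact w3_not_tch l1 h1 h4 hr
      · exact w3_not_tch m1 h2 h4 hr
  · rcases mem_union.1 hx with h1 | h1
    · exact Or.inl (mem_sdiff.1 h1).1
    rcases mem_insert.1 h1 with h1 | h1
    · exact Or.inr (Or.inl h1)
    · refine Or.inr (Or.inr ⟨x1 h1, fun e => l3 (e ▸ h1), ?_⟩)
      rintro ⟨x', hx', y, hy, hr⟩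
      rw [mem_singleton.1 hx'] at hr
      exact w3_not_tch l1 h1 hy hr

end Pool.Agent.P.MP_a374b6_co.H
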