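import Pool.Agent.P.MP_a374b6_co.H.W3
import Pool.Agent.P.MP_a374b6_co.H.W2

/-! The construction with typed legs. -/

namespace Pool.Agent.P.MP_a374b6_co.H

open Finset

variable {W ι α : Type} [DecidableEq W] [DecidableEq ι] [Fintype α] [DecidableEq α]
  {r : W → W → Prop} {nb : W → Finset α} {C : ι → Finset W} {R : Finset ι} {μ : α → ℝ}
  {d : Dat W} {e : ℕ}

theorem w4_pick {S : Finset W} (h : Dbl r nb μ d S) (x : W) : ∃ c, d.u S c ≠ x := by
  by_cases h1 : d.u S false = x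
  · exact ⟨true, fun h2 => h.u_ne false (h1.trans h2.symm)⟩
  · exact ⟨false, h1⟩

theorem w4_sub {A B D P : Finset W} {u : W} {q : W → Prop} (hu : u ∈ A ∪ D)
    (h : ∀ x ∈ P, x ∈ A ∪ B ∨ x = u ∨ (x ∈ A ∪ D ∧ q x)) : P ⊆ A ∪ B ∪ D := by
  have h1 : A ∪ D ⊆ A ∪ B ∪ D := union_subset_union subset_union_left Subset.rfl
  intro x hx
  rcases h x hx with k | k | k
  · exact mem_union_left _ k
  · exact h1 (k ▸ hu)
  · exact h1 k.1

theorem DC.typed_semi (h : DC r nb C R μ d e) (hR : 6 * e + 7 ≤ R.card)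
    (hx : ∀ a ∈ R, ∀ b ∈ R, ∀ a' ∈ R, ∀ b' ∈ R, a ≠ b → a' ≠ b' → a ≠ a' → a ≠ b' → b ≠ a' →
      b ≠ b' → ¬ Ext r nb μ d (C a ∪ C b) (C a' ∪ C b'))
    {E F G E' F' : ι} (hE : E ∈ R) (hF : F ∈ R) (hG : G ∈ R) (hE' : E' ∈ R) (hF' : F' ∈ R)
    (hEF : E ≠ F) (hEG : E ≠ G) (hFG : F ≠ G) (hEF' : E' ≠ F') (hEG' : E' ≠ G) (hFG' : F' ≠ G)
    (h1 : E ≠ E') (h2 : E ≠ F') (h3 : F ≠ E') (h4 : F ≠ F')
    (hc : Crs nb μ d (C E ∪ C G) (C E ∪ C F)) (hc' : Crs nb μ d (C E' ∪ C G) (C E' ∪ C F')) :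
    Semi r nb C μ {E, F, G, E', F'} := by
  have hsy := h.ctx.sy
  have hp := h.ctx.pb
  have dEG := h.dbl E hE G hG hEG
  have dEF := h.dbl E hE F hF hEF
  have dEG' := h.dbl E' hE' G hG hEG'
  have dEF' := h.dbl E' hE' F' hF' hEF'
  obtain ⟨b1, hb1⟩ := w4_pick dEF (d.u (C E ∪ C G) false)
  obtain ⟨b0', hb0'⟩ := w4_pick dEG' (d.u (C E ∪ C G) false)
  obtain ⟨b1', hb1'⟩ := w4_pick dEF' (d.u (C E' ∪ C G) b0')
  have big := (dEF.ee hp (h.ctx.cov_eq hE subset_union_left) b1).1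
  have big' := (dEF'.ee hp (h.ctx.cov_eq hE' subset_union_left) b1').1
  have hQ : ({E, F, G, E', F'} : Finset ι).card ≤ 5 := card_le_five
  obtain ⟨a, ha, b, hb, haQ, hbQ, hab, ht⟩ := h.exists_typ (univ : Finset (Fin 6))
    ![Ee nb d (C E ∪ C G) false ∩ Ee nb d (C E ∪ C F) b1,
      Ee nb d (C E ∪ C G) false ∩ Ee nb d (C E ∪ C F) (!b1), Ee nb d (C E ∪ C F) b1,
      Ee nb d (C E' ∪ C G) b0' ∩ Ee nb d (C E' ∪ C F') b1',
      Ee nb d (C E' ∪ C G) b0' ∩ Ee nb d (C E' ∪ C F') (!b1'), Ee nb d (C E' ∪ C F') b1']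
    (by
      intro i _
      fin_cases i
      · exact hc _ _
      · exact hc _ _
      · exact le_trans (by norm_num) big
      · exact hc' _ _
      · exact hc' _ _
      · exact le_trans (by norm_num) big') {E, F, G, E', F'}
    (by rw [card_univ, Fintype.card_fin]; omega)
  simp only [mem_insert, mem_singleton, not_or] at haQ hbQ
  obtain ⟨a1, a2, a3, a4, a5⟩ := haQ
  obtain ⟨c1, c2, c3, c4, c5⟩ := hbQ
  obtain ⟨P, Z, p1, p2, z1, z2, pz, z3, p3⟩ := h.typed_half ha hb hE hF hG hab hEF hEG hFG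
    a1 a2 a3 c1 c2 c3 (hx a ha b hb E hE G hG hab hEG a1 a3 c1 c3)
    (hx a ha b hb E hE F hF hab hEF a1 a2 c1 c2) hc false b1 false hb1
    (ht 0 (mem_univ _)) (ht 1 (mem_univ _)) (ht 2 (mem_univ _)) (d.u (C E' ∪ C G) b0')
  obtain ⟨P', Z', p1', p2', z1', z2', pz', z3', p3'⟩ := h.typed_half ha hb hE' hF' hG hab hEF'
    hEG' hFG' a4 a5 a3 c4 c5 c3 (hx a ha b hb E' hE' G hG hab hEG' a4 a3 c4 c3)
    (hx a ha b hb E' hE' F' hF' hab hEF' a4 a5 c4 c5) hc' b0' b1' true hb1'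
    (ht 3 (mem_univ _)) (ht 4 (mem_univ _)) (ht 5 (mem_univ _)) (d.u (C E ∪ C G) false)
  have u1 : d.u (C E ∪ C G) false ∈ C E ∪ C G :=
    (dEG.1 false).spi.sub (dEG.1 false).spi.legs.mem
  have u2 : d.u (C E' ∪ C G) b0' ∈ C E' ∪ C G :=
    (dEG'.1 b0').spi.sub (dEG'.1 b0').spi.legs.mem
  have sP := w4_sub u1 p3
  have sP' := w4_sub u2 p3'
  have d1 : Disjoint (C E ∪ C F) (C E' ∪ C F') := by
    rw [disjoint_union_left, disjoint_union_right, disjoint_union_right]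
    exact ⟨⟨hsy.disj _ _ h1, hsy.disj _ _ h2⟩, hsy.disj _ _ h3, hsy.disj _ _ h4⟩
  have d2 : Disjoint (C E ∪ C F) (C G) :=
    disjoint_union_left.2 ⟨hsy.disj _ _ hEG, hsy.disj _ _ hFG⟩
  have d3 : Disjoint (C E' ∪ C F') (C G) :=
    disjoint_union_left.2 ⟨hsy.disj _ _ hEG', hsy.disj _ _ hFG'⟩
  have hPP : Disjoint P P' := by
    refine disjoint_left.2 fun x hx1 hx2 => ?_
    have hxG : x ∈ C G := by
      rcases mem_union.1 (sP hx1) with k1 | k1
      · rcases mem_union.1 (sP' hx2) with k2 | k2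
        · exact absurd k2 (disjoint_left.1 d1 k1)
        · exact k2
      · exact k1
    rcases (p3 x hx1).resolve_left (disjoint_right.1 d2 hxG) with k1 | k1
    · rcases (p3' x hx2).resolve_left (disjoint_right.1 d3 hxG) with k2 | k2
      · exact hb0' (k2.symm.trans k1)
      · exact k2.2.1 k1
    · rcases (p3' x hx2).resolve_left (disjoint_right.1 d3 hxG) with k2 | k2
      · exact k1.2.1 k2
      · obtain ⟨y, hy, hxy⟩ := hsy.nbr (Ne.symm a3) hxG
        have hu := ((h.dbl a ha b hb hab).side_facts hsy.symm hp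
          (h.ctx.cov_eq ha subset_union_left) true).2.2.2.2.1
        have hy' : y ∈ side d (C a ∪ C b) true ∪ side d (C a ∪ C b) (!true) := by
          rw [hu]
          exact mem_union_left _ hy
        rcases mem_union.1 hy' with k | k
        · exact k1.2.2 ⟨x, mem_singleton_self x, y, k, hxy⟩
        · exact k2.2.2 ⟨x, mem_singleton_self x, y, k, hxy⟩
  have q1 : C E ∪ C F ∪ C G ⊆ ({E, F, G, E', F'} : Finset ι).biUnion C :=
    union_subset (union_subset (subset_biUnion_of_mem C (by simp))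
      (subset_biUnion_of_mem C (by simp))) (subset_biUnion_of_mem C (by simp))
  have q2 : C E' ∪ C F' ∪ C G ⊆ ({E, F, G, E', F'} : Finset ι).biUnion C :=
    union_subset (union_subset (subset_biUnion_of_mem C (by simp))
      (subset_biUnion_of_mem C (by simp))) (subset_biUnion_of_mem C (by simp))
  have g0 : Cores r nb C μ (1 / 10000) 2 {E, F, G, E', F'} ∅ :=
    ⟨fun N hN => absurd hN (notMem_empty N), fun N hN => absurd hN (notMem_empty N)⟩
  obtain ⟨g1, g2⟩ := g0.ins p1' (sP'.trans q2) p2' fun N hN => absurd hN (notMem_empty N)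
  have mem2 : ∀ N ∈ insert P (insert P' (∅ : Finset (Finset W))), N = P ∨ N = P' := by
    intro N hN
    simpa using hN
  obtain ⟨g3, g4⟩ := g1.ins p1 (sP.trans q1) p2 (by
    intro N hN
    rcases mem_insert.1 hN with e | hN
    · rwa [e]
    · exact absurd hN (notMem_empty N))
  refine ⟨_, fun c => if c then Z else Z', g3, ?_, ?_, by rw [g4, g2, card_empty]; omega⟩
  · intro c
    cases c
    · simp only [Bool.false_eq_true, if_false]
      refine ⟨z1', (z3'.trans subset_union_left).trans q2, z2', fun N hN => ?_⟩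
      rcases mem2 N hN with e | e
      · rw [e]
        exact (disjoint_union_left.2 ⟨d1, d3.symm⟩).mono sP z3'
      · rwa [e]
    · simp only [if_true]
      refine ⟨z1, (z3.trans subset_union_left).trans q1, z2, fun N hN => ?_⟩
      rcases mem2 N hN with e | e
      · rwa [e]
      · rw [e]
        exact (disjoint_union_left.2 ⟨d1.symm, d2.symm⟩).mono sP' z3
  · simp only [Bool.false_eq_true, if_false, if_true]
    exact d1.mono z3 z3'

end Pool.Agent.P.MP_a374b6_co.H
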