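import Pool.Agent.P.MP_a374b6_co.H.W4

/-! Crossing pairs exist, hence groups exist. -/

namespace Pool.Agent.P.MP_a374b6_co.H

open Finset

variable {W ι α : Type} [DecidableEq W] [DecidableEq ι] [Fintype α] [DecidableEq α]
  {r : W → W → Prop} {nb : W → Finset α} {C : ι → Finset W} {R : Finset ι} {μ : α → ℝ}
  {d : Dat W} {e : ℕ}

theorem w5_split (hp : Prob μ) {B : Bool → Finset α}
    (hB : ∀ c, 1 / 2 - 1 / 10000 ≤ ms μ (B c)) (dB : Disjoint (B true) (B false))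
    (T : Finset α) (k : Bool) :
    ms μ (T \ B (!k)) ≤ ms μ (T ∩ B k) + 2 / 10000 ∧ ms μ (B k) ≤ 1 / 2 + 1 / 10000 := by
  have hd : Disjoint (B k) (B (!k)) := by
    cases k
    · exact dB.symm
    · exact dB
  have e1 := ms_union_of_disj (g := μ) hd
  have e2 := hp.compl (B k ∪ B (!k))
  have e3 := hp.le_one (B k ∪ B (!k))
  have e4 : T \ B (!k) ⊆ (T ∩ B k) ∪ (B k ∪ B (!k))ᶜ := by
    intro s hs
    simp only [mem_union, mem_sdiff, mem_inter, mem_compl] at hs ⊢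
    tauto
  have e5 := ms_le_of_sub_union hp.1 e4
  have e6 := hB k
  have e7 := hB (!k)
  constructor <;> linarith

theorem w5_one (hp : Prob μ) {A B : Bool → Finset α}
    (hA : ∀ c, 1 / 2 - 1 / 10000 ≤ ms μ (A c)) (hB : ∀ c, 1 / 2 - 1 / 10000 ≤ ms μ (B c))
    (dA : Disjoint (A true) (A false)) (dB : Disjoint (B true) (B false)) {c c' : Bool}
    (h : ms μ (A c ∩ B c') < 1 / 30) (k : Bool) :
    ∃ k', ms μ (A k \ B k') ≤ 1 / 30 + 4 / 10000 := by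
  by_cases hk : k = c
  · refine ⟨!c', ?_⟩
    have := (w5_split hp hB dB (A c) c').1
    rw [hk]
    linarith
  · have hk' : k = !c := Bool.eq_not_of_ne hk
    refine ⟨c', ?_⟩
    have e1 := (w5_split hp hA dA (B c') c).1
    have e2 := (w5_split hp hA dA (B c') (!c)).2
    have e3 := ms_inter_add_sdiff (g := μ) (A (!c)) (B c')
    have e4 := ms_inter_add_sdiff (g := μ) (B c') (A (!c))
    have e5 := hB c'
    rw [inter_comm] at e1 e4
    rw [hk']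
    linarith

/-- Two bisections which do not cross are close. -/
theorem close_of_not_cross (hp : Prob μ) {A B : Bool → Finset α}
    (hA : ∀ c, 1 / 2 - 1 / 10000 ≤ ms μ (A c)) (hB : ∀ c, 1 / 2 - 1 / 10000 ≤ ms μ (B c))
    (dA : Disjoint (A true) (A false)) (dB : Disjoint (B true) (B false))
    (h : ∃ c c', ms μ (A c ∩ B c') < 1 / 30) :
    (∀ c, ∃ c', ms μ (A c \ B c') ≤ 1 / 30 + 4 / 10000) ∧
      ∀ c, ∃ c', ms μ (B c \ A c') ≤ 1 / 30 + 4 / 10000 := by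
  obtain ⟨c, c', h⟩ := h
  refine ⟨w5_one hp hA hB dA dB h, w5_one hp hB hA dB dA (c := c') (c' := c) ?_⟩
  rwa [inter_comm]

theorem DC.exists_crs (h : DC r nb C R μ d e) {G : ι} (hG : G ∈ R) (Q : Finset ι)
    (hc : e + Q.card + 4 ≤ R.card) :
    ∃ E ∈ R, ∃ F ∈ R, E ∉ Q ∧ F ∉ Q ∧ E ≠ F ∧ E ≠ G ∧ F ≠ G ∧
      Crs nb μ d (C E ∪ C G) (C E ∪ C F) := by
  by_contra hno
  have hp := h.ctx.pb
  have ee : ∀ x ∈ R, ∀ y ∈ R, x ≠ y → ∀ c, 1 / 2 - 1 / 10000 ≤ ms μ (Ee nb d (C x ∪ C y) c) ∧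
      Disjoint (Ee nb d (C x ∪ C y) c) (Ee nb d (C x ∪ C y) (!c)) ∧
      Disjoint (Ee nb d (C x ∪ C y) c) (cov nb (d.X (C x ∪ C y) (!c))) := by
    intro x hx y hy hxy c
    obtain ⟨h1, -, -, h4, h5⟩ := (h.dbl x hx y hy hxy).ee hp
      (h.ctx.cov_eq hx subset_union_left) c
    exact ⟨h1, h4, h5⟩
  have key : ∀ E ∈ R, ∀ F ∈ R, E ∉ Q → F ∉ Q → E ≠ F → E ≠ G → F ≠ G →
      (∀ c, ∃ c', ms μ (Ee nb d (C E ∪ C G) c \ Ee nb d (C E ∪ C F) c') ≤ 1 / 30 + 4 / 10000) ∧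
      ∀ c, ∃ c', ms μ (Ee nb d (C E ∪ C F) c \ Ee nb d (C E ∪ C G) c') ≤
        1 / 30 + 4 / 10000 := by
    intro E hE F hF h1 h2 h3 h4 h5
    refine close_of_not_cross hp (fun c => (ee E hE G hG h4 c).1) (fun c => (ee E hE F hF h3 c).1)
      (ee E hE G hG h4 true).2.1 (ee E hE F hF h3 true).2.1 ?_
    by_contra hn
    refine hno ⟨E, hE, F, hF, h1, h2, h3, h4, h5, fun c c' => ?_⟩
    by_contra hl
    exact hn ⟨c, c', not_le.1 hl⟩
  have k1 := card_insert_le G Q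
  have k2 := le_card_sdiff (insert G Q) R
  obtain ⟨E0, hE0⟩ : (R \ insert G Q).Nonempty := card_pos.1 (by omega)
  rw [mem_sdiff, mem_insert, not_or] at hE0
  obtain ⟨hE0, hE0G, hE0Q⟩ := hE0
  have hT := (ee E0 hE0 G hG hE0G false).1
  obtain ⟨Ex, hEx, htp⟩ := h.tp (Ee nb d (C E0 ∪ C G) false) (le_trans (by norm_num) hT)
  have k3 := card_insert_le E0 (insert G Q)
  have k4 := card_union_le Ex (insert E0 (insert G Q))
  have k5 := le_card_sdiff (Ex ∪ insert E0 (insert G Q)) R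
  obtain ⟨E, hE, F, hF, hEF⟩ := one_lt_card.1
    (show 1 < (R \ (Ex ∪ insert E0 (insert G Q))).card by omega)
  simp only [mem_sdiff, mem_union, mem_insert, not_or] at hE hF
  obtain ⟨hE, e1, e2, e3, e4⟩ := hE
  obtain ⟨hF, f1, f2, f3, f4⟩ := hF
  obtain ⟨c1, s1⟩ := (key E0 hE0 E hE hE0Q e4 (Ne.symm e2) hE0G e3).1 false
  obtain ⟨c2, s2⟩ := (key E hE E0 hE0 e4 hE0Q e2 e3 hE0G).2 c1
  obtain ⟨c3, s3⟩ := (key E hE F hF e4 f4 hEF e3 f3).1 c2
  rw [union_comm (C E) (C E0)] at s2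
  have t := htp E hE F hF e1 f1 hEF (!c3)
  have hd := (ee E hE F hF hEF c3).2.2
  have hsub : cov nb (d.X (C E ∪ C F) (!c3)) ∩ Ee nb d (C E0 ∪ C G) false ⊆
      (Ee nb d (C E0 ∪ C G) false \ Ee nb d (C E0 ∪ C E) c1) ∪
      ((Ee nb d (C E0 ∪ C E) c1 \ Ee nb d (C E ∪ C G) c2) ∪
        (Ee nb d (C E ∪ C G) c2 \ Ee nb d (C E ∪ C F) c3)) := by
    intro s hs
    rw [mem_inter] at hs
    have h1 := disjoint_right.1 hd hs.1
    have h2 := hs.2
    simp only [mem_union, mem_sdiff]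
    tauto
  have m1 := ms_le_of_sub_union hp.1 hsub
  have m2 := ms_union_le hp.1 (Ee nb d (C E0 ∪ C E) c1 \ Ee nb d (C E ∪ C G) c2)
    (Ee nb d (C E ∪ C G) c2 \ Ee nb d (C E ∪ C F) c3)
  linarith

theorem w5_alt (h : DC r nb C R μ d e) :
    (∃ Q ⊆ R, Q.card ≤ 4 ∧ Half r nb C μ Q) ∨
      ∃ Q ⊆ R, Q.card ≤ 5 ∧ (6 * e + 8 ≤ R.card → Semi r nb C μ Q) := by
  by_cases hx : ∀ a ∈ R, ∀ b ∈ R, ∀ a' ∈ R, ∀ b' ∈ R, a ≠ b → a' ≠ b' → a ≠ a' → a ≠ b' →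
      b ≠ a' → b ≠ b' → ¬ Ext r nb μ d (C a ∪ C b) (C a' ∪ C b')
  · right
    by_cases hR : 6 * e + 8 ≤ R.card
    · obtain ⟨G, hG⟩ : R.Nonempty := card_pos.1 (by omega)
      obtain ⟨E, hE, F, hF, -, -, hEF, hEG, hFG, hc⟩ := h.exists_crs hG ∅
        (by rw [card_empty]; omega)
      have k : ({E, F} : Finset ι).card ≤ 2 := card_le_two
      obtain ⟨E', hE', F', hF', e1, f1, hEF', hEG', hFG', hc'⟩ := h.exists_crs hG {E, F}
        (by omega)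
      simp only [mem_insert, mem_singleton, not_or] at e1 f1
      refine ⟨{E, F, G, E', F'}, ?_, card_le_five, fun _ => h.typed_semi (by omega) hx hE hF hG
        hE' hF' hEF hEG hFG hEF' hEG' hFG' (Ne.symm e1.1) (Ne.symm f1.1) (Ne.symm e1.2)
        (Ne.symm f1.2) hc hc'⟩
      exact insert_subset hE (insert_subset hF (insert_subset hG (insert_subset hE'
        (singleton_subset_iff.2 hF'))))
    · exact ⟨∅, empty_subset _, by simp, fun h' => absurd h' hR⟩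
  · left
    push Not at hx
    obtain ⟨a, ha, b, hb, a', ha', b', hb', h1, h2, h3, h4, h5, h6, hx⟩ := hx
    exact ⟨{a, b, a', b'}, insert_subset ha (insert_subset hb (insert_subset ha'
      (singleton_subset_iff.2 hb'))), card_le_four,
      h.half_of_ext ha hb ha' hb' h1 h2 h3 h4 h5 h6 hx⟩

theorem DC.exists_grp (h : DC r nb C R μ d e) (hR : 6 * e + 12 ≤ R.card) :
    ∃ Q ⊆ R, Q.card ≤ 10 ∧ Grp r nb C μ (1 / 10000) 2 Q := by
  obtain ⟨Q, hQ, hc, hs⟩ : ∃ Q ⊆ R, Q.card ≤ 8 ∧ Semi r nb C μ Q := by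
    rcases w5_alt h with ⟨Q, hQ, hc, hh⟩ | ⟨Q, hQ, hc, hh⟩
    · have k := le_card_sdiff Q R
      rcases w5_alt (h.mono (sdiff_subset (s := R) (t := Q))) with
        ⟨Q', hQ', hc', hh'⟩ | ⟨Q', hQ', hc', hh'⟩
      · refine ⟨Q ∪ Q', union_subset hQ (hQ'.trans sdiff_subset), ?_,
          semi_of_half h.ctx.sy hh hh' (disjoint_sdiff.mono_right hQ') hc hc'⟩
        have := card_union_le Q Q'
        omega
      · exact ⟨Q', hQ'.trans sdiff_subset, by omega, hh' (by omega)⟩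
    · exact ⟨Q, hQ, by omega, hh (by omega)⟩
  obtain ⟨Q', h1, h2, h3⟩ := h.grp_of_semi hQ hs (by omega)
  exact ⟨Q', h1, by omega, h3⟩

end Pool.Agent.P.MP_a374b6_co.H
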