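import Pool.Agent.P.MP_a374b6_co.H.Pb
import Pool.Agent.P.MP_a374b6_co.H.Cen

/-! Basic facts on double spiders. -/

namespace Pool.Agent.P.MP_a374b6_co.H

open Finset

variable {W ι α : Type} [DecidableEq W] [DecidableEq ι] [Fintype α] [DecidableEq α]
  {r : W → W → Prop} {nb : W → Finset α} {C : ι → Finset W} {R : Finset ι} {μ : α → ℝ}
  {d : Dat W} {e : ℕ} {a b : ι}

theorem wb_sub {S : Finset W} (h : Dbl r nb μ d S) (c : Bool) :
    d.X S (!c) ⊆ S \ d.X S c := by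
  refine subset_sdiff.2 ⟨(h.1 (!c)).spi.sub, ?_⟩
  cases c
  · exact h.2
  · exact h.2.symm

theorem wb_cov {S : Finset W} (h : Dbl r nb μ d S) (hS : cov nb S = univ) (c : Bool) :
    cov nb (d.X S c) ∪ cov nb (S \ d.X S c) = univ := by
  rw [← cov_union, union_sdiff_of_subset (h.1 c).spi.sub, hS]

theorem Dbl.cn_X (hs : ∀ x y, r x y → r y x) {S : Finset W} (h : Dbl r nb μ d S) (c : Bool) :
    Cn r (d.X S c) ∧ Cn r (S \ d.X S c) ∧ d.X S c ⊆ S ∧ d.X S (!c) ⊆ S \ d.X S c := by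
  have he := h.1 c
  refine ⟨he.spi.legs.cn_all hs, ?_, he.spi.sub, wb_sub h c⟩
  rcases he.spi.rest with h0 | h0
  · exact absurd h0 he.ne.ne_empty
  · exact h0.1

theorem Dbl.u_ne {S : Finset W} (h : Dbl r nb μ d S) (c : Bool) : d.u S c ≠ d.u S (!c) := by
  intro he
  have h1 := (h.1 c).spi.legs.mem
  have h2 := wb_sub h c (h.1 (!c)).spi.legs.mem
  rw [← he] at h2
  exact (mem_sdiff.1 h2).2 h1

theorem Dbl.fv_ge (hp : Prob μ) {S : Finset W} (h : Dbl r nb μ d S) (hS : cov nb S = univ)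
    (c : Bool) : 1 / 2 - 1 / 10000 ≤ fv nb μ (d.X S c) ∧
      1 / 2 - 1 / 10000 ≤ fv nb μ (S \ d.X S c) ∧
      ms μ (cov nb (d.X S c) ∩ cov nb (S \ d.X S c)) ≤ 2 / 10000 := by
  have h1 := hp.inter_eq (wb_cov h hS c)
  have h2 := ms_nonneg hp.1 (cov nb (d.X S c) ∩ cov nb (S \ d.X S c))
  have h3 := (h.1 c).f1
  have h4 := (h.1 c).f2
  unfold fv at *
  refine ⟨?_, ?_, ?_⟩ <;> linarith

theorem Dbl.ee (hp : Prob μ) {S : Finset W} (h : Dbl r nb μ d S) (hS : cov nb S = univ)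
    (c : Bool) : 1 / 2 - 1 / 10000 ≤ ms μ (Ee nb d S c) ∧
      ms μ (Ee nb d S c) ≤ 1 / 2 + 1 / 10000 ∧ Ee nb d S c ⊆ cov nb (d.X S c) ∧
      Disjoint (Ee nb d S c) (Ee nb d S (!c)) ∧
      Disjoint (Ee nb d S c) (cov nb (d.X S (!c))) := by
  have h1 := hp.compl (cov nb (S \ d.X S c))
  have h2 := (h.fv_ge hp hS c).2.1
  have h4 := (h.1 c).f2
  have h5 : ∀ k, Ee nb d S k ⊆ cov nb (d.X S k) := by
    intro k x hx
    have hx' : x ∈ cov nb (d.X S k) ∪ cov nb (S \ d.X S k) := by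
      rw [wb_cov h hS k]
      exact mem_univ x
    exact (mem_union.1 hx').resolve_right (mem_compl.1 hx)
  have h6 : Disjoint (Ee nb d S c) (cov nb (d.X S (!c))) :=
    disjoint_left.2 fun x hx hx' => mem_compl.1 hx (cov_mono (wb_sub h c) hx')
  unfold fv at h2 h4
  refine ⟨?_, ?_, h5 c, h6.mono_right (h5 _), h6⟩
  · unfold Ee
    linarith
  · unfold Ee
    linarith

theorem Dbl.side_facts (hs : ∀ x y, r x y → r y x) (hp : Prob μ) {S : Finset W}
    (h : Dbl r nb μ d S) (hS : cov nb S = univ) (c : Bool) :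
    Cn r (side d S c) ∧ side d S c ⊆ S ∧ d.X S c ⊆ side d S c ∧
      Disjoint (side d S c) (side d S (!c)) ∧ side d S c ∪ side d S (!c) = S ∧
      1 / 2 - 1 / 10000 ≤ fv nb μ (side d S c) ∧
      ms μ (cov nb (side d S c) ∩ cov nb (side d S (!c))) ≤ 2 / 10000 := by
  obtain ⟨h1, h2, h3, h4⟩ := h.cn_X hs false
  obtain ⟨h5, h6, h7⟩ := h.fv_ge hp hS false
  cases c
  · simp only [side, Bool.false_eq_true, if_false, Bool.not_false, if_true]
    exact ⟨h1, h3, Subset.rfl, disjoint_sdiff, union_sdiff_of_subset h3, h5, h7⟩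
  · simp only [side, Bool.false_eq_true, if_false, Bool.not_true, if_true]
    refine ⟨h2, sdiff_subset, h4, sdiff_disjoint, sdiff_union_of_subset h3, h6, ?_⟩
    rwa [inter_comm]

/-- A point seen only from an end is seen from one of its legs. -/
theorem DC.ee_leg (h : DC r nb C R μ d e) (ha : a ∈ R) (hb : b ∈ R) (hab : a ≠ b) (c : Bool) :
    Ee nb d (C a ∪ C b) c ⊆ cov nb (un (d.L (C a ∪ C b) c)) := by
  have he := ((h.dbl a ha b hb hab).1 c).spi
  obtain ⟨i, hi, hiS, hu⟩ : ∃ i ∈ R, C i ⊆ C a ∪ C b ∧ d.u (C a ∪ C b) c ∉ C i := by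
    by_cases hu : d.u (C a ∪ C b) c ∈ C a
    · exact ⟨b, hb, subset_union_right, disjoint_left.1 (h.ctx.sy.disj a b hab) hu⟩
    · exact ⟨a, ha, subset_union_left, hu⟩
  intro s hs
  have h1 : s ∈ cov nb (C i) := by
    rw [h.ctx.cv i hi]
    exact mem_univ s
  obtain ⟨x, hx, hsx⟩ := mem_cov.1 h1
  refine mem_cov.2 ⟨x, ?_, hsx⟩
  rw [he.legs.cover, mem_erase]
  refine ⟨fun hxu => hu (hxu ▸ hx), ?_⟩
  by_contra hX
  exact mem_compl.1 hs (mem_cov.2 ⟨x, mem_sdiff.2 ⟨hiS hx, hX⟩, hsx⟩)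

theorem DC.mono (h : DC r nb C R μ d e) {R' : Finset ι} (hR : R' ⊆ R) : DC r nb C R' μ d e := by
  refine ⟨h.ctx.mono hR, fun x hx y hy hxy => h.dbl x (hR hx) y (hR hy) hxy, fun T hT => ?_⟩
  obtain ⟨Ex, h1, h2⟩ := h.tp T hT
  exact ⟨Ex, h1, fun x hx y hy => h2 x (hR hx) y (hR hy)⟩

/-- A pair which is typical for finitely many large sets. -/
theorem DC.exists_typ (h : DC r nb C R μ d e) {κ : Type} (I : Finset κ) (T : κ → Finset α)
    (hT : ∀ i ∈ I, 1 / 30 ≤ ms μ (T i)) (Q : Finset ι) (hc : I.card * e + Q.card + 2 ≤ R.card) :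
    ∃ a ∈ R, ∃ b ∈ R, a ∉ Q ∧ b ∉ Q ∧ a ≠ b ∧ ∀ i ∈ I, Typ nb μ d (C a ∪ C b) (T i) := by
  choose! Ex hEx hEx' using fun i (hi : i ∈ I) => h.tp (T i) (hT i hi)
  have h1 : (I.biUnion Ex).card ≤ I.card * e := card_biUnion_le_card_mul I Ex e hEx
  have h2 := card_union_le (I.biUnion Ex) Q
  have h3 := le_card_sdiff (I.biUnion Ex ∪ Q) R
  obtain ⟨x, hx, y, hy, hxy⟩ := one_lt_card.1 (show 1 < (R \ (I.biUnion Ex ∪ Q)).card by omega)
  rw [mem_sdiff, mem_union, not_or] at hx hy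
  refine ⟨x, hx.1, y, hy.1, hx.2.2, hy.2.2, hxy, fun i hi => ?_⟩
  exact hEx' i hi x hx.1 y hy.1 (fun h' => hx.2.1 (mem_biUnion.2 ⟨i, hi, h'⟩))
    (fun h' => hy.2.1 (mem_biUnion.2 ⟨i, hi, h'⟩)) hxy

/-- A typical pair completes a semi-group. -/
theorem DC.grp_of_semi (h : DC r nb C R μ d e) {Q : Finset ι} (hQ : Q ⊆ R)
    (hs : Semi r nb C μ Q) (hc : 2 * e + Q.card + 2 ≤ R.card) :
    ∃ Q' ⊆ R, Q'.card ≤ Q.card + 2 ∧ Grp r nb C μ (1 / 10000) 2 Q' := by
  obtain ⟨F, Z, hF, hZ, hZd, hcard⟩ := hs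
  obtain ⟨x, hx, y, hy, hxQ, hyQ, hxy, ht⟩ := h.exists_typ (univ : Finset Bool)
    (fun c => cov nb (Z c)) (fun c _ => (hZ c).2.2.1) Q (by simpa using hc)
  have hsy := h.ctx.sy
  have hp := h.ctx.pb
  have hD := h.dbl x hx y hy hxy
  have hS : cov nb (C x ∪ C y) = univ := h.ctx.cov_eq hx subset_union_left
  have hQS : Disjoint (C x ∪ C y) (Q.biUnion C) := by
    have := hsy.disj_biUnion (Q := {x, y}) (Q' := Q) (by
      rw [disjoint_insert_left, disjoint_singleton_left]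
      exact ⟨hxQ, hyQ⟩)
    rwa [biUnion_insert, singleton_biUnion] at this
  have hXS : ∀ c, d.X (C x ∪ C y) c ⊆ C x ∪ C y := fun c => (hD.cn_X hsy.symm c).2.2.1
  have hQ' : Q ⊆ insert x (insert y Q) := (subset_insert _ _).trans (subset_insert _ _)
  have hN : ∀ c, Pre r nb μ (1 / 10000) 2 (d.X (C x ∪ C y) c ∪ Z c) ∧
      d.X (C x ∪ C y) c ∪ Z c ⊆ (insert x (insert y Q)).biUnion C ∧
      1 / 2 + 1 / 10000 ≤ fv nb μ (d.X (C x ∪ C y) c ∪ Z c) ∧
      ∀ N ∈ F, Disjoint (d.X (C x ∪ C y) c ∪ Z c) N := by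
    intro c
    have t0 := (hZ c).2.2.1
    have t1 := ht c (mem_univ c) c
    have t2 := ht c (mem_univ c) (!c)
    obtain ⟨c1, -, -, c4⟩ := hD.cn_X hsy.symm c
    obtain ⟨f1, -, f3⟩ := hD.fv_ge hp hS c
    unfold fv at t0 f1
    refine ⟨?_, ?_, ?_, fun N hN => ?_⟩
    · refine Pre.union (j := 1) (j' := 1) hsy.symm hp (c1.pre le_rfl) ((hZ c).1.pre le_rfl)
        (Or.inr (Or.inr ?_))
      linarith
    · rw [biUnion_insert, biUnion_insert, ← union_assoc]
      exact union_subset_union (hXS c) (hZ c).2.1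
    · have e1 := ms_union_add_inter (g := μ) (cov nb (d.X (C x ∪ C y) c))
        (cov nb (d.X (C x ∪ C y) (!c)) ∩ cov nb (Z c))
      have e2 : ms μ (cov nb (d.X (C x ∪ C y) c) ∩
          (cov nb (d.X (C x ∪ C y) (!c)) ∩ cov nb (Z c))) ≤
          ms μ (cov nb (d.X (C x ∪ C y) c) ∩ cov nb ((C x ∪ C y) \ d.X (C x ∪ C y) c)) :=
        ms_mono hp.1 (inter_subset_inter Subset.rfl (inter_subset_left.trans (cov_mono c4)))
      have e3 : ms μ (cov nb (d.X (C x ∪ C y) c) ∪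
          (cov nb (d.X (C x ∪ C y) (!c)) ∩ cov nb (Z c))) ≤
          fv nb μ (d.X (C x ∪ C y) c ∪ Z c) := by
        unfold fv
        rw [cov_union]
        exact ms_mono hp.1 (union_subset_union Subset.rfl inter_subset_right)
      linarith
    · rw [disjoint_union_left]
      exact ⟨hQS.mono (hXS c) (hF.1 N hN).2.1, ((hZ c).2.2.2 N hN).symm⟩
  obtain ⟨g1, g2⟩ := (hF.mono hQ' le_rfl).ins (hN false).1 (hN false).2.1 (hN false).2.2.1
    (hN false).2.2.2
  obtain ⟨g3, g4⟩ := g1.ins (hN true).1 (hN true).2.1 (hN true).2.2.1 (by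
    intro N' hN'
    rcases mem_insert.1 hN' with e | hN'
    · rw [e, disjoint_union_left, disjoint_union_right, disjoint_union_right]
      exact ⟨⟨hD.2, hQS.mono (hXS true) (hZ false).2.1⟩,
        (hQS.mono (hXS false) (hZ true).2.1).symm, hZd⟩
    · exact (hN true).2.2.2 N' hN')
  have k1 := card_insert_le x (insert y Q)
  have k2 := card_insert_le y Q
  refine ⟨insert x (insert y Q), insert_subset hx (insert_subset hy hQ), by omega, _, g3, ?_⟩
  omega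

theorem semi_of_half (hS : Sy r C) {Q Q' : Finset ι} (h : Half r nb C μ Q)
    (h' : Half r nb C μ Q') (hd : Disjoint Q Q') (hc : Q.card ≤ 4) (hc' : Q'.card ≤ 4) :
    Semi r nb C μ (Q ∪ Q') := by
  obtain ⟨F, Z, hF, hFc, z1, z2, z3, z4⟩ := h
  obtain ⟨F', Z', hF', hFc', z1', z2', z3', z4'⟩ := h'
  obtain ⟨g1, g2⟩ := hF.union hS hF' hd
  have hD := hS.disj_biUnion hd
  refine ⟨F ∪ F', fun c => if c then Z else Z', g1, ?_, ?_, ?_⟩
  · intro c
    cases c
    · simp only [Bool.false_eq_true, if_false]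
      refine ⟨z1', z2'.trans (biUnion_subset_biUnion_of_subset_left C subset_union_right), z3',
        fun N hN => ?_⟩
      rcases mem_union.1 hN with hN | hN
      · exact hD.mono (hF.1 N hN).2.1 z2'
      · exact z4' N hN
    · simp only [if_true]
      refine ⟨z1, z2.trans (biUnion_subset_biUnion_of_subset_left C subset_union_left), z3,
        fun N hN => ?_⟩
      rcases mem_union.1 hN with hN | hN
      · exact z4 N hN
      · exact hD.symm.mono (hF'.1 N hN).2.1 z2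
  · simp only [Bool.false_eq_true, if_false, if_true]
    exact hD.mono z2 z2'
  · have := card_union_le Q Q'
    omega

end Pool.Agent.P.MP_a374b6_co.H
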